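import Pool.Agent.Helper205_Exc.Levels

/-!
The four bounds for a class of triples.
-/

set_option autoImplicit false

namespace Pool.Agent.Helper205_Exc

open Finset Pool.Agent.H785R2.ABC Pool.Agent.H705R2.ABC Pool.Agent.Y913.Nb

/-- the triples considered: members `≤ X ^ A` with radicals `≤ R i ≤ X` -/
structure Hyp (A X : ℕ) (R : Fin 3 → ℕ) (T : Finset (ℕ × ℕ)) : Prop where
  ok : ∀ t ∈ T, Ok t
  le : ∀ t ∈ T, ∀ i, mem t i ≤ X ^ A
  rad : ∀ t ∈ T, ∀ i, rad (mem t i) ≤ R i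
  RX : ∀ i, R i ≤ X

theorem Hyp.mono {A X : ℕ} {R : Fin 3 → ℕ} {T T' : Finset (ℕ × ℕ)} (h : Hyp A X R T)
    (hT : T' ⊆ T) : Hyp A X R T' :=
  ⟨fun t ht => h.ok t (hT ht), fun t ht => h.le t (hT ht), fun t ht => h.rad t (hT ht), h.RX⟩

theorem image_card {T : Finset (ℕ × ℕ)} {j k : Fin 3} (hjk : j ≠ k) :
    (T.image fun t => (mem t j, mem t k)).card = T.card := by
  classical
  apply card_image_of_injective
  intro t t' h
  have h1 := congrArg Prod.fst h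
  have h2 := congrArg Prod.snd h
  exact mem_inj hjk h1 h2

theorem choose_r {ε : ℝ} {l l' : Lev} (h : Step ε l l') {A X : ℕ} (hX : 2 ≤ X) {R : Fin 3 → ℕ}
    {T : Finset (ℕ × ℕ)} (hT : Hyp A X R T) (i : Fin 3) (hf : ∀ t ∈ T, l'.Flex X (mem t i)) :
    ∃ r : ℕ × ℕ → ℕ, ∀ t ∈ T, r t ^ l'.E ∣ mem t i ∧ 2 ≤ r t ∧
      (X : ℝ) ^ (l'.B / 2) ≤ (r t : ℝ) ^ l'.E ∧
      (r t : ℝ) ≤ (X : ℝ) ^ (l'.B / (2 * l'.E) + l'.δ) := by
  classical
  have hex : ∀ t : ℕ × ℕ, ∃ r : ℕ, t ∈ T → r ^ l'.E ∣ mem t i ∧ 2 ≤ r ∧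
      (X : ℝ) ^ (l'.B / 2) ≤ (r : ℝ) ^ l'.E ∧
      (r : ℝ) ≤ (X : ℝ) ^ (l'.B / (2 * l'.E) + l'.δ) := by
    intro t
    by_cases ht : t ∈ T
    · obtain ⟨r, hr⟩ := h.extract hX (mem_pos (hT.ok t ht) i) (hf t ht)
      exact ⟨r, fun _ => hr⟩
    · exact ⟨0, fun h => absurd h ht⟩
  choose r hr using hex
  exact ⟨r, hr⟩

theorem small_card {X : ℕ} {ε : ℝ} : ((Icc 1 ⌊(X : ℝ) ^ ε⌋₊).card : ℝ) ≤ (X : ℝ) ^ ε := by
  rw [Nat.card_Icc]
  simp only [Nat.add_sub_cancel]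
  exact Nat.floor_le (by positivity)

/-- one flexible member -/
theorem caseA (ε : ℝ) (hε : 0 < ε) (l l' : Lev) (h : Step ε l l') (A : ℕ) : ∃ C : ℝ, 0 < C ∧
    ∀ X : ℕ, 2 ≤ X → ∀ (R : Fin 3 → ℕ) (T : Finset (ℕ × ℕ)), Hyp A X R T →
    ∀ i j k : Fin 3, i ≠ j → j ≠ k → i ≠ k → (∀ t ∈ T, l'.Flex X (mem t i)) →
    (T.card : ℝ) ≤ C * (X : ℝ) ^ (2 * ε) * ((R j : ℝ) * R k) ^ ((1 : ℝ) / 2) := by
  classical
  obtain ⟨D, hD, hpairs⟩ := pairs A ε hε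
  refine ⟨D, hD, ?_⟩
  intro X hX R T hT i j k hij hjk hik hf
  have hX0 : (0 : ℝ) < X := by exact_mod_cast (by omega : 0 < X)
  have hX1 : (1 : ℝ) < X := by exact_mod_cast (by omega : 1 < X)
  obtain ⟨r, hr⟩ := choose_r h hX hT i hf
  obtain ⟨⟨a1, a2, a3⟩, -, -, -, Bd, η, b1, b2, b3, b4, b5, b6⟩ := h
  have hrε : ∀ t ∈ T, (r t : ℝ) ≤ (X : ℝ) ^ ε := fun t ht => (hr t ht).2.2.2.trans
    (Real.rpow_le_rpow_of_exponent_le hX1.le (b6.trans (min_le_right _ _)))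
  have h1 := card_le_real T r (Icc 1 ⌊(X : ℝ) ^ ε⌋₊)
    (D * (X : ℝ) ^ ε * ((R j : ℝ) * R k) ^ ((1 : ℝ) / 2)) (fun t ht => by
      rw [mem_Icc]
      exact ⟨by have := (hr t ht).2.1; omega, Nat.le_floor (hrε t ht)⟩) (by
      intro s _
      obtain ⟨T', hT'⟩ : ∃ T', T' = T.filter fun t => r t = s := ⟨_, rfl⟩
      rw [← hT']
      have hsub : T' ⊆ T := by rw [hT']; exact filter_subset _ _
      have hTT := hT.mono hsub
      rcases T'.eq_empty_or_nonempty with h0 | ⟨t0, ht0⟩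
      · rw [h0, card_empty, Nat.cast_zero]
        positivity
      have hrs : ∀ t ∈ T', r t = s := fun t ht => by
        rw [hT'] at ht
        exact (mem_filter.mp ht).2
      have hr0 := hr t0 (hsub ht0)
      rw [hrs t0 ht0] at hr0
      obtain ⟨c1, c2, c3, c4⟩ := hr0
      have hfpos : 1 ≤ s ^ l'.E := Nat.one_le_pow _ _ (by omega)
      have hfle : s ^ l'.E ≤ X ^ A :=
        (Nat.le_of_dvd (mem_pos (hT.ok t0 (hsub ht0)) i) c1).trans (hT.le t0 (hsub ht0) i)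
      rw [← image_card (T := T') hjk]
      apply hpairs X (s ^ l'.E) (by omega) hfpos hfle ?_ (R j) (R k)
        (if i = 2 then (-1 : ZMod (s ^ l'.E)) else 1) _ (sg_unit i) (hT.RX j) (hT.RX k)
      · intro x hx
        obtain ⟨t, ht, rfl⟩ := mem_image.mp hx
        have hok := hTT.ok t ht
        have hd := (hr t (hsub ht)).1
        rw [hrs t ht] at hd
        refine ⟨mem_pos hok j, hTT.le t ht j, ?_, hTT.rad t ht j, mem_pos hok k, hTT.le t ht k, ?_,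
          hTT.rad t ht k, mem_cong hij hjk hik hd⟩
        · exact Nat.Coprime.coprime_dvd_right hd (mem_coprime hok hij.symm)
        · exact Nat.Coprime.coprime_dvd_right hd (mem_coprime hok hik.symm)
      · push_cast
        refine le_trans ?_ c3
        apply Real.rpow_le_rpow_of_exponent_le hX1.le
        linarith)
  calc (T.card : ℝ) ≤ _ := h1
    _ ≤ (X : ℝ) ^ ε * (D * (X : ℝ) ^ ε * ((R j : ℝ) * R k) ^ ((1 : ℝ) / 2)) :=
        mul_le_mul_of_nonneg_right small_card (by positivity)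
    _ = _ := by
        rw [show (2 : ℝ) * ε = ε + ε by ring, Real.rpow_add hX0]
        ring

theorem nb_one (n : ℕ) {Y : ℝ} (hY : 1 ≤ Y) : NB n Y 1 :=
  ⟨fun _ => 1, fun _ => 0, fun _ => ⟨Nat.one_pos, by push_cast; exact hY⟩, by simp⟩

/-- a flexible member and an inflexible one -/
theorem caseB (ε : ℝ) (hε : 0 < ε) (l l' : Lev) (hl : l.Adm) (h : Step ε l l') (A : ℕ) :
    ∃ C : ℝ, 0 < C ∧
    ∀ X : ℕ, 2 ≤ X → ∀ (R : Fin 3 → ℕ) (T : Finset (ℕ × ℕ)), Hyp A X R T →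
    ∀ i j k : Fin 3, i ≠ j → j ≠ k → i ≠ k → (∀ t ∈ T, l'.Flex X (mem t i)) →
    (∀ t ∈ T, ¬ l.Flex X (mem t k)) →
    (T.card : ℝ) ≤ C * (X : ℝ) ^ (3 * ε) * (R j : ℝ) := by
  classical
  obtain ⟨D, hD, hA4⟩ := stmtA4' (ε / (A + 1)) (by positivity)
  obtain ⟨C, hC, hdet⟩ : ∃ C : ℝ, 0 < C ∧ ∀ X : ℕ, 2 ≤ X → ∀ s : ℕ, 2 ≤ s →
      (s : ℝ) ≤ (X : ℝ) ^ (l'.B / (2 * l'.E) + l'.δ) → (X : ℝ) ^ (l'.B / 2) ≤ (s : ℝ) ^ l'.E →
      ∀ (κ : ZMod (s ^ l'.E)) (S : Finset (ℕ × ℕ)), IsUnit κ →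
      (∀ t ∈ S, 1 ≤ t.1 ∧ t.1 ≤ X ^ A ∧ 1 ≤ t.2 ∧ t.2 ≤ X ^ A ∧ Nat.Coprime t.1 t.2 ∧
        Nat.Coprime t.1 s ∧ Nat.Coprime t.2 s ∧ NB l.n ((X : ℝ) ^ l.z) t.1 ∧
        NB l.n ((X : ℝ) ^ l.z) t.2 ∧
        (t.1 : ZMod (s ^ l'.E)) = κ * t.2) → (S.card : ℝ) ≤ C * (X : ℝ) ^ ε := by
    obtain ⟨⟨a1, a2, a3⟩, -, -, -, Bd, η, b1, b2, b3, b4, b5, b6⟩ := h
    obtain ⟨C, hC, hdet⟩ := b3 A
    refine ⟨C, hC, ?_⟩
    intro X hX s hs hs1 hs2
    have hX1 : (1 : ℝ) ≤ X := by exact_mod_cast (by omega : 1 ≤ X)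
    exact hdet X (by omega) s l'.E hs (hs1.trans (Real.rpow_le_rpow_of_exponent_le hX1
      (b6.trans (min_le_left _ _)))) ((Real.rpow_le_rpow_of_exponent_le hX1
      (by linarith)).trans hs2)
  refine ⟨C * D, by positivity, ?_⟩
  intro X hX R T hT i j k hij hjk hik hf hnf
  have hX0 : (0 : ℝ) < X := by exact_mod_cast (by omega : 0 < X)
  have hX1 : (1 : ℝ) < X := by exact_mod_cast (by omega : 1 < X)
  obtain ⟨r, hr⟩ := choose_r h hX hT i hf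
  obtain ⟨⟨a1, a2, a3⟩, -, -, -, Bd, η, b1, b2, b3, b4, b5, b6⟩ := h
  have hrε : ∀ t ∈ T, (r t : ℝ) ≤ (X : ℝ) ^ ε := fun t ht => (hr t ht).2.2.2.trans
    (Real.rpow_le_rpow_of_exponent_le hX1.le (b6.trans (min_le_right _ _)))
  have hz : 1 ≤ (X : ℝ) ^ l.z := Real.one_le_rpow hX1.le (hl.1.le.trans (le_max_right _ _))
  have hXA : 1 ≤ X ^ A := Nat.one_le_pow _ _ (by omega)
  obtain ⟨V, hV⟩ : ∃ V : Finset ℕ, V = (Icc 1 (X ^ A)).filter fun d => (rad d : ℝ) ≤ (R j : ℝ) :=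
    ⟨_, rfl⟩
  have hVcard : (V.card : ℝ) ≤ D * (X : ℝ) ^ ε * R j := by
    rw [hV]
    refine (hA4 (X ^ A) hXA (R j) (Nat.cast_nonneg _)).trans ?_
    apply mul_le_mul_of_nonneg_right _ (Nat.cast_nonneg _)
    apply mul_le_mul_of_nonneg_left _ hD.le
    push_cast
    rw [← Real.rpow_natCast, ← Real.rpow_mul hX0.le]
    apply Real.rpow_le_rpow_of_exponent_le hX1.le
    rw [mul_div_assoc', div_le_iff₀ (by positivity)]
    nlinarith
  have h1 := card_le_real T (fun t => (r t, mem t j)) ((Icc 1 ⌊(X : ℝ) ^ ε⌋₊) ×ˢ V)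
    (C * (X : ℝ) ^ ε) (fun t ht => by
      rw [mem_product, mem_Icc, hV, mem_filter, mem_Icc]
      refine ⟨⟨by have := (hr t ht).2.1; omega, Nat.le_floor (hrε t ht)⟩,
        ⟨mem_pos (hT.ok t ht) j, hT.le t ht j⟩, ?_⟩
      exact_mod_cast hT.rad t ht j) (by
      rintro ⟨s, v⟩ _
      obtain ⟨T', hT'⟩ : ∃ T', T' = T.filter fun t => (r t, mem t j) = (s, v) := ⟨_, rfl⟩
      rw [← hT']
      have hsub : T' ⊆ T := by rw [hT']; exact filter_subset _ _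
      have hTT := hT.mono hsub
      rcases T'.eq_empty_or_nonempty with h0 | ⟨t0, ht0⟩
      · rw [h0, card_empty, Nat.cast_zero]
        positivity
      have hrs : ∀ t ∈ T', r t = s := fun t ht => by
        rw [hT'] at ht
        exact congrArg Prod.fst (mem_filter.mp ht).2
      have hjv : ∀ t ∈ T', mem t j = v := fun t ht => by
        rw [hT'] at ht
        exact congrArg Prod.snd (mem_filter.mp ht).2
      have hr0 := hr t0 (hsub ht0)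
      rw [hrs t0 ht0] at hr0
      obtain ⟨c1, c2, c3, c4⟩ := hr0
      have hEpos : l'.E ≠ 0 := by omega
      have himg : (T'.image fun t => (mem t k, 1)).card = T'.card := by
        apply card_image_of_injOn
        intro t ht t' ht' he
        have e1 : mem t k = mem t' k := congrArg Prod.fst he
        exact mem_inj hjk ((hjv t ht).trans (hjv t' ht').symm) e1
      rw [← himg]
      have hvu : IsUnit ((v : ℕ) : ZMod (s ^ l'.E)) := by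
        rw [ZMod.isUnit_iff_coprime, ← hjv t0 ht0]
        exact Nat.Coprime.coprime_dvd_right c1 (mem_coprime (hTT.ok t0 ht0) hij.symm)
      apply hdet X hX s c2 c4 c3
        ((if i = 2 then (-1 : ZMod (s ^ l'.E)) else 1) * (v : ZMod (s ^ l'.E))) _
        ((sg_unit i).mul hvu)
      intro x hx
      obtain ⟨t, ht, rfl⟩ := mem_image.mp hx
      have hok := hTT.ok t ht
      have hd := (hr t (hsub ht)).1
      rw [hrs t ht] at hd
      refine ⟨mem_pos hok k, hTT.le t ht k, le_rfl, hXA, Nat.coprime_one_right _, ?_,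
        Nat.coprime_one_left _, ?_, nb_one _ hz, ?_⟩
      · exact Nat.Coprime.coprime_dvd_right ((dvd_pow_self s hEpos).trans hd)
          (mem_coprime hok hik.symm)
      · exact Lev.nb hl hX (mem_pos hok k) ((hTT.rad t ht k).trans (hT.RX k)) (hnf t (hsub ht))
      · have e1 := mem_cong hik hjk.symm hij hd
        show ((mem t k : ℕ) : ZMod (s ^ l'.E)) = _ * ((1 : ℕ) : ZMod (s ^ l'.E))
        rw [e1, hjv t ht, Nat.cast_one, mul_one])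
  rw [card_product] at h1
  calc (T.card : ℝ) ≤ _ := h1
    _ ≤ ((X : ℝ) ^ ε * (D * (X : ℝ) ^ ε * R j)) * (C * (X : ℝ) ^ ε) := by
        apply mul_le_mul_of_nonneg_right _ (by positivity)
        push_cast
        exact mul_le_mul small_card hVcard (Nat.cast_nonneg _) (by positivity)
    _ = _ := by
        rw [show (3 : ℝ) * ε = ε + ε + ε by ring, Real.rpow_add hX0, Real.rpow_add hX0]
        ring

/-- a flexible member, the other ones inflexible -/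
theorem caseC (ε : ℝ) (l l' : Lev) (hl : l.Adm) (h : Step ε l l') (A : ℕ) :
    ∃ C : ℝ, 0 < C ∧
    ∀ X : ℕ, 2 ≤ X → ∀ (R : Fin 3 → ℕ) (T : Finset (ℕ × ℕ)), Hyp A X R T →
    ∀ i j k : Fin 3, i ≠ j → j ≠ k → i ≠ k → (∀ t ∈ T, l'.Flex X (mem t i)) →
    (∀ t ∈ T, ¬ l.Flex X (mem t j)) → (∀ t ∈ T, ¬ l.Flex X (mem t k)) →
    (T.card : ℝ) ≤ C * (X : ℝ) ^ (2 * ε) := by
  classical
  obtain ⟨C, hC, hdet⟩ : ∃ C : ℝ, 0 < C ∧ ∀ X : ℕ, 2 ≤ X → ∀ s : ℕ, 2 ≤ s →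
      (s : ℝ) ≤ (X : ℝ) ^ (l'.B / (2 * l'.E) + l'.δ) → (X : ℝ) ^ (l'.B / 2) ≤ (s : ℝ) ^ l'.E →
      ∀ (κ : ZMod (s ^ l'.E)) (S : Finset (ℕ × ℕ)), IsUnit κ →
      (∀ t ∈ S, 1 ≤ t.1 ∧ t.1 ≤ X ^ A ∧ 1 ≤ t.2 ∧ t.2 ≤ X ^ A ∧ Nat.Coprime t.1 t.2 ∧
        Nat.Coprime t.1 s ∧ Nat.Coprime t.2 s ∧ NB l.n ((X : ℝ) ^ l.z) t.1 ∧
        NB l.n ((X : ℝ) ^ l.z) t.2 ∧
        (t.1 : ZMod (s ^ l'.E)) = κ * t.2) → (S.card : ℝ) ≤ C * (X : ℝ) ^ ε := by
    obtain ⟨⟨a1, a2, a3⟩, -, -, -, Bd, η, b1, b2, b3, b4, b5, b6⟩ := h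
    obtain ⟨C, hC, hdet⟩ := b3 A
    refine ⟨C, hC, ?_⟩
    intro X hX s hs hs1 hs2
    have hX1 : (1 : ℝ) ≤ X := by exact_mod_cast (by omega : 1 ≤ X)
    exact hdet X (by omega) s l'.E hs (hs1.trans (Real.rpow_le_rpow_of_exponent_le hX1
      (b6.trans (min_le_left _ _)))) ((Real.rpow_le_rpow_of_exponent_le hX1
      (by linarith)).trans hs2)
  refine ⟨C, hC, ?_⟩
  intro X hX R T hT i j k hij hjk hik hf hnj hnf
  have hX0 : (0 : ℝ) < X := by exact_mod_cast (by omega : 0 < X)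
  have hX1 : (1 : ℝ) < X := by exact_mod_cast (by omega : 1 < X)
  obtain ⟨r, hr⟩ := choose_r h hX hT i hf
  obtain ⟨⟨a1, a2, a3⟩, -, -, -, Bd, η, b1, b2, b3, b4, b5, b6⟩ := h
  have hrε : ∀ t ∈ T, (r t : ℝ) ≤ (X : ℝ) ^ ε := fun t ht => (hr t ht).2.2.2.trans
    (Real.rpow_le_rpow_of_exponent_le hX1.le (b6.trans (min_le_right _ _)))
  have h1 := card_le_real T r (Icc 1 ⌊(X : ℝ) ^ ε⌋₊)
    (C * (X : ℝ) ^ ε) (fun t ht => by
      rw [mem_Icc]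
      exact ⟨by have := (hr t ht).2.1; omega, Nat.le_floor (hrε t ht)⟩) (by
      intro s _
      obtain ⟨T', hT'⟩ : ∃ T', T' = T.filter fun t => r t = s := ⟨_, rfl⟩
      rw [← hT']
      have hsub : T' ⊆ T := by rw [hT']; exact filter_subset _ _
      have hTT := hT.mono hsub
      rcases T'.eq_empty_or_nonempty with h0 | ⟨t0, ht0⟩
      · rw [h0, card_empty, Nat.cast_zero]
        positivity
      have hrs : ∀ t ∈ T', r t = s := fun t ht => by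
        rw [hT'] at ht
        exact (mem_filter.mp ht).2
      have hr0 := hr t0 (hsub ht0)
      rw [hrs t0 ht0] at hr0
      obtain ⟨c1, c2, c3, c4⟩ := hr0
      have hEpos : l'.E ≠ 0 := by omega
      rw [← image_card (T := T') hjk]
      apply hdet X hX s c2 c4 c3 (if i = 2 then (-1 : ZMod (s ^ l'.E)) else 1) _ (sg_unit i)
      intro x hx
      obtain ⟨t, ht, rfl⟩ := mem_image.mp hx
      have hok := hTT.ok t ht
      have hd := (hr t (hsub ht)).1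
      rw [hrs t ht] at hd
      refine ⟨mem_pos hok j, hTT.le t ht j, mem_pos hok k, hTT.le t ht k, mem_coprime hok hjk,
        ?_, ?_, ?_, ?_, mem_cong hij hjk hik hd⟩
      · exact Nat.Coprime.coprime_dvd_right ((dvd_pow_self s hEpos).trans hd)
          (mem_coprime hok hij.symm)
      · exact Nat.Coprime.coprime_dvd_right ((dvd_pow_self s hEpos).trans hd)
          (mem_coprime hok hik.symm)
      · exact Lev.nb hl hX (mem_pos hok j) ((hTT.rad t ht j).trans (hT.RX j)) (hnj t (hsub ht))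
      · exact Lev.nb hl hX (mem_pos hok k) ((hTT.rad t ht k).trans (hT.RX k)) (hnf t (hsub ht)))
  calc (T.card : ℝ) ≤ _ := h1
    _ ≤ (X : ℝ) ^ ε * (C * (X : ℝ) ^ ε) := mul_le_mul_of_nonneg_right small_card (by positivity)
    _ = _ := by
        rw [show (2 : ℝ) * ε = ε + ε by ring, Real.rpow_add hX0]
        ring

/-- no flexible member -/
theorem caseD (ε : ℝ) (hε : 0 < ε) (l : Lev) (hl : l.Adm) : ∃ M : ℕ, ∃ C : ℝ, 0 < C ∧
    ∀ (A X : ℕ), 2 ≤ X → ∀ (R : Fin 3 → ℕ) (T : Finset (ℕ × ℕ)), Hyp A X R T →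
    (∀ t ∈ T, X ^ M ≤ t.1 + t.2) → (∀ t ∈ T, ∀ i, ¬ l.Flex X (mem t i)) →
    (T.card : ℝ) ≤ C * (X : ℝ) ^ ε := by
  have hz : 0 < l.z := lt_of_lt_of_le hl.1 (le_max_right _ _)
  obtain ⟨K, C, hK, hC, hcount⟩ := Pool.Agent.Y913.Zm.nt_count l.n (ε / l.z) (by positivity)
  refine ⟨⌈l.z * K⌉₊, C, hC, ?_⟩
  intro A X hX R T hT hM hnf
  have hX0 : (0 : ℝ) < X := by exact_mod_cast (by omega : 0 < X)
  have hX1 : (1 : ℝ) < X := by exact_mod_cast (by omega : 1 < X)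
  have h1 := hcount ((X : ℝ) ^ l.z) (Real.one_le_rpow hX1.le hz.le) T (by
    intro t ht
    obtain ⟨g1, g2, g3⟩ := hT.ok t ht
    have hnb : ∀ i, NB l.n ((X : ℝ) ^ l.z) (mem t i) := fun i =>
      Lev.nb hl hX (mem_pos (hT.ok t ht) i) ((hT.rad t ht i).trans (hT.RX i)) (hnf t ht i)
    refine ⟨g1, g2, g3, hnb 0, hnb 1, hnb 2, ?_⟩
    calc ((X : ℝ) ^ l.z) ^ K = (X : ℝ) ^ (l.z * K) := by rw [Real.rpow_mul hX0.le]
      _ ≤ (X : ℝ) ^ ((⌈l.z * K⌉₊ : ℕ) : ℝ) :=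
          Real.rpow_le_rpow_of_exponent_le hX1.le (Nat.le_ceil _)
      _ = ((X ^ ⌈l.z * K⌉₊ : ℕ) : ℝ) := by rw [Real.rpow_natCast]; push_cast; rfl
      _ ≤ ((t.1 + t.2 : ℕ) : ℝ) := by exact_mod_cast hM t ht)
  refine h1.trans (le_of_eq ?_)
  rw [← Real.rpow_mul hX0.le]
  congr 2
  field_simp

end Pool.Agent.Helper205_Exc
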