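import Pool.Agent.Helper205_Exc.Cases

/-!
The bound for the triples with given sizes of the radicals of the members.
-/

set_option autoImplicit false

namespace Pool.Agent.Helper205_Exc

open Finset Pool.Agent.H785R2.ABC Pool.Agent.Y913.Nb

theorem others (m : Fin 3) : ∃ p q : Fin 3, m ≠ p ∧ p ≠ q ∧ m ≠ q ∧
    ∀ R : Fin 3 → ℕ, R m * (R 0 * R 1 * R 2) = R m ^ 2 * (R p * R q) := by
  fin_cases m
  · exact ⟨1, 2, by decide, by decide, by decide, fun R => by simp only [Fin.zero_eta]; ring⟩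
  · exact ⟨0, 2, by decide, by decide, by decide, fun R => by simp only [Fin.mk_one]; ring⟩
  · exact ⟨0, 1, by decide, by decide, by decide, fun R => by
      show R 2 * (R 0 * R 1 * R 2) = R 2 ^ 2 * (R 0 * R 1)
      ring⟩

/-- the bound for two consecutive levels -/
theorem class_bound (ε : ℝ) (hε : 0 < ε) (l l' : Lev) (hl : l.Adm) (h : Step ε l l') :
    ∃ M : ℕ, ∀ A : ℕ, ∃ C : ℝ, 0 < C ∧ ∀ X : ℕ, 2 ≤ X → ∀ (R : Fin 3 → ℕ) (T : Finset (ℕ × ℕ)),
    Hyp A X R T → (∀ i, 1 ≤ R i) → (∀ t ∈ T, X ^ M ≤ t.1 + t.2) →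
    (∀ t ∈ T, ∀ i, ¬ l.Flex X (mem t i) ∨ l'.Flex X (mem t i)) → ∀ m : Fin 3, (∀ i, R m ≤ R i) →
    (T.card : ℝ) ≤ C * (X : ℝ) ^ (3 * ε) * ((R m * (R 0 * R 1 * R 2) : ℕ) : ℝ) ^ ((1 : ℝ) / 4) := by
  classical
  obtain ⟨M, CD, hCD, hD⟩ := caseD ε hε l hl
  refine ⟨M, ?_⟩
  intro A
  obtain ⟨CA, hCA, hA⟩ := caseA ε hε l l' h A
  obtain ⟨CB, hCB, hB⟩ := caseB ε hε l l' hl h A
  obtain ⟨CC, hCC, hC⟩ := caseC ε l l' hl h A
  obtain ⟨C, hCdef⟩ : ∃ C : ℝ, C = CA + CB + CC + CD := ⟨_, rfl⟩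
  refine ⟨(Fintype.card (Fin 3 → Bool) : ℝ) * C, by rw [hCdef]; positivity, ?_⟩
  intro X hX R T hT hR1 hM hcl m hm
  have hX0 : (0 : ℝ) < X := by exact_mod_cast (by omega : 0 < X)
  have hX1 : (1 : ℝ) < X := by exact_mod_cast (by omega : 1 < X)
  obtain ⟨p, q, hmp, hpq, hmq, hprod⟩ := others m
  obtain ⟨W, hW⟩ : ∃ W : ℝ, W = ((R m * (R 0 * R 1 * R 2) : ℕ) : ℝ) ^ ((1 : ℝ) / 4) := ⟨_, rfl⟩
  have hprod1 : 1 ≤ R m * (R 0 * R 1 * R 2) :=
    Nat.mul_pos (hR1 m) (Nat.mul_pos (Nat.mul_pos (hR1 0) (hR1 1)) (hR1 2))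
  have hW1 : 1 ≤ W := by
    rw [hW]
    exact Real.one_le_rpow (by exact_mod_cast hprod1) (by norm_num)
  have hW4 : W ^ 4 = (R m : ℝ) ^ 2 * (R p * R q) := by
    rw [hW, ← Real.rpow_natCast, ← Real.rpow_mul (Nat.cast_nonneg _), hprod R]
    norm_num
  have hRm : (R m : ℝ) ≤ W := by
    have e1 : (R m : ℝ) ^ 4 ≤ W ^ 4 := by
      rw [hW4]
      have e2 : (R m : ℝ) ≤ R p := by exact_mod_cast hm p
      have e3 : (R m : ℝ) ≤ R q := by exact_mod_cast hm q
      have e4 : (0 : ℝ) ≤ R m := Nat.cast_nonneg _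
      calc (R m : ℝ) ^ 4 = (R m : ℝ) ^ 2 * ((R m : ℝ) * R m) := by ring
        _ ≤ _ := by
            apply mul_le_mul_of_nonneg_left _ (by positivity)
            exact mul_le_mul e2 e3 e4 (by linarith)
    exact (pow_le_pow_iff_left₀ (Nat.cast_nonneg _) (by linarith) (by norm_num)).mp e1
  rw [← hW]
  obtain ⟨b, hb⟩ : ∃ b : ℝ, b = (X : ℝ) ^ (3 * ε) * W := ⟨_, rfl⟩
  have hX2 : (X : ℝ) ^ (2 * ε) ≤ (X : ℝ) ^ (3 * ε) :=
    Real.rpow_le_rpow_of_exponent_le hX1.le (by linarith)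
  have hXe : (X : ℝ) ^ ε ≤ (X : ℝ) ^ (3 * ε) :=
    Real.rpow_le_rpow_of_exponent_le hX1.le (by linarith)
  have hX3 : 0 < (X : ℝ) ^ (3 * ε) := by positivity
  have hb2 : (X : ℝ) ^ (2 * ε) ≤ b := by
    rw [hb]
    exact hX2.trans (le_mul_of_one_le_right hX3.le hW1)
  have hb1 : (X : ℝ) ^ ε ≤ b := by
    rw [hb]
    exact hXe.trans (le_mul_of_one_le_right hX3.le hW1)
  have hb0 : 0 ≤ b := by rw [hb]; positivity
  have h1 := card_le_real T (fun t => (fun i => decide (l'.Flex X (mem t i)) : Fin 3 → Bool))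
    Finset.univ (C * b) (fun t _ => mem_univ _) (by
      intro s _
      obtain ⟨T', hT'⟩ : ∃ T', T' = T.filter fun t =>
        (fun i => decide (l'.Flex X (mem t i)) : Fin 3 → Bool) = s := ⟨_, rfl⟩
      rw [← hT']
      have hsub : T' ⊆ T := by rw [hT']; exact filter_subset _ _
      have hTT := hT.mono hsub
      have hpat : ∀ t ∈ T', ∀ i, decide (l'.Flex X (mem t i)) = s i := by
        intro t ht i
        rw [hT'] at ht
        exact congrFun (mem_filter.mp ht).2 i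
      have htrue : ∀ i, s i = true → ∀ t ∈ T', l'.Flex X (mem t i) := by
        intro i hi t ht
        have := hpat t ht i
        rw [hi] at this
        exact of_decide_eq_true this
      have hfalse : ∀ i, s i = false → ∀ t ∈ T', ¬ l.Flex X (mem t i) := by
        intro i hi t ht
        have := hpat t ht i
        rw [hi] at this
        have h2 := of_decide_eq_false this
        rcases hcl t (hsub ht) i with h3 | h3
        · exact h3
        · exact absurd h3 h2
      have useB : ∀ i j k : Fin 3, i ≠ j → j ≠ k → i ≠ k → j = m → s i = true → s k = false →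
          (T'.card : ℝ) ≤ C * b := by
        intro i j k hij hjk hik hj hi hk
        have e1 := hB X hX R T' hTT i j k hij hjk hik (htrue i hi) (hfalse k hk)
        rw [hj] at e1
        calc (T'.card : ℝ) ≤ CB * (X : ℝ) ^ (3 * ε) * (R m : ℝ) := e1
          _ ≤ CB * (X : ℝ) ^ (3 * ε) * W := mul_le_mul_of_nonneg_left hRm (by positivity)
          _ = CB * b := by rw [hb]; ring
          _ ≤ C * b := mul_le_mul_of_nonneg_right (by rw [hCdef]; linarith) hb0
      have useC : ∀ i j k : Fin 3, i ≠ j → j ≠ k → i ≠ k → s i = true → s j = false →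
          s k = false → (T'.card : ℝ) ≤ C * b := by
        intro i j k hij hjk hik hi hj hk
        have e1 := hC X hX R T' hTT i j k hij hjk hik (htrue i hi) (hfalse j hj) (hfalse k hk)
        calc (T'.card : ℝ) ≤ CC * (X : ℝ) ^ (2 * ε) := e1
          _ ≤ CC * b := mul_le_mul_of_nonneg_left hb2 hCC.le
          _ ≤ C * b := mul_le_mul_of_nonneg_right (by rw [hCdef]; linarith) hb0
      cases hsp : s p with
      | true =>
        cases hsq : s q with
        | true =>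
          have e1 := hA X hX R T' hTT p m q hmp.symm hmq hpq (htrue p hsp)
          have e2 := hA X hX R T' hTT q m p hmq.symm hmp hpq.symm (htrue q hsq)
          have e3 : (T'.card : ℝ) * T'.card ≤
              (CA * (X : ℝ) ^ (2 * ε) * ((R m : ℝ) * R q) ^ ((1 : ℝ) / 2)) *
              (CA * (X : ℝ) ^ (2 * ε) * ((R m : ℝ) * R p) ^ ((1 : ℝ) / 2)) :=
            mul_le_mul e1 e2 (Nat.cast_nonneg _) (by positivity)
          have e4 : ((R m : ℝ) * R q) ^ ((1 : ℝ) / 2) * ((R m : ℝ) * R p) ^ ((1 : ℝ) / 2) =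
              W ^ 2 := by
            rw [← Real.mul_rpow (by positivity) (by positivity)]
            have e5 : (R m : ℝ) * R q * (R m * R p) = W ^ 4 := by rw [hW4]; ring
            rw [e5, ← Real.rpow_natCast, ← Real.rpow_mul (by linarith), ← Real.rpow_natCast]
            norm_num
          have e6 : (T'.card : ℝ) ^ 2 ≤ (CA * (X : ℝ) ^ (2 * ε) * W) ^ 2 := by
            calc (T'.card : ℝ) ^ 2 = (T'.card : ℝ) * T'.card := sq _
              _ ≤ _ := e3
              _ = (CA * (X : ℝ) ^ (2 * ε)) ^ 2 * (((R m : ℝ) * R q) ^ ((1 : ℝ) / 2) *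
                  ((R m : ℝ) * R p) ^ ((1 : ℝ) / 2)) := by ring
              _ = _ := by rw [e4]; ring
          have e7 := le_of_sq_le_sq e6 (by positivity)
          calc (T'.card : ℝ) ≤ CA * (X : ℝ) ^ (2 * ε) * W := e7
            _ ≤ CA * (X : ℝ) ^ (3 * ε) * W := by gcongr
            _ = CA * b := by rw [hb]; ring
            _ ≤ C * b := mul_le_mul_of_nonneg_right (by rw [hCdef]; linarith) hb0
        | false =>
          cases hsm : s m with
          | true => exact useB p m q hmp.symm hmq hpq rfl hsp hsq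
          | false => exact useC p m q hmp.symm hmq hpq hsp hsm hsq
      | false =>
        cases hsq : s q with
        | true =>
          cases hsm : s m with
          | true => exact useB q m p hmq.symm hmp hpq.symm rfl hsq hsp
          | false => exact useC q m p hmq.symm hmp hpq.symm hsq hsm hsp
        | false =>
          cases hsm : s m with
          | true => exact useC m p q hmp hpq hmq hsm hsp hsq
          | false =>
            have hall : ∀ i : Fin 3, s i = false := by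
              intro i
              have : i = m ∨ i = p ∨ i = q := by omega
              rcases this with rfl | rfl | rfl <;> assumption
            have e1 := hD A X hX R T' hTT (fun t ht => hM t (hsub ht))
              (fun t ht i => hfalse i (hall i) t ht)
            calc (T'.card : ℝ) ≤ CD * (X : ℝ) ^ ε := e1
              _ ≤ CD * b := mul_le_mul_of_nonneg_left hb1 hCD.le
              _ ≤ C * b := mul_le_mul_of_nonneg_right (by rw [hCdef]; linarith) hb0)
  rw [card_univ] at h1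
  calc (T.card : ℝ) ≤ _ := h1
    _ = _ := by rw [hb]; ring

/-- a sequence of levels -/
theorem exists_levels (ε : ℝ) (hε : 0 < ε) : ∃ lev : ℕ → Lev, ∀ i, (lev i).Adm ∧
    Step ε (lev i) (lev (i + 1)) := by
  classical
  have h1 : ∀ l : {l : Lev // l.Adm}, ∃ l' : {l : Lev // l.Adm}, Step ε l.1 l'.1 := by
    rintro ⟨l, hl⟩
    obtain ⟨l', hl'⟩ := step_exists ε hε l hl
    exact ⟨⟨l', hl'.1⟩, hl'⟩
  choose f hf using h1
  let l0 : {l : Lev // l.Adm} := ⟨⟨1, 1, 1⟩, by
    refine ⟨?_, ?_, ?_⟩ <;> norm_num⟩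
  exact ⟨fun i => (f^[i] l0).1, fun i => ⟨(f^[i] l0).2, by
    show Step ε (f^[i] l0).1 (f^[i + 1] l0).1
    rw [Function.iterate_succ_apply']
    exact hf _⟩⟩

/-- one of four levels is good for all three members -/
theorem good_level {ε : ℝ} {lev : ℕ → Lev} (h : ∀ i, (lev i).Adm ∧ Step ε (lev i) (lev (i + 1)))
    {X : ℕ} (hX : 1 ≤ X) (n : Fin 3 → ℕ) :
    ∃ j : Fin 4, ∀ i, ¬ (lev j).Flex X (n i) ∨ (lev (j + 1)).Flex X (n i) := by
  classical
  by_contra hcon
  push Not at hcon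
  choose i hi using hcon
  have hanti : ∀ k, Antitone fun j : ℕ => (lev j).Flex X (n k) := by
    intro k
    apply antitone_nat_of_succ_le
    intro j hj
    exact (h j).2.mono hX hj
  obtain ⟨j, j', hne, heq⟩ := Fintype.exists_ne_map_eq_of_card_lt i (by simp)
  have key : ∀ j j' : Fin 4, i j = i j' → j < j' → False := by
    intro j j' heq hlt
    have h1 := (hi j').1
    rw [← heq] at h1
    have h2 : (j : ℕ) + 1 ≤ (j' : ℕ) := hlt
    exact (hi j).2 (hanti (i j) h2 h1)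
  rcases lt_or_gt_of_ne hne with h1 | h1
  · exact key j j' heq h1
  · exact key j' j heq.symm h1

/-- **bound for a cell** -/
theorem cell_bound (ε : ℝ) (hε : 0 < ε) :
    ∃ M : ℕ, ∀ A : ℕ, ∃ C : ℝ, 0 < C ∧ ∀ X : ℕ, 2 ≤ X → ∀ (R : Fin 3 → ℕ) (T : Finset (ℕ × ℕ)),
    Hyp A X R T → (∀ i, 1 ≤ R i) → (∀ t ∈ T, X ^ M ≤ t.1 + t.2) → ∀ m : Fin 3, (∀ i, R m ≤ R i) →
    (T.card : ℝ) ≤ C * (X : ℝ) ^ ε * ((R m * (R 0 * R 1 * R 2) : ℕ) : ℝ) ^ ((1 : ℝ) / 4) := by
  classical
  obtain ⟨lev, hlev⟩ := exists_levels (ε / 3) (by positivity)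
  have hcb : ∀ j : Fin 4, ∃ M : ℕ, ∀ A : ℕ, ∃ C : ℝ, 0 < C ∧ ∀ X : ℕ, 2 ≤ X →
      ∀ (R : Fin 3 → ℕ) (T : Finset (ℕ × ℕ)),
      Hyp A X R T → (∀ i, 1 ≤ R i) → (∀ t ∈ T, X ^ M ≤ t.1 + t.2) →
      (∀ t ∈ T, ∀ i, ¬ (lev j).Flex X (mem t i) ∨ (lev (j + 1)).Flex X (mem t i)) →
      ∀ m : Fin 3, (∀ i, R m ≤ R i) →
      (T.card : ℝ) ≤ C * (X : ℝ) ^ (3 * (ε / 3)) *
        ((R m * (R 0 * R 1 * R 2) : ℕ) : ℝ) ^ ((1 : ℝ) / 4) := fun j =>
    class_bound (ε / 3) (by positivity) (lev j) (lev (j + 1)) (hlev j).1 (hlev j).2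
  choose M hM using hcb
  refine ⟨∑ j, M j, ?_⟩
  intro A
  choose C hC hbd using fun j => hM j A
  have hC4 : 0 < ∑ j, C j := by
    apply Finset.sum_pos (fun j _ => hC j)
    exact ⟨0, mem_univ _⟩
  refine ⟨4 * ∑ j, C j, by positivity, ?_⟩
  intro X hX R T hT hR1 hMT m hm
  have hX1 : 1 ≤ X := by omega
  choose g hg using fun t : ℕ × ℕ => good_level hlev hX1 (mem t)
  obtain ⟨b, hb⟩ : ∃ b : ℝ, b = (X : ℝ) ^ ε *
    ((R m * (R 0 * R 1 * R 2) : ℕ) : ℝ) ^ ((1 : ℝ) / 4) := ⟨_, rfl⟩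
  have hb0 : 0 ≤ b := by rw [hb]; positivity
  have h1 := card_le_real T g Finset.univ ((∑ j, C j) * b) (fun t _ => mem_univ _) (by
    intro j _
    obtain ⟨T', hT'⟩ : ∃ T', T' = T.filter fun t => g t = j := ⟨_, rfl⟩
    rw [← hT']
    have hsub : T' ⊆ T := by rw [hT']; exact filter_subset _ _
    have e1 := hbd j X hX R T' (hT.mono hsub) hR1 (fun t ht => by
      refine le_trans ?_ (hMT t (hsub ht))
      apply Nat.pow_le_pow_right hX1
      exact Finset.single_le_sum (f := M) (fun i _ => Nat.zero_le _) (mem_univ j))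
      (fun t ht i => by
        have e2 : g t = j := by
          rw [hT'] at ht
          exact (mem_filter.mp ht).2
        have e3 := hg t i
        rw [e2] at e3
        exact e3) m hm
    calc (T'.card : ℝ) ≤ _ := e1
      _ = C j * b := by rw [hb, show 3 * (ε / 3) = ε by ring]; ring
      _ ≤ (∑ j, C j) * b := by
          apply mul_le_mul_of_nonneg_right _ hb0
          exact Finset.single_le_sum (f := C) (fun i _ => (hC i).le) (mem_univ j))
  rw [card_univ, Fintype.card_fin] at h1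
  calc (T.card : ℝ) ≤ _ := h1
    _ = _ := by rw [hb]; push_cast; ring

end Pool.Agent.Helper205_Exc
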