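import Pool.Agent.Helper205_Exc.Given

/-!
Triples two members of which are fixed integers times products of powers of few integers, while the
third member has a small radical.
-/

set_option autoImplicit false

namespace Pool.Agent.Helper205_Exc

open Finset Pool.Agent.H785R2.ABC Pool.Agent.H705R2.ABC Pool.Agent.Y913.Nb

/-- the conclusion of the uniform counting theorem -/
def TallOk (n : ℕ) (z ε B η C : ℝ) : Prop :=
    ∀ X : ℕ, 1 ≤ X → ∀ r k : ℕ, 2 ≤ r → (r : ℝ) ≤ (X : ℝ) ^ η →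
    (X : ℝ) ^ B ≤ (r : ℝ) ^ k → ∀ (κ : ZMod (r ^ k)) (S : Finset (ℕ × ℕ)), IsUnit κ →
    (∀ t ∈ S, 1 ≤ t.1 ∧ (t.1 : ℝ) ≤ Real.exp ((X : ℝ) ^ η) ∧ 1 ≤ t.2 ∧
      (t.2 : ℝ) ≤ Real.exp ((X : ℝ) ^ η) ∧ Nat.Coprime t.1 t.2 ∧
      Nat.Coprime t.1 r ∧ Nat.Coprime t.2 r ∧ NB n ((X : ℝ) ^ z) t.1 ∧ NB n ((X : ℝ) ^ z) t.2 ∧
      (t.1 : ZMod (r ^ k)) = κ * t.2) → (S.card : ℝ) ≤ C * (X : ℝ) ^ ε

theorem det_part {n : ℕ} {z ε B η C : ℝ} (hC : 0 < C) (hdet : TallOk n z ε B η C) {X : ℕ}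
    (hX : 2 ≤ X) {s E : ℕ} (hE : E ≠ 0) (hs : 2 ≤ s) (hsη : (s : ℝ) ≤ (X : ℝ) ^ η)
    (hsB : (X : ℝ) ^ B ≤ (s : ℝ) ^ E) {m p q : Fin 3} (hmp : m ≠ p) (hpq : p ≠ q) (hmq : m ≠ q)
    (a b : ℕ) (T : Finset (ℕ × ℕ))
    (h : ∀ t ∈ T, Ok t ∧ s ^ E ∣ mem t m ∧ (∀ i, (mem t i : ℝ) ≤ Real.exp ((X : ℝ) ^ η)) ∧
      (∃ u, mem t p = a * u ∧ NB n ((X : ℝ) ^ z) u) ∧
      (∃ v, mem t q = b * v ∧ NB n ((X : ℝ) ^ z) v)) : (T.card : ℝ) ≤ C * (X : ℝ) ^ ε := by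
  classical
  rcases T.eq_empty_or_nonempty with h0 | ⟨t0, ht0⟩
  · rw [h0, card_empty, Nat.cast_zero]
    positivity
  have hexu : ∀ t : ℕ × ℕ, ∃ u, t ∈ T → mem t p = a * u ∧ NB n ((X : ℝ) ^ z) u := by
    intro t
    by_cases ht : t ∈ T
    · obtain ⟨u, hu⟩ := (h t ht).2.2.2.1
      exact ⟨u, fun _ => hu⟩
    · exact ⟨0, fun h => absurd h ht⟩
  have hexv : ∀ t : ℕ × ℕ, ∃ v, t ∈ T → mem t q = b * v ∧ NB n ((X : ℝ) ^ z) v := by
    intro t
    by_cases ht : t ∈ T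
    · obtain ⟨v, hv⟩ := (h t ht).2.2.2.2
      exact ⟨v, fun _ => hv⟩
    · exact ⟨0, fun h => absurd h ht⟩
  choose u hu using hexu
  choose v hv using hexv
  have himg : (T.image fun t => (u t, v t)).card = T.card := by
    apply card_image_of_injOn
    intro t ht t' ht' he
    have e1 : u t = u t' := congrArg Prod.fst he
    have e2 : v t = v t' := congrArg Prod.snd he
    apply mem_inj hpq
    · rw [(hu t ht).1, (hu t' ht').1, e1]
    · rw [(hv t ht).1, (hv t' ht').1, e2]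
  rw [← himg]
  have hau : IsUnit ((a : ℕ) : ZMod (s ^ E)) := by
    rw [ZMod.isUnit_iff_coprime]
    refine Nat.Coprime.coprime_dvd_right (h t0 ht0).2.1 (Nat.Coprime.coprime_dvd_left ?_
      (mem_coprime (h t0 ht0).1 hmp.symm))
    rw [(hu t0 ht0).1]
    exact dvd_mul_right _ _
  have hbu : IsUnit ((b : ℕ) : ZMod (s ^ E)) := by
    rw [ZMod.isUnit_iff_coprime]
    refine Nat.Coprime.coprime_dvd_right (h t0 ht0).2.1 (Nat.Coprime.coprime_dvd_left ?_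
      (mem_coprime (h t0 ht0).1 hmq.symm))
    rw [(hv t0 ht0).1]
    exact dvd_mul_right _ _
  obtain ⟨a', ha'⟩ := hau.exists_left_inv
  have ha'u : IsUnit a' := IsUnit.of_mul_eq_one _ ha'
  apply hdet X (by omega) s E hs hsη hsB
    (a' * (if m = 2 then (-1 : ZMod (s ^ E)) else 1) * (b : ZMod (s ^ E))) _
    ((ha'u.mul (sg_unit m)).mul hbu)
  intro x hx
  obtain ⟨t, ht, rfl⟩ := mem_image.mp hx
  obtain ⟨hok, hd, hle, -, -⟩ := h t ht
  obtain ⟨hu1, hu2⟩ := hu t ht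
  obtain ⟨hv1, hv2⟩ := hv t ht
  have hp1 := mem_pos hok p
  have hq1 := mem_pos hok q
  have hu0 : 1 ≤ u t := by
    rcases Nat.eq_zero_or_pos (u t) with h0 | h0
    · rw [hu1, h0] at hp1
      omega
    · exact h0
  have hv0 : 1 ≤ v t := by
    rcases Nat.eq_zero_or_pos (v t) with h0 | h0
    · rw [hv1, h0] at hq1
      omega
    · exact h0
  have hudvd : u t ∣ mem t p := by rw [hu1]; exact dvd_mul_left _ _
  have hvdvd : v t ∣ mem t q := by rw [hv1]; exact dvd_mul_left _ _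
  have hule : (u t : ℝ) ≤ mem t p := by exact_mod_cast Nat.le_of_dvd hp1 hudvd
  have hvle : (v t : ℝ) ≤ mem t q := by exact_mod_cast Nat.le_of_dvd hq1 hvdvd
  refine ⟨hu0, hule.trans (hle p), hv0, hvle.trans (hle q), ?_, ?_, ?_, hu2, hv2, ?_⟩
  · exact Nat.Coprime.coprime_dvd_left hudvd (Nat.Coprime.coprime_dvd_right hvdvd
      (mem_coprime hok hpq))
  · exact Nat.Coprime.coprime_dvd_right ((dvd_pow_self s hE).trans hd)
      (Nat.Coprime.coprime_dvd_left hudvd (mem_coprime hok hmp.symm))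
  · exact Nat.Coprime.coprime_dvd_right ((dvd_pow_self s hE).trans hd)
      (Nat.Coprime.coprime_dvd_left hvdvd (mem_coprime hok hmq.symm))
  · have e1 := mem_cong hmp hpq hmq hd
    rw [hu1, hv1] at e1
    push_cast at e1
    show ((u t : ℕ) : ZMod (s ^ E)) = _ * ((v t : ℕ) : ZMod (s ^ E))
    calc ((u t : ℕ) : ZMod (s ^ E)) = (a' * a) * (u t : ZMod (s ^ E)) := by rw [ha', one_mul]
      _ = a' * ((a : ZMod (s ^ E)) * (u t : ZMod (s ^ E))) := by ring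
      _ = _ := by rw [e1]; ring

/-- **two members `a u` and `b v` with products `u`, `v` of powers of `n` integers `≤ X`, all members
of radical `≤ X`** -/
theorem coeff_main (n : ℕ) (ε : ℝ) (hε : 0 < ε) : ∃ (M : ℕ) (η C : ℝ), 0 < η ∧ 0 < C ∧
    ∀ X : ℕ, 2 ≤ X → ∀ (T : Finset (ℕ × ℕ)) (i j k : Fin 3) (a b : ℕ), i ≠ j → j ≠ k → i ≠ k →
    (∀ t ∈ T, Ok t ∧ (∀ m, rad (mem t m) ≤ X) ∧ (∃ u, mem t k = a * u ∧ NB n (X : ℝ) u) ∧
      (∃ v, mem t j = b * v ∧ NB n (X : ℝ) v) ∧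
      ((t.1 + t.2 : ℕ) : ℝ) ≤ Real.exp ((X : ℝ) ^ η) ∧ X ^ M ≤ t.1 + t.2) →
    (T.card : ℝ) ≤ C * (X : ℝ) ^ ε := by
  classical
  -- the level for the member `i`
  obtain ⟨Bd1, η1, C1, hBd1, hη1, hC1, hdet1⟩ := det_tall n 1 (ε / 2) (by norm_num) (by positivity)
  change TallOk n 1 (ε / 2) Bd1 η1 C1 at hdet1
  obtain ⟨l, hl, hlB, hlm⟩ := exists_level Bd1 (min η1 (ε / 2)) hBd1 (lt_min hη1 (by positivity))
  obtain ⟨z1, hz1def⟩ : ∃ zz : ℝ, zz = max 1 l.z := ⟨_, rfl⟩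
  have hz1 : 1 ≤ z1 := by rw [hz1def]; exact le_max_left _ _
  have hz1' : l.z ≤ z1 := by rw [hz1def]; exact le_max_right _ _
  obtain ⟨n1, hn1⟩ : ∃ n1 : ℕ, n1 = max n l.n := ⟨_, rfl⟩
  have hnn1 : n ≤ n1 := by rw [hn1]; exact le_max_left _ _
  have hln1 : l.n ≤ n1 := by rw [hn1]; exact le_max_right _ _
  -- the level for the other members
  obtain ⟨Bd2, η2, C2, hBd2, hη2, hC2, hdet2⟩ := det_tall n1 z1 (ε / 2) (by linarith)
    (by positivity)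
  change TallOk n1 z1 (ε / 2) Bd2 η2 C2 at hdet2
  obtain ⟨l', hl', hlB', hlm'⟩ := exists_level Bd2 (min η2 (ε / 2)) hBd2
    (lt_min hη2 (by positivity))
  obtain ⟨z2, hz2def⟩ : ∃ zz : ℝ, zz = max z1 l'.z := ⟨_, rfl⟩
  have hz2 : z1 ≤ z2 := by rw [hz2def]; exact le_max_left _ _
  have hz2' : l'.z ≤ z2 := by rw [hz2def]; exact le_max_right _ _
  have hz20 : 0 < z2 := by linarith
  obtain ⟨n2, hn2⟩ : ∃ n2 : ℕ, n2 = max n1 l'.n := ⟨_, rfl⟩
  have hnn2 : n1 ≤ n2 := by rw [hn2]; exact le_max_left _ _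
  have hln2 : l'.n ≤ n2 := by rw [hn2]; exact le_max_right _ _
  obtain ⟨K, C3, hK, hC3, hcount⟩ := Pool.Agent.Y913.Zm.nt_count n2 (ε / z2) (by positivity)
  refine ⟨⌈z2 * K⌉₊, min η1 η2, C1 + 2 * C2 + C3, lt_min hη1 hη2, by positivity, ?_⟩
  intro X hX T i j k a b hij hjk hik hT
  have hX0 : (0 : ℝ) < X := by exact_mod_cast (by omega : 0 < X)
  have hX1 : (1 : ℝ) < X := by exact_mod_cast (by omega : 1 < X)
  have hXe : (X : ℝ) ^ ε = (X : ℝ) ^ (ε / 2) * (X : ℝ) ^ (ε / 2) := by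
    rw [← Real.rpow_add hX0]
    congr 1
    ring
  have hXz1 : (1 : ℝ) ≤ (X : ℝ) ^ z1 := Real.one_le_rpow hX1.le (by linarith)
  have hXz2 : (1 : ℝ) ≤ (X : ℝ) ^ z2 := Real.one_le_rpow hX1.le (by linarith)
  have hX11 : ((X : ℝ)) ^ (1 : ℝ) = X := Real.rpow_one _
  have hXXz1 : (X : ℝ) ≤ (X : ℝ) ^ z1 := by
    calc (X : ℝ) = (X : ℝ) ^ (1 : ℝ) := hX11.symm
      _ ≤ _ := Real.rpow_le_rpow_of_exponent_le hX1.le hz1
  have hexp1 : Real.exp ((X : ℝ) ^ (min η1 η2)) ≤ Real.exp ((X : ℝ) ^ η1) :=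
    Real.exp_le_exp.mpr (Real.rpow_le_rpow_of_exponent_le hX1.le (min_le_left _ _))
  have hexp2 : Real.exp ((X : ℝ) ^ (min η1 η2)) ≤ Real.exp ((X : ℝ) ^ η2) :=
    Real.exp_le_exp.mpr (Real.rpow_le_rpow_of_exponent_le hX1.le (min_le_right _ _))
  have hle : ∀ t ∈ T, ∀ m : Fin 3, (mem t m : ℝ) ≤ Real.exp ((X : ℝ) ^ (min η1 η2)) :=
    fun t ht m => le_trans (by exact_mod_cast mem_le t m) (hT t ht).2.2.2.2.1
  have hall : ∀ m : Fin 3, m = i ∨ m = j ∨ m = k := by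
    intro m
    revert hij hjk hik
    fin_cases i <;> fin_cases j <;> fin_cases k <;> fin_cases m <;> simp
  have hEl : l.E ≠ 0 := by
    have := hl.2.1
    omega
  have hEl' : l'.E ≠ 0 := by
    have := hl'.2.1
    omega
  -- the parts
  obtain ⟨T1, hT1⟩ : ∃ T1, T1 = T.filter fun t => l.Flex X (mem t i) := ⟨_, rfl⟩
  obtain ⟨T0, hT0⟩ : ∃ T0, T0 = T.filter fun t => ¬ l.Flex X (mem t i) := ⟨_, rfl⟩
  obtain ⟨T2, hT2⟩ : ∃ T2, T2 = T0.filter fun t => l'.Flex X (mem t j) := ⟨_, rfl⟩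
  obtain ⟨T3, hT3⟩ : ∃ T3, T3 = T0.filter fun t => ¬ l'.Flex X (mem t j) := ⟨_, rfl⟩
  obtain ⟨T4, hT4⟩ : ∃ T4, T4 = T3.filter fun t => l'.Flex X (mem t k) := ⟨_, rfl⟩
  obtain ⟨T5, hT5⟩ : ∃ T5, T5 = T3.filter fun t => ¬ l'.Flex X (mem t k) := ⟨_, rfl⟩
  have hsub1 : T1 ⊆ T := by rw [hT1]; exact filter_subset _ _
  have hsub0 : T0 ⊆ T := by rw [hT0]; exact filter_subset _ _
  have hsub20 : T2 ⊆ T0 := by rw [hT2]; exact filter_subset _ _
  have hsub30 : T3 ⊆ T0 := by rw [hT3]; exact filter_subset _ _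
  have hsub40 : T4 ⊆ T0 := by rw [hT4]; exact (filter_subset _ _).trans hsub30
  have hsub50 : T5 ⊆ T0 := by rw [hT5]; exact (filter_subset _ _).trans hsub30
  have hcard : T.card = T1.card + (T2.card + (T4.card + T5.card)) := by
    have e2 : T4.card + T5.card = T3.card := by
      rw [hT4, hT5, card_filter_add_card_filter_not]
    have e1 : T2.card + T3.card = T0.card := by
      rw [hT2, hT3, card_filter_add_card_filter_not]
    rw [e2, e1, hT1, hT0, card_filter_add_card_filter_not]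
  have hnf0 : ∀ t ∈ T0, ¬ l.Flex X (mem t i) := fun t ht => by
    rw [hT0, mem_filter] at ht
    exact ht.2
  have hnbi : ∀ t ∈ T0, NB n1 ((X : ℝ) ^ z1) (mem t i) := by
    intro t ht
    obtain ⟨hok, hrad, -⟩ := hT t (hsub0 ht)
    exact ((Lev.nb hl hX (mem_pos hok i) (hrad i) (hnf0 t ht)).mono_Y
      (Real.rpow_le_rpow_of_exponent_le hX1.le hz1')).mono_n hXz1 hln1
  have hup1 : ∀ {m : ℕ}, NB n (X : ℝ) m → NB n1 ((X : ℝ) ^ z1) m := fun {m} h =>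
    (h.mono_Y hXXz1).mono_n hXz1 hnn1
  -- the member `i` is flexible
  have h1 : (T1.card : ℝ) ≤ C1 * (X : ℝ) ^ ε := by
    have h2 := by_r hl (hlm.trans (min_le_right _ _)) hX T1 i (fun t ht => (hT t (hsub1 ht)).1)
      (fun t ht => by
        rw [hT1] at ht
        exact (mem_filter.mp ht).2) (C1 * (X : ℝ) ^ (ε / 2)) (by positivity) (by
      intro s hs c3 c4 T' hT' _ hdvd
      have hsT : T' ⊆ T := hT'.trans hsub1
      apply det_part hC1 hdet1 hX hEl hs (c4.trans (Real.rpow_le_rpow_of_exponent_le hX1.le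
        (hlm.trans (min_le_left _ _)))) ((Real.rpow_le_rpow_of_exponent_le hX1.le
        (by linarith)).trans c3) hij hjk hik b a T'
      intro t ht
      obtain ⟨hok, hrad, ⟨u, hu1, hu2⟩, ⟨v, hv1, hv2⟩, hexp, hM⟩ := hT t (hsT ht)
      refine ⟨hok, hdvd t ht, fun m => (hle t (hsT ht) m).trans hexp1, ⟨v, hv1, ?_⟩,
        ⟨u, hu1, ?_⟩⟩
      · rw [hX11]
        exact hv2
      · rw [hX11]
        exact hu2)
    rw [hXe]
    linarith
  -- the member `j` is flexible, and the member `i` is not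
  have h2 : (T2.card : ℝ) ≤ C2 * (X : ℝ) ^ ε := by
    have h2 := by_r hl' (hlm'.trans (min_le_right _ _)) hX T2 j
      (fun t ht => (hT t (hsub0 (hsub20 ht))).1)
      (fun t ht => by
        rw [hT2] at ht
        exact (mem_filter.mp ht).2) (C2 * (X : ℝ) ^ (ε / 2)) (by positivity) (by
      intro s hs c3 c4 T' hT' _ hdvd
      have hsT0 : T' ⊆ T0 := hT'.trans hsub20
      apply det_part hC2 hdet2 hX hEl' hs (c4.trans (Real.rpow_le_rpow_of_exponent_le hX1.le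
        (hlm'.trans (min_le_left _ _)))) ((Real.rpow_le_rpow_of_exponent_le hX1.le
        (by linarith)).trans c3) hij.symm hik hjk 1 a T'
      intro t ht
      obtain ⟨hok, hrad, ⟨u, hu1, hu2⟩, -, hexp, hM⟩ := hT t (hsub0 (hsT0 ht))
      exact ⟨hok, hdvd t ht, fun m => (hle t (hsub0 (hsT0 ht)) m).trans hexp2,
        ⟨mem t i, (one_mul _).symm, hnbi t (hsT0 ht)⟩, ⟨u, hu1, hup1 hu2⟩⟩)
    rw [hXe]
    linarith
  -- the member `k` is flexible, and the member `i` is not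
  have h4 : (T4.card : ℝ) ≤ C2 * (X : ℝ) ^ ε := by
    have h2 := by_r hl' (hlm'.trans (min_le_right _ _)) hX T4 k
      (fun t ht => (hT t (hsub0 (hsub40 ht))).1)
      (fun t ht => by
        rw [hT4] at ht
        exact (mem_filter.mp ht).2) (C2 * (X : ℝ) ^ (ε / 2)) (by positivity) (by
      intro s hs c3 c4 T' hT' _ hdvd
      have hsT0 : T' ⊆ T0 := hT'.trans hsub40
      apply det_part hC2 hdet2 hX hEl' hs (c4.trans (Real.rpow_le_rpow_of_exponent_le hX1.le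
        (hlm'.trans (min_le_left _ _)))) ((Real.rpow_le_rpow_of_exponent_le hX1.le
        (by linarith)).trans c3) hik.symm hij hjk.symm 1 b T'
      intro t ht
      obtain ⟨hok, hrad, -, ⟨v, hv1, hv2⟩, hexp, hM⟩ := hT t (hsub0 (hsT0 ht))
      exact ⟨hok, hdvd t ht, fun m => (hle t (hsub0 (hsT0 ht)) m).trans hexp2,
        ⟨mem t i, (one_mul _).symm, hnbi t (hsT0 ht)⟩, ⟨v, hv1, hup1 hv2⟩⟩)
    rw [hXe]
    linarith
  -- no member is flexible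
  have h5 : (T5.card : ℝ) ≤ C3 * (X : ℝ) ^ ε := by
    have h4 := hcount ((X : ℝ) ^ z2) hXz2 T5 (by
      intro t ht
      have htT0 := hsub50 ht
      rw [hT5, mem_filter, hT3, mem_filter] at ht
      obtain ⟨hok, hrad, -, -, hexp, hM⟩ := hT t (hsub0 htT0)
      have hni : NB n2 ((X : ℝ) ^ z2) (mem t i) :=
        ((hnbi t htT0).mono_Y (Real.rpow_le_rpow_of_exponent_le hX1.le hz2)).mono_n hXz2 hnn2
      have hn' : ∀ m, ¬ l'.Flex X (mem t m) → NB n2 ((X : ℝ) ^ z2) (mem t m) := fun m hm =>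
        ((Lev.nb hl' hX (mem_pos hok m) (hrad m) hm).mono_Y
          (Real.rpow_le_rpow_of_exponent_le hX1.le hz2')).mono_n hXz2 hln2
      have hall' : ∀ m : Fin 3, NB n2 ((X : ℝ) ^ z2) (mem t m) := by
        intro m
        rcases hall m with rfl | rfl | rfl
        · exact hni
        · exact hn' _ ht.1.2
        · exact hn' _ ht.2
      obtain ⟨g1, g2, g3⟩ := hok
      refine ⟨g1, g2, g3, hall' 0, hall' 1, hall' 2, ?_⟩
      calc ((X : ℝ) ^ z2) ^ K = (X : ℝ) ^ (z2 * K) := by rw [Real.rpow_mul hX0.le]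
        _ ≤ (X : ℝ) ^ ((⌈z2 * K⌉₊ : ℕ) : ℝ) :=
            Real.rpow_le_rpow_of_exponent_le hX1.le (Nat.le_ceil _)
        _ = ((X ^ ⌈z2 * K⌉₊ : ℕ) : ℝ) := by rw [Real.rpow_natCast]; push_cast; rfl
        _ ≤ ((t.1 + t.2 : ℕ) : ℝ) := by exact_mod_cast hM)
    refine h4.trans (le_of_eq ?_)
    rw [← Real.rpow_mul hX0.le]
    congr 2
    field_simp
  rw [hcard]
  push_cast
  linarith

end Pool.Agent.Helper205_Exc
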