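import Pool.Agent.Helper205_Exc.Energy
import Pool.Agent.Y913.Nb.PadN3
import Pool.Agent.Y913.Nb.AllN

/-!
Few pairs of products of powers of few integers are proportional modulo a high power of a small
integer.
-/

set_option autoImplicit false

namespace Pool.Agent.Helper205_Exc

open Finset Pool.Agent.Y913 Pool.Agent.Y913.Nb

/-- representation of a pair -/
theorem rep_pair {n : ℕ} {Y : ℝ} (hY : 1 ≤ Y) {q : ℕ × ℕ} {L : ℕ} (h0 : 0 < q.1) (h1 : 0 < q.2)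
    (hL1 : q.1 < 2 ^ L) (hL2 : q.2 < 2 ^ L) (hu : NB n Y q.1) (hv : NB n Y q.2) :
    ∃ (X : Fin n ⊕ Fin n → ℕ) (b : Fin n ⊕ Fin n → ℤ), (∀ j, 1 ≤ X j ∧ (X j : ℝ) ≤ Y) ∧
      (∀ j, |b j| ≤ L) ∧
      (∑ j, (b j : ℝ) * Real.log (X j) = Real.log q.1 - Real.log q.2) ∧
      ∀ N : ℕ, q.1.Coprime N → q.2.Coprime N → (∀ j, (X j).Coprime N) ∧
        ∏ j, (ud N (X j)) ^ b j = ud N q.1 * (ud N q.2)⁻¹ := by
  classical
  obtain ⟨x, a, hx, hxm, hxa, hxd⟩ := hu.normal h0 hY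
  obtain ⟨y, c, hy, hym, hyc, hyd⟩ := hv.normal h1 hY
  have hlog : ∀ (x a : Fin n → ℕ), (∀ i, 1 ≤ x i) → Real.log ((∏ i, x i ^ a i : ℕ) : ℝ) =
      ∑ i, (a i : ℝ) * Real.log (x i) := by
    intro x a hx
    push_cast
    rw [Real.log_prod (fun i _ => pow_ne_zero _ (by
      have := hx i
      positivity))]
    simp only [Real.log_pow]
  refine ⟨Sum.elim x y, Sum.elim (fun i => (a i : ℤ)) (fun i => -(c i : ℤ)), ?_, ?_, ?_, ?_⟩
  · rintro (i | i)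
    · exact hx i
    · exact hy i
  · rintro (i | i)
    · show |(a i : ℤ)| ≤ L
      rw [abs_of_nonneg (Int.natCast_nonneg _)]
      have := (Nat.pow_lt_pow_iff_right (by norm_num : 1 < 2)).mp ((hxa i).trans_lt hL1)
      exact_mod_cast this.le
    · show |-(c i : ℤ)| ≤ L
      rw [abs_neg, abs_of_nonneg (Int.natCast_nonneg _)]
      have := (Nat.pow_lt_pow_iff_right (by norm_num : 1 < 2)).mp ((hyc i).trans_lt hL2)
      exact_mod_cast this.le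
  · rw [Fintype.sum_sum_type]
    simp only [Sum.elim_inl, Sum.elim_inr]
    have e1 := hlog x a (fun i => (hx i).1)
    have e2 := hlog y c (fun i => (hy i).1)
    rw [← hxm] at e1
    rw [← hym] at e2
    rw [e1, e2]
    push_cast
    simp only [neg_mul]
    rw [Finset.sum_neg_distrib]
    ring
  · intro N hN1 hN2
    have hcx : ∀ i, (x i).Coprime N := fun i => Nat.Coprime.coprime_dvd_left (hxd i) hN1
    have hcy : ∀ i, (y i).Coprime N := fun i => Nat.Coprime.coprime_dvd_left (hyd i) hN2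
    refine ⟨?_, ?_⟩
    · rintro (i | i)
      · exact hcx i
      · exact hcy i
    · rw [Fintype.prod_sum_type]
      simp only [Sum.elim_inl, Sum.elim_inr]
      have hpr : ∀ (x a : Fin n → ℕ), (∀ i, (x i).Coprime N) →
          ud N (∏ i, x i ^ a i) = ∏ i, (ud N (x i)) ^ a i := by
        intro x a hx
        rw [ud_prod _ _ (fun i _ => Nat.Coprime.pow_left _ (hx i))]
        apply Finset.prod_congr rfl
        intro i _
        rw [← Units.val_inj, ud_coe (Nat.Coprime.pow_left _ (hx i)), Units.val_pow_eq_pow_val,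
          ud_coe (hx i)]
        push_cast
        rfl
      have e1 := hpr x a hcx
      have e2 := hpr y c hcy
      rw [← hxm] at e1
      rw [← hym] at e2
      have e3 : ∏ i, ud N (y i) ^ (-(c i : ℤ)) = (∏ i, ud N (y i) ^ c i)⁻¹ := by
        rw [← Finset.prod_inv_distrib]
        apply Finset.prod_congr rfl
        intro i _
        rw [zpow_neg, zpow_natCast]
      have e4 : ∏ i, ud N (x i) ^ (a i : ℤ) = ∏ i, ud N (x i) ^ a i := by
        apply Finset.prod_congr rfl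
        intro i _
        rw [zpow_natCast]
      rw [e1, e2, e3, e4]

/-- **pairs of products of powers of few integers, proportional modulo a power of `r`** -/
theorem det_count (n : ℕ) (z ε : ℝ) (hz : 0 ≤ z) (hε : 0 < ε) : ∃ B η : ℝ, 0 < B ∧ 0 < η ∧
    ∀ A : ℕ, ∃ C : ℝ, 0 < C ∧ ∀ X : ℕ, 1 ≤ X → ∀ r k : ℕ, 2 ≤ r → (r : ℝ) ≤ (X : ℝ) ^ η →
    (X : ℝ) ^ B ≤ (r : ℝ) ^ k → ∀ (κ : ZMod (r ^ k)) (S : Finset (ℕ × ℕ)), IsUnit κ →
    (∀ t ∈ S, 1 ≤ t.1 ∧ t.1 ≤ X ^ A ∧ 1 ≤ t.2 ∧ t.2 ≤ X ^ A ∧ Nat.Coprime t.1 t.2 ∧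
      Nat.Coprime t.1 r ∧ Nat.Coprime t.2 r ∧ NB n ((X : ℝ) ^ z) t.1 ∧ NB n ((X : ℝ) ^ z) t.2 ∧
      (t.1 : ZMod (r ^ k)) = κ * t.2) → (S.card : ℝ) ≤ C * (X : ℝ) ^ ε := by
  classical
  obtain ⟨N, hN⟩ : ∃ N, N = Fintype.card (Fin n ⊕ Fin n) := ⟨_, rfl⟩
  have hN0 : (0 : ℝ) ≤ N := Nat.cast_nonneg _
  obtain ⟨τ, hτ⟩ : ∃ τ : ℝ, τ = ε / (2 * ((N : ℝ) * N + 1)) := ⟨_, rfl⟩
  have hτ0 : 0 < τ := by rw [hτ]; positivity
  obtain ⟨w, hw⟩ : ∃ w : ℕ, w = ⌈2 * z / τ⌉₊ := ⟨_, rfl⟩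
  have hwz : z ≤ τ / 2 * w := by
    have h1 : 2 * z / τ ≤ w := by rw [hw]; exact Nat.le_ceil _
    rw [div_le_iff₀ hτ0] at h1
    linarith
  obtain ⟨M0, C1, hcount⟩ := count_padic_val3 (Fin n ⊕ Fin n) w
  rw [← hN] at hcount
  obtain ⟨kk, hkk⟩ : ∃ kk, kk = KK N (N * w) := ⟨_, rfl⟩
  rw [← hkk] at hcount
  refine ⟨τ * kk + 1, τ / 4, by positivity, by positivity, ?_⟩
  intro A
  obtain ⟨D1, hD1, hlog1⟩ := log_pow_le 1 (τ / 4) (by positivity)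
  obtain ⟨D2, hD2, hlog2⟩ := log_pow_le N (ε / 2) (by positivity)
  -- threshold
  obtain ⟨Q0, hQ0⟩ : ∃ Q0 : ℝ, Q0 = M0 * (N * ((A + 1) * D1)) + 1 := ⟨_, rfl⟩
  have hQ01 : 1 ≤ Q0 := by
    rw [hQ0]
    have : 0 ≤ (M0 : ℝ) * (N * ((A + 1) * D1)) := by positivity
    linarith
  obtain ⟨X0, hX0⟩ := exists_nat_ge (Q0 ^ (4 / τ))
  refine ⟨((X0 : ℝ) ^ A) ^ 2 + (((C1 : ℝ) ^ N) * ((2 * A + 3) ^ N * D2)) + 1, by positivity, ?_⟩
  intro X hX r k hr2 hrX hXk κ S hκ hS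
  have hXp : (0 : ℝ) < X := by exact_mod_cast hX
  have hX1 : (1 : ℝ) ≤ X := by exact_mod_cast hX
  have hXε : (1 : ℝ) ≤ (X : ℝ) ^ ε := Real.one_le_rpow hX1 hε.le
  rcases lt_or_ge X X0 with hlt | hge
  · -- trivial bound
    have h1 : S ⊆ (Icc 1 (X ^ A)) ×ˢ (Icc 1 (X ^ A)) := by
      intro t ht
      obtain ⟨g1, g2, g3, g4, -⟩ := hS t ht
      rw [mem_product, mem_Icc, mem_Icc]
      exact ⟨⟨g1, g2⟩, ⟨g3, g4⟩⟩
    have h2 : S.card ≤ (X ^ A) ^ 2 := by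
      calc S.card ≤ _ := card_le_card h1
        _ = (X ^ A) ^ 2 := by
            rw [card_product, Nat.card_Icc]
            simp [sq]
    have h3 : (S.card : ℝ) ≤ ((X0 : ℝ) ^ A) ^ 2 := by
      calc (S.card : ℝ) ≤ (((X ^ A) ^ 2 : ℕ) : ℝ) := by exact_mod_cast h2
        _ = ((X : ℝ) ^ A) ^ 2 := by push_cast; rfl
        _ ≤ ((X0 : ℝ) ^ A) ^ 2 := by
            apply pow_le_pow_left₀ (by positivity)
            apply pow_le_pow_left₀ (by positivity)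
            exact_mod_cast hlt.le
    have h4 : 0 ≤ (((C1 : ℝ) ^ N) * ((2 * A + 3) ^ N * D2)) := by positivity
    have h5 : 0 ≤ ((X0 : ℝ) ^ A) ^ 2 := by positivity
    calc (S.card : ℝ) ≤ ((X0 : ℝ) ^ A) ^ 2 + (((C1 : ℝ) ^ N) * ((2 * A + 3) ^ N * D2)) + 1 := by
          linarith
      _ ≤ _ := le_mul_of_one_le_right (by positivity) hXε
  -- main case
  have hXQ : Q0 ≤ (X : ℝ) ^ (τ / 4) := by
    have h1 : Q0 ^ (4 / τ) ≤ (X : ℝ) := hX0.trans (by exact_mod_cast hge)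
    calc Q0 = (Q0 ^ (4 / τ)) ^ (τ / 4) := by
          rw [← Real.rpow_mul (by linarith)]
          rw [show 4 / τ * (τ / 4) = 1 by field_simp, Real.rpow_one]
      _ ≤ (X : ℝ) ^ (τ / 4) := Real.rpow_le_rpow (by positivity) h1 (by positivity)
  have hr0 : r ≠ 0 := by omega
  have hr1 : (1 : ℝ) < r := by exact_mod_cast (by omega : 1 < r)
  have hrp : (0 : ℝ) < r := by linarith
  have hlr : 0 < Real.log r := Real.log_pos hr1
  -- the scale
  obtain ⟨T, hT⟩ : ∃ T : ℝ, T = (X : ℝ) ^ τ := ⟨_, rfl⟩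
  have hT1 : 1 ≤ T := by rw [hT]; exact Real.one_le_rpow hX1 hτ0.le
  have hrT : (r : ℝ) ^ 4 ≤ T := by
    calc (r : ℝ) ^ 4 ≤ ((X : ℝ) ^ (τ / 4)) ^ 4 := pow_le_pow_left₀ hrp.le hrX 4
      _ = T := by
          rw [hT, ← Real.rpow_natCast, ← Real.rpow_mul hXp.le]
          congr 1
          push_cast
          ring
  obtain ⟨h, hh1, hh2⟩ := exists_expo hr2 hT1
  have hTh : T ≤ (r : ℝ) ^ (h + 1) := by
    have h1 : Real.log T ≤ Real.log ((r : ℝ) ^ (h + 1)) := by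
      rw [Real.log_pow, ← div_le_iff₀ hlr]
      push_cast
      exact hh2
    exact (Real.log_le_log_iff (by linarith) (by positivity)).mp h1
  have hh3 : 3 ≤ h := by
    have := (pow_le_pow_iff_right₀ hr1).mp (hrT.trans hTh)
    omega
  have hXrh : (X : ℝ) ^ (τ / 2) ≤ (r : ℝ) ^ h := by
    have h1 : (X : ℝ) ^ (τ / 2) * r ≤ (r : ℝ) ^ h * r := by
      calc (X : ℝ) ^ (τ / 2) * r ≤ (X : ℝ) ^ (τ / 2) * (X : ℝ) ^ (τ / 4) :=
            mul_le_mul_of_nonneg_left hrX (by positivity)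
        _ = (X : ℝ) ^ (τ / 2 + τ / 4) := by rw [← Real.rpow_add hXp]
        _ ≤ (X : ℝ) ^ τ := Real.rpow_le_rpow_of_exponent_le hX1 (by linarith)
        _ ≤ (r : ℝ) ^ (h + 1) := by rw [← hT]; exact hTh
        _ = (r : ℝ) ^ h * r := pow_succ _ _
    exact le_of_mul_le_mul_right h1 hrp
  obtain ⟨Y, hY⟩ : ∃ Y : ℝ, Y = (X : ℝ) ^ z := ⟨_, rfl⟩
  have hY1 : 1 ≤ Y := by rw [hY]; exact Real.one_le_rpow hX1 hz
  obtain ⟨Z, hZ⟩ : ∃ Z : ℕ, Z = ⌊Y⌋₊ := ⟨_, rfl⟩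
  have hZ1 : 1 ≤ Z := by rw [hZ]; exact Nat.le_floor (by push_cast; linarith)
  have hZY : (Z : ℝ) ≤ Y := by rw [hZ]; exact Nat.floor_le (by linarith)
  have hZA : Z ≤ (r ^ h) ^ w := by
    have h1 : Y ≤ ((r : ℝ) ^ h) ^ w := by
      calc Y = (X : ℝ) ^ z := hY
        _ ≤ (X : ℝ) ^ (τ / 2 * w) := Real.rpow_le_rpow_of_exponent_le hX1 hwz
        _ = ((X : ℝ) ^ (τ / 2)) ^ w := by rw [Real.rpow_mul hXp.le, Real.rpow_natCast]
        _ ≤ ((r : ℝ) ^ h) ^ w := pow_le_pow_left₀ (by positivity) hXrh _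
    exact_mod_cast hZY.trans h1
  obtain ⟨L, hL⟩ : ∃ L : ℕ, L = A * (Nat.log 2 X + 1) + 1 := ⟨_, rfl⟩
  have hLr : (L : ℝ) ≤ ((A : ℝ) + 1) * ((Nat.log 2 X + 1 : ℕ) : ℝ) := by
    rw [hL]
    push_cast
    have : (0 : ℝ) ≤ (Nat.log 2 X : ℝ) := Nat.cast_nonneg _
    nlinarith
  have hXL : ∀ m, m ≤ X ^ A → m < 2 ^ L := by
    intro m hm
    have h1 : X ^ A ≤ (2 ^ (Nat.log 2 X + 1)) ^ A :=
      Nat.pow_le_pow_left (Nat.lt_pow_succ_log_self (by norm_num) _).le A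
    rw [← pow_mul] at h1
    have h2 : 2 ^ ((Nat.log 2 X + 1) * A) < 2 ^ L := by
      apply Nat.pow_lt_pow_right (by norm_num)
      rw [hL, mul_comm]
      omega
    omega
  obtain ⟨Φ, hΦ⟩ : ∃ Φ : ℕ, Φ = N * L := ⟨_, rfl⟩
  have hΦle : M0 * Φ ≤ r ^ h := by
    have h1 : ((M0 * Φ : ℕ) : ℝ) ≤ (r : ℝ) ^ h := by
      refine le_trans ?_ hXrh
      rw [hΦ]
      push_cast
      have h2 := hlog1 X hX
      rw [pow_one] at h2
      calc (M0 : ℝ) * (N * L) ≤ M0 * (N * (((A : ℝ) + 1) * (D1 * (X : ℝ) ^ (τ / 4)))) := by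
            gcongr
            exact hLr.trans (mul_le_mul_of_nonneg_left h2 (by positivity))
        _ = (M0 * (N * ((A + 1) * D1))) * (X : ℝ) ^ (τ / 4) := by ring
        _ ≤ (X : ℝ) ^ (τ / 4) * (X : ℝ) ^ (τ / 4) := by
            apply mul_le_mul_of_nonneg_right _ (by positivity)
            linarith
        _ = (X : ℝ) ^ (τ / 2) := by
            rw [← Real.rpow_add hXp]
            congr 1
            ring
    exact_mod_cast h1
  obtain ⟨M, hM⟩ : ∃ M, M = h * kk := ⟨_, rfl⟩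
  have hMk : M ≤ k := by
    have h1 : (r : ℝ) ^ M ≤ (r : ℝ) ^ k := by
      calc (r : ℝ) ^ M = ((r : ℝ) ^ h) ^ kk := by rw [hM, pow_mul]
        _ ≤ T ^ kk := pow_le_pow_left₀ (by positivity) hh1 _
        _ = (X : ℝ) ^ (τ * kk) := by rw [hT, Real.rpow_mul hXp.le, Real.rpow_natCast]
        _ ≤ (X : ℝ) ^ (τ * kk + 1) := Real.rpow_le_rpow_of_exponent_le hX1 (by linarith)
        _ ≤ (r : ℝ) ^ k := hXk
    exact (pow_le_pow_iff_right₀ hr1).mp h1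
  -- representations
  have hex : ∀ q : ℕ × ℕ, ∃ (x : Fin n ⊕ Fin n → ℕ) (b : Fin n ⊕ Fin n → ℤ), q ∈ S →
      (∀ j, 1 ≤ x j ∧ (x j : ℝ) ≤ Y) ∧ (∀ j, |b j| ≤ L) ∧
      (∑ j, (b j : ℝ) * Real.log (x j) = Real.log q.1 - Real.log q.2) ∧
      ∀ N : ℕ, q.1.Coprime N → q.2.Coprime N → (∀ j, (x j).Coprime N) ∧
        ∏ j, (ud N (x j)) ^ b j = ud N q.1 * (ud N q.2)⁻¹ := by
    intro q
    by_cases hq : q ∈ S
    · obtain ⟨g1, g2, g3, g4, g5, g6, g7, g8, g9, g10⟩ := hS q hq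
      rw [← hY] at g8 g9
      obtain ⟨x, b, e1, e2, e3, e4⟩ := rep_pair hY1 g1 g3 (hXL _ g2) (hXL _ g4) g8 g9
      exact ⟨x, b, fun _ => ⟨e1, e2, e3, e4⟩⟩
    · exact ⟨fun _ => 0, fun _ => 0, fun h => absurd h hq⟩
  choose x b hxb using hex
  obtain ⟨κ', hκ'⟩ : ∃ κ' : (ZMod (r ^ M))ˣ, κ' = ZMod.unitsMap (pow_dvd_pow r hMk) hκ.unit :=
    ⟨_, rfl⟩
  have hfibers := Finset.card_le_mul_card_image_of_maps_to (s := S)
    (t := Fintype.piFinset fun _ : Fin n ⊕ Fin n => Finset.Icc (-(L : ℤ)) L) (f := b)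
    (fun q hq => by
      rw [Fintype.mem_piFinset]
      intro j
      rw [mem_Icc]
      exact abs_le.mp ((hxb q hq).2.1 j))
    ((C1 * (r ^ h) ^ N) ^ N) (by
      intro b0 hb0
      apply hcount (ℕ × ℕ) r h Z M Φ b0 (S.filter (fun q => b q = b0)) x κ' hr2
        (by omega) hZ1 hZA
      · rw [hΦ]
        calc ∑ j, |b0 j| ≤ ∑ _j : Fin n ⊕ Fin n, (L : ℤ) := by
              apply Finset.sum_le_sum
              intro j _
              rw [Fintype.mem_piFinset] at hb0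
              exact abs_le.mpr (mem_Icc.mp (hb0 j))
          _ = ((N * L : ℕ) : ℤ) := by
              rw [Finset.sum_const, Finset.card_univ, ← hN, nsmul_eq_mul]
              push_cast
              ring
      · exact hΦle
      · rw [hM]
      · intro q hq j
        obtain ⟨hqS, hqb⟩ := Finset.mem_filter.mp hq
        obtain ⟨g1, g2, g3, g4, g5, g6, g7, g8, g9, g10⟩ := hS q hqS
        have h9 := (hxb q hqS).1 j
        exact ⟨h9.1, by rw [hZ]; exact Nat.le_floor h9.2, ((hxb q hqS).2.2.2 r g6 g7).1 j⟩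
      · intro q hq
        obtain ⟨hqS, hqb⟩ := Finset.mem_filter.mp hq
        obtain ⟨g1, g2, g3, g4, g5, g6, g7, g8, g9, g10⟩ := hS q hqS
        rw [← hqb, ((hxb q hqS).2.2.2 (r ^ M) (Nat.Coprime.pow_right _ g6)
          (Nat.Coprime.pow_right _ g7)).2, mul_inv_eq_iff_eq_mul, hκ',
          ← map_ud (pow_dvd_pow r hMk) (Nat.Coprime.pow_right _ g6),
          ← map_ud (pow_dvd_pow r hMk) (Nat.Coprime.pow_right _ g7), ← map_mul]
        congr 1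
        rw [← Units.val_inj, Units.val_mul, ud_coe (Nat.Coprime.pow_right _ g6),
          ud_coe (Nat.Coprime.pow_right _ g7), IsUnit.unit_spec]
        exact g10
      · intro q hq q' hq' heq
        obtain ⟨hqS, hqb⟩ := Finset.mem_filter.mp hq
        obtain ⟨hqS', hqb'⟩ := Finset.mem_filter.mp hq'
        obtain ⟨g1, g2, g3, g4, g5, g6, g7, g8, g9, g10⟩ := hS q hqS
        obtain ⟨g1', g2', g3', g4', g5', g6', g7', g8', g9', g10'⟩ := hS q' hqS'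
        apply eq_of_log_ratio g1 g3 g5 g1' g3' g5'
        have e1 := (hxb q hqS).2.2.1
        have e2 := (hxb q' hqS').2.2.1
        rw [hqb] at e1
        rw [hqb'] at e2
        rw [e1, e2] at heq
        linarith)
  rw [Fintype.card_piFinset, prod_const, card_univ, ← hN, Int.card_Icc] at hfibers
  have hbox : ((L : ℤ) + 1 - -(L : ℤ)).toNat = 2 * L + 1 := by omega
  rw [hbox] at hfibers
  have hSr : (S.card : ℝ) ≤ ((C1 : ℝ) * ((r : ℝ) ^ h) ^ N) ^ N * ((2 * (L : ℝ) + 1)) ^ N := by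
    exact_mod_cast hfibers
  have hL2 : (2 * (L : ℝ) + 1) ≤ (2 * A + 3) * ((Nat.log 2 X + 1 : ℕ) : ℝ) := by
    have h1 : (1 : ℝ) ≤ ((Nat.log 2 X + 1 : ℕ) : ℝ) := by
      push_cast
      have : (0 : ℝ) ≤ (Nat.log 2 X : ℝ) := Nat.cast_nonneg _
      linarith
    nlinarith
  have h1 : ((C1 : ℝ) * ((r : ℝ) ^ h) ^ N) ^ N ≤ (C1 : ℝ) ^ N * (X : ℝ) ^ (ε / 2) := by
    calc ((C1 : ℝ) * ((r : ℝ) ^ h) ^ N) ^ N ≤ ((C1 : ℝ) * T ^ N) ^ N := by gcongr
      _ = (C1 : ℝ) ^ N * (X : ℝ) ^ (τ * (N * N : ℕ)) := by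
          rw [mul_pow, ← pow_mul, hT, Real.rpow_mul hXp.le, Real.rpow_natCast]
      _ ≤ (C1 : ℝ) ^ N * (X : ℝ) ^ (ε / 2) := by
          apply mul_le_mul_of_nonneg_left _ (by positivity)
          apply Real.rpow_le_rpow_of_exponent_le hX1
          rw [hτ]
          push_cast
          rw [div_mul_eq_mul_div, div_le_div_iff₀ (by positivity) (by norm_num)]
          nlinarith
  have h2 : ((2 * (L : ℝ) + 1)) ^ N ≤ (2 * A + 3) ^ N * D2 * (X : ℝ) ^ (ε / 2) := by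
    calc ((2 * (L : ℝ) + 1)) ^ N ≤ ((2 * A + 3) * ((Nat.log 2 X + 1 : ℕ) : ℝ)) ^ N :=
          pow_le_pow_left₀ (by positivity) hL2 N
      _ = (2 * A + 3) ^ N * ((Nat.log 2 X + 1 : ℕ) : ℝ) ^ N := mul_pow _ _ _
      _ ≤ (2 * A + 3) ^ N * (D2 * (X : ℝ) ^ (ε / 2)) :=
          mul_le_mul_of_nonneg_left (hlog2 X hX) (by positivity)
      _ = _ := by ring
  calc (S.card : ℝ) ≤ ((C1 : ℝ) * ((r : ℝ) ^ h) ^ N) ^ N * ((2 * (L : ℝ) + 1)) ^ N := hSr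
    _ ≤ ((C1 : ℝ) ^ N * (X : ℝ) ^ (ε / 2)) * ((2 * A + 3) ^ N * D2 * (X : ℝ) ^ (ε / 2)) :=
        mul_le_mul h1 h2 (by positivity) (by positivity)
    _ = ((C1 : ℝ) ^ N * ((2 * A + 3) ^ N * D2)) * (X : ℝ) ^ ε := by
        rw [show (X : ℝ) ^ ε = (X : ℝ) ^ (ε / 2) * (X : ℝ) ^ (ε / 2) by
          rw [← Real.rpow_add hXp]
          congr 1
          ring]
        ring
    _ ≤ _ := by
        apply mul_le_mul_of_nonneg_right _ (by positivity)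
        have : 0 ≤ ((X0 : ℝ) ^ A) ^ 2 := by positivity
        linarith

end Pool.Agent.Helper205_Exc
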