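import Pool.Agent.Helper205_Exc.Det

/-!
Few pairs of products of powers of few integers, of height up to `exp (X ^ η)`, are proportional modulo
a high power of a small integer.
-/

set_option autoImplicit false

namespace Pool.Agent.Helper205_Exc

open Finset Pool.Agent.Y913 Pool.Agent.Y913.Nb

/-- **pairs of products of powers of few integers, of height up to `exp (X ^ η)`, proportional modulo a
power of `r`** -/
theorem det_tall (n : ℕ) (z ε : ℝ) (hz : 0 ≤ z) (hε : 0 < ε) : ∃ B η C : ℝ, 0 < B ∧ 0 < η ∧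
    0 < C ∧ ∀ X : ℕ, 1 ≤ X → ∀ r k : ℕ, 2 ≤ r → (r : ℝ) ≤ (X : ℝ) ^ η →
    (X : ℝ) ^ B ≤ (r : ℝ) ^ k → ∀ (κ : ZMod (r ^ k)) (S : Finset (ℕ × ℕ)), IsUnit κ →
    (∀ t ∈ S, 1 ≤ t.1 ∧ (t.1 : ℝ) ≤ Real.exp ((X : ℝ) ^ η) ∧ 1 ≤ t.2 ∧
      (t.2 : ℝ) ≤ Real.exp ((X : ℝ) ^ η) ∧ Nat.Coprime t.1 t.2 ∧
      Nat.Coprime t.1 r ∧ Nat.Coprime t.2 r ∧ NB n ((X : ℝ) ^ z) t.1 ∧ NB n ((X : ℝ) ^ z) t.2 ∧
      (t.1 : ZMod (r ^ k)) = κ * t.2) → (S.card : ℝ) ≤ C * (X : ℝ) ^ ε := by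
  classical
  obtain ⟨N, hN⟩ : ∃ N, N = Fintype.card (Fin n ⊕ Fin n) := ⟨_, rfl⟩
  have hN0 : (0 : ℝ) ≤ N := Nat.cast_nonneg _
  obtain ⟨τ, hτ⟩ : ∃ τ : ℝ, τ = ε / (2 * ((N : ℝ) * N + 1)) := ⟨_, rfl⟩
  have hτ0 : 0 < τ := by rw [hτ]; positivity
  obtain ⟨w, hw⟩ : ∃ w : ℕ, w = ⌈2 * z / τ⌉₊ := ⟨_, rfl⟩
  have hwz : z ≤ τ / 2 * w := by
    have h1 : 2 * z / τ ≤ w := by rw [hw]; exact Nat.le_ceil _
    rw [div_le_iff₀ hτ0] at h1
    linarith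
  obtain ⟨M0, C1, hcount⟩ := count_padic_val3 (Fin n ⊕ Fin n) w
  rw [← hN] at hcount
  obtain ⟨kk, hkk⟩ : ∃ kk, kk = KK N (N * w) := ⟨_, rfl⟩
  rw [← hkk] at hcount
  -- the exponent for the height
  obtain ⟨η, hη⟩ : ∃ η : ℝ, η = min (τ / 4) (ε / (2 * ((N : ℝ) + 1))) := ⟨_, rfl⟩
  have hη0 : 0 < η := by rw [hη]; exact lt_min (by positivity) (by positivity)
  have hητ : η ≤ τ / 4 := by rw [hη]; exact min_le_left _ _
  have hηN : η * N ≤ ε / 2 := by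
    have h1 : η ≤ ε / (2 * ((N : ℝ) + 1)) := by rw [hη]; exact min_le_right _ _
    calc η * N ≤ ε / (2 * ((N : ℝ) + 1)) * N := mul_le_mul_of_nonneg_right h1 hN0
      _ ≤ ε / 2 := by
          rw [div_mul_eq_mul_div, div_le_div_iff₀ (by positivity) (by norm_num)]
          nlinarith
  -- threshold
  obtain ⟨Q0, hQ0⟩ : ∃ Q0 : ℝ, Q0 = M0 * (N * 3) + 1 := ⟨_, rfl⟩
  have hQ01 : 1 ≤ Q0 := by
    rw [hQ0]
    have : 0 ≤ (M0 : ℝ) * (N * 3) := by positivity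
    linarith
  obtain ⟨X0, hX0⟩ := exists_nat_ge (Q0 ^ (4 / τ))
  refine ⟨τ * kk + 1, η, (⌊Real.exp ((X0 : ℝ) ^ η)⌋₊ : ℝ) ^ 2 + ((C1 : ℝ) ^ N) * 7 ^ N + 1,
    by positivity, hη0, by positivity, ?_⟩
  intro X hX r k hr2 hrX' hXk κ S hκ hS
  have hXp : (0 : ℝ) < X := by exact_mod_cast hX
  have hX1 : (1 : ℝ) ≤ X := by exact_mod_cast hX
  have hrX : (r : ℝ) ≤ (X : ℝ) ^ (τ / 4) :=
    hrX'.trans (Real.rpow_le_rpow_of_exponent_le hX1 hητ)
  have hXε : (1 : ℝ) ≤ (X : ℝ) ^ ε := Real.one_le_rpow hX1 hε.le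
  rcases lt_or_ge X X0 with hlt | hge
  · -- trivial bound
    have h0 : Real.exp ((X : ℝ) ^ η) ≤ Real.exp ((X0 : ℝ) ^ η) := by
      apply Real.exp_le_exp.mpr
      exact Real.rpow_le_rpow hXp.le (by exact_mod_cast hlt.le) hη0.le
    obtain ⟨G, hG⟩ : ∃ G : ℕ, G = ⌊Real.exp ((X0 : ℝ) ^ η)⌋₊ := ⟨_, rfl⟩
    rw [← hG]
    have h1 : S ⊆ (Icc 1 G) ×ˢ (Icc 1 G) := by
      intro t ht
      obtain ⟨g1, g2, g3, g4, -⟩ := hS t ht
      rw [mem_product, mem_Icc, mem_Icc, hG]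
      exact ⟨⟨g1, Nat.le_floor (g2.trans h0)⟩, ⟨g3, Nat.le_floor (g4.trans h0)⟩⟩
    have h2 : S.card ≤ G ^ 2 := by
      calc S.card ≤ _ := card_le_card h1
        _ = G ^ 2 := by
            rw [card_product, Nat.card_Icc]
            simp [sq]
    have h3 : (S.card : ℝ) ≤ (G : ℝ) ^ 2 := by exact_mod_cast h2
    have h4 : 0 ≤ ((C1 : ℝ) ^ N) * 7 ^ N := by positivity
    calc (S.card : ℝ) ≤ (G : ℝ) ^ 2 + ((C1 : ℝ) ^ N) * 7 ^ N + 1 := by linarith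
      _ ≤ _ := le_mul_of_one_le_right (by positivity) hXε
  -- main case
  have hXQ : Q0 ≤ (X : ℝ) ^ (τ / 4) := by
    have h1 : Q0 ^ (4 / τ) ≤ (X : ℝ) := hX0.trans (by exact_mod_cast hge)
    calc Q0 = (Q0 ^ (4 / τ)) ^ (τ / 4) := by
          rw [← Real.rpow_mul (by linarith)]
          rw [show 4 / τ * (τ / 4) = 1 by field_simp, Real.rpow_one]
      _ ≤ (X : ℝ) ^ (τ / 4) := Real.rpow_le_rpow (by positivity) h1 (by positivity)
  have hr0 : r ≠ 0 := by omega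
  have hr1 : (1 : ℝ) < r := by exact_mod_cast (by omega : 1 < r)
  have hrp : (0 : ℝ) < r := by linarith
  have hlr : 0 < Real.log r := Real.log_pos hr1
  -- the scale
  obtain ⟨T, hT⟩ : ∃ T : ℝ, T = (X : ℝ) ^ τ := ⟨_, rfl⟩
  have hT1 : 1 ≤ T := by rw [hT]; exact Real.one_le_rpow hX1 hτ0.le
  have hrT : (r : ℝ) ^ 4 ≤ T := by
    calc (r : ℝ) ^ 4 ≤ ((X : ℝ) ^ (τ / 4)) ^ 4 := pow_le_pow_left₀ hrp.le hrX 4
      _ = T := by
          rw [hT, ← Real.rpow_natCast, ← Real.rpow_mul hXp.le]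
          congr 1
          push_cast
          ring
  obtain ⟨h, hh1, hh2⟩ := exists_expo hr2 hT1
  have hTh : T ≤ (r : ℝ) ^ (h + 1) := by
    have h1 : Real.log T ≤ Real.log ((r : ℝ) ^ (h + 1)) := by
      rw [Real.log_pow, ← div_le_iff₀ hlr]
      push_cast
      exact hh2
    exact (Real.log_le_log_iff (by linarith) (by positivity)).mp h1
  have hh3 : 3 ≤ h := by
    have := (pow_le_pow_iff_right₀ hr1).mp (hrT.trans hTh)
    omega
  have hXrh : (X : ℝ) ^ (τ / 2) ≤ (r : ℝ) ^ h := by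
    have h1 : (X : ℝ) ^ (τ / 2) * r ≤ (r : ℝ) ^ h * r := by
      calc (X : ℝ) ^ (τ / 2) * r ≤ (X : ℝ) ^ (τ / 2) * (X : ℝ) ^ (τ / 4) :=
            mul_le_mul_of_nonneg_left hrX (by positivity)
        _ = (X : ℝ) ^ (τ / 2 + τ / 4) := by rw [← Real.rpow_add hXp]
        _ ≤ (X : ℝ) ^ τ := Real.rpow_le_rpow_of_exponent_le hX1 (by linarith)
        _ ≤ (r : ℝ) ^ (h + 1) := by rw [← hT]; exact hTh
        _ = (r : ℝ) ^ h * r := pow_succ _ _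
    exact le_of_mul_le_mul_right h1 hrp
  obtain ⟨Y, hY⟩ : ∃ Y : ℝ, Y = (X : ℝ) ^ z := ⟨_, rfl⟩
  have hY1 : 1 ≤ Y := by rw [hY]; exact Real.one_le_rpow hX1 hz
  obtain ⟨Z, hZ⟩ : ∃ Z : ℕ, Z = ⌊Y⌋₊ := ⟨_, rfl⟩
  have hZ1 : 1 ≤ Z := by rw [hZ]; exact Nat.le_floor (by push_cast; linarith)
  have hZY : (Z : ℝ) ≤ Y := by rw [hZ]; exact Nat.floor_le (by linarith)
  have hZA : Z ≤ (r ^ h) ^ w := by
    have h1 : Y ≤ ((r : ℝ) ^ h) ^ w := by
      calc Y = (X : ℝ) ^ z := hY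
        _ ≤ (X : ℝ) ^ (τ / 2 * w) := Real.rpow_le_rpow_of_exponent_le hX1 hwz
        _ = ((X : ℝ) ^ (τ / 2)) ^ w := by rw [Real.rpow_mul hXp.le, Real.rpow_natCast]
        _ ≤ ((r : ℝ) ^ h) ^ w := pow_le_pow_left₀ (by positivity) hXrh _
    exact_mod_cast hZY.trans h1
  have hXη1 : (1 : ℝ) ≤ (X : ℝ) ^ η := Real.one_le_rpow hX1 hη0.le
  obtain ⟨L, hL⟩ : ∃ L : ℕ, L = ⌊2 * (X : ℝ) ^ η⌋₊ + 1 := ⟨_, rfl⟩
  have hLr : (L : ℝ) ≤ 3 * (X : ℝ) ^ η := by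
    rw [hL]
    push_cast
    have := Nat.floor_le (by positivity : (0 : ℝ) ≤ 2 * (X : ℝ) ^ η)
    linarith
  have hXL : ∀ m : ℕ, (m : ℝ) ≤ Real.exp ((X : ℝ) ^ η) → m < 2 ^ L := by
    intro m hm
    have h1 : Real.exp ((X : ℝ) ^ η) < (2 : ℝ) ^ L := by
      have h2 : (X : ℝ) ^ η < L * Real.log 2 := by
        have h3 : 2 * (X : ℝ) ^ η < L := by
          rw [hL]
          push_cast
          exact Nat.lt_floor_add_one _
        have h4 : (1 / 2 : ℝ) < Real.log 2 := by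
          have := Real.log_two_gt_d9
          linarith
        nlinarith
      calc Real.exp ((X : ℝ) ^ η) < Real.exp (L * Real.log 2) := Real.exp_lt_exp.mpr h2
        _ = (2 : ℝ) ^ L := by
            rw [mul_comm, Real.exp_mul, Real.exp_log (by norm_num), Real.rpow_natCast]
    exact_mod_cast hm.trans_lt h1
  obtain ⟨Φ, hΦ⟩ : ∃ Φ : ℕ, Φ = N * L := ⟨_, rfl⟩
  have hΦle : M0 * Φ ≤ r ^ h := by
    have h1 : ((M0 * Φ : ℕ) : ℝ) ≤ (r : ℝ) ^ h := by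
      refine le_trans ?_ hXrh
      rw [hΦ]
      push_cast
      have h2 : (X : ℝ) ^ η ≤ (X : ℝ) ^ (τ / 4) := Real.rpow_le_rpow_of_exponent_le hX1 hητ
      calc (M0 : ℝ) * (N * L) ≤ M0 * (N * (3 * (X : ℝ) ^ (τ / 4))) := by
            gcongr
            exact hLr.trans (mul_le_mul_of_nonneg_left h2 (by norm_num))
        _ = (M0 * (N * 3)) * (X : ℝ) ^ (τ / 4) := by ring
        _ ≤ (X : ℝ) ^ (τ / 4) * (X : ℝ) ^ (τ / 4) := by
            apply mul_le_mul_of_nonneg_right _ (by positivity)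
            linarith
        _ = (X : ℝ) ^ (τ / 2) := by
            rw [← Real.rpow_add hXp]
            congr 1
            ring
    exact_mod_cast h1
  obtain ⟨M, hM⟩ : ∃ M, M = h * kk := ⟨_, rfl⟩
  have hMk : M ≤ k := by
    have h1 : (r : ℝ) ^ M ≤ (r : ℝ) ^ k := by
      calc (r : ℝ) ^ M = ((r : ℝ) ^ h) ^ kk := by rw [hM, pow_mul]
        _ ≤ T ^ kk := pow_le_pow_left₀ (by positivity) hh1 _
        _ = (X : ℝ) ^ (τ * kk) := by rw [hT, Real.rpow_mul hXp.le, Real.rpow_natCast]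
        _ ≤ (X : ℝ) ^ (τ * kk + 1) := Real.rpow_le_rpow_of_exponent_le hX1 (by linarith)
        _ ≤ (r : ℝ) ^ k := hXk
    exact (pow_le_pow_iff_right₀ hr1).mp h1
  -- representations
  have hex : ∀ q : ℕ × ℕ, ∃ (x : Fin n ⊕ Fin n → ℕ) (b : Fin n ⊕ Fin n → ℤ), q ∈ S →
      (∀ j, 1 ≤ x j ∧ (x j : ℝ) ≤ Y) ∧ (∀ j, |b j| ≤ L) ∧
      (∑ j, (b j : ℝ) * Real.log (x j) = Real.log q.1 - Real.log q.2) ∧
      ∀ N : ℕ, q.1.Coprime N → q.2.Coprime N → (∀ j, (x j).Coprime N) ∧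
        ∏ j, (ud N (x j)) ^ b j = ud N q.1 * (ud N q.2)⁻¹ := by
    intro q
    by_cases hq : q ∈ S
    · obtain ⟨g1, g2, g3, g4, g5, g6, g7, g8, g9, g10⟩ := hS q hq
      rw [← hY] at g8 g9
      obtain ⟨x, b, e1, e2, e3, e4⟩ := rep_pair hY1 g1 g3 (hXL _ g2) (hXL _ g4) g8 g9
      exact ⟨x, b, fun _ => ⟨e1, e2, e3, e4⟩⟩
    · exact ⟨fun _ => 0, fun _ => 0, fun h => absurd h hq⟩
  choose x b hxb using hex
  obtain ⟨κ', hκ'⟩ : ∃ κ' : (ZMod (r ^ M))ˣ, κ' = ZMod.unitsMap (pow_dvd_pow r hMk) hκ.unit :=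
    ⟨_, rfl⟩
  have hfibers := Finset.card_le_mul_card_image_of_maps_to (s := S)
    (t := Fintype.piFinset fun _ : Fin n ⊕ Fin n => Finset.Icc (-(L : ℤ)) L) (f := b)
    (fun q hq => by
      rw [Fintype.mem_piFinset]
      intro j
      rw [mem_Icc]
      exact abs_le.mp ((hxb q hq).2.1 j))
    ((C1 * (r ^ h) ^ N) ^ N) (by
      intro b0 hb0
      apply hcount (ℕ × ℕ) r h Z M Φ b0 (S.filter (fun q => b q = b0)) x κ' hr2
        (by omega) hZ1 hZA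
      · rw [hΦ]
        calc ∑ j, |b0 j| ≤ ∑ _j : Fin n ⊕ Fin n, (L : ℤ) := by
              apply Finset.sum_le_sum
              intro j _
              rw [Fintype.mem_piFinset] at hb0
              exact abs_le.mpr (mem_Icc.mp (hb0 j))
          _ = ((N * L : ℕ) : ℤ) := by
              rw [Finset.sum_const, Finset.card_univ, ← hN, nsmul_eq_mul]
              push_cast
              ring
      · exact hΦle
      · rw [hM]
      · intro q hq j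
        obtain ⟨hqS, hqb⟩ := Finset.mem_filter.mp hq
        obtain ⟨g1, g2, g3, g4, g5, g6, g7, g8, g9, g10⟩ := hS q hqS
        have h9 := (hxb q hqS).1 j
        exact ⟨h9.1, by rw [hZ]; exact Nat.le_floor h9.2, ((hxb q hqS).2.2.2 r g6 g7).1 j⟩
      · intro q hq
        obtain ⟨hqS, hqb⟩ := Finset.mem_filter.mp hq
        obtain ⟨g1, g2, g3, g4, g5, g6, g7, g8, g9, g10⟩ := hS q hqS
        rw [← hqb, ((hxb q hqS).2.2.2 (r ^ M) (Nat.Coprime.pow_right _ g6)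
          (Nat.Coprime.pow_right _ g7)).2, mul_inv_eq_iff_eq_mul, hκ',
          ← map_ud (pow_dvd_pow r hMk) (Nat.Coprime.pow_right _ g6),
          ← map_ud (pow_dvd_pow r hMk) (Nat.Coprime.pow_right _ g7), ← map_mul]
        congr 1
        rw [← Units.val_inj, Units.val_mul, ud_coe (Nat.Coprime.pow_right _ g6),
          ud_coe (Nat.Coprime.pow_right _ g7), IsUnit.unit_spec]
        exact g10
      · intro q hq q' hq' heq
        obtain ⟨hqS, hqb⟩ := Finset.mem_filter.mp hq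
        obtain ⟨hqS', hqb'⟩ := Finset.mem_filter.mp hq'
        obtain ⟨g1, g2, g3, g4, g5, g6, g7, g8, g9, g10⟩ := hS q hqS
        obtain ⟨g1', g2', g3', g4', g5', g6', g7', g8', g9', g10'⟩ := hS q' hqS'
        apply eq_of_log_ratio g1 g3 g5 g1' g3' g5'
        have e1 := (hxb q hqS).2.2.1
        have e2 := (hxb q' hqS').2.2.1
        rw [hqb] at e1
        rw [hqb'] at e2
        rw [e1, e2] at heq
        linarith)
  rw [Fintype.card_piFinset, prod_const, card_univ, ← hN, Int.card_Icc] at hfibers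
  have hbox : ((L : ℤ) + 1 - -(L : ℤ)).toNat = 2 * L + 1 := by omega
  rw [hbox] at hfibers
  have hSr : (S.card : ℝ) ≤ ((C1 : ℝ) * ((r : ℝ) ^ h) ^ N) ^ N * ((2 * (L : ℝ) + 1)) ^ N := by
    exact_mod_cast hfibers
  have hL2 : (2 * (L : ℝ) + 1) ≤ 7 * (X : ℝ) ^ η := by linarith
  have h1 : ((C1 : ℝ) * ((r : ℝ) ^ h) ^ N) ^ N ≤ (C1 : ℝ) ^ N * (X : ℝ) ^ (ε / 2) := by
    calc ((C1 : ℝ) * ((r : ℝ) ^ h) ^ N) ^ N ≤ ((C1 : ℝ) * T ^ N) ^ N := by gcongr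
      _ = (C1 : ℝ) ^ N * (X : ℝ) ^ (τ * (N * N : ℕ)) := by
          rw [mul_pow, ← pow_mul, hT, Real.rpow_mul hXp.le, Real.rpow_natCast]
      _ ≤ (C1 : ℝ) ^ N * (X : ℝ) ^ (ε / 2) := by
          apply mul_le_mul_of_nonneg_left _ (by positivity)
          apply Real.rpow_le_rpow_of_exponent_le hX1
          rw [hτ]
          push_cast
          rw [div_mul_eq_mul_div, div_le_div_iff₀ (by positivity) (by norm_num)]
          nlinarith
  have h2 : ((2 * (L : ℝ) + 1)) ^ N ≤ 7 ^ N * (X : ℝ) ^ (ε / 2) := by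
    calc ((2 * (L : ℝ) + 1)) ^ N ≤ (7 * (X : ℝ) ^ η) ^ N :=
          pow_le_pow_left₀ (by positivity) hL2 N
      _ = 7 ^ N * (X : ℝ) ^ (η * N) := by
          rw [mul_pow, Real.rpow_mul hXp.le, Real.rpow_natCast]
      _ ≤ 7 ^ N * (X : ℝ) ^ (ε / 2) := by
          apply mul_le_mul_of_nonneg_left _ (by positivity)
          exact Real.rpow_le_rpow_of_exponent_le hX1 hηN
  calc (S.card : ℝ) ≤ ((C1 : ℝ) * ((r : ℝ) ^ h) ^ N) ^ N * ((2 * (L : ℝ) + 1)) ^ N := hSr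
    _ ≤ ((C1 : ℝ) ^ N * (X : ℝ) ^ (ε / 2)) * (7 ^ N * (X : ℝ) ^ (ε / 2)) :=
        mul_le_mul h1 h2 (by positivity) (by positivity)
    _ = ((C1 : ℝ) ^ N * 7 ^ N) * (X : ℝ) ^ ε := by
        rw [show (X : ℝ) ^ ε = (X : ℝ) ^ (ε / 2) * (X : ℝ) ^ (ε / 2) by
          rw [← Real.rpow_add hXp]
          congr 1
          ring]
        ring
    _ ≤ _ := by
        apply mul_le_mul_of_nonneg_right _ (by positivity)
        have : 0 ≤ (⌊Real.exp ((X0 : ℝ) ^ η)⌋₊ : ℝ) ^ 2 := by positivity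
        linarith

end Pool.Agent.Helper205_Exc
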