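import Pool.Agent.H705R2.ABC.Main

/-!
Energy of the set of the integers with a small radical modulo a large modulus `f`, and the count of
the pairs of such integers which are proportional modulo `f`.
-/

set_option autoImplicit false

namespace Pool.Agent.Helper205_Exc

open Finset Pool.Agent.H785R2.ABC Pool.Agent.H705R2.ABC

/-- Cauchy-Schwarz over the classes -/
theorem cs_pairs {α β γ : Type} [DecidableEq α] [DecidableEq β] [DecidableEq γ]
    (P : Finset α) (Q : Finset β) (κP : α → γ) (κQ : β → γ) :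
    (((P ×ˢ Q).filter fun t => κP t.1 = κQ t.2).card : ℝ) ^ 2 ≤
      (((P ×ˢ P).filter fun t => κP t.1 = κP t.2).card : ℝ) *
      (((Q ×ˢ Q).filter fun t => κQ t.1 = κQ t.2).card : ℝ) := by
  classical
  have key : ∀ {α' β' : Type} [DecidableEq α'] [DecidableEq β'] (P : Finset α') (Q : Finset β')
      (κP : α' → γ) (κQ : β' → γ) (C : Finset γ), (∀ n ∈ P, κP n ∈ C) →
      ((P ×ˢ Q).filter fun t => κP t.1 = κQ t.2).card =
      ∑ c ∈ C, (P.filter fun n => κP n = c).card * (Q.filter fun n => κQ n = c).card := by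
    intro α' β' _ _ P Q κP κQ C hC
    rw [card_eq_sum_card_fiberwise (f := fun t => κP t.1) (t := C)]
    · apply sum_congr rfl
      intro c _
      rw [← card_product]
      congr 1
      ext ⟨a, b⟩
      simp only [mem_filter, mem_product]
      constructor
      · rintro ⟨⟨⟨h1, h2⟩, h3⟩, h4⟩
        exact ⟨⟨h1, h4⟩, h2, by rw [← h3]; exact h4⟩
      · rintro ⟨⟨h1, h2⟩, h3, h4⟩
        exact ⟨⟨⟨h1, h3⟩, by rw [h2, h4]⟩, h2⟩
    · intro t ht
      have h1 : t ∈ (P ×ˢ Q).filter fun t => κP t.1 = κQ t.2 := ht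
      rw [mem_filter, mem_product] at h1
      exact hC _ h1.1.1
  set C : Finset γ := P.image κP ∪ Q.image κQ with hC
  have hP : ∀ n ∈ P, κP n ∈ C := fun n hn => mem_union_left _ (mem_image_of_mem _ hn)
  have hQ : ∀ n ∈ Q, κQ n ∈ C := fun n hn => mem_union_right _ (mem_image_of_mem _ hn)
  rw [key P Q κP κQ C hP, key P P κP κP C hP, key Q Q κQ κQ C hQ]
  push_cast
  have := sum_mul_sq_le_sq_mul_sq C (fun c => ((P.filter fun n => κP n = c).card : ℝ))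
    (fun c => ((Q.filter fun n => κQ n = c).card : ℝ))
  simpa [sq] using this

/-- energy of a union of few classes -/
theorem energy_split {α β γ : Type} [DecidableEq α] [DecidableEq β] [DecidableEq γ]
    (P : Finset α) (κ : α → γ) (lab : α → β) (B : ℝ) (hB : 0 ≤ B)
    (h : ∀ l ∈ P.image lab, ((((P.filter fun x => lab x = l) ×ˢ (P.filter fun x => lab x = l)).filter
      fun t => κ t.1 = κ t.2).card : ℝ) ≤ B) :
    (((P ×ˢ P).filter fun t => κ t.1 = κ t.2).card : ℝ) ≤ ((P.image lab).card : ℝ) ^ 2 * B := by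
  classical
  set L := P.image lab with hL
  have h1 : ((P ×ˢ P).filter fun t => κ t.1 = κ t.2).card =
      ∑ l ∈ L ×ˢ L, (((P.filter fun x => lab x = l.1) ×ˢ (P.filter fun x => lab x = l.2)).filter
        fun t => κ t.1 = κ t.2).card := by
    rw [card_eq_sum_card_fiberwise (f := fun t => (lab t.1, lab t.2)) (t := L ×ˢ L)]
    · apply sum_congr rfl
      rintro ⟨l1, l2⟩ _
      congr 1
      ext ⟨a, b⟩
      simp only [mem_filter, mem_product, Prod.mk.injEq]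
      tauto
    · intro t ht
      have h1 : t ∈ (P ×ˢ P).filter fun t => κ t.1 = κ t.2 := ht
      rw [mem_filter, mem_product] at h1
      exact mem_coe.mpr (mem_product.mpr ⟨mem_image_of_mem _ h1.1.1, mem_image_of_mem _ h1.1.2⟩)
  rw [h1]
  push_cast
  calc ∑ l ∈ L ×ˢ L, ((((P.filter fun x => lab x = l.1) ×ˢ (P.filter fun x => lab x = l.2)).filter
        fun t => κ t.1 = κ t.2).card : ℝ) ≤ ∑ l ∈ L ×ˢ L, B := by
        apply sum_le_sum
        rintro ⟨l1, l2⟩ hl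
        rw [mem_product] at hl
        have e1 := cs_pairs (P.filter fun x => lab x = l1) (P.filter fun x => lab x = l2) κ κ
        have e2 := h l1 hl.1
        have e3 := h l2 hl.2
        have e4 : (((((P.filter fun x => lab x = l1) ×ˢ (P.filter fun x => lab x = l2)).filter
          fun t => κ t.1 = κ t.2).card : ℝ)) ^ 2 ≤ B ^ 2 := by
          refine e1.trans ?_
          rw [sq]
          exact mul_le_mul e2 e3 (Nat.cast_nonneg _) hB
        exact le_of_sq_le_sq e4 hB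
    _ = (L.card : ℝ) ^ 2 * B := by
        rw [sum_const, card_product, nsmul_eq_mul]
        push_cast
        ring

/-- one class: given logs of the radicals of the classes of exponents and given tail -/
theorem cell_energy (K : ℕ) (ε : ℝ) (hε : 0 < ε) : ∃ D : ℝ, 0 < D ∧ ∀ X f : ℕ, 1 ≤ X → 1 ≤ f →
    f ≤ X → ∀ (R : ℕ) (l : Fin K → ℕ) (τ : ℕ) (P : Finset ℕ), 2 ^ K * R ≤ X →
    (∀ n ∈ P, 1 ≤ n ∧ Nat.Coprime n f ∧ rad n ≤ R ∧
      (∀ i : Fin K, Nat.log 2 (rd K n {i.castSucc}) = l i) ∧ part K n {Fin.last K} = τ) →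
    (((P ×ˢ P).filter fun t => (t.1 : ZMod f) = t.2).card : ℝ) ≤
      D * (X : ℝ) ^ ε * (((2 : ℝ) ^ K * R) * (1 + ((2 : ℝ) ^ K * R) ^ ((3 : ℝ) / 2) / f)) := by
  classical
  obtain ⟨D, hD, hJ⟩ := stmtJ_of (stmtPwr_of (stmtTwo_of stmtD') stmtFac) K ε hε
  refine ⟨D, hD, ?_⟩
  intro X f hX hf hfX R l τ P hRX hP
  have hF := basics
  rcases P.eq_empty_or_nonempty with rfl | ⟨n0, hn0⟩
  · simp only [product_empty, filter_empty, card_empty, Nat.cast_zero]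
    positivity
  obtain ⟨h01, h0co, h0rad, h0l, h0τ⟩ := hP n0 hn0
  set N : Fin K → ℕ := fun i => 2 ^ (l i + 1) with hN
  have hrd0 : ∀ n (i : Fin K), rd K n {i.castSucc} ≠ 0 := fun n i => by
    have := hF.rd_pos K n {i.castSucc}
    omega
  have hprodN : ∏ i, N i ≤ 2 ^ K * R := by
    have e1 : ∏ i, N i = 2 ^ K * ∏ i, 2 ^ (l i) := by
      simp only [hN, pow_succ]
      rw [prod_mul_distrib, prod_const, card_univ, Fintype.card_fin, mul_comm]
    rw [e1]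
    apply Nat.mul_le_mul_left
    calc ∏ i, 2 ^ l i ≤ ∏ i : Fin K, rd K n0 {i.castSucc} := by
          apply prod_le_prod' 
          intro i _
          rw [← h0l i]
          exact Nat.pow_log_le_self 2 (hrd0 n0 i)
      _ ≤ (∏ i : Fin K, rd K n0 {i.castSucc}) * rd K n0 {Fin.last K} :=
          Nat.le_mul_of_pos_right _ (hF.rd_pos _ _ _)
      _ = rad n0 := by rw [Est.rd_split hF, hF.rd_univ]
      _ ≤ R := h0rad
  set Q := (P ×ˢ P).filter fun t => (t.1 : ZMod f) = t.2 with hQ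
  set G : ℕ × ℕ → (Fin K → ℕ) × (Fin K → ℕ) :=
      fun x => (fun i => rd K x.1 {i.castSucc}, fun i => rd K x.2 {i.castSucc}) with hG
  have hinj : Set.InjOn G Q := by
    intro x hx x' hx' hxx
    have m1 := (mem_filter.mp hx).1
    have m2 := (mem_filter.mp hx').1
    rw [mem_product] at m1 m2
    have e1 := congrArg Prod.fst hxx
    have e2 := congrArg Prod.snd hxx
    simp only [hG] at e1 e2
    apply Prod.ext
    · rw [Est.fact hF K x.1 (hP _ m1.1).1, Est.fact hF K x'.1 (hP _ m2.1).1,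
        (hP _ m1.1).2.2.2.2, (hP _ m2.1).2.2.2.2]
      congr 1
      apply prod_congr rfl
      intro i _
      rw [congrFun e1 i]
    · rw [Est.fact hF K x.2 (hP _ m1.2).1, Est.fact hF K x'.2 (hP _ m2.2).1,
        (hP _ m1.2).2.2.2.2, (hP _ m2.2).2.2.2.2]
      congr 1
      apply prod_congr rfl
      intro i _
      rw [congrFun e2 i]
  rw [← card_image_of_injOn hinj]
  have hτ : Nat.Coprime τ f := by
    rw [← h0τ]
    exact Nat.Coprime.coprime_dvd_left (hF.part_dvd K _ _ h01) h0co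
  have hτu : IsUnit (τ : ZMod f) := (ZMod.isUnit_iff_coprime τ f).mpr hτ
  have hbound := hJ X f hX hf hfX N (fun i => Nat.one_le_two_pow) (hprodN.trans hRX) 1 isUnit_one
    (Q.image G) (by
      intro y hy
      obtain ⟨x, hx, rfl⟩ := mem_image.1 hy
      have hx' := mem_filter.mp hx
      have m1 := hx'.1
      rw [mem_product] at m1
      have hside : ∀ n ∈ P, ∀ i : Fin K, 1 ≤ rd K n {i.castSucc} ∧ rd K n {i.castSucc} ≤ N i ∧
          Nat.Coprime (rd K n {i.castSucc}) f := by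
        intro n hn i
        obtain ⟨g1, g2, g3, g4, g5⟩ := hP n hn
        refine ⟨hF.rd_pos _ _ _, ?_, ?_⟩
        · simp only [hN]
          rw [← g4 i]
          exact (Nat.lt_pow_succ_log_self (by norm_num) _).le
        · exact Nat.Coprime.coprime_dvd_left (Est.rd_dvd_self hF K _ g1 _) g2
      refine ⟨hside _ m1.1, hside _ m1.2, ?_⟩
      have h6 := hx'.2
      rw [Est.fact hF K x.1 (hP _ m1.1).1, Est.fact hF K x.2 (hP _ m1.2).1,
        (hP _ m1.1).2.2.2.2, (hP _ m1.2).2.2.2.2] at h6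
      push_cast at h6
      rw [one_mul]
      exact hτu.mul_right_cancel h6)
  refine hbound.trans ?_
  have hNr : (∏ i, (N i : ℝ)) ≤ (2 : ℝ) ^ K * R := by exact_mod_cast hprodN
  have hN0 : (0 : ℝ) ≤ ∏ i, (N i : ℝ) := prod_nonneg fun i _ => Nat.cast_nonneg _
  have hf0 : (0 : ℝ) < f := by exact_mod_cast hf
  apply mul_le_mul_of_nonneg_left _ (by positivity)
  have h7 : (∏ i, (N i : ℝ)) ^ ((3 : ℝ) / 2) / f ≤ ((2 : ℝ) ^ K * R) ^ ((3 : ℝ) / 2) / f := by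
    apply div_le_div_of_nonneg_right _ hf0.le
    exact Real.rpow_le_rpow hN0 hNr (by norm_num)
  apply mul_le_mul hNr (by linarith) (by positivity) (by positivity)

/-- number of tails: integers `≤ X ^ A` all of whose exponents exceed `K` -/
theorem tails (A K : ℕ) (ε : ℝ) (hε : 0 < ε) : ∃ D : ℝ, 0 < D ∧ ∀ X : ℕ, 1 ≤ X →
    ∀ T : Finset ℕ, (∀ τ ∈ T, ∃ n, 1 ≤ n ∧ n ≤ X ^ A ∧ τ = part K n {Fin.last K}) →
    (T.card : ℝ) ≤ D * (X : ℝ) ^ (ε * A + (A : ℝ) / (K + 1)) := by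
  classical
  obtain ⟨D, hD, h4⟩ := stmtA4' ε hε
  refine ⟨D, hD, ?_⟩
  intro X hX T hT
  have hF := basics
  have hX0 : (0 : ℝ) < X := by exact_mod_cast hX
  have hXA : 1 ≤ X ^ A := Nat.one_le_pow _ _ hX
  have h1 : T ⊆ (Icc 1 (X ^ A)).filter fun d => (rad d : ℝ) ≤ (X : ℝ) ^ ((A : ℝ) / (K + 1)) := by
    intro τ hτ
    obtain ⟨n, hn1, hn2, rfl⟩ := hT τ hτ
    rw [mem_filter, mem_Icc]
    have e1 := hF.part_pos K n {Fin.last K}
    have e2 : part K n {Fin.last K} ≤ X ^ A := (Nat.le_of_dvd hn1 (hF.part_dvd K n _ hn1)).trans hn2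
    refine ⟨⟨e1, e2⟩, ?_⟩
    rw [hF.rad_part K n _ hn1]
    have e3 := hF.part_last K n
    have e4 : ((rd K n {Fin.last K} : ℕ) : ℝ) ^ (K + 1) ≤ (X : ℝ) ^ (A : ℝ) := by
      rw [Real.rpow_natCast]
      exact_mod_cast e3.trans e2
    have e5 : ((rd K n {Fin.last K} : ℕ) : ℝ) =
        (((rd K n {Fin.last K} : ℕ) : ℝ) ^ (K + 1)) ^ ((1 : ℝ) / (K + 1)) := by
      rw [← Real.rpow_natCast, ← Real.rpow_mul (Nat.cast_nonneg _)]
      push_cast
      rw [mul_one_div_cancel (by positivity), Real.rpow_one]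
    rw [e5]
    calc (((rd K n {Fin.last K} : ℕ) : ℝ) ^ (K + 1)) ^ ((1 : ℝ) / (K + 1))
        ≤ ((X : ℝ) ^ (A : ℝ)) ^ ((1 : ℝ) / (K + 1)) :=
          Real.rpow_le_rpow (by positivity) e4 (by positivity)
      _ = (X : ℝ) ^ ((A : ℝ) / (K + 1)) := by
          rw [← Real.rpow_mul hX0.le]
          congr 1
          ring
  have h2 := h4 (X ^ A) hXA ((X : ℝ) ^ ((A : ℝ) / (K + 1))) (by positivity)
  calc (T.card : ℝ) ≤ (((Icc 1 (X ^ A)).filter fun d =>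
        (rad d : ℝ) ≤ (X : ℝ) ^ ((A : ℝ) / (K + 1))).card : ℝ) := by
        exact_mod_cast card_le_card h1
    _ ≤ _ := h2
    _ = D * (X : ℝ) ^ (ε * A + (A : ℝ) / (K + 1)) := by
        rw [Real.rpow_add hX0, mul_assoc]
        congr 2
        push_cast
        rw [← Real.rpow_natCast, ← Real.rpow_mul hX0.le]
        congr 1
        ring

/-- powers of logarithms are small -/
theorem log_pow_le (k : ℕ) (ε : ℝ) (hε : 0 < ε) : ∃ D : ℝ, 0 < D ∧ ∀ X : ℕ, 1 ≤ X →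
    ((Nat.log 2 X + 1 : ℕ) : ℝ) ^ k ≤ D * (X : ℝ) ^ ε := by
  obtain ⟨e, he⟩ : ∃ e : ℝ, e = ε / (k + 1) := ⟨_, rfl⟩
  have he0 : 0 < e := by rw [he]; positivity
  refine ⟨(1 + 1 / (e * Real.log 2)) ^ k, by positivity, ?_⟩
  intro X hX
  have hX0 : (0 : ℝ) < X := by exact_mod_cast hX
  have hX1 : (1 : ℝ) ≤ X := by exact_mod_cast hX
  have hl2 : 0 < Real.log 2 := Real.log_pos (by norm_num)
  have h1 : ((Nat.log 2 X : ℕ) : ℝ) * Real.log 2 ≤ Real.log X := by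
    have := Nat.pow_log_le_self 2 (by omega : X ≠ 0)
    have h2 : ((2 : ℝ) ^ (Nat.log 2 X)) ≤ X := by exact_mod_cast this
    have h3 := Real.log_le_log (by positivity) h2
    rwa [Real.log_pow] at h3
  have h2 : Real.log X ≤ (X : ℝ) ^ e / e := Real.log_le_rpow_div hX0.le he0
  have h3 : ((Nat.log 2 X + 1 : ℕ) : ℝ) ≤ (1 + 1 / (e * Real.log 2)) * (X : ℝ) ^ e := by
    have h4 : ((Nat.log 2 X : ℕ) : ℝ) ≤ (X : ℝ) ^ e / e / Real.log 2 := by
      rw [le_div_iff₀ hl2]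
      exact h1.trans h2
    have h5 : (1 : ℝ) ≤ (X : ℝ) ^ e := Real.one_le_rpow hX1 he0.le
    push_cast
    calc ((Nat.log 2 X : ℕ) : ℝ) + 1 ≤ (X : ℝ) ^ e / e / Real.log 2 + (X : ℝ) ^ e := by linarith
      _ = (1 + 1 / (e * Real.log 2)) * (X : ℝ) ^ e := by
          field_simp
          ring
  calc ((Nat.log 2 X + 1 : ℕ) : ℝ) ^ k ≤ ((1 + 1 / (e * Real.log 2)) * (X : ℝ) ^ e) ^ k :=
        pow_le_pow_left₀ (Nat.cast_nonneg _) h3 k
    _ = (1 + 1 / (e * Real.log 2)) ^ k * (X : ℝ) ^ (e * k) := by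
        rw [mul_pow, ← Real.rpow_natCast ((X : ℝ) ^ e) k, ← Real.rpow_mul hX0.le]
    _ ≤ (1 + 1 / (e * Real.log 2)) ^ k * (X : ℝ) ^ ε := by
        apply mul_le_mul_of_nonneg_left _ (by positivity)
        apply Real.rpow_le_rpow_of_exponent_le hX1
        rw [he, div_mul_eq_mul_div, div_le_iff₀ (by positivity)]
        nlinarith

/-- **energy of the integers with radical at most `R`** -/
theorem energy (A : ℕ) (ε : ℝ) (hε : 0 < ε) : ∃ D : ℝ, 0 < D ∧ ∀ X f : ℕ, 1 ≤ X → 1 ≤ f →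
    f ≤ X ^ A → ∀ (R : ℕ) (P : Finset ℕ), R ≤ X → (R : ℝ) ^ ((3 : ℝ) / 2) ≤ f →
    (∀ n ∈ P, 1 ≤ n ∧ n ≤ X ^ A ∧ Nat.Coprime n f ∧ rad n ≤ R) →
    (((P ×ˢ P).filter fun t => (t.1 : ZMod f) = t.2).card : ℝ) ≤ D * (X : ℝ) ^ ε * R := by
  classical
  -- parameters
  obtain ⟨K, hK⟩ := exists_nat_gt (16 * (A : ℝ) / ε)
  obtain ⟨e, he⟩ : ∃ e : ℝ, e = ε / (16 * (A + 1)) := ⟨_, rfl⟩
  have he0 : 0 < e := by rw [he]; positivity
  obtain ⟨D1, hD1, hcell⟩ := cell_energy K e he0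
  obtain ⟨D2, hD2, htail⟩ := tails A K e he0
  obtain ⟨D3, hD3, hlog⟩ := log_pow_le K (ε / 16) (by positivity)
  refine ⟨(D3 * D2) ^ 2 * (D1 * (((2 : ℝ) ^ K) ^ e * ((2 : ℝ) ^ K * (1 + ((2 : ℝ) ^ K) ^ ((3 : ℝ) / 2))))),
    by positivity, ?_⟩
  intro X f hX hf hfX R P hRX hRf hP
  have hF := basics
  have hX0 : (0 : ℝ) < X := by exact_mod_cast hX
  have hX1 : (1 : ℝ) ≤ X := by exact_mod_cast hX
  have hf0 : (0 : ℝ) < f := by exact_mod_cast hf
  rcases P.eq_empty_or_nonempty with rfl | ⟨n0, hn0⟩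
  · simp only [product_empty, filter_empty, card_empty, Nat.cast_zero]
    positivity
  have hR1 : 1 ≤ R := by
    have h1 := (hP n0 hn0).2.2.2
    have h2 := hF.rd_pos K n0 univ
    rw [hF.rd_univ] at h2
    omega
  obtain ⟨X2, hX2⟩ : ∃ X2 : ℕ, X2 = 2 ^ K * X ^ (A + 1) := ⟨_, rfl⟩
  have hXA1 : 1 ≤ X ^ (A + 1) := Nat.one_le_pow _ _ hX
  have hX21 : 1 ≤ X2 := by
    rw [hX2]
    exact Nat.mul_pos Nat.one_le_two_pow hXA1
  have hXAA : X ^ A ≤ X ^ (A + 1) := Nat.pow_le_pow_right hX (by omega)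
  have hfX2 : f ≤ X2 := by
    rw [hX2]
    calc f ≤ X ^ A := hfX
      _ ≤ X ^ (A + 1) := hXAA
      _ ≤ 2 ^ K * X ^ (A + 1) := Nat.le_mul_of_pos_left _ Nat.one_le_two_pow
  have hRX2 : 2 ^ K * R ≤ X2 := by
    rw [hX2]
    apply Nat.mul_le_mul_left
    calc R ≤ X := hRX
      _ = X ^ 1 := (pow_one X).symm
      _ ≤ X ^ (A + 1) := Nat.pow_le_pow_right hX (by omega)
  obtain ⟨lab, hlab⟩ : ∃ lab : ℕ → (Fin K → ℕ) × ℕ, lab = fun n =>
    (fun i => Nat.log 2 (rd K n {i.castSucc}), part K n {Fin.last K}) := ⟨_, rfl⟩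
  obtain ⟨B, hB⟩ : ∃ B : ℝ, B = D1 * (X2 : ℝ) ^ e * (((2 : ℝ) ^ K * R) *
    (1 + ((2 : ℝ) ^ K * R) ^ ((3 : ℝ) / 2) / f)) := ⟨_, rfl⟩
  have hB0 : 0 ≤ B := by rw [hB]; positivity
  have hsplit := energy_split P (fun n : ℕ => (n : ZMod f)) lab B hB0 (by
    intro l _
    rw [hB]
    apply hcell X2 f hX21 hf hfX2 R l.1 l.2 _ hRX2
    intro n hn
    rw [mem_filter] at hn
    obtain ⟨g1, g2, g3, g4⟩ := hP n hn.1
    have g5 := hn.2
    rw [hlab] at g5
    refine ⟨g1, g3, g4, fun i => ?_, ?_⟩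
    · exact congrFun (congrArg Prod.fst g5) i
    · exact congrArg Prod.snd g5)
  -- number of labels
  have hlabcard : ((P.image lab).card : ℝ) ≤ (D3 * D2) * (X : ℝ) ^ (ε / 4) := by
    obtain ⟨Tl, hTl⟩ : ∃ Tl : Finset ℕ, Tl = P.image fun n => part K n {Fin.last K} := ⟨_, rfl⟩
    have h1 : P.image lab ⊆ (Fintype.piFinset fun _ : Fin K => range (Nat.log 2 X + 1)) ×ˢ Tl := by
      intro l hl
      obtain ⟨n, hn, rfl⟩ := mem_image.mp hl
      obtain ⟨g1, g2, g3, g4⟩ := hP n hn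
      rw [mem_product, Fintype.mem_piFinset, hlab]
      constructor
      · intro i
        rw [mem_range]
        have e1 : rd K n {i.castSucc} ≤ X := by
          calc rd K n {i.castSucc} ≤ rd K n univ :=
                Nat.le_of_dvd (hF.rd_pos _ _ _) (hF.rd_dvd K n _ _ (subset_univ _))
            _ = rad n := hF.rd_univ K n
            _ ≤ X := g4.trans hRX
        have e2 : Nat.log 2 (rd K n {i.castSucc}) ≤ Nat.log 2 X := Nat.log_mono_right e1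
        show Nat.log 2 (rd K n {i.castSucc}) < Nat.log 2 X + 1
        omega
      · rw [hTl]
        exact mem_image_of_mem _ hn
    have h2 := card_le_card h1
    rw [card_product, Fintype.card_piFinset, prod_const, card_range, card_univ,
      Fintype.card_fin] at h2
    have h3 := htail X hX Tl (by
      intro τ hτ
      rw [hTl] at hτ
      obtain ⟨n, hn, rfl⟩ := mem_image.mp hτ
      exact ⟨n, (hP n hn).1, (hP n hn).2.1, rfl⟩)
    have h4 := hlog X hX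
    have h5 : (X : ℝ) ^ (e * A + (A : ℝ) / (K + 1)) ≤ (X : ℝ) ^ (ε / 8) := by
      apply Real.rpow_le_rpow_of_exponent_le hX1
      have e1 : e * A ≤ ε / 16 := by
        rw [he, div_mul_eq_mul_div, div_le_div_iff₀ (by positivity) (by norm_num)]
        nlinarith
      have e2 : (A : ℝ) / (K + 1) ≤ ε / 16 := by
        rw [div_le_div_iff₀ (by positivity) (by norm_num)]
        rw [div_lt_iff₀ hε] at hK
        nlinarith
      linarith
    calc ((P.image lab).card : ℝ) ≤ ((Nat.log 2 X + 1 : ℕ) : ℝ) ^ K * Tl.card := by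
          exact_mod_cast h2
      _ ≤ (D3 * (X : ℝ) ^ (ε / 16)) * (D2 * (X : ℝ) ^ (ε / 8)) := by
          apply mul_le_mul h4 (h3.trans _) (Nat.cast_nonneg _) (by positivity)
          exact mul_le_mul_of_nonneg_left h5 hD2.le
      _ = (D3 * D2) * (X : ℝ) ^ (ε / 16 + ε / 8) := by
          rw [Real.rpow_add hX0]
          ring
      _ ≤ (D3 * D2) * (X : ℝ) ^ (ε / 4) := by
          apply mul_le_mul_of_nonneg_left _ (by positivity)
          apply Real.rpow_le_rpow_of_exponent_le hX1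
          linarith
  have hBle : B ≤ (D1 * (((2 : ℝ) ^ K) ^ e * ((2 : ℝ) ^ K * (1 + ((2 : ℝ) ^ K) ^ ((3 : ℝ) / 2))))) *
      (X : ℝ) ^ (ε / 16) * R := by
    have e1 : (X2 : ℝ) ^ e = ((2 : ℝ) ^ K) ^ e * (X : ℝ) ^ (ε / 16) := by
      rw [hX2]
      push_cast
      rw [Real.mul_rpow (by positivity) (by positivity), ← Real.rpow_natCast (X : ℝ) (A + 1),
        ← Real.rpow_mul hX0.le]
      congr 2
      rw [he]
      push_cast
      field_simp
    have e2 : ((2 : ℝ) ^ K * R) ^ ((3 : ℝ) / 2) / f ≤ ((2 : ℝ) ^ K) ^ ((3 : ℝ) / 2) := by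
      rw [Real.mul_rpow (by positivity) (Nat.cast_nonneg _), mul_div_assoc]
      have : (R : ℝ) ^ ((3 : ℝ) / 2) / f ≤ 1 := (div_le_one hf0).mpr hRf
      calc ((2 : ℝ) ^ K) ^ ((3 : ℝ) / 2) * ((R : ℝ) ^ ((3 : ℝ) / 2) / f) ≤
            ((2 : ℝ) ^ K) ^ ((3 : ℝ) / 2) * 1 := mul_le_mul_of_nonneg_left this (by positivity)
        _ = _ := mul_one _
    rw [hB, e1]
    calc D1 * (((2 : ℝ) ^ K) ^ e * (X : ℝ) ^ (ε / 16)) *
          ((2 : ℝ) ^ K * R * (1 + ((2 : ℝ) ^ K * R) ^ ((3 : ℝ) / 2) / f))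
        ≤ D1 * (((2 : ℝ) ^ K) ^ e * (X : ℝ) ^ (ε / 16)) *
          ((2 : ℝ) ^ K * R * (1 + ((2 : ℝ) ^ K) ^ ((3 : ℝ) / 2))) := by
          gcongr
      _ = _ := by ring
  calc (((P ×ˢ P).filter fun t => (t.1 : ZMod f) = t.2).card : ℝ)
      ≤ ((P.image lab).card : ℝ) ^ 2 * B := hsplit
    _ ≤ ((D3 * D2) * (X : ℝ) ^ (ε / 4)) ^ 2 *
        ((D1 * (((2 : ℝ) ^ K) ^ e * ((2 : ℝ) ^ K * (1 + ((2 : ℝ) ^ K) ^ ((3 : ℝ) / 2))))) *
      (X : ℝ) ^ (ε / 16) * R) := by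
        apply mul_le_mul (pow_le_pow_left₀ (Nat.cast_nonneg _) hlabcard 2) hBle hB0 (by positivity)
    _ = ((D3 * D2) ^ 2 * (D1 * (((2 : ℝ) ^ K) ^ e * ((2 : ℝ) ^ K * (1 + ((2 : ℝ) ^ K) ^ ((3 : ℝ) / 2)))))) *
        ((X : ℝ) ^ (ε / 4 + ε / 4 + ε / 16)) * R := by
        rw [Real.rpow_add hX0, Real.rpow_add hX0]
        ring
    _ ≤ _ := by
        apply mul_le_mul_of_nonneg_right _ (Nat.cast_nonneg _)
        apply mul_le_mul_of_nonneg_left _ (by positivity)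
        apply Real.rpow_le_rpow_of_exponent_le hX1
        linarith

/-- **pairs of integers with small radicals, proportional modulo `f`** -/
theorem pairs (A : ℕ) (ε : ℝ) (hε : 0 < ε) : ∃ D : ℝ, 0 < D ∧ ∀ X f : ℕ, 1 ≤ X → 1 ≤ f →
    f ≤ X ^ A → (X : ℝ) ^ ((3 : ℝ) / 2) ≤ f → ∀ (R1 R2 : ℕ) (σ : ZMod f) (T : Finset (ℕ × ℕ)),
    IsUnit σ → R1 ≤ X → R2 ≤ X →
    (∀ t ∈ T, 1 ≤ t.1 ∧ t.1 ≤ X ^ A ∧ Nat.Coprime t.1 f ∧ rad t.1 ≤ R1 ∧
      1 ≤ t.2 ∧ t.2 ≤ X ^ A ∧ Nat.Coprime t.2 f ∧ rad t.2 ≤ R2 ∧ (t.1 : ZMod f) = σ * t.2) →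
    (T.card : ℝ) ≤ D * (X : ℝ) ^ ε * ((R1 : ℝ) * R2) ^ ((1 : ℝ) / 2) := by
  classical
  obtain ⟨D, hD, hen⟩ := energy A ε hε
  refine ⟨D, hD, ?_⟩
  intro X f hX hf hfX hXf R1 R2 σ T hσ hR1 hR2 hT
  have hX0 : (0 : ℝ) < X := by exact_mod_cast hX
  have hXf' : ∀ R : ℕ, R ≤ X → (R : ℝ) ^ ((3 : ℝ) / 2) ≤ f := fun R hR =>
    (Real.rpow_le_rpow (Nat.cast_nonneg _) (by exact_mod_cast hR) (by norm_num)).trans hXf
  obtain ⟨P, hP⟩ : ∃ P, P = T.image Prod.fst := ⟨_, rfl⟩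
  obtain ⟨Q, hQ⟩ : ∃ Q, Q = T.image Prod.snd := ⟨_, rfl⟩
  have hPm : ∀ n ∈ P, 1 ≤ n ∧ n ≤ X ^ A ∧ Nat.Coprime n f ∧ rad n ≤ R1 := by
    intro n hn
    rw [hP] at hn
    obtain ⟨t, ht, rfl⟩ := mem_image.mp hn
    obtain ⟨g1, g2, g3, g4, -⟩ := hT t ht
    exact ⟨g1, g2, g3, g4⟩
  have hQm : ∀ n ∈ Q, 1 ≤ n ∧ n ≤ X ^ A ∧ Nat.Coprime n f ∧ rad n ≤ R2 := by
    intro n hn
    rw [hQ] at hn
    obtain ⟨t, ht, rfl⟩ := mem_image.mp hn
    obtain ⟨-, -, -, -, g1, g2, g3, g4, -⟩ := hT t ht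
    exact ⟨g1, g2, g3, g4⟩
  have h1 : T ⊆ (P ×ˢ Q).filter fun t => (t.1 : ZMod f) = σ * (t.2 : ZMod f) := by
    intro t ht
    rw [mem_filter, mem_product, hP, hQ]
    exact ⟨⟨mem_image_of_mem _ ht, mem_image_of_mem _ ht⟩, (hT t ht).2.2.2.2.2.2.2.2⟩
  have h2 := cs_pairs P Q (fun n : ℕ => (n : ZMod f)) (fun n : ℕ => σ * (n : ZMod f))
  have h3 := hen X f hX hf hfX R1 P hR1 (hXf' R1 hR1) hPm
  have h4 := hen X f hX hf hfX R2 Q hR2 (hXf' R2 hR2) hQm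
  have h5 : ((Q ×ˢ Q).filter fun t => σ * (t.1 : ZMod f) = σ * (t.2 : ZMod f)) =
      (Q ×ˢ Q).filter fun t => (t.1 : ZMod f) = t.2 := by
    apply filter_congr
    intro t _
    exact ⟨fun h => hσ.mul_left_cancel h, fun h => by rw [h]⟩
  rw [h5] at h2
  have h6 : (T.card : ℝ) ^ 2 ≤ (D * (X : ℝ) ^ ε * R1) * (D * (X : ℝ) ^ ε * R2) := by
    calc (T.card : ℝ) ^ 2 ≤ (((P ×ˢ Q).filter fun t =>
          (t.1 : ZMod f) = σ * (t.2 : ZMod f)).card : ℝ) ^ 2 :=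
          pow_le_pow_left₀ (Nat.cast_nonneg _) (by exact_mod_cast card_le_card h1) 2
      _ ≤ _ := h2
      _ ≤ _ := mul_le_mul h3 h4 (Nat.cast_nonneg _) (by positivity)
  have h7 : (D * (X : ℝ) ^ ε * ((R1 : ℝ) * R2) ^ ((1 : ℝ) / 2)) ^ 2 =
      (D * (X : ℝ) ^ ε * R1) * (D * (X : ℝ) ^ ε * R2) := by
    rw [← Real.sqrt_eq_rpow, mul_pow, Real.sq_sqrt (by positivity)]
    ring
  rw [← h7] at h6
  exact le_of_sq_le_sq h6 (by positivity)

end Pool.Agent.Helper205_Exc
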