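import Pool.Agent.Helper205_Exc.Szp
import Pool.Agent.Y679.Fh.Gm

/-!
Elliptic curves in a family with rational bad fibres whose Faltings height is large compared to the
conductor.
-/

set_option autoImplicit false

namespace Pool.Agent.Helper205_Exc

open Finset Pool.Agent.Results.MP_4d5ce1_nt.AllHeightsSharp Pool.Agent.Y680.T Pool.Agent.TH867.QF

variable {q : ℕ} {P : WeierstrassCurve ℤ → Prop}

/-- `x` is a point attached to the curve `W` -/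
def IsX (F : Fam q P) (W : WeierstrassCurve ℤ) (x : ℤ × ℤ) : Prop :=
  Nrm x ∧ (∀ i, Lf (F.α i) x ≠ 0) ∧ ∃ k : ℕ, 0 < k ∧ k ≤ F.A ∧
    (∀ p : ℕ, p.Prime → p ∣ k → p ∈ F.S) ∧ k * W.Δ.natAbs = ∏ i, (Lf (F.α i) x).natAbs ^ F.e i ∧
    inv W ∈ F.R x

/-- the curves with `N ≤ X` whose point has height between `X ^ M` and `X ^ A` -/
def Pts (F : Fam q P) (M A : ℕ) (X : ℝ) : Set (ℤ × ℤ) :=
  {g | ∃ W x, P W ∧ (rd W : ℝ) ≤ X ∧ IsX F W x ∧ X ^ M ≤ (ht x : ℝ) ∧ (ht x : ℝ) ≤ X ^ A ∧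
    inv W = g}

theorem fam_cnt (F : Fam q P) (hq : 3 ≤ q) {η : ℝ} (hη : 0 < η) : ∃ M : ℕ, ∀ A : ℕ, ∃ C : ℝ,
    0 < C ∧ ∀ X : ℝ, 2 ≤ X → (Pts F M A X).Finite ∧
      ((Pts F M A X).ncard : ℝ) ≤ C * X ^ (1 / (q : ℝ) + η) := by
  classical
  obtain ⟨M, hmain⟩ := forms_main hq (FL F.α F.hα) F.S η hη
  refine ⟨M, fun A' => ?_⟩
  obtain ⟨C1, hC1, hmain⟩ := hmain A'
  refine ⟨(F.K + 1) * C1, by positivity, ?_⟩
  intro X hX2
  have hX0 : 0 < X := by linarith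
  obtain ⟨V, hV⟩ : ∃ V : ℝ, V = X ^ (1 / (q : ℝ) + η) := ⟨_, rfl⟩
  have hV0 : 0 ≤ V := by rw [hV]; positivity
  rw [← hV]
  obtain ⟨T, hT⟩ : ∃ T : Set (ℤ × ℤ), T = {x | Pt (FL F.α F.hα) x ∧ X ^ M ≤ (ht x : ℝ) ∧
      (ht x : ℝ) ≤ X ^ A' ∧
      ((∏ i, ∏ p ∈ (va (FL F.α F.hα) x i).primeFactors \ F.S, p : ℕ) : ℝ) ≤ X} := ⟨_, rfl⟩
  have hTfin : T.Finite := by
    apply (fin_ht' ⌊X ^ A'⌋₊).subset
    intro x hx
    rw [hT] at hx
    exact Nat.le_floor hx.2.2.1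
  have hTc : (T.ncard : ℝ) ≤ C1 * V := by
    rw [Set.ncard_eq_toFinset_card _ hTfin, hV]
    apply hmain X hX2
    intro x hx
    rw [Set.Finite.mem_toFinset, hT] at hx
    exact hx
  obtain ⟨hf3, hc3⟩ := ncard_biUnion_le hTfin F.R F.K F.hK
    (Y := {g | ∃ x ∈ T, g ∈ F.R x}) (fun g hg => hg)
  have hcov : Pts F M A' X ⊆ {g | ∃ x ∈ T, g ∈ F.R x} := by
    rintro g ⟨W, x, hW, hWX, ⟨hn, hl, k, hk0, hkA, hk, hprod, hR⟩, hlo, hhi, rfl⟩
    have hN1 := F.N1_le hn hk (F.hP W hW) hprod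
    have hrd : (0 : ℝ) < rd W := by exact_mod_cast rd_pos W
    have hlogX : Real.log (rd W) ≤ Real.log X := Real.log_le_log hrd hWX
    refine ⟨x, ?_, hR⟩
    rw [hT]
    refine ⟨⟨hn.1, ?_⟩, hlo, hhi, prod_le_N1 hX0 (hN1.trans hlogX)⟩
    intro i
    have : ev (FL F.α F.hα) x i = Lf (F.α i) x := by
      unfold ev FL Lf
      ring
    rw [this]
    exact hl i
  refine ⟨hf3.subset hcov, ?_⟩
  have h20 : ((Pts F M A' X).ncard : ℝ) ≤ ({g | ∃ x ∈ T, g ∈ F.R x} : Set (ℤ × ℤ)).ncard := by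
    exact_mod_cast Set.ncard_le_ncard hcov hf3
  have hK0 : (0 : ℝ) ≤ F.K := Nat.cast_nonneg _
  have h21 : (F.K : ℝ) * T.ncard ≤ F.K * (C1 * V) := mul_le_mul_of_nonneg_left hTc hK0
  have h22 : 0 ≤ C1 * V := by positivity
  have hc3' : (({g | ∃ x ∈ T, g ∈ F.R x} : Set (ℤ × ℤ)).ncard : ℝ) ≤ F.K * T.ncard := by
    exact_mod_cast hc3
  nlinarith

/-- `c₄` is bounded by a power of the height of the point -/
def Pol (F : Fam q P) : Prop := ∃ m K : ℕ, ∀ x, ∀ g ∈ F.R x, g.1.natAbs ≤ K * ht x ^ m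

open Pool.Agent.Y679.Fh (cH fh IsP)

/-- `N ≤ X`, `κ log N + c < h_F ≤ A (1 + log X)` -/
def Hf (P : WeierstrassCurve ℤ → Prop) (κ c A X : ℝ) : Set (ℤ × ℤ) :=
  {g | ∃ W τ, P W ∧ IsP W τ ∧ (rd W : ℝ) ≤ X ∧ κ * Real.log (rd W) + c < fh W τ ∧
    fh W τ ≤ A * (1 + Real.log X) ∧ inv W = g}

theorem ht_pos (F : Fam q P) (hq : 3 ≤ q) {x : ℤ × ℤ} (hl : ∀ i, Lf (F.α i) x ≠ 0) :
    1 ≤ ht x := by
  have h1 : (Lf (F.α ⟨0, by omega⟩) x).natAbs ≤ F.U * ht x := F.Lf_le x _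
  have h2 : 0 < (Lf (F.α ⟨0, by omega⟩) x).natAbs := Int.natAbs_pos.2 (hl _)
  by_contra h
  have h3 : ht x = 0 := by omega
  rw [h3] at h1
  omega

/-- the height of the coefficients is bounded by a power of the height of the point -/
theorem cH_le (F : Fam q P) (hq : 3 ≤ q) (hR : Pol F) : ∃ m D : ℕ, 0 < m ∧ 0 < D ∧
    ∀ W x, IsX F W x → cH W ≤ D * (ht x : ℝ) ^ m := by
  obtain ⟨m, K, hR⟩ := hR
  obtain ⟨E, hE⟩ : ∃ E : ℕ, E = ∑ i, F.e i := ⟨_, rfl⟩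
  have hE1 : 1 ≤ E := by
    rw [hE]
    calc 1 ≤ F.e ⟨0, by omega⟩ := F.he _
      _ ≤ _ := single_le_sum (f := F.e) (fun _ _ => Nat.zero_le _) (mem_univ _)
  refine ⟨3 * m + E, 1729 * (K ^ 3 + F.U ^ E) + 1, by omega, by omega, ?_⟩
  rintro W x ⟨hn, hl, k, hk0, hkA, hk, hprod, hg⟩
  have hx1 := ht_pos F hq hl
  have hx1' : (1 : ℝ) ≤ ht x := by exact_mod_cast hx1
  have h1 := hR x _ hg
  have h2 : W.Δ.natAbs ≤ (F.U * ht x) ^ E := by
    rw [hE]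
    exact disc_le F hk0 hprod
  have hc : |(W.c₄ : ℝ)| ≤ K * (ht x : ℝ) ^ m := by
    have e : |(W.c₄ : ℝ)| = (W.c₄.natAbs : ℝ) := by
      rw [← Int.cast_abs, Int.abs_eq_natAbs]
      simp
    rw [e]
    exact_mod_cast h1
  have hD : |(W.Δ : ℝ)| ≤ ((F.U : ℝ) * ht x) ^ E := by
    have e : |(W.Δ : ℝ)| = (W.Δ.natAbs : ℝ) := by
      rw [← Int.cast_abs, Int.abs_eq_natAbs]
      simp
    rw [e]
    exact_mod_cast h2
  have hc3 : |(W.c₄ : ℝ)| ^ 3 ≤ (K : ℝ) ^ 3 * (ht x : ℝ) ^ (3 * m + E) := by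
    calc |(W.c₄ : ℝ)| ^ 3 ≤ (K * (ht x : ℝ) ^ m) ^ 3 := pow_le_pow_left₀ (abs_nonneg _) hc 3
      _ = (K : ℝ) ^ 3 * (ht x : ℝ) ^ (3 * m) := by rw [mul_pow, ← pow_mul, mul_comm m 3]
      _ ≤ _ := by
        gcongr
        omega
  have hD3 : |(W.Δ : ℝ)| ≤ (F.U : ℝ) ^ E * (ht x : ℝ) ^ (3 * m + E) := by
    calc |(W.Δ : ℝ)| ≤ ((F.U : ℝ) * ht x) ^ E := hD
      _ = (F.U : ℝ) ^ E * (ht x : ℝ) ^ E := by rw [mul_pow]
      _ ≤ _ := by
        gcongr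
        omega
  have h0 : (0 : ℝ) ≤ (ht x : ℝ) ^ (3 * m + E) := by positivity
  have hK3 : (0 : ℝ) ≤ (K : ℝ) ^ 3 * (ht x : ℝ) ^ (3 * m + E) := by positivity
  have hU3 : (0 : ℝ) ≤ (F.U : ℝ) ^ E * (ht x : ℝ) ^ (3 * m + E) := by positivity
  have hm : max (|(W.c₄ : ℝ)| ^ 3) |(W.Δ : ℝ)| ≤
      ((K : ℝ) ^ 3 + (F.U : ℝ) ^ E) * (ht x : ℝ) ^ (3 * m + E) := by
    rw [add_mul]
    exact max_le (by linarith) (by linarith)
  have := Pool.Agent.Y679.Fh.le_m (W := W)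
  push_cast
  nlinarith

theorem fam_fh (F : Fam q P) (hq : 3 ≤ q) (hR : Pol F) {η : ℝ} (hη : 0 < η) :
    ∃ κ₀ : ℝ, 0 < κ₀ ∧ ∀ κ c : ℝ, κ₀ ≤ κ → ∀ A : ℝ, ∃ C : ℝ, 0 < C ∧ ∀ X : ℝ, 1 ≤ X →
      (Hf P κ c A X).Finite ∧ ((Hf P κ c A X).ncard : ℝ) ≤ C * X ^ (1 / (q : ℝ) + η) := by
  classical
  obtain ⟨M, hM⟩ := fam_cnt F hq hη
  obtain ⟨C2, hC2, hup⟩ := F.upper hq
  obtain ⟨m, D, hm, hD, hcH⟩ := cH_le F hq hR
  obtain ⟨C3, hC3⟩ := Pool.Agent.Y679.Fh.fh_le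
  obtain ⟨C4, hC4⟩ := Pool.Agent.Y679.Fh.fh_ge (δ := 1) one_pos
  have hq0 : (0 : ℝ) < q := by exact_mod_cast (by omega : 0 < q)
  have hm0 : (0 : ℝ) < m := by exact_mod_cast hm
  have hD0 : (0 : ℝ) < D := by exact_mod_cast hD
  refine ⟨m * (M + 1) / 6, by positivity, ?_⟩
  intro κ c hκ A
  have hκ0 : 0 < κ := lt_of_lt_of_le (by positivity) hκ
  obtain ⟨G, hG⟩ : ∃ G : ℕ, G = U (FL F.α F.hα) * F.A := ⟨_, rfl⟩
  obtain ⟨A', hA'⟩ : ∃ A' : ℕ, A' = ⌈Real.log (G + 1) + 2 * |C4| + 48 * |A|⌉₊ := ⟨_, rfl⟩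
  have hA'1 : Real.log (G + 1) + 2 * |C4| + 48 * |A| ≤ A' := by
    rw [hA']
    exact Nat.le_ceil _
  obtain ⟨C1, hC1, hM⟩ := hM A'
  obtain ⟨L, hL⟩ : ∃ L : ℝ, L = (Real.log D + C3 - 12 * c) / m := ⟨_, rfl⟩
  have hLm : m * L = Real.log D + C3 - 12 * c := by
    rw [hL, mul_div_cancel₀ _ hm0.ne']
  obtain ⟨B, hB⟩ : ∃ B : ℝ, B = Real.exp (1 + |L|) := ⟨_, rfl⟩
  have hlB : Real.log B = 1 + |L| := by rw [hB, Real.log_exp]
  have hB0 : 0 < B := by rw [hB]; exact Real.exp_pos _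
  have hB2 : 2 ≤ B := by
    rw [hB]
    have := Real.add_one_le_exp (1 + |L|)
    have := abs_nonneg L
    linarith
  obtain ⟨hfinB, hcB⟩ := hup B (by linarith)
  refine ⟨C2 * B ^ (2 / (q : ℝ)) + C2 + C1, by positivity, ?_⟩
  intro X hX
  have hX0 : 0 < X := by linarith
  have hVX : X ^ (1 / (q : ℝ)) ≤ X ^ (1 / (q : ℝ) + η) :=
    Real.rpow_le_rpow_of_exponent_le hX (by linarith)
  have hV1 : 1 ≤ X ^ (1 / (q : ℝ) + η) := Real.one_le_rpow hX (by positivity)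
  have hBp : (0 : ℝ) ≤ C2 * B ^ (2 / (q : ℝ)) := by positivity
  rcases lt_or_ge X B with hXB | hXB
  · have hsub : Hf P κ c A X ⊆ Cv P B := by
      rintro g ⟨W, τ, hW, -, h1, -, -, h2⟩
      exact ⟨W, hW, h1.trans hXB.le, h2⟩
    refine ⟨hfinB.subset hsub, ?_⟩
    have h1 : ((Hf P κ c A X).ncard : ℝ) ≤ (Cv P B).ncard := by
      exact_mod_cast Set.ncard_le_ncard hsub hfinB
    nlinarith
  have hX2 : 2 ≤ X := hB2.trans hXB
  have hlX : 1 + |L| ≤ Real.log X := by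
    rw [← hlB]
    exact Real.log_le_log hB0 hXB
  obtain ⟨hf2, hc2⟩ := hM X hX2
  obtain ⟨hfin1, hc1⟩ := hup (X ^ (1 / 2 : ℝ)) (Real.one_le_rpow hX (by norm_num))
  have hc1' : ((Cv P (X ^ (1 / 2 : ℝ))).ncard : ℝ) ≤ C2 * X ^ (1 / (q : ℝ) + η) := by
    refine hc1.trans (mul_le_mul_of_nonneg_left ?_ hC2.le)
    refine le_trans (le_of_eq ?_) hVX
    rw [← Real.rpow_mul hX0.le]
    congr 1
    ring
  have hcov : Hf P κ c A X ⊆ Cv P (X ^ (1 / 2 : ℝ)) ∪ Pts F M A' X := by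
    rintro g ⟨W, τ, hW, hτ, hWX, hbig, hsm, rfl⟩
    by_cases hs : (rd W : ℝ) ≤ X ^ (1 / 2 : ℝ)
    · exact Or.inl ⟨W, hW, hs, rfl⟩
    · right
      push Not at hs
      obtain ⟨x, hx⟩ := F.hx W hW
      have hΔ := F.hP W hW
      have hl := hx.2.1
      have hx1 : (1 : ℝ) ≤ ht x := by exact_mod_cast ht_pos F hq hl
      have hx0 : (0 : ℝ) < ht x := by linarith
      have hcp : 1 ≤ cH W := (Pool.Agent.Y679.Fh.m_pos hΔ).trans (Pool.Agent.Y679.Fh.m_le)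
      have h3 := hC3 W hΔ τ hτ
      have h4 := hC4 W hΔ τ hτ
      have h5 : Real.log (cH W) ≤ Real.log D + m * Real.log (ht x) := by
        have := Real.log_le_log (by linarith) (hcH W x hx)
        rwa [Real.log_mul hD0.ne' (by positivity), Real.log_pow] at this
      have hlr : Real.log X / 2 ≤ Real.log (rd W) := by
        have h6 := Real.log_le_log (by positivity) hs.le
        rw [Real.log_rpow hX0] at h6
        linarith
      have hlX0 : 0 ≤ Real.log X := by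
        have := abs_nonneg L
        linarith
      refine ⟨W, x, hW, hWX, hx, ?_, ?_, rfl⟩
      · -- the lower bound
        rw [← Real.log_le_log_iff (by positivity) hx0, Real.log_pow]
        have h7 : m * (M + 1) / 6 * (Real.log X / 2) ≤ κ * Real.log (rd W) := by
          apply mul_le_mul hκ hlr (by linarith) hκ0.le
        have h8 : m * ((M + 1) * Real.log X) ≤ m * (Real.log (ht x) + L) := by
          rw [mul_add, hLm]
          linarith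
        have h9 := le_of_mul_le_mul_left h8 hm0
        have := le_abs_self L
        linarith
      · -- the upper bound
        rw [← Real.log_le_log_iff hx0 (by positivity), Real.log_pow]
        obtain ⟨-, -, k, hk0, hkA, hk, hprod, -⟩ := hx
        have h6 : (ht x : ℝ) ≤ (G + 1) * cH W := by
          have e1 : (ht x : ℝ) ≤ G * W.Δ.natAbs := by
            rw [hG]
            have := ht_le_disc F hq hkA hl hprod
            rw [← mul_assoc] at this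
            exact_mod_cast this
          have e : |(W.Δ : ℝ)| = (W.Δ.natAbs : ℝ) := by
            rw [← Int.cast_abs, Int.abs_eq_natAbs]
            simp
          have e2 : (W.Δ.natAbs : ℝ) ≤ cH W := by
            rw [← e]
            exact (le_max_right _ _).trans (Pool.Agent.Y679.Fh.m_le)
          have hG0 : (0 : ℝ) ≤ G := Nat.cast_nonneg _
          nlinarith
        have hG0 : (0 : ℝ) < G + 1 := by positivity
        have h7 := Real.log_le_log hx0 h6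
        rw [Real.log_mul hG0.ne' (by linarith)] at h7
        have hlG : 0 ≤ Real.log ((G : ℝ) + 1) := by
          apply Real.log_nonneg
          have : (0 : ℝ) ≤ G := Nat.cast_nonneg _
          linarith
        have h8 : A * (1 + Real.log X) ≤ |A| * (2 * Real.log X) := by
          have e1 : A * (1 + Real.log X) ≤ |A| * (1 + Real.log X) :=
            mul_le_mul_of_nonneg_right (le_abs_self A) (by linarith)
          have e2 : |A| * (1 + Real.log X) ≤ |A| * (2 * Real.log X) := by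
            apply mul_le_mul_of_nonneg_left _ (abs_nonneg A)
            have := abs_nonneg L
            linarith
          linarith
        have h9 : Real.log (ht x) ≤ Real.log (G + 1) + 2 * |C4| + 48 * |A| * Real.log X := by
          have := le_abs_self C4
          norm_num at h4
          linarith
        have hlX1 : 1 ≤ Real.log X := by
          have := abs_nonneg L
          linarith
        have h10 : (Real.log (G + 1) + 2 * |C4| + 48 * |A|) * Real.log X ≤ A' * Real.log X :=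
          mul_le_mul_of_nonneg_right hA'1 hlX0
        have h11 : 0 ≤ |C4| := abs_nonneg _
        nlinarith
  refine ⟨(hfin1.union hf2).subset hcov, ?_⟩
  have h20 : (Hf P κ c A X).ncard ≤ (Cv P (X ^ (1 / 2 : ℝ))).ncard + (Pts F M A' X).ncard :=
    (Set.ncard_le_ncard hcov (hfin1.union hf2)).trans (Set.ncard_union_le _ _)
  have h20' : ((Hf P κ c A X).ncard : ℝ) ≤ (Cv P (X ^ (1 / 2 : ℝ))).ncard +
      (Pts F M A' X).ncard := by exact_mod_cast h20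
  nlinarith

end Pool.Agent.Helper205_Exc
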