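import Pool.Agent.Y680.T.Com
import Pool.Agent.H925R.Szpiro.Semi

/-!
The family of the semistable curves with full rational 2-torsion.
-/

set_option autoImplicit false

namespace Pool.Agent.Helper205_Exc

open Finset Pool.Agent.Results.MP_4d5ce1_nt.AllHeightsSharp Pool.Agent.Y680.T

/-- semistable curves with full rational 2-torsion -/
def SemiFull (W : WeierstrassCurve ℤ) : Prop :=
  (W.Δ ≠ 0 ∧ IsCoprime W.c₄ W.Δ) ∧ Pool.Agent.H925R.Szpiro.Full W

/-- the points -/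
def α2 : Fin 3 → ℤ × ℤ := ![(0, 1), (1, 0), (-1, 1)]

/-- the exponents -/
def e2 : Fin 3 → ℕ := ![2, 2, 2]

lemma prod2 (a b : ℤ) : ∏ i, (Lf (α2 i) (a, b)).natAbs ^ e2 i =
    ((a * b * (a + b)) ^ 2).natAbs := by
  rw [Fin.prod_univ_three]
  change (a * 1 - b * 0).natAbs ^ 2 * (a * 0 - b * 1).natAbs ^ 2 *
    (a * 1 - b * (-1)).natAbs ^ 2 = _
  rw [← Int.natAbs_pow, ← Int.natAbs_pow, ← Int.natAbs_pow, ← Int.natAbs_mul, ← Int.natAbs_mul]
  congr 1
  ring

lemma Lf2 {a b : ℤ} (h : a * b * (a + b) ≠ 0) (i : Fin 3) : Lf (α2 i) (a, b) ≠ 0 := by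
  simp only [mul_ne_zero_iff] at h
  fin_cases i
  · change a * 1 - b * 0 ≠ 0
    rw [mul_one, mul_zero, sub_zero]
    exact h.1.1
  · change a * 0 - b * 1 ≠ 0
    intro h0
    apply h.1.2
    linarith
  · change a * 1 - b * (-1) ≠ 0
    intro h0
    apply h.2
    linarith

/-- the family -/
noncomputable def F2 : Fam 3 SemiFull where
  α := α2
  S := {2, 3}
  e := e2
  A := 256
  K := 4
  R x := RR (x.1 ^ 2 + x.1 * x.2 + x.2 ^ 2) ((x.1 * x.2 * (x.1 + x.2)) ^ 2 / 256) ∪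
    RR (4 * (x.1 ^ 2 + x.1 * x.2 + x.2 ^ 2)) ((x.1 * x.2 * (x.1 + x.2)) ^ 2 / 4)
  hα := by decide
  hS i j hij p hp h := by
    have h1 : ∀ i j : Fin 3, i ≠ j →
      ((α2 i).1 * (α2 j).2 - (α2 j).1 * (α2 i).2).natAbs ∣ 6 ^ 4 := by decide
    exact prime_23 (h1 i j hij) hp h
  he := by decide
  hK x := by
    refine (card_union_le _ _).trans ?_
    have h1 := RR_card (x.1 ^ 2 + x.1 * x.2 + x.2 ^ 2) ((x.1 * x.2 * (x.1 + x.2)) ^ 2 / 256)
    have h2 := RR_card (4 * (x.1 ^ 2 + x.1 * x.2 + x.2 ^ 2)) ((x.1 * x.2 * (x.1 + x.2)) ^ 2 / 4)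
    omega
  hP W h := h.1.1
  hx W hW := by
    obtain ⟨⟨hD, hc⟩, hf⟩ := hW
    obtain ⟨g, u, v, hg, hu, hv, hcop, e4, eD⟩ := Pool.Agent.H925R.Szpiro.semi_pair W hD hc hf
    have hne : (u : ℤ) * v * (u + v) ≠ 0 := by
      have h1 : (0 : ℤ) < u := by exact_mod_cast hu
      have h2 : (0 : ℤ) < v := by exact_mod_cast hv
      positivity
    have hn : Nrm ((u : ℤ), (v : ℤ)) :=
      ⟨Nat.isCoprime_iff_coprime.2 hcop, Or.inl (Int.natCast_pos.2 hv)⟩
    rcases hg with rfl | rfl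
    · have eD' : 256 * W.Δ = ((u : ℤ) * v * (u + v)) ^ 2 := by
        rw [eD]; push_cast; ring
      refine ⟨(u, v), hn, Lf2 hne, 256, by norm_num, by norm_num,
        fun p hp h => prime_2pow (l := 8) (by norm_num) hp h, ?_, ?_⟩
      · rw [prod2, ← eD', Int.natAbs_mul]
        rfl
      · refine mem_union_left _ (mem_RR W ?_ ?_)
        · rw [e4]; push_cast; ring
        · simp only
          rw [← eD']
          omega
    · have eD' : 4 * W.Δ = ((u : ℤ) * v * (u + v)) ^ 2 := by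
        have h1 : 256 * W.Δ = 64 * ((u : ℤ) * v * (u + v)) ^ 2 := by
          rw [eD]; push_cast; ring
        linarith
      refine ⟨(u, v), hn, Lf2 hne, 4, by norm_num, by norm_num,
        fun p hp h => prime_2pow (l := 2) (by norm_num) hp h, ?_, ?_⟩
      · rw [prod2, ← eD', Int.natAbs_mul]
        rfl
      · refine mem_union_right _ (mem_RR W ?_ ?_)
        · rw [e4]; push_cast; ring
        · simp only
          rw [← eD']
          omega

end Pool.Agent.Helper205_Exc
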