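import Pool.Agent.Helper205_Exc.FormsFin
import Pool.Agent.Helper205_Exc.SzpF2
import Pool.Agent.Y680.T.F6
import Pool.Agent.Y680.T.F24
import Pool.Agent.Y680.T.F26

/-!
In the four families the invariant `c₄` is bounded by a power of the height of the point.
-/

set_option autoImplicit false

namespace Pool.Agent.Helper205_Exc

open Finset Pool.Agent.Results.MP_4d5ce1_nt.AllHeightsSharp Pool.Agent.Y680.T Pool.Agent.TH867.QF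

lemma fst_RR {c D : ℤ} {g : ℤ × ℤ} (h : g ∈ RR c D) : g.1 = c := by
  unfold RR at h
  rw [Finset.mem_product, Finset.mem_singleton] at h
  exact h.1

lemma abs_ht (x : ℤ × ℤ) : |x.1| ≤ ht x ∧ |x.2| ≤ ht x := by
  have h1 : x.1.natAbs ≤ ht x := le_max_left _ _
  have h2 : x.2.natAbs ≤ ht x := le_max_right _ _
  rw [Int.abs_eq_natAbs, Int.abs_eq_natAbs]
  exact ⟨by exact_mod_cast h1, by exact_mod_cast h2⟩

lemma pol_bd {h : ℤ} {m K : ℕ} {n : ℕ} (hh : h = n) {c : ℤ}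
    (hc : |c| ≤ K * h ^ m) : c.natAbs ≤ K * n ^ m := by
  rw [hh] at hc
  have : (c.natAbs : ℤ) ≤ K * (n : ℤ) ^ m := by
    rw [← Int.abs_eq_natAbs]
    exact hc
  exact_mod_cast this

lemma pol2 {a b h : ℤ} (ha : |a| ≤ h) (hb : |b| ≤ h) : |a ^ 2 + a * b + b ^ 2| ≤ 3 * h ^ 2 := by
  have h0 : 0 ≤ h := (abs_nonneg a).trans ha
  have h1 : |a ^ 2| ≤ h ^ 2 := by rw [abs_pow]; exact pow_le_pow_left₀ (abs_nonneg _) ha 2
  have h2 : |b ^ 2| ≤ h ^ 2 := by rw [abs_pow]; exact pow_le_pow_left₀ (abs_nonneg _) hb 2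
  have h3 : |a * b| ≤ h ^ 2 := by
    rw [abs_mul, sq]
    exact mul_le_mul ha hb (abs_nonneg _) h0
  have h4 := abs_add_le (a ^ 2 + a * b) (b ^ 2)
  have h5 := abs_add_le (a ^ 2) (a * b)
  linarith

lemma pol24 {a b h : ℤ} (ha : |a| ≤ h) (hb : |b| ≤ h) :
    |a ^ 2 - a * b + b ^ 2| ≤ 3 * h ^ 2 := by
  have := pol2 (a := a) (b := -b) ha (by rwa [abs_neg])
  have e : a ^ 2 - a * b + b ^ 2 = a ^ 2 + a * (-b) + (-b) ^ 2 := by ring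
  rw [e]
  exact this

lemma pol4 {a b h : ℤ} (ha : |a| ≤ h) (hb : |b| ≤ h) : |g4 a b| ≤ 73 * h ^ 4 := by
  have h0 : 0 ≤ h := (abs_nonneg a).trans ha
  have h1 : |a ^ 4| ≤ h ^ 4 := by rw [abs_pow]; exact pow_le_pow_left₀ (abs_nonneg _) ha 4
  have hb2 : |b ^ 2| ≤ h ^ 2 := by rw [abs_pow]; exact pow_le_pow_left₀ (abs_nonneg _) hb 2
  have hb3 : |b ^ 3| ≤ h ^ 3 := by rw [abs_pow]; exact pow_le_pow_left₀ (abs_nonneg _) hb 3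
  have ha2 : |a ^ 2| ≤ h ^ 2 := by rw [abs_pow]; exact pow_le_pow_left₀ (abs_nonneg _) ha 2
  have h2 : |a ^ 2 * b ^ 2| ≤ h ^ 4 := by
    rw [abs_mul]
    calc |a ^ 2| * |b ^ 2| ≤ h ^ 2 * h ^ 2 := mul_le_mul ha2 hb2 (abs_nonneg _) (by positivity)
      _ = h ^ 4 := by ring
  have h3 : |a * b ^ 3| ≤ h ^ 4 := by
    rw [abs_mul]
    calc |a| * |b ^ 3| ≤ h * h ^ 3 := mul_le_mul ha hb3 (abs_nonneg _) h0
      _ = h ^ 4 := by ring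
  have e : g4 a b = a ^ 4 - 24 * (a ^ 2 * b ^ 2) - 48 * (a * b ^ 3) := by
    unfold g4
    ring
  rw [e]
  rw [abs_le] at h1 h2 h3 ⊢
  constructor <;> linarith [h1.1, h1.2, h2.1, h2.2, h3.1, h3.2]

lemma polU {a b h : ℤ} (ha : |a| ≤ h) (hb : |b| ≤ h) : |UU a b| ≤ 3 * h ^ 4 := by
  have h0 : 0 ≤ h := (abs_nonneg a).trans ha
  have h1 : |a ^ 4| ≤ h ^ 4 := by rw [abs_pow]; exact pow_le_pow_left₀ (abs_nonneg _) ha 4
  have ha3 : |a ^ 3| ≤ h ^ 3 := by rw [abs_pow]; exact pow_le_pow_left₀ (abs_nonneg _) ha 3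
  have h3 : |a ^ 3 * b| ≤ h ^ 4 := by
    rw [abs_mul]
    calc |a ^ 3| * |b| ≤ h ^ 3 * h := mul_le_mul ha3 hb (abs_nonneg _) (by positivity)
      _ = h ^ 4 := by ring
  have e : UU a b = a ^ 4 + 2 * (a ^ 3 * b) := by
    unfold UU
    ring
  rw [e]
  rw [abs_le] at h1 h3 ⊢
  constructor <;> linarith [h1.1, h1.2, h3.1, h3.2]

lemma polV {a b h : ℤ} (ha : |a| ≤ h) (hb : |b| ≤ h) : |VV a b| ≤ 3 * h ^ 4 := by
  have e : VV a b = UU b a := by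
    unfold UU VV
    ring
  rw [e]
  exact polU hb ha

theorem pol_F2 : ∃ m K : ℕ, ∀ x, ∀ g ∈ F2.R x, g.1.natAbs ≤ K * ht x ^ m := by
  refine ⟨2, 12, fun x g hg => ?_⟩
  obtain ⟨ha, hb⟩ := abs_ht x
  have h1 := pol2 ha hb
  have h2 : (0 : ℤ) ≤ (ht x : ℤ) ^ 2 := by positivity
  have h3 : |g.1| ≤ 12 * (ht x : ℤ) ^ 2 := by
    have hg' : g ∈ RR (x.1 ^ 2 + x.1 * x.2 + x.2 ^ 2) ((x.1 * x.2 * (x.1 + x.2)) ^ 2 / 256) ∪
      RR (4 * (x.1 ^ 2 + x.1 * x.2 + x.2 ^ 2)) ((x.1 * x.2 * (x.1 + x.2)) ^ 2 / 4) := hg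
    rw [Finset.mem_union] at hg'
    rcases hg' with h | h
    · rw [fst_RR h]
      linarith
    · rw [fst_RR h, abs_mul, abs_of_nonneg (by norm_num : (0 : ℤ) ≤ 4)]
      linarith
  exact pol_bd rfl h3

theorem pol_F24 : ∃ m K : ℕ, ∀ x, ∀ g ∈ F24.R x, g.1.natAbs ≤ K * ht x ^ m := by
  refine ⟨4, 3, fun x g hg => ?_⟩
  obtain ⟨ha, hb⟩ := abs_ht x
  have ha2 : |x.1 ^ 2| ≤ (ht x : ℤ) ^ 2 := by
    rw [abs_pow]; exact pow_le_pow_left₀ (abs_nonneg _) ha 2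
  have hb2 : |x.2 ^ 2| ≤ (ht x : ℤ) ^ 2 := by
    rw [abs_pow]; exact pow_le_pow_left₀ (abs_nonneg _) hb 2
  have h1 := pol24 ha2 hb2
  have h3 : |g.1| ≤ 3 * (ht x : ℤ) ^ 4 := by
    have hg' : g ∈ RR (x.1 ^ 4 - x.1 ^ 2 * x.2 ^ 2 + x.2 ^ 4)
      ((x.1 ^ 2 * x.2 ^ 2 * (x.1 ^ 2 - x.2 ^ 2)) ^ 2 / 256) := hg
    rw [fst_RR hg']
    have e : x.1 ^ 4 - x.1 ^ 2 * x.2 ^ 2 + x.2 ^ 4 =
      (x.1 ^ 2) ^ 2 - x.1 ^ 2 * x.2 ^ 2 + (x.2 ^ 2) ^ 2 := by ring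
    rw [e]
    refine h1.trans (le_of_eq ?_)
    ring
  exact pol_bd rfl h3

theorem pol_F26 : ∃ m K : ℕ, ∀ x, ∀ g ∈ F26.R x, g.1.natAbs ≤ K * ht x ^ m := by
  refine ⟨8, 27, fun x g hg => ?_⟩
  obtain ⟨ha, hb⟩ := abs_ht x
  have h1 := pol24 (polU ha hb) (polV ha hb)
  have h3 : |g.1| ≤ 27 * (ht x : ℤ) ^ 8 := by
    have hg' : g ∈ RR (UU x.1 x.2 ^ 2 - UU x.1 x.2 * VV x.1 x.2 + VV x.1 x.2 ^ 2)
      ((UU x.1 x.2 * VV x.1 x.2 * (UU x.1 x.2 - VV x.1 x.2)) ^ 2 / 256) := hg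
    rw [fst_RR hg']
    refine h1.trans (le_of_eq ?_)
    ring
  exact pol_bd rfl h3

theorem pol_F6 : ∃ m K : ℕ, ∀ x, ∀ g ∈ F6.R x, g.1.natAbs ≤ K * ht x ^ m := by
  refine ⟨4, 73, fun x g hg => ?_⟩
  obtain ⟨ha, hb⟩ := abs_ht x
  have h1 := pol4 ha hb
  have h3 : |g.1| ≤ 73 * (ht x : ℤ) ^ 4 := by
    have hg' : g ∈ RR (g4 x.1 x.2) (gD x.1 x.2) ∪
      RR (g4 x.1 x.2 / 16) (gD x.1 x.2 / 4096) := hg
    rw [Finset.mem_union] at hg'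
    rcases hg' with h | h
    · rw [fst_RR h]
      exact h1
    · rw [fst_RR h]
      refine le_trans ?_ h1
      have e1 := Int.natAbs_ediv_le_natAbs (g4 x.1 x.2) 16
      rw [Int.abs_eq_natAbs, Int.abs_eq_natAbs]
      exact_mod_cast e1
  exact pol_bd rfl h3

end Pool.Agent.Helper205_Exc
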