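import Pool.Agent.Helper205_Exc.Cell

/-!
The final count: from the cells to all triples.
-/

set_option autoImplicit false

namespace Pool.Agent.Helper205_Exc

open Finset Pool.Agent.H785R2.ABC Pool.Agent.H705R2.ABC Pool.Agent.Y913.Nb

theorem rad_mul3 {t : ℕ × ℕ} (ht : Ok t) :
    rad (t.1 * t.2 * (t.1 + t.2)) = rad (mem t 0) * rad (mem t 1) * rad (mem t 2) := by
  have h01 : Nat.Coprime t.1 t.2 := mem_coprime ht (i := 0) (j := 1) (by decide)
  have h02 : Nat.Coprime t.1 (t.1 + t.2) := mem_coprime ht (i := 0) (j := 2) (by decide)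
  have h12 : Nat.Coprime t.2 (t.1 + t.2) := mem_coprime ht (i := 1) (j := 2) (by decide)
  have key : ∀ m n : ℕ, Nat.Coprime m n → rad (m * n) = rad m * rad n := by
    intro m n h
    unfold rad
    rw [h.primeFactors_mul, prod_union h.disjoint_primeFactors]
  rw [key _ _ (h02.mul_left h12), key _ _ h01]
  rfl

/-- the trivial bound -/
theorem trivial_bound (A : ℕ) (ε : ℝ) (hε : 0 < ε) : ∃ C : ℝ, 0 < C ∧ ∀ X : ℕ, 1 ≤ X →
    ∀ (T : Finset (ℕ × ℕ)), (∀ t ∈ T, 1 ≤ t.1 ∧ t.1 ≤ X ^ A ∧ 1 ≤ t.2 ∧ t.2 ≤ X ^ A ∧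
      (rad t.1 : ℝ) ≤ 8 * (X : ℝ) ^ ((1 : ℝ) / 8) ∧ (rad t.2 : ℝ) ≤ 8 * (X : ℝ) ^ ((1 : ℝ) / 8)) →
    (T.card : ℝ) ≤ C * (X : ℝ) ^ (1 / 4 + ε) := by
  classical
  obtain ⟨D, hD, hA4⟩ := stmtA4' (ε / (2 * (A + 1))) (by positivity)
  refine ⟨(8 * D) ^ 2, by positivity, ?_⟩
  intro X hX T hT
  have hX0 : (0 : ℝ) < X := by exact_mod_cast hX
  have hX1 : (1 : ℝ) ≤ X := by exact_mod_cast hX
  obtain ⟨V, hV⟩ : ∃ V : Finset ℕ, V = (Icc 1 (X ^ A)).filter fun d =>
    (rad d : ℝ) ≤ 8 * (X : ℝ) ^ ((1 : ℝ) / 8) := ⟨_, rfl⟩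
  have h1 : T ⊆ V ×ˢ V := by
    intro t ht
    obtain ⟨g1, g2, g3, g4, g5, g6⟩ := hT t ht
    rw [mem_product, hV, mem_filter, mem_filter, mem_Icc, mem_Icc]
    exact ⟨⟨⟨g1, g2⟩, g5⟩, ⟨g3, g4⟩, g6⟩
  have h2 : (V.card : ℝ) ≤ 8 * D * (X : ℝ) ^ (ε / 2 + 1 / 8) := by
    rw [hV]
    refine (hA4 (X ^ A) (Nat.one_le_pow _ _ hX) _ (by positivity)).trans ?_
    rw [Real.rpow_add hX0]
    have e1 : (((X ^ A : ℕ) : ℝ)) ^ (ε / (2 * (A + 1))) ≤ (X : ℝ) ^ (ε / 2) := by
      push_cast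
      rw [← Real.rpow_natCast, ← Real.rpow_mul hX0.le]
      apply Real.rpow_le_rpow_of_exponent_le hX1
      rw [mul_div_assoc', div_le_div_iff₀ (by positivity) (by norm_num)]
      nlinarith
    calc D * (((X ^ A : ℕ) : ℝ)) ^ (ε / (2 * (A + 1))) * (8 * (X : ℝ) ^ ((1 : ℝ) / 8))
        ≤ D * (X : ℝ) ^ (ε / 2) * (8 * (X : ℝ) ^ ((1 : ℝ) / 8)) := by gcongr
      _ = _ := by ring
  calc (T.card : ℝ) ≤ ((V ×ˢ V).card : ℝ) := by exact_mod_cast card_le_card h1
    _ = (V.card : ℝ) * V.card := by rw [card_product]; push_cast; rfl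
    _ ≤ (8 * D * (X : ℝ) ^ (ε / 2 + 1 / 8)) * (8 * D * (X : ℝ) ^ (ε / 2 + 1 / 8)) :=
        mul_le_mul h2 h2 (Nat.cast_nonneg _) (by positivity)
    _ = (8 * D) ^ 2 * ((X : ℝ) ^ (ε / 2 + 1 / 8) * (X : ℝ) ^ (ε / 2 + 1 / 8)) := by ring
    _ = (8 * D) ^ 2 * (X : ℝ) ^ (1 / 4 + ε) := by
        rw [← Real.rpow_add hX0]
        congr 2
        ring

/-- **the count, for pairs** -/
theorem final (ε : ℝ) (hε : 0 < ε) :
    ∃ M : ℕ, ∀ A : ℕ, ∃ C : ℝ, 0 < C ∧ ∀ X Y : ℕ, 1 ≤ X → 1 ≤ Y → ∀ T : Finset (ℕ × ℕ),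
    (∀ t ∈ T, Ok t ∧ rad (t.1 * t.2 * (t.1 + t.2)) ≤ X ∧
      rad (t.1 * t.2 * (t.1 + t.2)) ^ M ≤ t.1 + t.2 ∧ t.1 + t.2 ≤ X ^ A ∧
      ∃ i, rad (mem t i) ≤ Y) →
    (T.card : ℝ) ≤ C * (X : ℝ) ^ ε *
      min (((X : ℝ) * Y) ^ ((1 : ℝ) / 4)) ((X : ℝ) ^ ((1 : ℝ) / 3)) := by
  classical
  obtain ⟨M0, hM0⟩ := cell_bound (ε / 2) (by positivity)
  refine ⟨4 * M0, ?_⟩
  intro A
  obtain ⟨C1, hC1, hcell⟩ := hM0 (8 * A)
  obtain ⟨C2, hC2, htriv⟩ := trivial_bound A ε hε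
  obtain ⟨C3, hC3, hlog⟩ := log_pow_le 3 (ε / 2) (by positivity)
  refine ⟨C2 + C3 * (C1 * (8 ^ (ε / 2) * 2)), by positivity, ?_⟩
  intro X Y hX hY T hT
  have hX0 : (0 : ℝ) < X := by exact_mod_cast hX
  have hX1 : (1 : ℝ) ≤ X := by exact_mod_cast hX
  have hY1 : (1 : ℝ) ≤ Y := by exact_mod_cast hY
  obtain ⟨m0, hm0⟩ : ∃ m0 : ℝ, m0 = min (((X : ℝ) * Y) ^ ((1 : ℝ) / 4))
    ((X : ℝ) ^ ((1 : ℝ) / 3)) := ⟨_, rfl⟩
  rw [← hm0]
  have hm0X : (X : ℝ) ^ ((1 : ℝ) / 4) ≤ m0 := by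
    rw [hm0]
    apply le_min
    · exact Real.rpow_le_rpow hX0.le (le_mul_of_one_le_right hX0.le hY1) (by norm_num)
    · exact Real.rpow_le_rpow_of_exponent_le hX1 (by norm_num)
  have hm00 : 0 < m0 := lt_of_lt_of_le (by positivity) hm0X
  -- labels
  obtain ⟨lab, hlab⟩ : ∃ lab : ℕ × ℕ → Fin 3 → ℕ, lab = fun t i => Nat.log 2 (rad (mem t i)) :=
    ⟨_, rfl⟩
  have hradpos : ∀ t i, rad (mem t i) ≠ 0 := fun t i => by
    have := rad_pos' (mem t i)
    omega
  obtain ⟨sz, hsz⟩ : ∃ sz : (Fin 3 → ℕ) → ℕ, sz = fun l => 2 ^ l 0 * 2 ^ l 1 * 2 ^ l 2 :=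
    ⟨_, rfl⟩
  have hszrad : ∀ t ∈ T, sz (lab t) ≤ rad (t.1 * t.2 * (t.1 + t.2)) := by
    intro t ht
    rw [rad_mul3 (hT t ht).1, hsz, hlab]
    exact Nat.mul_le_mul (Nat.mul_le_mul (Nat.pow_log_le_self 2 (hradpos t 0))
      (Nat.pow_log_le_self 2 (hradpos t 1))) (Nat.pow_log_le_self 2 (hradpos t 2))
  have hradsz : ∀ t ∈ T, rad (t.1 * t.2 * (t.1 + t.2)) < 8 * sz (lab t) := by
    intro t ht
    rw [rad_mul3 (hT t ht).1, hsz, hlab]
    have e : ∀ i, rad (mem t i) < 2 * 2 ^ Nat.log 2 (rad (mem t i)) := by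
      intro i
      have := Nat.lt_pow_succ_log_self (b := 2) (by norm_num) (rad (mem t i))
      rw [pow_succ] at this
      omega
    calc rad (mem t 0) * rad (mem t 1) * rad (mem t 2)
        < (2 * 2 ^ Nat.log 2 (rad (mem t 0))) * (2 * 2 ^ Nat.log 2 (rad (mem t 1))) *
          (2 * 2 ^ Nat.log 2 (rad (mem t 2))) := by
          apply Nat.mul_lt_mul_of_lt_of_le _ (e 2).le (by positivity)
          exact Nat.mul_lt_mul_of_lt_of_le (e 0) (e 1).le (by positivity)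
      _ = _ := by ring
  -- the two parts
  obtain ⟨Ts, hTs⟩ : ∃ Ts, Ts = T.filter fun t => (8 * sz (lab t)) ^ 8 < X ∨ sz (lab t) < 2 :=
    ⟨_, rfl⟩
  obtain ⟨Tl, hTl⟩ : ∃ Tl, Tl = T.filter fun t =>
    ¬ ((8 * sz (lab t)) ^ 8 < X ∨ sz (lab t) < 2) := ⟨_, rfl⟩
  have hsplit : T.card = Ts.card + Tl.card := by
    rw [hTs, hTl]
    exact (card_filter_add_card_filter_not _).symm
  have hsmall : (Ts.card : ℝ) ≤ C2 * (X : ℝ) ^ (1 / 4 + ε) := by
    apply htriv X hX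
    intro t ht
    rw [hTs, mem_filter] at ht
    obtain ⟨htT, hts⟩ := ht
    obtain ⟨g1, g2, g3, g4, g5⟩ := hT t htT
    have hrad8 : ((rad (t.1 * t.2 * (t.1 + t.2)) : ℕ) : ℝ) ≤ 8 * (X : ℝ) ^ ((1 : ℝ) / 8) := by
      have h8 := hradsz t htT
      have hX8 : (1 : ℝ) ≤ (X : ℝ) ^ ((1 : ℝ) / 8) := Real.one_le_rpow hX1 (by norm_num)
      rcases hts with h | h
      · have e1 : (((8 * sz (lab t) : ℕ) : ℝ)) ^ 8 ≤ (X : ℝ) := by exact_mod_cast h.le
        have e2 : ((8 * sz (lab t) : ℕ) : ℝ) ≤ (X : ℝ) ^ ((1 : ℝ) / 8) := by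
          calc ((8 * sz (lab t) : ℕ) : ℝ) = ((((8 * sz (lab t) : ℕ) : ℝ)) ^ 8) ^ ((1 : ℝ) / 8) := by
                rw [← Real.rpow_natCast, ← Real.rpow_mul (Nat.cast_nonneg _)]
                norm_num
            _ ≤ _ := Real.rpow_le_rpow (by positivity) e1 (by norm_num)
        have e3 : ((rad (t.1 * t.2 * (t.1 + t.2)) : ℕ) : ℝ) ≤ ((8 * sz (lab t) : ℕ) : ℝ) := by
          exact_mod_cast h8.le
        linarith
      · have e3 : ((rad (t.1 * t.2 * (t.1 + t.2)) : ℕ) : ℝ) ≤ 8 := by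
          have : rad (t.1 * t.2 * (t.1 + t.2)) ≤ 8 := by omega
          exact_mod_cast this
        linarith
    have hr : ∀ i, rad (mem t i) ≤ rad (t.1 * t.2 * (t.1 + t.2)) := by
      intro i
      rw [rad_mul3 g1]
      have p0 := rad_pos' (mem t 0)
      have p1 := rad_pos' (mem t 1)
      have p2 := rad_pos' (mem t 2)
      have : i = 0 ∨ i = 1 ∨ i = 2 := by omega
      rcases this with rfl | rfl | rfl
      · rw [mul_assoc]
        exact Nat.le_mul_of_pos_right _ (Nat.mul_pos p1 p2)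
      · rw [mul_comm (rad (mem t 0)), mul_assoc]
        exact Nat.le_mul_of_pos_right _ (Nat.mul_pos p0 p2)
      · exact Nat.le_mul_of_pos_left _ (Nat.mul_pos p0 p1)
    refine ⟨g1.1, by omega, g1.2.1, by omega, ?_, ?_⟩
    · exact le_trans (by exact_mod_cast hr 0) hrad8
    · exact le_trans (by exact_mod_cast hr 1) hrad8
  have hlarge : (Tl.card : ℝ) ≤ (C3 * (X : ℝ) ^ (ε / 2)) *
      (C1 * (8 ^ (ε / 2) * 2) * (X : ℝ) ^ (ε / 2) * m0) := by
    have h1 := card_le_real Tl lab (Fintype.piFinset fun _ : Fin 3 => range (Nat.log 2 X + 1))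
      (C1 * (8 ^ (ε / 2) * 2) * (X : ℝ) ^ (ε / 2) * m0) (fun t ht => by
        have htT : t ∈ T := by rw [hTl] at ht; exact (mem_filter.mp ht).1
        rw [Fintype.mem_piFinset]
        intro i
        rw [mem_range, hlab]
        have e1 : rad (mem t i) ≤ X := by
          refine le_trans ?_ (hT t htT).2.1
          rw [rad_mul3 (hT t htT).1]
          have p0 := rad_pos' (mem t 0)
          have p1 := rad_pos' (mem t 1)
          have p2 := rad_pos' (mem t 2)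
          have : i = 0 ∨ i = 1 ∨ i = 2 := by omega
          rcases this with rfl | rfl | rfl
          · rw [mul_assoc]
            exact Nat.le_mul_of_pos_right _ (Nat.mul_pos p1 p2)
          · rw [mul_comm (rad (mem t 0)), mul_assoc]
            exact Nat.le_mul_of_pos_right _ (Nat.mul_pos p0 p2)
          · exact Nat.le_mul_of_pos_left _ (Nat.mul_pos p0 p1)
        have e2 : Nat.log 2 (rad (mem t i)) ≤ Nat.log 2 X := Nat.log_mono_right e1
        show Nat.log 2 (rad (mem t i)) < Nat.log 2 X + 1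
        omega) (by
      intro s _
      obtain ⟨T', hT'⟩ : ∃ T', T' = Tl.filter fun t => lab t = s := ⟨_, rfl⟩
      rw [← hT']
      rcases T'.eq_empty_or_nonempty with h0 | ⟨t0, ht0⟩
      · rw [h0, card_empty, Nat.cast_zero]
        positivity
      have hmemT : ∀ t ∈ T', t ∈ T ∧ lab t = s ∧ X ≤ (8 * sz s) ^ 8 ∧ 2 ≤ sz s := by
        intro t ht
        rw [hT', mem_filter, hTl, mem_filter] at ht
        obtain ⟨⟨g1, g2⟩, g3⟩ := ht
        rw [g3, not_or, not_lt, not_lt] at g2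
        exact ⟨g1, g3, g2.1, g2.2⟩
      obtain ⟨c1, c2, c3, c4⟩ := hmemT t0 ht0
      obtain ⟨X', hX'⟩ : ∃ X', X' = 8 * sz s := ⟨_, rfl⟩
      rw [← hX'] at c3
      obtain ⟨R, hR⟩ : ∃ R : Fin 3 → ℕ, R = fun i => 2 ^ (s i + 1) := ⟨_, rfl⟩
      have hRprod : R 0 * R 1 * R 2 = X' := by
        rw [hR, hX', hsz]
        simp only [pow_succ]
        ring
      have hR1 : ∀ i, 1 ≤ R i := fun i => by rw [hR]; exact Nat.one_le_two_pow
      have hRX' : ∀ i, R i ≤ X' := by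
        intro i
        rw [← hRprod]
        have p0 := hR1 0
        have p1 := hR1 1
        have p2 := hR1 2
        have : i = 0 ∨ i = 1 ∨ i = 2 := by omega
        rcases this with rfl | rfl | rfl
        · rw [mul_assoc]
          exact Nat.le_mul_of_pos_right _ (Nat.mul_pos p1 p2)
        · rw [mul_comm (R 0), mul_assoc]
          exact Nat.le_mul_of_pos_right _ (Nat.mul_pos p0 p2)
        · exact Nat.le_mul_of_pos_left _ (Nat.mul_pos p0 p1)
      have hX'2 : 2 ≤ X' := by omega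
      have hXA' : X ^ A ≤ X' ^ (8 * A) := by
        rw [pow_mul]
        exact Nat.pow_le_pow_left c3 A
      have hrad : ∀ t ∈ T', ∀ i, rad (mem t i) ≤ R i := by
        intro t ht i
        have e1 : Nat.log 2 (rad (mem t i)) = s i := by
          have := (hmemT t ht).2.1
          rw [hlab] at this
          exact congrFun this i
        rw [hR]
        show rad (mem t i) ≤ 2 ^ (s i + 1)
        rw [← e1]
        exact (Nat.lt_pow_succ_log_self (by norm_num) _).le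
      have hRrad : ∀ t ∈ T', ∀ i, R i ≤ 2 * rad (mem t i) := by
        intro t ht i
        have e1 : Nat.log 2 (rad (mem t i)) = s i := by
          have := (hmemT t ht).2.1
          rw [hlab] at this
          exact congrFun this i
        rw [hR]
        show 2 ^ (s i + 1) ≤ 2 * rad (mem t i)
        rw [← e1, pow_succ, mul_comm]
        exact Nat.mul_le_mul_left _ (Nat.pow_log_le_self 2 (hradpos t i))
      have hHyp : Hyp (8 * A) X' R T' := by
        refine ⟨fun t ht => (hT t (hmemT t ht).1).1, ?_, hrad, hRX'⟩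
        intro t ht i
        obtain ⟨g1, g2, g3, g4, g5⟩ := hT t (hmemT t ht).1
        have e1 : mem t i ≤ t.1 + t.2 := by
          have : i = 0 ∨ i = 1 ∨ i = 2 := by omega
          rcases this with rfl | rfl | rfl
          · exact Nat.le_add_right _ _
          · exact Nat.le_add_left _ _
          · exact le_rfl
        exact e1.trans (g4.trans hXA')
      obtain ⟨m, -, hm⟩ := exists_min_image (univ : Finset (Fin 3)) R ⟨0, mem_univ _⟩
      have hb := hcell X' hX'2 R T' hHyp hR1 (by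
        intro t ht
        obtain ⟨g1, g2, g3, g4, g5⟩ := hT t (hmemT t ht).1
        have e1 := hszrad t (hmemT t ht).1
        rw [(hmemT t ht).2.1] at e1
        calc X' ^ M0 ≤ (sz s ^ 4) ^ M0 := by
              apply Nat.pow_le_pow_left
              rw [hX']
              have e2 : 8 ≤ sz s ^ 3 := by
                calc 8 = 2 ^ 3 := by norm_num
                  _ ≤ sz s ^ 3 := Nat.pow_le_pow_left c4 3
              calc 8 * sz s ≤ sz s ^ 3 * sz s := Nat.mul_le_mul_right _ e2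
                _ = sz s ^ 4 := by ring
          _ = sz s ^ (4 * M0) := by rw [← pow_mul]
          _ ≤ rad (t.1 * t.2 * (t.1 + t.2)) ^ (4 * M0) := Nat.pow_le_pow_left e1 _
          _ ≤ t.1 + t.2 := g3) m (fun i => hm i (mem_univ _))
      rw [hRprod] at hb
      have hX'X : X' ≤ 8 * X := by
        have e1 := hszrad t0 c1
        rw [c2] at e1
        have e2 := (hT t0 c1).2.1
        omega
      have hX'Xr : (X' : ℝ) ≤ 8 * X := by exact_mod_cast hX'X
      have hmY : (R m : ℝ) ≤ 2 * Y := by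
        obtain ⟨i, hi⟩ := (hT t0 c1).2.2.2.2
        have e1 := hRrad t0 ht0 i
        have e2 := hm i (mem_univ _)
        have : R m ≤ 2 * Y := by omega
        exact_mod_cast this
      have hm3 : (R m : ℝ) ≤ 2 * (X : ℝ) ^ ((1 : ℝ) / 3) := by
        have e1 : R m ^ 3 ≤ X' := by
          rw [← hRprod]
          calc R m ^ 3 = R m * R m * R m := by ring
            _ ≤ R 0 * R 1 * R 2 := Nat.mul_le_mul (Nat.mul_le_mul (hm 0 (mem_univ _))
                (hm 1 (mem_univ _))) (hm 2 (mem_univ _))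
        have e2 : (R m : ℝ) ^ 3 ≤ (2 * (X : ℝ) ^ ((1 : ℝ) / 3)) ^ 3 := by
          calc (R m : ℝ) ^ 3 ≤ X' := by exact_mod_cast e1
            _ ≤ 8 * X := hX'Xr
            _ = (2 * (X : ℝ) ^ ((1 : ℝ) / 3)) ^ 3 := by
                rw [mul_pow, ← Real.rpow_natCast ((X : ℝ) ^ ((1 : ℝ) / 3)), ← Real.rpow_mul hX0.le]
                norm_num
        exact (pow_le_pow_iff_left₀ (Nat.cast_nonneg _) (by positivity) (by norm_num)).mp e2
      have hfin : ((R m * X' : ℕ) : ℝ) ^ ((1 : ℝ) / 4) ≤ 2 * m0 := by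
        have hXX : ∀ W : ℝ, 0 ≤ W → (R m : ℝ) ≤ 2 * W →
            ((R m * X' : ℕ) : ℝ) ^ ((1 : ℝ) / 4) ≤ 2 * (X * W) ^ ((1 : ℝ) / 4) := by
          intro W hW hRW
          have e1 : ((R m * X' : ℕ) : ℝ) ≤ 16 * (X * W) := by
            push_cast
            calc (R m : ℝ) * X' ≤ (2 * W) * (8 * X) :=
                  mul_le_mul hRW hX'Xr (Nat.cast_nonneg _) (by positivity)
              _ = _ := by ring
          calc ((R m * X' : ℕ) : ℝ) ^ ((1 : ℝ) / 4) ≤ (16 * (X * W)) ^ ((1 : ℝ) / 4) :=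
                Real.rpow_le_rpow (Nat.cast_nonneg _) e1 (by norm_num)
            _ = (16 : ℝ) ^ ((1 : ℝ) / 4) * (X * W) ^ ((1 : ℝ) / 4) :=
                Real.mul_rpow (by norm_num) (by positivity)
            _ = 2 * (X * W) ^ ((1 : ℝ) / 4) := by
                congr 1
                rw [show (16 : ℝ) = 2 ^ (4 : ℝ) by norm_num, ← Real.rpow_mul (by norm_num)]
                norm_num
        rw [hm0, mul_min_of_nonneg _ _ (by norm_num : (0 : ℝ) ≤ 2)]
        apply le_min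
        · exact hXX Y (by linarith) hmY
        · refine (hXX _ (by positivity) hm3).trans (le_of_eq ?_)
          congr 1
          have e1 : (X : ℝ) * (X : ℝ) ^ ((1 : ℝ) / 3) = (X : ℝ) ^ ((4 : ℝ) / 3) := by
            nth_rewrite 1 [← Real.rpow_one (X : ℝ)]
            rw [← Real.rpow_add hX0]
            norm_num
          rw [e1, ← Real.rpow_mul hX0.le]
          norm_num
      calc (T'.card : ℝ) ≤ C1 * (X' : ℝ) ^ (ε / 2) * ((R m * X' : ℕ) : ℝ) ^ ((1 : ℝ) / 4) := hb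
        _ ≤ C1 * ((8 : ℝ) ^ (ε / 2) * (X : ℝ) ^ (ε / 2)) * (2 * m0) := by
            apply mul_le_mul _ hfin (by positivity) (by positivity)
            apply mul_le_mul_of_nonneg_left _ hC1.le
            rw [← Real.mul_rpow (by norm_num) hX0.le]
            exact Real.rpow_le_rpow (Nat.cast_nonneg _) hX'Xr (by positivity)
        _ = _ := by ring)
    rw [Fintype.card_piFinset, prod_const, card_univ, Fintype.card_fin, card_range] at h1
    push_cast at h1
    refine h1.trans ?_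
    apply mul_le_mul_of_nonneg_right _ (by positivity)
    have := hlog X hX
    push_cast at this
    exact this
  have hXX : (X : ℝ) ^ (1 / 4 + ε) ≤ (X : ℝ) ^ ε * m0 := by
    rw [add_comm, Real.rpow_add hX0]
    exact mul_le_mul_of_nonneg_left hm0X (by positivity)
  have hXe : (X : ℝ) ^ ε = (X : ℝ) ^ (ε / 2) * (X : ℝ) ^ (ε / 2) := by
    rw [← Real.rpow_add hX0]
    congr 1
    ring
  calc (T.card : ℝ) = (Ts.card : ℝ) + Tl.card := by rw [hsplit]; push_cast; rfl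
    _ ≤ C2 * ((X : ℝ) ^ ε * m0) + (C3 * (X : ℝ) ^ (ε / 2)) *
      (C1 * (8 ^ (ε / 2) * 2) * (X : ℝ) ^ (ε / 2) * m0) := by
        apply add_le_add (hsmall.trans _) hlarge
        exact mul_le_mul_of_nonneg_left hXX hC2.le
    _ = _ := by rw [hXe]; ring

end Pool.Agent.Helper205_Exc
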