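import Pool.Agent.H705R2.ABC.Main
import Pool.Agent.Y913.Nb.Ops

/-!
Integers with a large part made of high powers of small primes have divisors `r ^ E` with `r` small
and `r ^ E` large; the other ones are products of powers of few integers.
-/

set_option autoImplicit false

namespace Pool.Agent.Helper205_Exc

open Finset Pool.Agent.H785R2.ABC Pool.Agent.Y913.Nb

/-- the part of `n` made of the primes `p ≤ y` with exponent at least `E` -/
noncomputable def hi (y : ℝ) (E n : ℕ) : ℕ :=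
  ∏ p ∈ n.primeFactors.filter (fun p : ℕ => (p : ℝ) ≤ y ∧ E ≤ n.factorization p), p ^ n.factorization p

theorem hi_dvd (y : ℝ) (E n : ℕ) (hn : 1 ≤ n) : hi y E n ∣ n := by
  unfold hi
  conv_rhs => rw [← Nat.prod_factorization_pow_eq_self (show n ≠ 0 by omega)]
  rw [Finsupp.prod, Nat.support_factorization]
  exact Finset.prod_dvd_prod_of_subset _ _ _ (Finset.filter_subset _ _)

theorem hi_mono {y y' : ℝ} {E E' n : ℕ} (hy : y' ≤ y) (hE : E ≤ E') : hi y' E' n ≤ hi y E n := by
  unfold hi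
  apply Finset.prod_le_prod_of_subset_of_one_le'
  · intro p hp
    rw [mem_filter] at hp ⊢
    exact ⟨hp.1, hp.2.1.trans hy, hE.trans hp.2.2⟩
  · intro p hp _
    exact Nat.one_le_pow _ _ (Nat.prime_of_mem_primeFactors (mem_filter.mp hp).1).pos

/-- a divisor in a short range -/
theorem exists_divisor {m : ℕ} (hm : 0 < m) {y W : ℝ} (hy : 1 ≤ y) (hW : 1 ≤ W) (hWm : W ≤ m)
    (hp : ∀ p ∈ m.primeFactors, (p : ℝ) ≤ y) : ∃ d, d ∣ m ∧ W ≤ (d : ℝ) ∧ (d : ℝ) ≤ W * y := by
  classical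
  have hex : ∃ d, d ∣ m ∧ W ≤ (d : ℝ) := ⟨m, dvd_rfl, hWm⟩
  obtain ⟨h1, h2⟩ := Nat.find_spec hex
  obtain ⟨d, hd⟩ : ∃ d, d = Nat.find hex := ⟨_, rfl⟩
  have hmin : ∀ d', d' < d → ¬ (d' ∣ m ∧ W ≤ (d' : ℝ)) := fun d' h => by
    rw [hd] at h
    exact Nat.find_min hex h
  rw [← hd] at h1 h2
  refine ⟨d, h1, h2, ?_⟩
  have hd0 : 0 < d := Nat.pos_of_dvd_of_pos h1 hm
  rcases Nat.lt_or_ge 1 d with h3 | h3
  · obtain ⟨p, hpp, hpd⟩ := Nat.exists_prime_and_dvd (by omega : d ≠ 1)
    obtain ⟨d', hd'⟩ := hpd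
    have hp2 := hpp.two_le
    have hd'0 : 0 < d' := by
      rcases Nat.eq_zero_or_pos d' with h | h
      · rw [h] at hd'
        omega
      · exact h
    have hlt : d' < d := by
      rw [hd']
      nlinarith
    have h4 := hmin d' hlt
    have h5 : d' ∣ m := dvd_trans ⟨p, by rw [hd', mul_comm]⟩ h1
    have h6 : (d' : ℝ) < W := by
      by_contra hc
      exact h4 ⟨h5, not_lt.mp hc⟩
    have h7 : (p : ℝ) ≤ y := by
      apply hp
      rw [Nat.mem_primeFactors]
      exact ⟨hpp, dvd_trans ⟨d', hd'⟩ h1, hm.ne'⟩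
    have h8 : (d : ℝ) = p * d' := by rw [hd']; push_cast; ring
    have h9 : (0 : ℝ) ≤ p := Nat.cast_nonneg _
    rw [h8]
    calc (p : ℝ) * d' ≤ p * W := mul_le_mul_of_nonneg_left h6.le h9
      _ ≤ y * W := mul_le_mul_of_nonneg_right h7 (by linarith)
      _ = W * y := mul_comm _ _
  · have h4 : d = 1 := by omega
    rw [h4]
    push_cast
    nlinarith

/-- extraction of a power -/
theorem extract {y W : ℝ} {E n : ℕ} (hn : 1 ≤ n) (hE : 1 ≤ E) (hy : 1 ≤ y) (hW : 1 ≤ W)
    (h : W ^ (2 * E) ≤ (hi y E n : ℝ)) :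
    ∃ r : ℕ, r ^ E ∣ n ∧ W ≤ (r : ℝ) ∧ (r : ℝ) ≤ W * y := by
  classical
  obtain ⟨F, hF⟩ : ∃ F, F = n.primeFactors.filter
    (fun p : ℕ => (p : ℝ) ≤ y ∧ E ≤ n.factorization p) := ⟨_, rfl⟩
  obtain ⟨Rf, hRf⟩ : ∃ Rf, Rf = ∏ p ∈ F, p ^ (n.factorization p / E) := ⟨_, rfl⟩
  have hprime : ∀ p ∈ F, p.Prime := fun p hp => by
    rw [hF] at hp
    exact Nat.prime_of_mem_primeFactors (mem_filter.mp hp).1
  have hRf0 : 0 < Rf := by
    rw [hRf]
    exact prod_pos fun p hp => pow_pos (hprime p hp).pos _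
  have h1 : Rf ^ E ∣ n := by
    refine dvd_trans ?_ (hi_dvd y E n hn)
    unfold hi
    rw [hRf, ← hF, ← Finset.prod_pow]
    apply Finset.prod_dvd_prod_of_dvd
    intro p _
    rw [← pow_mul]
    exact pow_dvd_pow p (Nat.div_mul_le_self _ _)
  have h2 : hi y E n ≤ Rf ^ (2 * E) := by
    unfold hi
    rw [hRf, ← hF, ← Finset.prod_pow]
    apply Finset.prod_le_prod' 
    intro p hp
    rw [← pow_mul]
    apply Nat.pow_le_pow_right (hprime p hp).pos
    rw [hF, mem_filter] at hp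
    have h3 := hp.2.2
    have h4 := Nat.div_add_mod (n.factorization p) E
    have h5 := Nat.mod_lt (n.factorization p) (by omega : 0 < E)
    have h6 : 1 ≤ n.factorization p / E := (Nat.one_le_div_iff (by omega)).mpr h3
    nlinarith
  have h3 : W ≤ Rf := by
    have h4 : W ^ (2 * E) ≤ (Rf : ℝ) ^ (2 * E) := h.trans (by exact_mod_cast h2)
    exact (pow_le_pow_iff_left₀ (by linarith) (Nat.cast_nonneg _) (by omega)).mp h4
  obtain ⟨d, hd1, hd2, hd3⟩ := exists_divisor hRf0 hy hW h3 (by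
    intro p hp
    have hpp := Nat.prime_of_mem_primeFactors hp
    have hpd := Nat.dvd_of_mem_primeFactors hp
    rw [hRf] at hpd
    obtain ⟨q, hq, hpq⟩ := (hpp.prime.dvd_finsetProd_iff _).1 hpd
    have := hpp.dvd_of_dvd_pow hpq
    rw [(Nat.prime_dvd_prime_iff_eq hpp (hprime q hq)).1 this]
    rw [hF, mem_filter] at hq
    exact hq.2.1)
  exact ⟨d, (pow_dvd_pow_of_dvd hd1 E).trans h1, hd2, hd3⟩

/-- the integers without a large flexible part are products of powers of few integers -/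
theorem nb_of_not {X : ℕ} (hX : 2 ≤ X) {δ : ℝ} (hδ : 0 < δ) {E : ℕ} (hE : 1 ≤ E) {B : ℝ} {n : ℕ}
    (hn : 1 ≤ n) (hr : rad n ≤ X) (h : (hi ((X : ℝ) ^ δ) E n : ℝ) < (X : ℝ) ^ B) :
    NB (2 + ⌊1 / δ⌋₊) ((X : ℝ) ^ (max (E : ℝ) B)) n := by
  classical
  have hX0 : (0 : ℝ) < X := by exact_mod_cast (by omega : 0 < X)
  have hX1 : (1 : ℝ) < X := by exact_mod_cast (by omega : 1 < X)
  obtain ⟨Y, hY⟩ : ∃ Y : ℝ, Y = (X : ℝ) ^ (max (E : ℝ) B) := ⟨_, rfl⟩
  obtain ⟨y, hy⟩ : ∃ y : ℝ, y = (X : ℝ) ^ δ := ⟨_, rfl⟩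
  have hy0 : 0 < y := by rw [hy]; positivity
  have hE1 : (1 : ℝ) ≤ E := by exact_mod_cast hE
  have hYX : (X : ℝ) ≤ Y := by
    rw [hY]
    calc (X : ℝ) = (X : ℝ) ^ (1 : ℝ) := (Real.rpow_one _).symm
      _ ≤ _ := Real.rpow_le_rpow_of_exponent_le hX1.le (hE1.trans (le_max_left _ _))
  have hYE : ((X ^ E : ℕ) : ℝ) ≤ Y := by
    rw [hY]
    push_cast
    rw [← Real.rpow_natCast]
    exact Real.rpow_le_rpow_of_exponent_le hX1.le (le_max_left _ _)
  have hYB : (X : ℝ) ^ B ≤ Y := by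
    rw [hY]
    exact Real.rpow_le_rpow_of_exponent_le hX1.le (le_max_right _ _)
  rw [← hY]
  rw [← hy] at h
  obtain ⟨S1, hS1⟩ : ∃ S, S = n.primeFactors.filter (fun p => n.factorization p < E) := ⟨_, rfl⟩
  obtain ⟨S2, hS2⟩ : ∃ S, S = n.primeFactors.filter
    (fun p : ℕ => (p : ℝ) ≤ y ∧ E ≤ n.factorization p) := ⟨_, rfl⟩
  obtain ⟨S3, hS3⟩ : ∃ S, S = n.primeFactors.filter
    (fun p : ℕ => y < (p : ℝ) ∧ E ≤ n.factorization p) := ⟨_, rfl⟩
  have hp1 : ∀ p ∈ n.primeFactors, 1 ≤ p := fun p hp => (Nat.prime_of_mem_primeFactors hp).pos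
  have hfac : n = (∏ p ∈ S1, p ^ n.factorization p) *
      (hi y E n * ∏ p ∈ S3, p ^ n.factorization p) := by
    have e1 : n = ∏ p ∈ n.primeFactors, p ^ n.factorization p := by
      conv_lhs => rw [← Nat.prod_factorization_pow_eq_self (show n ≠ 0 by omega)]
      rw [Finsupp.prod, Nat.support_factorization]
    conv_lhs => rw [e1]
    rw [← Finset.prod_filter_mul_prod_filter_not n.primeFactors (fun p => n.factorization p < E),
      ← hS1]
    congr 1
    rw [← Finset.prod_filter_mul_prod_filter_not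
      (n.primeFactors.filter (fun p => ¬ n.factorization p < E)) (fun p : ℕ => (p : ℝ) ≤ y)]
    unfold hi
    rw [← hS2]
    congr 1
    · rw [hS2, filter_filter]
      apply prod_congr _ fun _ _ => rfl
      ext p
      simp only [mem_filter, not_lt]
      tauto
    · rw [hS3, filter_filter]
      apply prod_congr _ fun _ _ => rfl
      ext p
      simp only [mem_filter, not_lt, not_le]
      tauto
  have hlow : ∏ p ∈ S1, p ^ n.factorization p ≤ X ^ E := by
    calc ∏ p ∈ S1, p ^ n.factorization p ≤ ∏ p ∈ S1, p ^ E := by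
          apply prod_le_prod' 
          intro p hp
          rw [hS1, mem_filter] at hp
          exact Nat.pow_le_pow_right (hp1 p hp.1) hp.2.le
      _ = (∏ p ∈ S1, p) ^ E := prod_pow _ _ _
      _ ≤ (rad n) ^ E := by
          apply Nat.pow_le_pow_left
          unfold rad
          apply Finset.prod_le_prod_of_subset_of_one_le'
          · rw [hS1]
            exact filter_subset _ _
          · intro p hp _
            exact hp1 p hp
      _ ≤ X ^ E := Nat.pow_le_pow_left hr E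
  have hlow1 : 0 < ∏ p ∈ S1, p ^ n.factorization p := by
    apply prod_pos
    intro p hp
    rw [hS1, mem_filter] at hp
    exact pow_pos (hp1 p hp.1) _
  have hhi1 : 0 < hi y E n := Nat.pos_of_dvd_of_pos (hi_dvd y E n hn) hn
  have hle : ∀ p ∈ n.primeFactors, (p : ℝ) ≤ X := by
    intro p hp
    have e1 : p ∣ rad n := dvd_prod_of_mem (fun p => p) hp
    have e2 : 0 < rad n := prod_pos fun p hp => hp1 p hp
    exact_mod_cast (Nat.le_of_dvd e2 e1).trans hr
  have hbig : NB S3.card Y (∏ p ∈ S3, p ^ n.factorization p) := by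
    apply NB.of_type (ι := S3) (by rw [Fintype.card_coe]) (fun p => p.1)
      (fun p => n.factorization p.1)
    · intro p
      have hp : p.1 ∈ n.primeFactors := by
        have h5 : ∀ q ∈ S3, q ∈ n.primeFactors := by
          intro q hq
          rw [hS3] at hq
          exact (mem_filter.mp hq).1
        exact h5 _ p.2
      exact ⟨hp1 _ hp, (hle _ hp).trans hYX⟩
    · exact (Finset.prod_coe_sort S3 (fun p => p ^ n.factorization p)).symm
  have hcard : S3.card ≤ ⌊1 / δ⌋₊ := by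
    apply Nat.le_floor
    rw [le_div_iff₀ hδ]
    have e1 : y ^ S3.card ≤ X := by
      calc y ^ S3.card = ∏ _p ∈ S3, y := by rw [prod_const]
        _ ≤ ∏ p ∈ S3, (p : ℝ) := by
            apply prod_le_prod
            · intro p _
              exact hy0.le
            · intro p hp
              rw [hS3, mem_filter] at hp
              exact hp.2.1.le
        _ = ((∏ p ∈ S3, p : ℕ) : ℝ) := by push_cast; rfl
        _ ≤ ((rad n : ℕ) : ℝ) := by
            apply Nat.cast_le.mpr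
            unfold rad
            apply Finset.prod_le_prod_of_subset_of_one_le'
            · rw [hS3]
              exact filter_subset _ _
            · intro p hp _
              exact hp1 p hp
        _ ≤ X := by exact_mod_cast hr
    rw [hy, ← Real.rpow_natCast, ← Real.rpow_mul hX0.le] at e1
    have e2 : (X : ℝ) ^ (δ * (S3.card : ℝ)) ≤ (X : ℝ) ^ (1 : ℝ) := by rwa [Real.rpow_one]
    have e3 := (Real.rpow_le_rpow_left_iff hX1).mp e2
    linarith
  have h3 := (hbig.mul_base hhi1 (h.le.trans hYB)).mul_base hlow1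
    (le_trans (by exact_mod_cast hlow) hYE)
  rw [← hfac] at h3
  exact h3.mono_n (hX1.le.trans hYX) (by omega)

end Pool.Agent.Helper205_Exc
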