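import Pool.Agent.Helper205_Exc.SysCell
import Pool.Agent.TH867.QF.Basic

/-!
The values of `q` linear forms at the points of the projective line over `ℚ`.
-/

set_option autoImplicit false

namespace Pool.Agent.Helper205_Exc

open Finset Pool.Agent.H785R2.ABC Pool.Agent.H705R2.ABC Pool.Agent.Y913.Nb Pool.Agent.TH867.QF

/-- the part of `n` prime to `P0` -/
def gp (P0 : Finset ℕ) (n : ℕ) : ℕ := ∏ p ∈ n.primeFactors \ P0, p ^ n.factorization p

/-- the part of `n` made of the primes of `P0` -/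
def bp (P0 : Finset ℕ) (n : ℕ) : ℕ := ∏ p ∈ n.primeFactors ∩ P0, p ^ n.factorization p

theorem gp_pos (P0 : Finset ℕ) (n : ℕ) : 0 < gp P0 n :=
  prod_pos fun _ hp => pow_pos (Nat.prime_of_mem_primeFactors (mem_sdiff.mp hp).1).pos _

theorem bp_pos (P0 : Finset ℕ) (n : ℕ) : 0 < bp P0 n :=
  prod_pos fun _ hp => pow_pos (Nat.prime_of_mem_primeFactors (mem_inter.mp hp).1).pos _

theorem bp_mul_gp (P0 : Finset ℕ) {n : ℕ} (hn : 0 < n) : bp P0 n * gp P0 n = n := by
  unfold bp gp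
  conv_rhs => rw [← Nat.prod_factorization_pow_eq_self (show n ≠ 0 by omega)]
  rw [Finsupp.prod, Nat.support_factorization]
  exact Finset.prod_inter_mul_prod_sdiff _ _ _

theorem gp_dvd (P0 : Finset ℕ) {n : ℕ} (hn : 0 < n) : gp P0 n ∣ n :=
  Dvd.intro_left _ (bp_mul_gp P0 hn)

theorem bp_dvd (P0 : Finset ℕ) {n : ℕ} (hn : 0 < n) : bp P0 n ∣ n :=
  Dvd.intro _ (bp_mul_gp P0 hn)

theorem fac_pos' {n p : ℕ} (hp : p ∈ n.primeFactors) : 1 ≤ n.factorization p := by
  have h4 : n ≠ 0 := (Nat.mem_primeFactors.1 hp).2.2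
  exact (Nat.prime_of_mem_primeFactors hp).factorization_pos_of_dvd h4
    (Nat.dvd_of_mem_primeFactors hp)

theorem gp_primeFactors (P0 : Finset ℕ) (n : ℕ) : (gp P0 n).primeFactors = n.primeFactors \ P0 :=
  primeFactors_prod_pow' _ (fun _ hp => Nat.prime_of_mem_primeFactors (mem_sdiff.mp hp).1) _
    (fun _ hp => fac_pos' (mem_sdiff.mp hp).1)

theorem bp_primeFactors (P0 : Finset ℕ) (n : ℕ) : (bp P0 n).primeFactors = n.primeFactors ∩ P0 :=
  primeFactors_prod_pow' _ (fun _ hp => Nat.prime_of_mem_primeFactors (mem_inter.mp hp).1) _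
    (fun _ hp => fac_pos' (mem_inter.mp hp).1)

/-- the bad part is a product of powers of the primes of `P0` -/
theorem bp_nb (P0 : Finset ℕ) (n : ℕ) {Y : ℝ} (hY : ∀ p ∈ P0, (p : ℝ) ≤ Y) (hY1 : 1 ≤ Y) :
    NB P0.card Y (bp P0 n) := by
  classical
  have h1 : NB (n.primeFactors ∩ P0).card Y (bp P0 n) := by
    apply NB.of_type (ι := (n.primeFactors ∩ P0 : Finset ℕ)) (by rw [Fintype.card_coe])
      (fun p => p.1) (fun p => n.factorization p.1)
    · intro p
      have hp := mem_inter.mp p.2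
      exact ⟨(Nat.prime_of_mem_primeFactors hp.1).pos, hY _ hp.2⟩
    · exact (Finset.prod_coe_sort (n.primeFactors ∩ P0) (fun p => p ^ n.factorization p)).symm
  exact h1.mono_n hY1 (card_le_card inter_subset_right)

/-- a class of points: given signs and given bad parts of the values -/
structure Cls {q : ℕ} (L : Fm q) (P0 : Finset ℕ) (sg : Fin q → ℤ) (s : Fin q → ℕ)
    (T : Finset (ℤ × ℤ)) : Prop where
  pt : ∀ P ∈ T, Pt L P
  val : ∀ P ∈ T, ∀ i, ev L P i = sg i * (s i * gp P0 (va L P i) : ℕ)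
  sg1 : ∀ i, sg i = 1 ∨ sg i = -1
  s0 : ∀ i, 0 < s i
  sP : ∀ i, (s i).primeFactors ⊆ P0
  sb : ∀ P ∈ T, ∀ i, s i = bp P0 (va L P i)

/-- the members -/
def mm {q : ℕ} (L : Fm q) (P0 : Finset ℕ) (P : ℤ × ℤ) (i : Fin q) : ℕ := gp P0 (va L P i)

theorem int_unit {z : ℤ} {f : ℕ} (h : Nat.Coprime z.natAbs f) : IsUnit ((z : ℤ) : ZMod f) := by
  have h1 : IsUnit ((z.natAbs : ℕ) : ZMod f) := (ZMod.isUnit_iff_coprime _ _).mpr h
  rcases Int.natAbs_eq z with h2 | h2
  · rw [h2]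
    simpa using h1
  · rw [h2]
    simpa using h1.neg

theorem Cls.sys {q : ℕ} {L : Fm q} {P0 : Finset ℕ} {sg : Fin q → ℤ} {s : Fin q → ℕ}
    {T : Finset (ℤ × ℤ)} (h : Cls L P0 sg s T) (hP0 : (Rs L).primeFactors ⊆ P0) {A X : ℕ}
    {R : Fin q → ℕ} (hle : ∀ P ∈ T, ∀ i, va L P i ≤ X ^ A)
    (hrad : ∀ P ∈ T, ∀ i, rad (mm L P0 P i) ≤ R i) (hRX : ∀ i, R i ≤ X) :
    Sys A X R (mm L P0) T where
  pos P hP i := gp_pos _ _
  le P hP i := (Nat.le_of_dvd (va_pos (h.pt P hP) i) (gp_dvd P0 (va_pos (h.pt P hP) i))).trans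
    (hle P hP i)
  rad := hrad
  RX := hRX
  cop P hP i j hij := by
    apply Nat.Coprime.symm
    apply Nat.Coprime.symm
    rw [Nat.coprime_iff_gcd_eq_one]
    by_contra hne
    obtain ⟨p, hp, hpd⟩ := Nat.exists_prime_and_dvd hne
    have h1 : p ∣ mm L P0 P i := hpd.trans (Nat.gcd_dvd_left _ _)
    have h2 : p ∣ mm L P0 P j := hpd.trans (Nat.gcd_dvd_right _ _)
    have h3 : (p : ℤ) ∣ ev L P i := by
      rw [Int.natCast_dvd]
      exact h1.trans (gp_dvd P0 (va_pos (h.pt P hP) i))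
    have h4 : (p : ℤ) ∣ ev L P j := by
      rw [Int.natCast_dvd]
      exact h2.trans (gp_dvd P0 (va_pos (h.pt P hP) j))
    have h5 : p ∣ Rs L := (Int.natCast_dvd.1 (dvd_rs (h.pt P hP) h3 h4)).trans (rs_dvd L hij)
    have h6 : p ∈ P0 := hP0 (Nat.mem_primeFactors.mpr ⟨hp, h5, (Rs_pos L).ne'⟩)
    have h7 : p ∈ (mm L P0 P i).primeFactors :=
      Nat.mem_primeFactors.mpr ⟨hp, h1, (gp_pos _ _).ne'⟩
    unfold mm at h7
    rw [gp_primeFactors] at h7
    exact (mem_sdiff.mp h7).2 h6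
  inj P hP P' hP' j k hjk hj hk := by
    have e1 : ev L P j = ev L P' j := by
      rw [h.val P hP j, h.val P' hP' j]
      unfold mm at hj
      rw [hj]
    have e2 : ev L P k = ev L P' k := by
      rw [h.val P hP k, h.val P' hP' k]
      unfold mm at hk
      rw [hk]
    have hne : rs L j k ≠ 0 := L.res j k hjk
    apply Prod.ext
    · apply mul_left_cancel₀ hne
      rw [cross1, cross1, e1, e2]
    · apply mul_left_cancel₀ hne
      rw [cross2, cross2, e1, e2]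
  cong i j k hij hjk hik f := by
    rintro ⟨P1, hP1, hf1⟩
    have hfP0 : ∀ p, p.Prime → p ∣ f → p ∉ P0 := by
      intro p hp hpf hpP
      have h7 : p ∈ (mm L P0 P1 i).primeFactors :=
        Nat.mem_primeFactors.mpr ⟨hp, hpf.trans hf1, (gp_pos _ _).ne'⟩
      unfold mm at h7
      rw [gp_primeFactors] at h7
      exact (mem_sdiff.mp h7).2 hpP
    have hcopf : ∀ z : ℕ, z ≠ 0 → z.primeFactors ⊆ P0 → Nat.Coprime z f := by
      intro z hz hzP
      rw [Nat.coprime_iff_gcd_eq_one]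
      by_contra hne
      obtain ⟨p, hp, hpd⟩ := Nat.exists_prime_and_dvd hne
      exact hfP0 p hp (hpd.trans (Nat.gcd_dvd_right _ _))
        (hzP (Nat.mem_primeFactors.mpr ⟨hp, hpd.trans (Nat.gcd_dvd_left _ _), hz⟩))
    have hrsu : ∀ a b : Fin q, a ≠ b → IsUnit ((rs L a b : ℤ) : ZMod f) := by
      intro a b hab
      apply int_unit
      apply hcopf
      · exact Int.natAbs_ne_zero.mpr (L.res a b hab)
      · exact (Nat.primeFactors_mono (rs_dvd L hab) (Rs_pos L).ne').trans hP0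
    have hsu : ∀ a : Fin q, IsUnit (((sg a * (s a : ℕ) : ℤ)) : ZMod f) := by
      intro a
      apply int_unit
      rw [Int.natAbs_mul]
      have : (sg a).natAbs = 1 := by
        rcases h.sg1 a with h1 | h1 <;> rw [h1] <;> rfl
      rw [this, one_mul, Int.natAbs_natCast]
      exact hcopf _ (h.s0 a).ne' (h.sP a)
    obtain ⟨u1, hu1⟩ := (hrsu k i hik.symm).mul (hsu j)
    obtain ⟨u2, hu2⟩ := (hrsu i j hij).mul (hsu k)
    refine ⟨-((u1⁻¹ : (ZMod f)ˣ) : ZMod f) * (u2 : ZMod f), ?_, ?_⟩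
    · exact ((u1⁻¹).isUnit.neg).mul u2.isUnit
    · intro P hP hfP
      have h1 := lin3 L P i j k
      have h2 : ((ev L P i : ℤ) : ZMod f) = 0 := by
        rw [ZMod.intCast_zmod_eq_zero_iff_dvd]
        rw [Int.natCast_dvd]
        exact hfP.trans (gp_dvd P0 (va_pos (h.pt P hP) i))
      have h3 : ((rs L k i * ev L P j + rs L i j * ev L P k : ℤ) : ZMod f) =
          ((- rs L j k * ev L P i : ℤ) : ZMod f) := congrArg (fun z : ℤ => (z : ZMod f)) h1
      push_cast at h3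
      rw [h2, mul_zero, h.val P hP j, h.val P hP k] at h3
      push_cast at h3 hu1 hu2
      have h4 : (u1 : ZMod f) * ((mm L P0 P j : ℕ) : ZMod f) +
          (u2 : ZMod f) * ((mm L P0 P k : ℕ) : ZMod f) = 0 := by
        rw [hu1, hu2]
        unfold mm
        rw [← h3]
        ring
      have h5 : (u1 : ZMod f) * ((mm L P0 P j : ℕ) : ZMod f) =
          -((u2 : ZMod f) * ((mm L P0 P k : ℕ) : ZMod f)) := by
        exact eq_neg_of_add_eq_zero_left h4
      calc ((mm L P0 P j : ℕ) : ZMod f)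
          = ((u1⁻¹ : (ZMod f)ˣ) : ZMod f) * ((u1 : ZMod f) * ((mm L P0 P j : ℕ) : ZMod f)) := by
            rw [← mul_assoc, Units.inv_mul, one_mul]
        _ = _ := by rw [h5]; ring

theorem Cls.mono {q : ℕ} {L : Fm q} {P0 : Finset ℕ} {sg : Fin q → ℤ} {s : Fin q → ℕ}
    {T T' : Finset (ℤ × ℤ)} (h : Cls L P0 sg s T) (hT : T' ⊆ T) : Cls L P0 sg s T' where
  pt P hP := h.pt P (hT hP)
  val P hP := h.val P (hT hP)
  sg1 := h.sg1
  s0 := h.s0
  sP := h.sP
  sb P hP := h.sb P (hT hP)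

end Pool.Agent.Helper205_Exc
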