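import Pool.Agent.Helper205_Exc.Forms

/-!
The points all whose values are products of powers of few small integers.
-/

set_option autoImplicit false

namespace Pool.Agent.Helper205_Exc

open Finset Pool.Agent.H785R2.ABC Pool.Agent.H705R2.ABC Pool.Agent.Y913.Nb Pool.Agent.TH867.QF Pool.Agent.Y913.Zm

variable {q : ℕ}

/-- the weighted value -/
def wv (L : Fm q) (P : ℤ × ℤ) (a b c : Fin q) : ℕ := (rs L b c).natAbs * va L P a

theorem wv_pos {L : Fm q} {P : ℤ × ℤ} (h : Pt L P) {a b c : Fin q} (hbc : b ≠ c) :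
    0 < wv L P a b c :=
  Nat.mul_pos (Int.natAbs_pos.mpr (L.res b c hbc)) (va_pos h a)

/-- the gcd of two weighted values is bounded -/
theorem wv_gcd {L : Fm q} {P : ℤ × ℤ} (h : Pt L P) {a b c : Fin q} (hab : a ≠ b) (hbc : b ≠ c)
    (hca : c ≠ a) : Nat.gcd (wv L P a b c) (wv L P b c a) ≤ Rs L ^ 3 := by
  obtain ⟨g, hg⟩ : ∃ g, g = Nat.gcd (wv L P a b c) (wv L P b c a) := ⟨_, rfl⟩
  rw [← hg]
  obtain ⟨N, hN⟩ : ∃ N : ℤ, N = rs L b c * rs L c a := ⟨_, rfl⟩
  have h1 : (g : ℤ) ∣ rs L b c * ev L P a := by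
    rw [Int.natCast_dvd, Int.natAbs_mul, hg]
    exact Nat.gcd_dvd_left _ _
  have h2 : (g : ℤ) ∣ rs L c a * ev L P b := by
    rw [Int.natCast_dvd, Int.natAbs_mul, hg]
    exact Nat.gcd_dvd_right _ _
  have h3 : (g : ℤ) ∣ N * ev L P a := by
    rw [hN, show rs L b c * rs L c a * ev L P a = rs L c a * (rs L b c * ev L P a) by ring]
    exact h1.mul_left _
  have h4 : (g : ℤ) ∣ N * ev L P b := by
    rw [hN, show rs L b c * rs L c a * ev L P b = rs L b c * (rs L c a * ev L P b) by ring]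
    exact h2.mul_left _
  have h5 : (g : ℤ) ∣ N * rs L a b * P.1 := by
    rw [mul_assoc, cross1, mul_sub]
    apply dvd_sub
    · rw [show N * (L.w b * ev L P a) = L.w b * (N * ev L P a) by ring]
      exact h3.mul_left _
    · rw [show N * (L.w a * ev L P b) = L.w a * (N * ev L P b) by ring]
      exact h4.mul_left _
  have h6 : (g : ℤ) ∣ N * rs L a b * P.2 := by
    rw [mul_assoc, cross2, mul_sub]
    apply dvd_sub
    · rw [show N * (L.u a * ev L P b) = L.u a * (N * ev L P b) by ring]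
      exact h4.mul_left _
    · rw [show N * (L.u b * ev L P a) = L.u b * (N * ev L P a) by ring]
      exact h3.mul_left _
  obtain ⟨x, y, hxy⟩ := h.cop
  have h7 : (g : ℤ) ∣ N * rs L a b := by
    have e : N * rs L a b = x * (N * rs L a b * P.1) + y * (N * rs L a b * P.2) := by
      linear_combination (- (N * rs L a b)) * hxy
    rw [e]
    exact dvd_add (h5.mul_left _) (h6.mul_left _)
  have h8 : g ≤ (N * rs L a b).natAbs := by
    apply Nat.le_of_dvd
    · rw [hN]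
      exact Int.natAbs_pos.mpr (mul_ne_zero (mul_ne_zero (L.res b c hbc) (L.res c a hca))
        (L.res a b hab))
    · exact Int.natCast_dvd.mp h7
  refine h8.trans ?_
  rw [hN, Int.natAbs_mul, Int.natAbs_mul, pow_succ, pow_two]
  have hR := Rs_pos L
  exact Nat.mul_le_mul (Nat.mul_le_mul (Nat.le_of_dvd hR (rs_dvd L hbc))
    (Nat.le_of_dvd hR (rs_dvd L hca))) (Nat.le_of_dvd hR (rs_dvd L hab))

/-- two points of a class with proportional values coincide -/
theorem Cls.eq_of_prop {L : Fm q} {P0 : Finset ℕ} {sg : Fin q → ℤ} {s : Fin q → ℕ}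
    {T : Finset (ℤ × ℤ)} (h : Cls L P0 sg s T) {a b : Fin q} (hab : a ≠ b) {P P' : ℤ × ℤ}
    (hP : P ∈ T) (hP' : P' ∈ T) (he : va L P a * va L P' b = va L P' a * va L P b) : P = P' := by
  have hs : ∀ P ∈ T, ∀ i, ev L P i = sg i * (va L P i : ℕ) := by
    intro P hP i
    have h1 := h.val P hP i
    have h2 := h.sb P hP i
    have h3 := bp_mul_gp P0 (va_pos (h.pt P hP) i)
    rw [← h2] at h3
    rw [h1, h3]
  have h0 : rs L a b * dt P P' = 0 := by
    have e : rs L a b * dt P P' = ev L P a * ev L P' b - ev L P' a * ev L P b := by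
      unfold rs dt ev; ring
    rw [e, hs P hP a, hs P' hP' b, hs P' hP' a, hs P hP b]
    have he' : (va L P a : ℤ) * va L P' b = va L P' a * va L P b := by exact_mod_cast he
    linear_combination sg a * sg b * he'
  have h1 : dt P P' = 0 := (mul_eq_zero.mp h0).resolve_left (L.res a b hab)
  obtain ⟨c, hc, h2, h3⟩ := proportional (h.pt P hP).cop (h.pt P' hP').cop h1
  rcases hc with hc | hc
  · rw [hc, one_mul] at h2 h3
    exact (Prod.ext h2 h3).symm
  · exfalso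
    have h4 : ev L P' a = - ev L P a := by
      unfold ev
      rw [h2, h3, hc]
      ring
    rw [hs P hP a, hs P' hP' a] at h4
    have p1 : (0 : ℤ) < va L P a := by exact_mod_cast va_pos (h.pt P hP) a
    have p2 : (0 : ℤ) < va L P' a := by exact_mod_cast va_pos (h.pt P' hP') a
    rcases h.sg1 a with e | e <;> rw [e] at h4 <;> linarith

/-- the values are products of powers of few small integers -/
theorem va_nb {L : Fm q} {P0 : Finset ℕ} {lev : Lev} (hlev : lev.Adm) {X : ℕ} (hX : 2 ≤ X)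
    {P : ℤ × ℤ} (hP : Pt L P) {a : Fin q} (hr : rad (mm L P0 P a) ≤ X)
    (hf : ¬ lev.Flex X (mm L P0 P a)) {Y : ℝ} (h1 : (X : ℝ) ^ lev.z ≤ Y) (hY1 : 1 ≤ Y)
    (h2 : ∀ p ∈ P0, (p : ℝ) ≤ Y) : NB (P0.card + lev.n) Y (va L P a) := by
  have e1 := (Lev.nb hlev hX (show 1 ≤ mm L P0 P a from gp_pos _ _) hr hf).mono_Y h1
  have e2 := bp_nb P0 (va L P a) h2 hY1
  have e3 := e2.mul e1
  unfold mm at e3
  rwa [bp_mul_gp P0 (va_pos hP a)] at e3

theorem D_sub (L : Fm q) (P0 : Finset ℕ) (lev : Lev) (hlev : lev.Adm)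
    (ε : ℝ) (hε : 0 < ε) : ∃ (M : ℕ) (C : ℝ), 0 < C ∧
    ∀ X : ℕ, 2 ≤ X → ∀ (sg : Fin q → ℤ) (s : Fin q → ℕ) (T : Finset (ℤ × ℤ)), Cls L P0 sg s T →
    (∀ P ∈ T, ∀ i, rad (mm L P0 P i) ≤ X) → (∀ P ∈ T, ∀ i, ¬ lev.Flex X (mm L P0 P i)) →
    (∀ P ∈ T, X ^ M ≤ ht P) → ∀ a b c : Fin q, a ≠ b → b ≠ c → c ≠ a →
    (∀ P ∈ T, wv L P a b c + wv L P b c a = wv L P c a b) →
    (T.card : ℝ) ≤ C * (X : ℝ) ^ ε := by
  classical
  obtain ⟨G, hG⟩ : ∃ G : ℕ, G = Rs L ^ 3 := ⟨_, rfl⟩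
  have hG1 : 1 ≤ G := by rw [hG]; exact Nat.one_le_pow _ _ (Rs_pos L)
  obtain ⟨K0, hK0⟩ : ∃ K0 : ℕ, K0 = Rs L + ∑ p ∈ P0, p := ⟨_, rfl⟩
  have hK0R : Rs L ≤ K0 := by rw [hK0]; exact Nat.le_add_right _ _
  have hK01 : 1 ≤ K0 := (Rs_pos L).trans_le hK0R
  have hK0p : ∀ p ∈ P0, p ≤ K0 := by
    intro p hp
    rw [hK0]
    have := single_le_sum (f := fun p : ℕ => p) (fun _ _ => Nat.zero_le _) hp
    omega
  obtain ⟨z, hz⟩ : ∃ z : ℝ, z = lev.z := ⟨_, rfl⟩
  have hz0 : 0 < z := by rw [hz]; exact lt_of_lt_of_le hlev.1 (le_max_right _ _)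
  obtain ⟨n', hn'⟩ : ∃ n' : ℕ, n' = P0.card + lev.n + 1 := ⟨_, rfl⟩
  have hGr : (1 : ℝ) ≤ G := by exact_mod_cast hG1
  have hK0r : (1 : ℝ) ≤ K0 := by exact_mod_cast hK01
  obtain ⟨ε', hε'⟩ : ∃ ε' : ℝ, ε' = ε / (G * (z + 1)) := ⟨_, rfl⟩
  have hε'0 : 0 < ε' := by rw [hε']; positivity
  obtain ⟨K, C, hK, hC, hnt⟩ := nt_count (n' + n') ε' hε'0
  obtain ⟨m, hm⟩ := pow_unbounded_of_one_lt ((U L : ℝ) * G * (K0 : ℝ) ^ (G * K)) (one_lt_two)
  obtain ⟨M, hM⟩ : ∃ M : ℕ, M = m + ⌈z * (G * K)⌉₊ := ⟨_, rfl⟩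
  refine ⟨M, C * (K0 : ℝ) ^ (G * ε'), by positivity, ?_⟩
  intro X hX sg s T hT hrad hflex hht a b c hab hbc hca hsum
  have hX0 : (0 : ℝ) < X := by exact_mod_cast (by omega : 0 < X)
  have hX1 : (1 : ℝ) < X := by exact_mod_cast (by omega : 1 < X)
  have hX2 : (2 : ℝ) ≤ X := by exact_mod_cast hX
  obtain ⟨Y, hY⟩ : ∃ Y : ℝ, Y = K0 * (X : ℝ) ^ z := ⟨_, rfl⟩
  have hXz : 1 ≤ (X : ℝ) ^ z := Real.one_le_rpow hX1.le hz0.le
  have hYz : (X : ℝ) ^ z ≤ Y := by rw [hY]; exact le_mul_of_one_le_left (by positivity) hK0r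
  have hYK : (K0 : ℝ) ≤ Y := by rw [hY]; exact le_mul_of_one_le_right (by positivity) hXz
  have hY1 : 1 ≤ Y := hK0r.trans hYK
  have hY0 : 0 < Y := by linarith
  have hYpow : ∀ t : ℝ, (Y ^ G) ^ t = (K0 : ℝ) ^ (G * t) * (X : ℝ) ^ (z * (G * t)) := by
    intro t
    rw [← Real.rpow_natCast, ← Real.rpow_mul hY0.le, hY, Real.mul_rpow (by positivity)
      (by positivity), ← Real.rpow_mul hX0.le]
  have hwv : ∀ P ∈ T, ∀ a b c : Fin q, b ≠ c → NB n' Y (wv L P a b c) := by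
    intro P hP a b c hbc
    have e1 := va_nb (P0 := P0) hlev hX (hT.pt P hP) (hrad P hP a) (hflex P hP a)
      (by rw [← hz]; exact hYz) hY1 (fun p hp => (Nat.cast_le.mpr (hK0p p hp)).trans hYK)
    rw [hn']
    apply e1.mul_base (Int.natAbs_pos.mpr (L.res b c hbc))
    refine le_trans ?_ hYK
    exact_mod_cast (Nat.le_of_dvd (Rs_pos L) (rs_dvd L hbc)).trans hK0R
  obtain ⟨g, hg⟩ : ∃ g : ℤ × ℤ → ℕ, g = fun P => Nat.gcd (wv L P a b c) (wv L P b c a) := ⟨_, rfl⟩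
  have hgG : ∀ P ∈ T, g P ≤ G := by
    intro P hP
    rw [hg, hG]
    exact wv_gcd (hT.pt P hP) hab hbc hca
  have hg0 : ∀ P ∈ T, 0 < g P := by
    intro P hP
    rw [hg]
    exact Nat.gcd_pos_of_pos_left _ (wv_pos (hT.pt P hP) hbc)
  have hga : ∀ P, g P ∣ wv L P a b c := fun P => by rw [hg]; exact Nat.gcd_dvd_left _ _
  have hgb : ∀ P, g P ∣ wv L P b c a := fun P => by rw [hg]; exact Nat.gcd_dvd_right _ _
  have hgc : ∀ P ∈ T, g P ∣ wv L P c a b := fun P hP => by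
    rw [← hsum P hP]; exact dvd_add (hga P) (hgb P)
  obtain ⟨F, hF⟩ : ∃ F : ℤ × ℤ → ℕ × ℕ, F = fun P => (wv L P a b c / g P, wv L P b c a / g P) :=
    ⟨_, rfl⟩
  have hcard : (T.image F).card = T.card := by
    apply card_image_of_injOn
    intro P hP P' hP' he
    rw [hF] at he
    have h1 := congrArg Prod.fst he
    have h2 := congrArg Prod.snd he
    simp only at h1 h2
    apply hT.eq_of_prop hab hP hP'
    have k1 := Nat.div_mul_cancel (hga P)
    have k2 := Nat.div_mul_cancel (hga P')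
    have k3 := Nat.div_mul_cancel (hgb P)
    have k4 := Nat.div_mul_cancel (hgb P')
    have p1 : 0 < (rs L b c).natAbs := Int.natAbs_pos.mpr (L.res b c hbc)
    have p2 : 0 < (rs L c a).natAbs := Int.natAbs_pos.mpr (L.res c a hca)
    apply Nat.eq_of_mul_eq_mul_left (Nat.mul_pos p1 p2)
    have e1 : wv L P a b c * wv L P' b c a = wv L P' a b c * wv L P b c a := by
      rw [← k1, ← k2, ← k3, ← k4, h1, h2]
      ring
    unfold wv at e1
    linarith
  rw [← hcard]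
  have hbd := hnt (Y ^ G) (one_le_pow₀ hY1) (T.image F) (by
    intro x hx
    obtain ⟨P, hP, rfl⟩ := mem_image.mp hx
    have hPt := hT.pt P hP
    have hga0 : 0 < wv L P a b c / g P :=
      Nat.div_pos (Nat.le_of_dvd (wv_pos hPt hbc) (hga P)) (hg0 P hP)
    have hgb0 : 0 < wv L P b c a / g P :=
      Nat.div_pos (Nat.le_of_dvd (wv_pos hPt hca) (hgb P)) (hg0 P hP)
    have hadd : wv L P a b c / g P + wv L P b c a / g P = wv L P c a b / g P := by
      rw [← Nat.add_div_of_dvd_right (hga P), hsum P hP]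
    rw [hF]
    refine ⟨hga0, hgb0, ?_, ?_, ?_, ?_, ?_⟩
    · show Nat.Coprime (wv L P a b c / g P) (wv L P b c a / g P)
      have hgP := hg0 P hP
      rw [hg] at hgP ⊢
      exact Nat.coprime_div_gcd_div_gcd hgP
    · exact (hwv P hP a b c hbc).div hY1 hG1 (hga P) (hgG P hP)
    · exact (hwv P hP b c a hca).div hY1 hG1 (hgb P) (hgG P hP)
    · show NB (n' + n') (Y ^ G) (wv L P a b c / g P + wv L P b c a / g P)
      rw [hadd]
      exact (hwv P hP c a b hab).div hY1 hG1 (hgc P hP) (hgG P hP)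
    · show (Y ^ G) ^ K ≤ ((wv L P a b c / g P + wv L P b c a / g P : ℕ) : ℝ)
      rw [hadd, Nat.cast_div (hgc P hP) (by
        have := hg0 P hP
        exact_mod_cast this.ne')]
      have hgP : (0 : ℝ) < g P := by exact_mod_cast hg0 P hP
      rw [le_div_iff₀ hgP, hYpow]
      have hU : (0 : ℝ) < U L := by exact_mod_cast U_pos L
      have k1 : ht P ≤ U L * wv L P c a b := by
        refine (ht_le L P hab).trans (Nat.mul_le_mul_left _ ?_)
        rw [← hsum P hP]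
        have p1 : 0 < (rs L b c).natAbs := Int.natAbs_pos.mpr (L.res b c hbc)
        have p2 : 0 < (rs L c a).natAbs := Int.natAbs_pos.mpr (L.res c a hca)
        apply max_le
        · exact (Nat.le_mul_of_pos_left _ p1).trans (Nat.le_add_right _ _)
        · exact (Nat.le_mul_of_pos_left _ p2).trans (Nat.le_add_left _ _)
      have k2 : (X : ℝ) ^ M ≤ U L * wv L P c a b := by
        exact_mod_cast (hht P hP).trans k1
      have k3 : (g P : ℝ) ≤ G := by exact_mod_cast hgG P hP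
      have k4 : (U L : ℝ) * G * (K0 : ℝ) ^ (G * K) * (X : ℝ) ^ (z * (G * K)) ≤ (X : ℝ) ^ M := by
        rw [hM, pow_add]
        apply mul_le_mul
        · exact hm.le.trans (pow_le_pow_left₀ (by norm_num) hX2 m)
        · rw [← Real.rpow_natCast]
          exact Real.rpow_le_rpow_of_exponent_le hX1.le (Nat.le_ceil _)
        · positivity
        · positivity
      have k5 : (U L : ℝ) * ((K0 : ℝ) ^ (G * K) * (X : ℝ) ^ (z * (G * K)) * g P) ≤
          U L * wv L P c a b := by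
        refine le_trans ?_ k2
        refine le_trans ?_ k4
        calc (U L : ℝ) * ((K0 : ℝ) ^ (G * K) * (X : ℝ) ^ (z * (G * K)) * g P)
            ≤ (U L : ℝ) * ((K0 : ℝ) ^ (G * K) * (X : ℝ) ^ (z * (G * K)) * G) := by gcongr
          _ = _ := by ring
      exact le_of_mul_le_mul_left k5 hU)
  refine hbd.trans ?_
  rw [hYpow, ← mul_assoc]
  apply mul_le_mul_of_nonneg_left _ (by positivity)
  apply Real.rpow_le_rpow_of_exponent_le hX1.le
  rw [hε']
  have hG0 : (0 : ℝ) < G := by linarith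
  rw [show z * (G * (ε / (G * (z + 1)))) = z * ε / (z + 1) by field_simp]
  rw [div_le_iff₀ (by linarith)]
  nlinarith

/-- one weighted value is the sum of the other two -/
theorem wv_cases (L : Fm q) (P : ℤ × ℤ) (a b c : Fin q) :
    wv L P a b c + wv L P b c a = wv L P c a b ∨ wv L P b c a + wv L P c a b = wv L P a b c ∨
      wv L P c a b + wv L P a b c = wv L P b c a := by
  have h := lin3 L P a b c
  have e1 : (wv L P a b c : ℤ) = |rs L b c * ev L P a| := by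
    unfold wv va
    rw [← Int.natAbs_mul, Int.natCast_natAbs]
  have e2 : (wv L P b c a : ℤ) = |rs L c a * ev L P b| := by
    unfold wv va
    rw [← Int.natAbs_mul, Int.natCast_natAbs]
  have e3 : (wv L P c a b : ℤ) = |rs L a b * ev L P c| := by
    unfold wv va
    rw [← Int.natAbs_mul, Int.natCast_natAbs]
  obtain ⟨x, hx⟩ : ∃ x, x = rs L b c * ev L P a := ⟨_, rfl⟩
  obtain ⟨y, hy⟩ : ∃ y, y = rs L c a * ev L P b := ⟨_, rfl⟩
  obtain ⟨z, hz⟩ : ∃ z, z = rs L a b * ev L P c := ⟨_, rfl⟩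
  rw [← hx] at e1
  rw [← hy] at e2
  rw [← hz] at e3
  have h' : y + z = -x := by rw [hx, hy, hz]; linarith
  rcases abs_cases x with ⟨h1, h2⟩ | ⟨h1, h2⟩ <;> rcases abs_cases y with ⟨h3, h4⟩ | ⟨h3, h4⟩ <;>
    rcases abs_cases z with ⟨h5, h6⟩ | ⟨h5, h6⟩ <;> omega

theorem D_all (hq : 3 ≤ q) (L : Fm q) (P0 : Finset ℕ) (lev : Lev) (hlev : lev.Adm)
    (ε : ℝ) (hε : 0 < ε) : ∃ (M : ℕ) (C : ℝ), 0 < C ∧
    ∀ X : ℕ, 2 ≤ X → ∀ (sg : Fin q → ℤ) (s : Fin q → ℕ) (T : Finset (ℤ × ℤ)), Cls L P0 sg s T →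
    (∀ P ∈ T, ∀ i, rad (mm L P0 P i) ≤ X) → (∀ P ∈ T, ∀ i, ¬ lev.Flex X (mm L P0 P i)) →
    (∀ P ∈ T, X ^ M ≤ ht P) → (T.card : ℝ) ≤ C * (X : ℝ) ^ ε := by
  classical
  obtain ⟨M, C, hC, hD⟩ := D_sub L P0 lev hlev ε hε
  refine ⟨M, 3 * C, by positivity, ?_⟩
  intro X hX sg s T hT hrad hflex hht
  obtain ⟨a, ha⟩ : ∃ a : Fin q, a = ⟨0, by omega⟩ := ⟨_, rfl⟩
  obtain ⟨b, hb⟩ : ∃ b : Fin q, b = ⟨1, by omega⟩ := ⟨_, rfl⟩
  obtain ⟨c, hc⟩ : ∃ c : Fin q, c = ⟨2, by omega⟩ := ⟨_, rfl⟩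
  have hab : a ≠ b := by rw [ha, hb]; simp
  have hbc : b ≠ c := by rw [hb, hc]; simp
  have hca : c ≠ a := by rw [ha, hc]; simp
  have key : ∀ a b c : Fin q, a ≠ b → b ≠ c → c ≠ a →
      ((T.filter fun P => wv L P a b c + wv L P b c a = wv L P c a b).card : ℝ) ≤
        C * (X : ℝ) ^ ε := by
    intro a b c hab hbc hca
    have hsub : (T.filter fun P => wv L P a b c + wv L P b c a = wv L P c a b) ⊆ T :=
      filter_subset _ _
    exact hD X hX sg s _ (hT.mono hsub) (fun P hP => hrad P (hsub hP))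
      (fun P hP => hflex P (hsub hP)) (fun P hP => hht P (hsub hP)) a b c hab hbc hca
      (fun P hP => (mem_filter.mp hP).2)
  have hun : T ⊆ (T.filter fun P => wv L P a b c + wv L P b c a = wv L P c a b) ∪
      ((T.filter fun P => wv L P b c a + wv L P c a b = wv L P a b c) ∪
        (T.filter fun P => wv L P c a b + wv L P a b c = wv L P b c a)) := by
    intro P hP
    rw [mem_union, mem_union, mem_filter, mem_filter, mem_filter]
    rcases wv_cases L P a b c with h | h | h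
    · exact Or.inl ⟨hP, h⟩
    · exact Or.inr (Or.inl ⟨hP, h⟩)
    · exact Or.inr (Or.inr ⟨hP, h⟩)
  have h1 := (card_le_card hun).trans ((card_union_le _ _).trans
    (Nat.add_le_add_left (card_union_le _ _) _))
  have h2 : (T.card : ℝ) ≤
      ((T.filter fun P => wv L P a b c + wv L P b c a = wv L P c a b).card : ℝ) +
      (((T.filter fun P => wv L P b c a + wv L P c a b = wv L P a b c).card : ℝ) +
        ((T.filter fun P => wv L P c a b + wv L P a b c = wv L P b c a).card : ℝ)) := by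
    exact_mod_cast h1
  have k1 := key a b c hab hbc hca
  have k2 := key b c a hbc hca hab
  have k3 := key c a b hca hab hbc
  linarith

end Pool.Agent.Helper205_Exc
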