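import Pool.Agent.Helper205_Exc.SysCell

/-!
The bound in terms of the two smallest radicals for the families of `q` members.
-/

set_option autoImplicit false

namespace Pool.Agent.Helper205_Exc

open Finset Pool.Agent.H785R2.ABC Pool.Agent.Y913.Nb

variable {α : Type} {q : ℕ}

/-- the product of the two smallest of the `R i` -/
theorem two_smallest {R : Fin q → ℕ} (hq : 3 ≤ q) {P Y : ℝ} (hY0 : 0 ≤ Y)
    (hP : ((∏ i, R i : ℕ) : ℝ) ≤ P)
    (hY : ∃ i, (R i : ℝ) ≤ Y) (a b : Fin q) (hab : a ≠ b) (h1 : R a ≤ R b)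
    (h : ∀ i, i ≠ a → R b ≤ R i) :
    ((R a : ℝ) * R b) ^ ((1 : ℝ) / 2) ≤ (Y ^ (q - 2) * P) ^ ((1 : ℝ) / (2 * ((q : ℝ) - 1))) := by
  obtain ⟨x, hx⟩ : ∃ x : ℝ, x = R a := ⟨_, rfl⟩
  obtain ⟨y, hy⟩ : ∃ y : ℝ, y = R b := ⟨_, rfl⟩
  rw [← hx, ← hy]
  have hx0 : 0 ≤ x := by rw [hx]; positivity
  have hy0 : 0 ≤ y := by rw [hy]; positivity
  have hxY : x ≤ Y := by
    obtain ⟨i, hi⟩ := hY
    refine le_trans ?_ hi
    rw [hx]
    by_cases hia : i = a
    · rw [hia]
    · exact_mod_cast h1.trans (h i hia)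
  have hxP : x * y ^ (q - 1) ≤ P := by
    rw [hx, hy]
    exact le_trans (by exact_mod_cast prod_ge a b hab h) hP
  have hq1 : (0 : ℝ) < (q : ℝ) - 1 := by
    have : (3 : ℝ) ≤ q := by exact_mod_cast hq
    linarith
  have key : (x * y) ^ (q - 1) ≤ Y ^ (q - 2) * P := by
    obtain ⟨p, rfl⟩ : ∃ p, q = p + 3 := ⟨q - 3, by omega⟩
    have e1 : p + 3 - 1 = (p + 1) + 1 := by omega
    have e2 : p + 3 - 2 = p + 1 := by omega
    rw [e1] at hxP ⊢
    rw [e2]
    calc (x * y) ^ (p + 1 + 1) = x ^ (p + 1) * (x * y ^ (p + 1 + 1)) := by ring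
      _ ≤ Y ^ (p + 1) * P := mul_le_mul (pow_le_pow_left₀ hx0 hxY _) hxP (by positivity)
          (by positivity)
  have e1 : (x * y) ^ ((1 : ℝ) / 2) = (((x * y) ^ (q - 1)) ^ ((1 : ℝ) / (2 * ((q : ℝ) - 1)))) := by
    rw [← Real.rpow_natCast, ← Real.rpow_mul (by positivity)]
    congr 1
    rw [Nat.cast_sub (by omega : 1 ≤ q)]
    push_cast
    field_simp
  rw [e1]
  exact Real.rpow_le_rpow (by positivity) key (by positivity)

/-- the bound for two consecutive levels -/
theorem sys_class2 (hq : 3 ≤ q) (ε : ℝ) (hε : 0 < ε) (l l' : Lev) (hl : l.Adm) (h : Step ε l l')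
    (A : ℕ) : ∃ C : ℝ, 0 < C ∧ ∀ X : ℕ, 2 ≤ X → ∀ (R : Fin q → ℕ) (m : α → Fin q → ℕ)
    (T : Finset α), Sys A X R m T →
    (∀ t ∈ T, ∀ i, ¬ l.Flex X (m t i) ∨ l'.Flex X (m t i)) → ∀ W : ℝ, 1 ≤ W →
    (∀ a b, a ≠ b → R a ≤ R b → (∀ i, i ≠ a → R b ≤ R i) →
      ((R a : ℝ) * R b) ^ ((1 : ℝ) / 2) ≤ W) → ∀ CD : ℝ, 0 ≤ CD →
    (∀ T' ⊆ T, (∀ t ∈ T', ∀ i, ¬ l.Flex X (m t i)) → (T'.card : ℝ) ≤ CD * (X : ℝ) ^ ε) →
    (T.card : ℝ) ≤ C * (1 + CD) * (X : ℝ) ^ (3 * ε) * W := by
  classical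
  obtain ⟨CA, hCA, hA⟩ := sysA (α := α) (q := q) ε hε l l' h A
  obtain ⟨CB, hCB, hB⟩ := sysB (α := α) (q := q) ε hε l l' hl h A
  obtain ⟨CC, hCC, hC⟩ := sysC (α := α) (q := q) ε l l' hl h A
  obtain ⟨C, hCdef⟩ : ∃ C : ℝ, C = CA + CB + CC + 1 := ⟨_, rfl⟩
  have hC0 : 0 < C := by rw [hCdef]; positivity
  refine ⟨(Fintype.card (Fin q → Bool) : ℝ) * C, by
    have : 0 < Fintype.card (Fin q → Bool) := Fintype.card_pos
    positivity, ?_⟩
  intro X hX R m T hT hcl W hW1 hWab CD hCD hD
  have hX0 : (0 : ℝ) < X := by exact_mod_cast (by omega : 0 < X)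
  have hX1 : (1 : ℝ) < X := by exact_mod_cast (by omega : 1 < X)
  obtain ⟨b, hb⟩ : ∃ b : ℝ, b = (X : ℝ) ^ (3 * ε) * W := ⟨_, rfl⟩
  have hX2 : (X : ℝ) ^ (2 * ε) ≤ (X : ℝ) ^ (3 * ε) :=
    Real.rpow_le_rpow_of_exponent_le hX1.le (by linarith)
  have hXe : (X : ℝ) ^ ε ≤ (X : ℝ) ^ (3 * ε) :=
    Real.rpow_le_rpow_of_exponent_le hX1.le (by linarith)
  have hX3 : 0 < (X : ℝ) ^ (3 * ε) := by positivity
  have hb2 : (X : ℝ) ^ (2 * ε) ≤ b := by
    rw [hb]
    exact hX2.trans (le_mul_of_one_le_right hX3.le hW1)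
  have hb1 : (X : ℝ) ^ ε ≤ b := by
    rw [hb]
    exact hXe.trans (le_mul_of_one_le_right hX3.le hW1)
  have hb0 : 0 ≤ b := by rw [hb]; positivity
  have hC1 : ∀ c : ℝ, 0 ≤ c → c ≤ C → c * b ≤ C * (1 + CD) * b := by
    intro c hc hcC
    apply mul_le_mul_of_nonneg_right _ hb0
    nlinarith
  have h1 := card_le_real T (fun t => (fun i => decide (l'.Flex X (m t i)) : Fin q → Bool))
    Finset.univ (C * (1 + CD) * b) (fun t _ => mem_univ _) (by
      intro s _
      obtain ⟨T', hT'⟩ : ∃ T', T' = T.filter fun t =>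
        (fun i => decide (l'.Flex X (m t i)) : Fin q → Bool) = s := ⟨_, rfl⟩
      rw [← hT']
      have hsub : T' ⊆ T := by rw [hT']; exact filter_subset _ _
      have hTT := hT.mono hsub
      have hpat : ∀ t ∈ T', ∀ i, decide (l'.Flex X (m t i)) = s i := by
        intro t ht i
        rw [hT'] at ht
        exact congrFun (mem_filter.mp ht).2 i
      have htrue : ∀ i, s i = true → ∀ t ∈ T', l'.Flex X (m t i) := by
        intro i hi t ht
        have := hpat t ht i
        rw [hi] at this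
        exact of_decide_eq_true this
      have hfalse : ∀ i, s i = false → ∀ t ∈ T', ¬ l.Flex X (m t i) := by
        intro i hi t ht
        have := hpat t ht i
        rw [hi] at this
        have h2 := of_decide_eq_false this
        rcases hcl t (hsub ht) i with h3 | h3
        · exact h3
        · exact absurd h3 h2
      have useA : ∀ i a b' : Fin q, i ≠ a → a ≠ b' → i ≠ b' → s i = true → R a ≤ R b' →
          (∀ i, i ≠ a → R b' ≤ R i) → (T'.card : ℝ) ≤ C * (1 + CD) * b := by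
        intro i a b' hia hab hib hi hRab hRb
        have e1 := hA X hX R m T' hTT i a b' hia hab hib (htrue i hi)
        have e2 := hWab a b' hab hRab hRb
        calc (T'.card : ℝ) ≤ CA * (X : ℝ) ^ (2 * ε) * ((R a : ℝ) * R b') ^ ((1 : ℝ) / 2) := e1
          _ ≤ CA * (X : ℝ) ^ (3 * ε) * W := by gcongr
          _ = CA * b := by rw [hb]; ring
          _ ≤ _ := hC1 CA hCA.le (by rw [hCdef]; linarith)
      by_cases h2 : ∃ j k, j ≠ k ∧ s j = false ∧ s k = false
      · obtain ⟨j, k, hjk, hj, hk⟩ := h2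
        by_cases h3 : ∃ i, s i = true
        · obtain ⟨i, hi⟩ := h3
          have hij : i ≠ j := by rintro rfl; rw [hi] at hj; exact absurd hj (by decide)
          have hik : i ≠ k := by rintro rfl; rw [hi] at hk; exact absurd hk (by decide)
          have e1 := hC X hX R m T' hTT i j k hij hjk hik (htrue i hi) (hfalse j hj) (hfalse k hk)
          calc (T'.card : ℝ) ≤ CC * (X : ℝ) ^ (2 * ε) := e1
            _ ≤ CC * b := mul_le_mul_of_nonneg_left hb2 hCC.le
            _ ≤ _ := hC1 CC hCC.le (by rw [hCdef]; linarith)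
        · push Not at h3
          have hall : ∀ i, s i = false := fun i => by
            have := h3 i
            simpa using this
          have e1 := hD T' hsub (fun t ht i => hfalse i (hall i) t ht)
          calc (T'.card : ℝ) ≤ CD * (X : ℝ) ^ ε := e1
            _ ≤ CD * b := mul_le_mul_of_nonneg_left hb1 hCD
            _ ≤ C * (1 + CD) * b := by
                apply mul_le_mul_of_nonneg_right _ hb0
                have : 1 ≤ C := by rw [hCdef]; linarith
                nlinarith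
      · push Not at h2
        by_cases h4 : ∃ k, s k = false
        · obtain ⟨k, hk⟩ := h4
          have hne : (univ.erase k : Finset (Fin q)).Nonempty := by
            obtain ⟨i, hi, -⟩ := exists_third hq k k
            exact ⟨i, mem_erase.mpr ⟨hi, mem_univ _⟩⟩
          obtain ⟨j, hj, hmin⟩ := exists_min_image (univ.erase k) R hne
          have hjk : j ≠ k := ne_of_mem_erase hj
          obtain ⟨i, hij, hik⟩ := exists_third hq j k
          have htr : ∀ i, i ≠ k → s i = true := by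
            intro i hi
            have := h2 i k hi
            cases hsi : s i with
            | true => rfl
            | false => exact absurd hk (this hsi)
          rcases le_or_gt (R j) (R k) with hle | hlt
          · have e1 := hB X hX R m T' hTT i j k hij hjk hik (htrue i (htr i hik)) (hfalse k hk)
            have hjmin : ∀ i, R j ≤ R i := fun i => by
              by_cases hi : i = k
              · rw [hi]; exact hle
              · exact hmin i (mem_erase.mpr ⟨hi, mem_univ _⟩)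
            have hnej : (univ.erase j : Finset (Fin q)).Nonempty :=
              ⟨i, mem_erase.mpr ⟨hij, mem_univ _⟩⟩
            obtain ⟨b2, hb2', hminb2⟩ := exists_min_image (univ.erase j) R hnej
            have e3 := hWab j b2 (ne_of_mem_erase hb2').symm (hjmin b2) (fun i' hi' =>
              hminb2 i' (mem_erase.mpr ⟨hi', mem_univ _⟩))
            have e2 : (R j : ℝ) ≤ W := by
              refine le_trans ?_ e3
              have e4 : (R j : ℝ) ≤ R b2 := by exact_mod_cast hjmin b2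
              have e5 : (0 : ℝ) ≤ R j := Nat.cast_nonneg _
              rw [← Real.sqrt_eq_rpow]
              apply Real.le_sqrt_of_sq_le
              nlinarith
            calc (T'.card : ℝ) ≤ CB * (X : ℝ) ^ (3 * ε) * (R j : ℝ) := e1
              _ ≤ CB * (X : ℝ) ^ (3 * ε) * W := mul_le_mul_of_nonneg_left e2 (by positivity)
              _ = CB * b := by rw [hb]; ring
              _ ≤ _ := hC1 CB hCB.le (by rw [hCdef]; linarith)
          · exact useA i k j hik hjk.symm hij (htr i hik) hlt.le (fun i' hi' =>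
              hmin i' (mem_erase.mpr ⟨hi', mem_univ _⟩))
        · push Not at h4
          have htr : ∀ i, s i = true := fun i => by
            have := h4 i
            simpa using this
          obtain ⟨a, -, hmina⟩ := exists_min_image (univ : Finset (Fin q)) R ⟨⟨0, by omega⟩, mem_univ _⟩
          have hne : (univ.erase a : Finset (Fin q)).Nonempty := by
            obtain ⟨i, hi, -⟩ := exists_third hq a a
            exact ⟨i, mem_erase.mpr ⟨hi, mem_univ _⟩⟩
          obtain ⟨b', hb', hminb⟩ := exists_min_image (univ.erase a) R hne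
          have hba : b' ≠ a := ne_of_mem_erase hb'
          obtain ⟨i, hia, hib⟩ := exists_third hq a b'
          exact useA i a b' hia hba.symm hib (htr i) (hmina b' (mem_univ _)) (fun i' hi' =>
            hminb i' (mem_erase.mpr ⟨hi', mem_univ _⟩)))
  rw [card_univ] at h1
  calc (T.card : ℝ) ≤ _ := h1
    _ = _ := by rw [hb]; ring

/-- **bound for a cell** -/
theorem sys_cell2 (hq : 3 ≤ q) (ε : ℝ) (hε : 0 < ε) : ∃ lev : Fin (q + 1) → Lev,
    (∀ j, (lev j).Adm) ∧ ∀ A : ℕ, ∃ C : ℝ, 0 < C ∧ ∀ X : ℕ, 2 ≤ X → ∀ (R : Fin q → ℕ)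
    (m : α → Fin q → ℕ) (T : Finset α), Sys A X R m T → ∀ W : ℝ, 1 ≤ W →
    (∀ a b, a ≠ b → R a ≤ R b → (∀ i, i ≠ a → R b ≤ R i) →
      ((R a : ℝ) * R b) ^ ((1 : ℝ) / 2) ≤ W) → ∀ CD : ℝ, 0 ≤ CD →
    (∀ j, ∀ T' ⊆ T, (∀ t ∈ T', ∀ i, ¬ (lev j).Flex X (m t i)) →
      (T'.card : ℝ) ≤ CD * (X : ℝ) ^ (ε / 3)) →
    (T.card : ℝ) ≤ C * (1 + CD) * (X : ℝ) ^ ε * W := by
  classical
  obtain ⟨lev, hlev⟩ := exists_levels (ε / 3) (by positivity)
  refine ⟨fun j => lev j, fun j => (hlev j).1, ?_⟩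
  intro A
  have hcb := fun j : Fin (q + 1) => sys_class2 (α := α) hq (ε / 3) (by positivity) (lev j)
    (lev (j + 1)) (hlev j).1 (hlev j).2 A
  choose C hC hbd using hcb
  have hC4 : 0 < ∑ j, C j := by
    apply Finset.sum_pos (fun j _ => hC j)
    exact ⟨0, mem_univ _⟩
  refine ⟨(q + 1) * ∑ j, C j, by positivity, ?_⟩
  intro X hX R m T hT W hW1 hWab CD hCD hD
  have hX1 : 1 ≤ X := by omega
  choose g hg using fun t : α => good_level' hlev hX1 (m t)
  obtain ⟨b, hb⟩ : ∃ b : ℝ, b = (1 + CD) * (X : ℝ) ^ ε * W := ⟨_, rfl⟩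
  have hb0 : 0 ≤ b := by rw [hb]; positivity
  have h1 := card_le_real T g Finset.univ ((∑ j, C j) * b) (fun t _ => mem_univ _) (by
    intro j _
    obtain ⟨T', hT'⟩ : ∃ T', T' = T.filter fun t => g t = j := ⟨_, rfl⟩
    rw [← hT']
    have hsub : T' ⊆ T := by rw [hT']; exact filter_subset _ _
    have e1 := hbd j X hX R m T' (hT.mono hsub)
      (fun t ht i => by
        have e2 : g t = j := by
          rw [hT'] at ht
          exact (mem_filter.mp ht).2
        have e3 := hg t i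
        rw [e2] at e3
        exact e3) W hW1 hWab CD hCD (fun T'' hT'' => hD j T'' (hT''.trans hsub))
    calc (T'.card : ℝ) ≤ _ := e1
      _ = C j * b := by rw [hb, show 3 * (ε / 3) = ε by ring]; ring
      _ ≤ (∑ j, C j) * b := by
          apply mul_le_mul_of_nonneg_right _ hb0
          exact Finset.single_le_sum (f := C) (fun i _ => (hC i).le) (mem_univ j))
  rw [card_univ, Fintype.card_fin] at h1
  calc (T.card : ℝ) ≤ _ := h1
    _ = _ := by rw [hb]; push_cast; ring

end Pool.Agent.Helper205_Exc
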