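import Pool.Agent.Helper205_Exc.FormsFin
import Pool.Agent.Helper205_Exc.SysCell2

/-!
The count of the points whose values have small radicals compared to the height, two of the values
having radicals of product `≤ Z`.
-/

set_option autoImplicit false

namespace Pool.Agent.Helper205_Exc

open Finset Pool.Agent.H785R2.ABC Pool.Agent.H705R2.ABC Pool.Agent.Y913.Nb Pool.Agent.TH867.QF

variable {q : ℕ}

/-- **the count of points** -/
theorem forms_main3 (hq : 3 ≤ q) (L : Fm q) (P1 : Finset ℕ) (η : ℝ) (hη : 0 < η) :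
    ∃ M : ℕ, ∀ A : ℕ, ∃ C : ℝ, 0 < C ∧ ∀ W Z : ℝ, 2 ≤ W → 1 ≤ Z → ∀ T : Finset (ℤ × ℤ),
    (∀ P ∈ T, Pt L P ∧ W ^ M ≤ (ht P : ℝ) ∧ (ht P : ℝ) ≤ W ^ A ∧
      ((∏ i, ∏ p ∈ (va L P i).primeFactors \ P1, p : ℕ) : ℝ) ≤ W ∧
      ∃ i j, i ≠ j ∧ ((∏ p ∈ (va L P i).primeFactors \ P1, p : ℕ) : ℝ) *
        ((∏ p ∈ (va L P j).primeFactors \ P1, p : ℕ) : ℝ) ≤ Z) →
    (T.card : ℝ) ≤ C * W ^ η * Z ^ ((1 : ℝ) / 2) := by
  classical
  obtain ⟨P0, hP0def⟩ : ∃ P0 : Finset ℕ, P0 = (P1 ∪ (Rs L).primeFactors).filter Nat.Prime :=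
    ⟨_, rfl⟩
  have hP0p : ∀ p ∈ P0, p.Prime := fun p hp => by
    rw [hP0def] at hp
    exact (mem_filter.mp hp).2
  have hP0R : (Rs L).primeFactors ⊆ P0 := by
    intro p hp
    rw [hP0def]
    exact mem_filter.mpr ⟨mem_union_right _ hp, Nat.prime_of_mem_primeFactors hp⟩
  have hP01 : ∀ n : ℕ, n.primeFactors \ P0 ⊆ n.primeFactors \ P1 := by
    intro n p hp
    obtain ⟨h1, h2⟩ := mem_sdiff.mp hp
    refine mem_sdiff.mpr ⟨h1, fun h3 => h2 ?_⟩
    rw [hP0def]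
    exact mem_filter.mpr ⟨mem_union_left _ h3, Nat.prime_of_mem_primeFactors h1⟩
  obtain ⟨e, he⟩ : ∃ e : ℝ, e = η / (3 * (q + 2)) := ⟨_, rfl⟩
  have he0 : 0 < e := by rw [he]; positivity
  have hq0 : (0 : ℝ) < q := by exact_mod_cast (by omega : 0 < q)
  obtain ⟨lev, hlev, hcell⟩ := sys_cell2 (α := ℤ × ℤ) hq e he0
  have hD := fun j : Fin (q + 1) => D_all hq L P0 (lev j) (hlev j) (e / 3) (by positivity)
  choose MD CD hCD0 hD using hD
  obtain ⟨M', hM'⟩ : ∃ M' : ℕ, M' = ∑ j, MD j := ⟨_, rfl⟩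
  obtain ⟨CS, hCS⟩ : ∃ CS : ℝ, CS = ∑ j, CD j := ⟨_, rfl⟩
  have hCS0 : 0 ≤ CS := by rw [hCS]; exact sum_nonneg fun j _ => (hCD0 j).le
  obtain ⟨K1, hK1⟩ : ∃ K1 : ℕ, K1 = ∏ p ∈ P0, p := ⟨_, rfl⟩
  have hK10 : 0 < K1 := by rw [hK1]; exact prod_pos fun p hp => (hP0p p hp).pos
  refine ⟨(q + 2) * M', ?_⟩
  intro A
  obtain ⟨A', hA'⟩ : ∃ A' : ℕ, A' = A + U L := ⟨_, rfl⟩
  obtain ⟨C4, hC4, hcell⟩ := hcell A'
  obtain ⟨D, hD0, hA4⟩ := stmtA4' (e / (q * (A' + 1))) (by positivity)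
  obtain ⟨D2, hD20, hlog⟩ := log_pow_le q e he0
  refine ⟨2 ^ q * ((D * K1) ^ q * (D2 * (C4 * (1 + CS) * 2))), by positivity, ?_⟩
  intro W Z hW hZ T hT
  have hW0 : 0 < W := by linarith
  have hW1 : 1 ≤ W := by linarith
  obtain ⟨X, hX⟩ : ∃ X : ℕ, X = 2 ^ q * ⌈W⌉₊ := ⟨_, rfl⟩
  have hceil : W ≤ ⌈W⌉₊ := Nat.le_ceil W
  have hceil1 : 1 ≤ ⌈W⌉₊ := Nat.one_le_ceil_iff.mpr hW0
  have h2q : 2 ≤ 2 ^ q := by
    calc 2 = 2 ^ 1 := by norm_num
      _ ≤ 2 ^ q := Nat.pow_le_pow_right (by norm_num) (by omega)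
  have hX2 : 2 ≤ X := by rw [hX]; nlinarith
  have hXW : W ≤ X := by
    rw [hX]
    push_cast
    have : (1 : ℝ) ≤ 2 ^ q := one_le_pow₀ (by norm_num)
    nlinarith
  have h2W : (2 : ℝ) ^ q * W ≤ X := by
    rw [hX]
    push_cast
    exact mul_le_mul_of_nonneg_left hceil (by positivity)
  have hX0 : (0 : ℝ) < X := by linarith
  have hX1 : (1 : ℝ) < X := by linarith
  have hXup : (X : ℝ) ≤ W ^ (q + 2) := by
    have h1 : (⌈W⌉₊ : ℝ) ≤ W + 1 := (Nat.ceil_lt_add_one hW0.le).le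
    rw [hX]
    push_cast
    calc (2 : ℝ) ^ q * ⌈W⌉₊ ≤ W ^ q * (W * W) := by
          apply mul_le_mul
          · exact pow_le_pow_left₀ (by norm_num) hW q
          · nlinarith
          · positivity
          · positivity
      _ = W ^ (q + 2) := by ring
  -- labels
  obtain ⟨V, hV⟩ : ∃ V : Finset ℕ, V = (Icc 1 (X ^ A')).filter fun d => (rad d : ℝ) ≤ (K1 : ℝ) :=
    ⟨_, rfl⟩
  have hXA : 1 ≤ X ^ A' := Nat.one_le_pow _ _ (by omega)
  have hVcard : (V.card : ℝ) ≤ D * (X : ℝ) ^ (e / q) * K1 := by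
    rw [hV]
    refine (hA4 (X ^ A') hXA K1 (Nat.cast_nonneg _)).trans ?_
    apply mul_le_mul_of_nonneg_right _ (Nat.cast_nonneg _)
    apply mul_le_mul_of_nonneg_left _ hD0.le
    push_cast
    rw [← Real.rpow_natCast, ← Real.rpow_mul hX0.le]
    apply Real.rpow_le_rpow_of_exponent_le hX1.le
    rw [mul_div_assoc', div_le_div_iff₀ (by positivity) hq0]
    have : (0 : ℝ) < e * q := by positivity
    nlinarith
  have hVq : (V.card : ℝ) ^ q ≤ (D * K1) ^ q * (X : ℝ) ^ e := by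
    calc (V.card : ℝ) ^ q ≤ (D * (X : ℝ) ^ (e / q) * K1) ^ q :=
          pow_le_pow_left₀ (Nat.cast_nonneg _) hVcard q
      _ = (D * K1) ^ q * ((X : ℝ) ^ (e / q)) ^ q := by rw [← mul_pow]; ring
      _ = (D * K1) ^ q * (X : ℝ) ^ e := by
          rw [← Real.rpow_natCast ((X : ℝ) ^ (e / q)), ← Real.rpow_mul hX0.le,
            div_mul_cancel₀ _ hq0.ne']
  have hva : ∀ P ∈ T, ∀ i, va L P i ≤ X ^ A' := by
    intro P hP i
    have h1 : (ht P : ℝ) ≤ ((X ^ A : ℕ) : ℝ) := by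
      push_cast
      exact (hT P hP).2.2.1.trans (pow_le_pow_left₀ hW0.le hXW A)
    have h2 : ht P ≤ X ^ A := by exact_mod_cast h1
    have h3 : U L ≤ X ^ U L := (Nat.lt_pow_self (show 1 < X by omega)).le
    calc va L P i ≤ U L * ht P := va_le L P i
      _ ≤ X ^ U L * X ^ A := Nat.mul_le_mul h3 h2
      _ = X ^ A' := by rw [hA', ← pow_add, add_comm]
  have hradP : ∀ P ∈ T, ((∏ i, rad (mm L P0 P i) : ℕ) : ℝ) ≤ W := by
    intro P hP
    refine le_trans ?_ (hT P hP).2.2.2.1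
    have : ∏ i, rad (mm L P0 P i) ≤ ∏ i, ∏ p ∈ (va L P i).primeFactors \ P1, p := by
      apply prod_le_prod' 
      intro i _
      unfold rad mm
      rw [gp_primeFactors]
      exact prod_le_prod_of_subset_of_one_le' (hP01 _) fun p hp _ =>
        (Nat.prime_of_mem_primeFactors (mem_sdiff.mp hp).1).pos
    exact_mod_cast this
  have hradY : ∀ P ∈ T, ∃ i j, i ≠ j ∧
      (rad (mm L P0 P i) : ℝ) * (rad (mm L P0 P j) : ℝ) ≤ Z := by
    intro P hP
    obtain ⟨i, j, hij, hi⟩ := (hT P hP).2.2.2.2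
    refine ⟨i, j, hij, le_trans ?_ hi⟩
    have h1 : ∀ i, rad (mm L P0 P i) ≤ ∏ p ∈ (va L P i).primeFactors \ P1, p := by
      intro i
      unfold rad mm
      rw [gp_primeFactors]
      exact prod_le_prod_of_subset_of_one_le' (hP01 _) fun p hp _ =>
        (Nat.prime_of_mem_primeFactors (mem_sdiff.mp hp).1).pos
    exact_mod_cast Nat.mul_le_mul (h1 i) (h1 j)
  have hrad1 : ∀ P i, 1 ≤ rad (mm L P0 P i) := by
    intro P i
    exact prod_pos fun p hp => (Nat.prime_of_mem_primeFactors hp).pos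
  have hradi : ∀ P ∈ T, ∀ i, (rad (mm L P0 P i) : ℝ) ≤ W := by
    intro P hP i
    refine le_trans ?_ (hradP P hP)
    have : rad (mm L P0 P i) ≤ ∏ i, rad (mm L P0 P i) :=
      single_le_prod' (f := fun i => rad (mm L P0 P i)) (fun i _ => hrad1 P i) (mem_univ i)
    exact_mod_cast this
  obtain ⟨f, hf⟩ : ∃ f : ℤ × ℤ → (Fin q → Bool) × (Fin q → ℕ) × (Fin q → ℕ), f = fun P =>
    (sgn L P, fun i => bp P0 (va L P i), fun i => Nat.log 2 (rad (mm L P0 P i))) := ⟨_, rfl⟩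
  obtain ⟨Lab, hLab⟩ : ∃ Lab : Finset ((Fin q → Bool) × (Fin q → ℕ) × (Fin q → ℕ)), Lab =
    (univ : Finset (Fin q → Bool)) ×ˢ ((Fintype.piFinset fun _ => V) ×ˢ
      (Fintype.piFinset fun _ => range (Nat.log 2 X + 1))) := ⟨_, rfl⟩
  have hlabcard : (Lab.card : ℝ) ≤ 2 ^ q * ((D * K1) ^ q * (X : ℝ) ^ e * (D2 * (X : ℝ) ^ e)) := by
    rw [hLab, card_product, card_product, Fintype.card_piFinset, Fintype.card_piFinset,
      prod_const, prod_const, card_univ, card_univ, Fintype.card_fin, Fintype.card_fun,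
      Fintype.card_bool, Fintype.card_fin, card_range]
    push_cast
    apply mul_le_mul_of_nonneg_left _ (by positivity)
    apply mul_le_mul hVq _ (by positivity) (by positivity)
    have := hlog X (by omega)
    push_cast at this
    exact this
  obtain ⟨V1, hV1⟩ : ∃ V1 : ℝ, V1 = Z ^ ((1 : ℝ) / 2) := ⟨_, rfl⟩
  have hV11 : 1 ≤ V1 := by
    rw [hV1]
    exact Real.one_le_rpow hZ (by positivity)
  rw [← hV1]
  obtain ⟨bd, hbd⟩ : ∃ bd : ℝ, bd = C4 * (1 + CS) * (X : ℝ) ^ e * (2 * V1) :=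
    ⟨_, rfl⟩
  have hfib := card_le_real T f Lab bd (by
    intro P hP
    rw [hf, hLab]
    refine mem_product.mpr ⟨mem_univ _, mem_product.mpr ⟨?_, ?_⟩⟩
    · rw [Fintype.mem_piFinset]
      intro i
      rw [hV]
      refine mem_filter.mpr ⟨mem_Icc.mpr ⟨bp_pos _ _, ?_⟩, ?_⟩
      · exact (Nat.le_of_dvd (va_pos (hT P hP).1 i) (bp_dvd P0 (va_pos (hT P hP).1 i))).trans
          (hva P hP i)
      · rw [hK1]
        have : rad (bp P0 (va L P i)) ≤ ∏ p ∈ P0, p := by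
          unfold rad
          rw [bp_primeFactors]
          exact prod_le_prod_of_subset_of_one_le' inter_subset_right fun p hp _ =>
            (hP0p p hp).pos
        exact_mod_cast this
    · rw [Fintype.mem_piFinset]
      intro i
      rw [mem_range]
      have h1 : (rad (mm L P0 P i) : ℝ) ≤ X := (hradi P hP i).trans hXW
      have h2 : rad (mm L P0 P i) ≤ X := by exact_mod_cast h1
      have h3 : Nat.log 2 (rad (mm L P0 P i)) ≤ Nat.log 2 X := Nat.log_mono_right h2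
      exact Nat.lt_succ_of_le h3) (by
    rintro ⟨b, s, ℓ⟩ _
    obtain ⟨T', hT'⟩ : ∃ T', T' = T.filter fun P => f P = (b, s, ℓ) := ⟨_, rfl⟩
    rw [← hT']
    have hsub : T' ⊆ T := by rw [hT']; exact filter_subset _ _
    rcases T'.eq_empty_or_nonempty with h0 | hne
    · rw [h0, card_empty, Nat.cast_zero, hbd]
      positivity
    have hfP : ∀ P ∈ T', sgn L P = b ∧ (fun i => bp P0 (va L P i)) = s ∧
        (fun i => Nat.log 2 (rad (mm L P0 P i))) = ℓ := by
      intro P hP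
      rw [hT'] at hP
      have h1 := (mem_filter.mp hP).2
      rw [hf] at h1
      simp only [Prod.mk.injEq] at h1
      exact h1
    have hcls : Cls L P0 (fun i => if b i then 1 else -1) s T' :=
      cls_of (fun P hP => (hT P (hsub hP)).1) b s (fun P hP => (hfP P hP).1)
        (fun P hP => (hfP P hP).2.1) hne
    obtain ⟨R, hR⟩ : ∃ R : Fin q → ℕ, R = fun i => 2 ^ (ℓ i + 1) := ⟨_, rfl⟩
    have hlow : ∀ P ∈ T', ∀ i, 2 ^ ℓ i ≤ rad (mm L P0 P i) := by
      intro P hP i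
      rw [← congrFun (hfP P hP).2.2 i]
      exact Nat.pow_log_le_self 2 (by have := hrad1 P i; omega)
    obtain ⟨P', hP'⟩ := hne
    have hRX : ∀ i, R i ≤ X := by
      intro i
      have h1 : ((2 ^ ℓ i : ℕ) : ℝ) ≤ W := by
        refine le_trans ?_ (hradi P' (hsub hP') i)
        exact_mod_cast hlow P' hP' i
      have h3 : (2 : ℝ) ≤ 2 ^ q := by exact_mod_cast h2q
      have h2 : ((R i : ℕ) : ℝ) ≤ X := by
        rw [hR]
        push_cast at h1 ⊢
        rw [pow_succ]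
        refine le_trans ?_ h2W
        nlinarith
      exact_mod_cast h2
    have hradR : ∀ P ∈ T', ∀ i, rad (mm L P0 P i) ≤ R i := by
      intro P hP i
      rw [hR]
      simp only
      rw [← congrFun (hfP P hP).2.2 i]
      exact (Nat.lt_pow_succ_log_self (by norm_num) _).le
    have hsys : Sys A' X R (mm L P0) T' :=
      hcls.sys hP0R (fun P hP i => hva P (hsub hP) i) hradR hRX
    have hRZ : ∃ i j, i ≠ j ∧ (R i : ℝ) * R j ≤ 4 * Z := by
      obtain ⟨i, j, hij, hi⟩ := hradY P' (hsub hP')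
      refine ⟨i, j, hij, ?_⟩
      have h1 : ((2 ^ ℓ i * 2 ^ ℓ j : ℕ) : ℝ) ≤ Z := by
        refine le_trans ?_ hi
        exact_mod_cast Nat.mul_le_mul (hlow P' hP' i) (hlow P' hP' j)
      rw [hR]
      push_cast at h1 ⊢
      rw [pow_succ, pow_succ]
      linarith
    have hroot : ∀ a b, a ≠ b → R a ≤ R b → (∀ i, i ≠ a → R b ≤ R i) →
        ((R a : ℝ) * R b) ^ ((1 : ℝ) / 2) ≤ 2 * V1 := by
      intro a b' hab h1 h2
      obtain ⟨i, j, hij, hi⟩ := hRZ
      have h3 : R a * R b' ≤ R i * R j := by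
        rcases eq_or_ne i a with rfl | hia
        · exact Nat.mul_le_mul_left _ (h2 j (Ne.symm hij))
        · rw [mul_comm (R a)]
          refine Nat.mul_le_mul (h2 i hia) ?_
          rcases eq_or_ne j a with rfl | hja
          · exact le_rfl
          · exact h1.trans (h2 j hja)
      have h4 : (R a : ℝ) * R b' ≤ 4 * Z := by
        refine le_trans ?_ hi
        exact_mod_cast h3
      calc ((R a : ℝ) * R b') ^ ((1 : ℝ) / 2) ≤ (4 * Z) ^ ((1 : ℝ) / 2) :=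
            Real.rpow_le_rpow (by positivity) h4 (by positivity)
        _ = 2 * V1 := by
            rw [Real.mul_rpow (by norm_num) (by linarith), ← hV1]
            congr 1
            rw [show (4 : ℝ) = 2 ^ (2 : ℝ) by norm_num, ← Real.rpow_mul (by norm_num)]
            norm_num
    have hXM : ∀ P ∈ T', ∀ j, X ^ MD j ≤ ht P := by
      intro P hP j
      have h1 : MD j ≤ M' := by
        rw [hM']
        exact single_le_sum (f := MD) (fun _ _ => Nat.zero_le _) (mem_univ j)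
      have h2 : ((X ^ MD j : ℕ) : ℝ) ≤ ht P := by
        push_cast
        calc (X : ℝ) ^ MD j ≤ (X : ℝ) ^ M' := pow_le_pow_right₀ hX1.le h1
          _ ≤ (W ^ (q + 2)) ^ M' := pow_le_pow_left₀ hX0.le hXup _
          _ = W ^ ((q + 2) * M') := by rw [← pow_mul]
          _ ≤ ht P := (hT P (hsub hP)).2.1
      exact_mod_cast h2
    have hfin := hcell X hX2 R (mm L P0) T' hsys (2 * V1) (by linarith) hroot CS hCS0 (by
      intro j T'' hT'' hflex
      have h1 := hD j X hX2 _ s T'' (hcls.mono hT'')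
        (fun P hP i => (hradR P (hT'' hP) i).trans (hRX i)) hflex
        (fun P hP => hXM P (hT'' hP) j)
      refine h1.trans (mul_le_mul_of_nonneg_right ?_ (by positivity))
      rw [hCS]
      exact single_le_sum (f := CD) (fun i _ => (hCD0 i).le) (mem_univ j))
    refine hfin.trans (le_of_eq ?_)
    rw [hbd])
  refine hfib.trans ?_
  have hbd0 : 0 ≤ bd := by rw [hbd]; positivity
  refine (mul_le_mul_of_nonneg_right hlabcard hbd0).trans ?_
  have hXe : (X : ℝ) ^ e * (X : ℝ) ^ e * (X : ℝ) ^ e ≤ W ^ η := by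
    rw [← Real.rpow_add hX0, ← Real.rpow_add hX0]
    calc (X : ℝ) ^ (e + e + e) ≤ (W ^ (q + 2)) ^ (e + e + e) :=
          Real.rpow_le_rpow hX0.le hXup (by positivity)
      _ = W ^ η := by
          rw [← Real.rpow_natCast, ← Real.rpow_mul hW0.le]
          congr 1
          push_cast
          rw [he]
          field_simp
          ring
  rw [hbd]
  calc 2 ^ q * ((D * ↑K1) ^ q * (X : ℝ) ^ e * (D2 * (X : ℝ) ^ e)) *
        (C4 * (1 + CS) * (X : ℝ) ^ e * (2 * V1))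
      = (2 ^ q * ((D * K1) ^ q * (D2 * (C4 * (1 + CS) * 2)))) *
        ((X : ℝ) ^ e * (X : ℝ) ^ e * (X : ℝ) ^ e) * V1 := by ring
    _ ≤ (2 ^ q * ((D * K1) ^ q * (D2 * (C4 * (1 + CS) * 2)))) * W ^ η * V1 := by
        gcongr

end Pool.Agent.Helper205_Exc
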