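import Pool.Agent.Helper205_Exc.Two
import Pool.Agent.Helper205_Exc.Final

/-!
Triples with a given member: another member is a product of powers of few integers, and the third
member has a small radical.
-/

set_option autoImplicit false

namespace Pool.Agent.Helper205_Exc

open Finset Pool.Agent.H785R2.ABC Pool.Agent.H705R2.ABC Pool.Agent.Y913.Nb

/-- the triples with a flexible member, grouped by the divisors `r ^ E` of this member -/
theorem by_r {l : Lev} (hl : l.Adm) {ε : ℝ} (hlm : l.B / (2 * l.E) + l.δ ≤ ε) {X : ℕ} (hX : 2 ≤ X)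
    (T : Finset (ℕ × ℕ)) (i : Fin 3) (hok : ∀ t ∈ T, Ok t) (hf : ∀ t ∈ T, l.Flex X (mem t i))
    (β : ℝ) (hβ : 0 ≤ β)
    (h : ∀ s : ℕ, 2 ≤ s → (X : ℝ) ^ (l.B / 2) ≤ (s : ℝ) ^ l.E →
      (s : ℝ) ≤ (X : ℝ) ^ (l.B / (2 * l.E) + l.δ) → ∀ T' : Finset (ℕ × ℕ), T' ⊆ T → T'.Nonempty →
      (∀ t ∈ T', s ^ l.E ∣ mem t i) → (T'.card : ℝ) ≤ β) :
    (T.card : ℝ) ≤ (X : ℝ) ^ ε * β := by
  classical
  have hX0 : (0 : ℝ) < X := by exact_mod_cast (by omega : 0 < X)
  have hX1 : (1 : ℝ) < X := by exact_mod_cast (by omega : 1 < X)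
  have hex : ∀ t : ℕ × ℕ, ∃ r : ℕ, t ∈ T → r ^ l.E ∣ mem t i ∧ 2 ≤ r ∧
      (X : ℝ) ^ (l.B / 2) ≤ (r : ℝ) ^ l.E ∧ (r : ℝ) ≤ (X : ℝ) ^ (l.B / (2 * l.E) + l.δ) := by
    intro t
    by_cases ht : t ∈ T
    · obtain ⟨r, hr⟩ := Lev.extract hl hX (mem_pos (hok t ht) i) (hf t ht)
      exact ⟨r, fun _ => hr⟩
    · exact ⟨0, fun h => absurd h ht⟩
  choose r hr using hex
  have hrε : ∀ t ∈ T, (r t : ℝ) ≤ (X : ℝ) ^ ε := fun t ht => (hr t ht).2.2.2.trans
    (Real.rpow_le_rpow_of_exponent_le hX1.le hlm)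
  have h1 := card_le_real T r (Icc 1 ⌊(X : ℝ) ^ ε⌋₊) β (fun t ht => by
      rw [mem_Icc]
      exact ⟨by have := (hr t ht).2.1; omega, Nat.le_floor (hrε t ht)⟩) (by
      intro s _
      obtain ⟨T', hT'⟩ : ∃ T', T' = T.filter fun t => r t = s := ⟨_, rfl⟩
      rw [← hT']
      have hsub' : T' ⊆ T := by rw [hT']; exact filter_subset _ _
      rcases T'.eq_empty_or_nonempty with h0 | ⟨t0, ht0⟩
      · rw [h0, card_empty, Nat.cast_zero]
        exact hβ
      have hrs : ∀ t ∈ T', r t = s := fun t ht => by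
        rw [hT'] at ht
        exact (mem_filter.mp ht).2
      have hr0 := hr t0 (hsub' ht0)
      rw [hrs t0 ht0] at hr0
      obtain ⟨c1, c2, c3, c4⟩ := hr0
      apply h s c2 c3 c4 T' hsub' ⟨t0, ht0⟩
      intro t ht
      have hd := (hr t (hsub' ht)).1
      rw [hrs t ht] at hd
      exact hd)
  exact h1.trans (mul_le_mul_of_nonneg_right small_card hβ)

theorem image_card_fixed {T : Finset (ℕ × ℕ)} {j k : Fin 3} (hjk : j ≠ k) {b : ℕ}
    (hb : ∀ t ∈ T, mem t j = b) : (T.image fun t => (mem t k, 1)).card = T.card := by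
  classical
  apply card_image_of_injOn
  intro t ht t' ht' he
  have e1 : mem t k = mem t' k := congrArg Prod.fst he
  exact mem_inj hjk ((hb t ht).trans (hb t' ht').symm) e1

/-- **a given member of radical `≤ X`, a member which is a product of powers of `n` integers `≤ X`,
and a third member of radical `≤ X`** -/
theorem given_main (n : ℕ) (ε : ℝ) (hε : 0 < ε) : ∃ (M : ℕ) (η C : ℝ), 0 < η ∧ 0 < C ∧
    ∀ X : ℕ, 2 ≤ X → ∀ (T : Finset (ℕ × ℕ)) (i j k : Fin 3) (b : ℕ), i ≠ j → j ≠ k → i ≠ k →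
    rad b ≤ X → (∀ t ∈ T, Ok t ∧ rad (mem t i) ≤ X ∧ mem t j = b ∧ NB n (X : ℝ) (mem t k) ∧
      ((t.1 + t.2 : ℕ) : ℝ) ≤ Real.exp ((X : ℝ) ^ η) ∧ X ^ M ≤ t.1 + t.2) →
    (T.card : ℝ) ≤ C * (X : ℝ) ^ ε := by
  classical
  -- the level for the member `i`
  obtain ⟨Bd1, η1, C1, hBd1, hη1, hC1, hdet1⟩ := det_tall n 1 (ε / 2) (by norm_num) (by positivity)
  obtain ⟨l, hl, hlB, hlm⟩ := exists_level Bd1 (min η1 (ε / 2)) hBd1 (lt_min hη1 (by positivity))
  obtain ⟨z1, hz1def⟩ : ∃ zz : ℝ, zz = max 1 l.z := ⟨_, rfl⟩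
  have hz1 : 1 ≤ z1 := by rw [hz1def]; exact le_max_left _ _
  have hz1' : l.z ≤ z1 := by rw [hz1def]; exact le_max_right _ _
  obtain ⟨n1, hn1⟩ : ∃ n1 : ℕ, n1 = max n l.n := ⟨_, rfl⟩
  have hnn1 : n ≤ n1 := by rw [hn1]; exact le_max_left _ _
  have hln1 : l.n ≤ n1 := by rw [hn1]; exact le_max_right _ _
  -- the level for the given member
  obtain ⟨Bd2, η2, C2, hBd2, hη2, hC2, hdet2⟩ := det_tall n1 z1 (ε / 2) (by linarith)
    (by positivity)
  obtain ⟨l', hl', hlB', hlm'⟩ := exists_level Bd2 (min η2 (ε / 2)) hBd2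
    (lt_min hη2 (by positivity))
  obtain ⟨z2, hz2def⟩ : ∃ zz : ℝ, zz = max z1 l'.z := ⟨_, rfl⟩
  have hz2 : z1 ≤ z2 := by rw [hz2def]; exact le_max_left _ _
  have hz2' : l'.z ≤ z2 := by rw [hz2def]; exact le_max_right _ _
  have hz20 : 0 < z2 := by linarith
  obtain ⟨n2, hn2⟩ : ∃ n2 : ℕ, n2 = max n1 l'.n := ⟨_, rfl⟩
  have hnn2 : n1 ≤ n2 := by rw [hn2]; exact le_max_left _ _
  have hln2 : l'.n ≤ n2 := by rw [hn2]; exact le_max_right _ _
  obtain ⟨K, C3, hK, hC3, hcount⟩ := Pool.Agent.Y913.Zm.nt_count n2 (ε / z2) (by positivity)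
  refine ⟨⌈z2 * K⌉₊, min η1 η2, C1 + C2 + C3, lt_min hη1 hη2, by positivity, ?_⟩
  intro X hX T i j k b hij hjk hik hb hT
  have hX0 : (0 : ℝ) < X := by exact_mod_cast (by omega : 0 < X)
  have hX1 : (1 : ℝ) < X := by exact_mod_cast (by omega : 1 < X)
  have hXe : (X : ℝ) ^ ε = (X : ℝ) ^ (ε / 2) * (X : ℝ) ^ (ε / 2) := by
    rw [← Real.rpow_add hX0]
    congr 1
    ring
  have hXz1 : (1 : ℝ) ≤ (X : ℝ) ^ z1 := Real.one_le_rpow hX1.le (by linarith)
  have hXz2 : (1 : ℝ) ≤ (X : ℝ) ^ z2 := Real.one_le_rpow hX1.le (by linarith)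
  have hX11 : ((X : ℝ)) ^ (1 : ℝ) = X := Real.rpow_one _
  have hXXz1 : (X : ℝ) ≤ (X : ℝ) ^ z1 := by
    calc (X : ℝ) = (X : ℝ) ^ (1 : ℝ) := hX11.symm
      _ ≤ _ := Real.rpow_le_rpow_of_exponent_le hX1.le hz1
  have hexp1 : Real.exp ((X : ℝ) ^ (min η1 η2)) ≤ Real.exp ((X : ℝ) ^ η1) :=
    Real.exp_le_exp.mpr (Real.rpow_le_rpow_of_exponent_le hX1.le (min_le_left _ _))
  have hexp2 : Real.exp ((X : ℝ) ^ (min η1 η2)) ≤ Real.exp ((X : ℝ) ^ η2) :=
    Real.exp_le_exp.mpr (Real.rpow_le_rpow_of_exponent_le hX1.le (min_le_right _ _))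
  have hle : ∀ t ∈ T, ∀ m : Fin 3, (mem t m : ℝ) ≤ Real.exp ((X : ℝ) ^ (min η1 η2)) :=
    fun t ht m => le_trans (by exact_mod_cast mem_le t m) (hT t ht).2.2.2.2.1
  have hXη : ∀ {e : ℝ}, (1 : ℝ) ≤ Real.exp ((X : ℝ) ^ e) := fun {e} =>
    Real.one_le_exp (by positivity)
  -- the parts
  obtain ⟨T1, hT1⟩ : ∃ T1, T1 = T.filter fun t => l.Flex X (mem t i) := ⟨_, rfl⟩
  obtain ⟨T0, hT0⟩ : ∃ T0, T0 = T.filter fun t => ¬ l.Flex X (mem t i) := ⟨_, rfl⟩
  obtain ⟨T2, hT2⟩ : ∃ T2, T2 = T0.filter fun t => l'.Flex X (mem t j) := ⟨_, rfl⟩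
  obtain ⟨T3, hT3⟩ : ∃ T3, T3 = T0.filter fun t => ¬ l'.Flex X (mem t j) := ⟨_, rfl⟩
  have hsub1 : T1 ⊆ T := by rw [hT1]; exact filter_subset _ _
  have hsub0 : T0 ⊆ T := by rw [hT0]; exact filter_subset _ _
  have hsub2 : T2 ⊆ T := by rw [hT2]; exact (filter_subset _ _).trans hsub0
  have hsub3 : T3 ⊆ T := by rw [hT3]; exact (filter_subset _ _).trans hsub0
  have hcard : T.card = T1.card + (T2.card + T3.card) := by
    have e1 : T2.card + T3.card = T0.card := by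
      rw [hT2, hT3, card_filter_add_card_filter_not]
    rw [e1, hT1, hT0, card_filter_add_card_filter_not]
  have hnbi : ∀ t ∈ T, ¬ l.Flex X (mem t i) → NB n1 ((X : ℝ) ^ z1) (mem t i) := by
    intro t ht hnf
    obtain ⟨hok, hrad, -⟩ := hT t ht
    exact ((Lev.nb hl hX (mem_pos hok i) hrad hnf).mono_Y
      (Real.rpow_le_rpow_of_exponent_le hX1.le hz1')).mono_n hXz1 hln1
  have hnbk : ∀ t ∈ T, NB n1 ((X : ℝ) ^ z1) (mem t k) := by
    intro t ht
    obtain ⟨-, -, -, hnk, -⟩ := hT t ht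
    exact (hnk.mono_Y hXXz1).mono_n hXz1 hnn1
  -- the member `i` is flexible
  have h1 : (T1.card : ℝ) ≤ C1 * (X : ℝ) ^ ε := by
    have h2 := by_r hl (hlm.trans (min_le_right _ _)) hX T1 i (fun t ht => (hT t (hsub1 ht)).1)
      (fun t ht => by
        rw [hT1] at ht
        exact (mem_filter.mp ht).2) (C1 * (X : ℝ) ^ (ε / 2)) (by positivity) (by
      intro s hs c3 c4 T' hT' ⟨t0, ht0⟩ hdvd
      have hsT : T' ⊆ T := hT'.trans hsub1
      have hEpos : l.E ≠ 0 := by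
        have := hl.2.1
        omega
      have hjb : ∀ t ∈ T', mem t j = b := fun t ht => (hT t (hsT ht)).2.2.1
      rw [← image_card_fixed hjk hjb]
      have hvu : IsUnit ((b : ℕ) : ZMod (s ^ l.E)) := by
        rw [ZMod.isUnit_iff_coprime, ← hjb t0 ht0]
        exact Nat.Coprime.coprime_dvd_right (hdvd t0 ht0) (mem_coprime (hT t0 (hsT ht0)).1 hij.symm)
      apply hdet1 X (by omega) s l.E hs (c4.trans (Real.rpow_le_rpow_of_exponent_le hX1.le
        (hlm.trans (min_le_left _ _)))) ((Real.rpow_le_rpow_of_exponent_le hX1.le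
        (by linarith)).trans c3)
        ((if i = 2 then (-1 : ZMod (s ^ l.E)) else 1) * (b : ZMod (s ^ l.E))) _
        ((sg_unit i).mul hvu)
      intro x hx
      obtain ⟨t, ht, rfl⟩ := mem_image.mp hx
      obtain ⟨hok, hrad, hbt, hnk, hexp, hM⟩ := hT t (hsT ht)
      have hd := hdvd t ht
      refine ⟨mem_pos hok k, (hle t (hsT ht) k).trans hexp1, le_rfl, ?_,
        Nat.coprime_one_right _, ?_, Nat.coprime_one_left _, ?_, ?_, ?_⟩
      · push_cast
        exact hXη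
      · exact Nat.Coprime.coprime_dvd_right ((dvd_pow_self s hEpos).trans hd)
          (mem_coprime hok hik.symm)
      · rw [hX11]
        exact hnk
      · rw [hX11]
        exact nb_one _ hX1.le
      · have e1 := mem_cong hik hjk.symm hij hd
        show ((mem t k : ℕ) : ZMod (s ^ l.E)) = _ * ((1 : ℕ) : ZMod (s ^ l.E))
        rw [e1, hbt, Nat.cast_one, mul_one])
    rw [hXe]
    linarith
  -- the given member is flexible, and the member `i` is not
  have h2 : (T2.card : ℝ) ≤ C2 * (X : ℝ) ^ ε := by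
    have h2 := by_r hl' (hlm'.trans (min_le_right _ _)) hX T2 j (fun t ht => (hT t (hsub2 ht)).1)
      (fun t ht => by
        rw [hT2] at ht
        exact (mem_filter.mp ht).2) (C2 * (X : ℝ) ^ (ε / 2)) (by positivity) (by
      intro s hs c3 c4 T' hT' _ hdvd
      have hsT : T' ⊆ T := hT'.trans hsub2
      have hEpos : l'.E ≠ 0 := by
        have := hl'.2.1
        omega
      rw [← image_card (T := T') hik]
      apply hdet2 X (by omega) s l'.E hs (c4.trans (Real.rpow_le_rpow_of_exponent_le hX1.le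
        (hlm'.trans (min_le_left _ _)))) ((Real.rpow_le_rpow_of_exponent_le hX1.le
        (by linarith)).trans c3) (if j = 2 then (-1 : ZMod (s ^ l'.E)) else 1) _ (sg_unit j)
      intro x hx
      obtain ⟨t, ht, rfl⟩ := mem_image.mp hx
      obtain ⟨hok, hrad, hbt, hnk, hexp, hM⟩ := hT t (hsT ht)
      have hd := hdvd t ht
      have hnf : ¬ l.Flex X (mem t i) := by
        have := hT' ht
        rw [hT2, mem_filter, hT0, mem_filter] at this
        exact this.1.2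
      refine ⟨mem_pos hok i, (hle t (hsT ht) i).trans hexp2, mem_pos hok k,
        (hle t (hsT ht) k).trans hexp2, mem_coprime hok hik, ?_, ?_, hnbi t (hsT ht) hnf,
        hnbk t (hsT ht), mem_cong hij.symm hik hjk hd⟩
      · exact Nat.Coprime.coprime_dvd_right ((dvd_pow_self s hEpos).trans hd)
          (mem_coprime hok hij)
      · exact Nat.Coprime.coprime_dvd_right ((dvd_pow_self s hEpos).trans hd)
          (mem_coprime hok hjk.symm))
    rw [hXe]
    linarith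
  -- no member is flexible
  have h3 : (T3.card : ℝ) ≤ C3 * (X : ℝ) ^ ε := by
    have h4 := hcount ((X : ℝ) ^ z2) hXz2 T3 (by
      intro t ht
      have htT := hsub3 ht
      rw [hT3, mem_filter, hT0, mem_filter] at ht
      obtain ⟨hok, hrad, hbt, hnk, hexp, hM⟩ := hT t htT
      have hup : ∀ {m : ℕ}, NB n1 ((X : ℝ) ^ z1) m → NB n2 ((X : ℝ) ^ z2) m := fun {m} h =>
        (h.mono_Y (Real.rpow_le_rpow_of_exponent_le hX1.le hz2)).mono_n hXz2 hnn2
      have hni : NB n2 ((X : ℝ) ^ z2) (mem t i) := hup (hnbi t htT ht.1.2)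
      have hnk' : NB n2 ((X : ℝ) ^ z2) (mem t k) := hup (hnbk t htT)
      have hnj : NB n2 ((X : ℝ) ^ z2) (mem t j) :=
        ((Lev.nb hl' hX (mem_pos hok j) (by rw [hbt]; exact hb) ht.2).mono_Y
          (Real.rpow_le_rpow_of_exponent_le hX1.le hz2')).mono_n hXz2 hln2
      have hall : ∀ m : Fin 3, NB n2 ((X : ℝ) ^ z2) (mem t m) := by
        intro m
        have : m = i ∨ m = j ∨ m = k := by
          revert hij hjk hik
          fin_cases i <;> fin_cases j <;> fin_cases k <;> fin_cases m <;> simp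
        rcases this with rfl | rfl | rfl
        · exact hni
        · exact hnj
        · exact hnk'
      obtain ⟨g1, g2, g3⟩ := hok
      refine ⟨g1, g2, g3, hall 0, hall 1, hall 2, ?_⟩
      calc ((X : ℝ) ^ z2) ^ K = (X : ℝ) ^ (z2 * K) := by rw [Real.rpow_mul hX0.le]
        _ ≤ (X : ℝ) ^ ((⌈z2 * K⌉₊ : ℕ) : ℝ) :=
            Real.rpow_le_rpow_of_exponent_le hX1.le (Nat.le_ceil _)
        _ = ((X ^ ⌈z2 * K⌉₊ : ℕ) : ℝ) := by rw [Real.rpow_natCast]; push_cast; rfl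
        _ ≤ ((t.1 + t.2 : ℕ) : ℝ) := by exact_mod_cast hM)
    refine h4.trans (le_of_eq ?_)
    rw [← Real.rpow_mul hX0.le]
    congr 2
    field_simp
  rw [hcard]
  push_cast
  linarith

end Pool.Agent.Helper205_Exc
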