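import Pool.Agent.TH905.HS.Glob
import Pool.Agent.Results.MP_4d5ce1_nt.ExceptionsSmallRadical

/-!
Hyperelliptic curves with rational Weierstrass points, one of which moves.
-/

set_option autoImplicit false

namespace Pool.Agent.Helper205_Exc

open Finset NumberField IsDedekindDomain Polynomial Height
open Pool.Agent.H691R3 (fv Nv two_le_Nv fv_eq_one_of_notMem fv_lt_one_iff)
open Pool.Agent.W318 (discNorm badNorm minExp finite_bad)
open Pool.Agent.TH905.HS (root pol hyp bad_of_ne log_badNorm log_disc_le fv_of_exp)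
open Pool.Agent.Results.MP_4d5ce1_nt.ExceptionsSmallRadical (Nrm h N1 Pts Exc)

/-! ### the places of `ℚ` -/

theorem prime_OQ {p : ℕ} (hp : p.Prime) : Prime (p : 𝓞 ℚ) := by
  rw [← MulEquiv.prime_iff (Rat.ringOfIntegersEquiv : 𝓞 ℚ ≃* ℤ)]
  have : (Rat.ringOfIntegersEquiv : 𝓞 ℚ ≃* ℤ) (p : 𝓞 ℚ) = (p : ℤ) := by
    change Rat.ringOfIntegersEquiv (p : 𝓞 ℚ) = (p : ℤ)
    rw [map_natCast]
  rw [this]
  exact Nat.prime_iff_prime_int.1 hp

/-- the place at `p` -/
noncomputable def vp (p : ℕ) (hp : p.Prime) : HeightOneSpectrum (𝓞 ℚ) where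
  asIdeal := Ideal.span {(p : 𝓞 ℚ)}
  isPrime := (Ideal.span_singleton_prime (prime_OQ hp).ne_zero).2 (prime_OQ hp)
  ne_bot := by
    rw [Ne, Ideal.span_singleton_eq_bot]
    exact (prime_OQ hp).ne_zero

theorem mem_vp {p : ℕ} (hp : p.Prime) (z : ℤ) :
    (z : 𝓞 ℚ) ∈ (vp p hp).asIdeal ↔ (p : ℤ) ∣ z := by
  change (z : 𝓞 ℚ) ∈ Ideal.span {(p : 𝓞 ℚ)} ↔ _
  rw [Ideal.mem_span_singleton, ← map_dvd_iff (Rat.ringOfIntegersEquiv : 𝓞 ℚ ≃+* ℤ), map_natCast,
    map_intCast]
  rfl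

theorem vp_inj {p r : ℕ} (hp : p.Prime) (hr : r.Prime) (h : vp p hp = vp r hr) : p = r := by
  have h1 : ((r : ℤ) : 𝓞 ℚ) ∈ (vp p hp).asIdeal := by
    rw [h, mem_vp]
  rw [mem_vp] at h1
  have h2 : p ∣ r := by exact_mod_cast h1
  exact (Nat.prime_dvd_prime_iff_eq hp hr).1 h2

theorem le_Nv {p : ℕ} (hp : p.Prime) : (p : ℝ) ≤ Nv (vp p hp) := by
  unfold Nv
  have h1 := Ideal.absNorm_mem (vp p hp).asIdeal
  have h2 : ((Ideal.absNorm (vp p hp).asIdeal : ℤ) : 𝓞 ℚ) ∈ (vp p hp).asIdeal := by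
    rw [Int.cast_natCast]
    exact h1
  rw [mem_vp] at h2
  have h3 : p ∣ Ideal.absNorm (vp p hp).asIdeal := by exact_mod_cast h2
  have h4 : 0 < Ideal.absNorm (vp p hp).asIdeal := by
    have := two_le_Nv (vp p hp)
    unfold Nv at this
    have h5 : (0 : ℝ) < (Ideal.absNorm (vp p hp).asIdeal : ℝ) := by linarith
    exact_mod_cast h5
  exact_mod_cast Nat.le_of_dvd h4 h3

theorem fv_one {p : ℕ} (hp : p.Prime) {z : ℤ} (h : ¬ (p : ℤ) ∣ z) : fv (vp p hp) (z : ℚ) = 1 := by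
  have h1 := fv_eq_one_of_notMem (vp p hp) (s := (z : 𝓞 ℚ)) (by rw [mem_vp]; exact h)
  have e : (((z : ℤ) : 𝓞 ℚ) : ℚ) = (z : ℚ) := by simp
  rwa [e] at h1

theorem fv_lt {p : ℕ} (hp : p.Prime) {z : ℤ} (h : (p : ℤ) ∣ z) : fv (vp p hp) (z : ℚ) < 1 := by
  have h1 := (fv_lt_one_iff (vp p hp) (s := (z : 𝓞 ℚ))).2 (by rw [mem_vp]; exact h)
  have e : (((z : ℤ) : 𝓞 ℚ) : ℚ) = (z : ℚ) := by simp
  rwa [e] at h1

/-- a unit for the absolute value is a unit for the valuation -/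
theorem val_one {v : HeightOneSpectrum (𝓞 ℚ)} {z : ℚ} (hz : z ≠ 0) (h : fv v z = 1) :
    v.valuation ℚ z = 1 := by
  obtain ⟨k, hk⟩ := Pool.Agent.W318.exists_exp v hz
  rw [fv_of_exp v hk] at h
  have hN : 1 < Nv v := by linarith [two_le_Nv v]
  have h0 : k = 0 := by
    have h1 : Nv v ^ k = Nv v ^ (0 : ℤ) := by rw [h, zpow_zero]
    exact (zpow_right_inj₀ (by linarith) hN.ne').1 h1
  rw [hk, h0, WithZero.exp_zero]

/-! ### the curves -/

variable {n g : ℕ}

/-- the points `∞, 0, a_i` -/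
def cus (a : Fin n → ℚ) : Fin (n + 2) → ℤ × ℤ :=
  Fin.cons (1, 0) (Fin.cons (0, 1) fun i => ((a i).num, ((a i).den : ℤ)))

def res (a : Fin n → ℚ) (i j : Fin (n + 2)) : ℤ :=
  (cus a i).1 * (cus a j).2 - (cus a j).1 * (cus a i).2

/-- the excluded primes -/
def SS (a : Fin n → ℚ) : Finset ℕ :=
  (2 * ∏ i, ∏ j, (if i = j then 1 else (res a i j).natAbs)).primeFactors

theorem cus0 (a : Fin n → ℚ) : cus a 0 = (1, 0) := rfl
theorem cus1 (a : Fin n → ℚ) : cus a (Fin.succ 0) = (0, 1) := rfl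
theorem cus2 (a : Fin n → ℚ) (i : Fin n) : cus a i.succ.succ = ((a i).num, ((a i).den : ℤ)) := rfl

theorem root0 (t : ℚ) (a : Fin n → ℚ) : root (Fin.cons t a : Fin (n + 1) → ℚ) 0 = 0 := rfl
theorem root1 (t : ℚ) (a : Fin n → ℚ) :
    root (Fin.cons t a : Fin (n + 1) → ℚ) (Fin.succ 0) = t := rfl
theorem root2 (t : ℚ) (a : Fin n → ℚ) (i : Fin n) :
    root (Fin.cons t a : Fin (n + 1) → ℚ) i.succ.succ = a i := rfl

theorem res_ne {a : Fin n → ℚ} (ha : Function.Injective a) (ha0 : ∀ i, a i ≠ 0)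
    (i j : Fin (n + 2)) (hij : i ≠ j) : res a i j ≠ 0 := by
  revert hij
  refine Fin.cases ?_ (fun i => ?_) i
  · refine Fin.cases ?_ (fun j => ?_) j
    · intro h
      exact absurd rfl h
    · refine Fin.cases ?_ (fun j => ?_) j
      · intro _
        change (1 : ℤ) * 1 - 0 * 0 ≠ 0
        norm_num
      · intro _
        change (1 : ℤ) * ((a j).den : ℤ) - (a j).num * 0 ≠ 0
        have h1 : ((a j).den : ℤ) ≠ 0 := by exact_mod_cast (a j).den_nz
        rwa [one_mul, mul_zero, sub_zero]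
  · refine Fin.cases ?_ (fun i => ?_) i
    · refine Fin.cases ?_ (fun j => ?_) j
      · intro _
        change (0 : ℤ) * 0 - 1 * 1 ≠ 0
        norm_num
      · refine Fin.cases ?_ (fun j => ?_) j
        · intro h
          exact absurd rfl h
        · intro _
          change (0 : ℤ) * ((a j).den : ℤ) - (a j).num * 1 ≠ 0
          have h1 : (a j).num ≠ 0 := Rat.num_ne_zero.2 (ha0 j)
          rw [zero_mul, mul_one, zero_sub]
          exact neg_ne_zero.2 h1
    · refine Fin.cases ?_ (fun j => ?_) j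
      · intro _
        change (a i).num * 0 - 1 * ((a i).den : ℤ) ≠ 0
        have h1 : ((a i).den : ℤ) ≠ 0 := by exact_mod_cast (a i).den_nz
        rw [mul_zero, one_mul, zero_sub]
        exact neg_ne_zero.2 h1
      · refine Fin.cases ?_ (fun j => ?_) j
        · intro _
          change (a i).num * 1 - 0 * ((a i).den : ℤ) ≠ 0
          have h1 : (a i).num ≠ 0 := Rat.num_ne_zero.2 (ha0 i)
          rwa [mul_one, zero_mul, sub_zero]
        · intro h
          change (a i).num * ((a j).den : ℤ) - (a j).num * ((a i).den : ℤ) ≠ 0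
          have h1 : a i ≠ a j := fun e => h (by rw [ha e])
          intro h2
          apply h1
          rw [Rat.eq_iff_mul_eq_mul]
          linarith

theorem prod_ne {a : Fin n → ℚ} (ha : Function.Injective a) (ha0 : ∀ i, a i ≠ 0) :
    2 * ∏ i, ∏ j, (if i = j then 1 else (res a i j).natAbs) ≠ 0 := by
  refine mul_ne_zero two_ne_zero (prod_ne_zero_iff.2 fun i _ => prod_ne_zero_iff.2 fun j _ => ?_)
  split_ifs with hij
  · exact one_ne_zero
  · exact Int.natAbs_ne_zero.2 (res_ne ha ha0 i j hij)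

theorem ne_two {a : Fin n → ℚ} (ha : Function.Injective a) (ha0 : ∀ i, a i ≠ 0) {p : ℕ}
    (hS : p ∉ SS a) : p ≠ 2 := by
  rintro rfl
  exact hS (Nat.mem_primeFactors.2 ⟨Nat.prime_two, Dvd.intro _ rfl, prod_ne ha ha0⟩)

theorem not_dvd_res {a : Fin n → ℚ} (ha : Function.Injective a) (ha0 : ∀ i, a i ≠ 0) {p : ℕ}
    (hp : p.Prime) (hS : p ∉ SS a) {i j : Fin (n + 2)} (hij : i ≠ j) : ¬ (p : ℤ) ∣ res a i j := by
  intro h
  apply hS
  refine Nat.mem_primeFactors.2 ⟨hp, ?_, prod_ne ha ha0⟩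
  apply Dvd.dvd.mul_left
  have h1 : p ∣ (if i = j then 1 else (res a i j).natAbs) := by
    rw [if_neg hij]
    exact Int.natCast_dvd.1 h
  exact h1.trans ((dvd_prod_of_mem (fun j => if i = j then 1 else (res a i j).natAbs)
    (mem_univ j)).trans (dvd_prod_of_mem
      (fun i => ∏ j, (if i = j then 1 else (res a i j).natAbs)) (mem_univ i)))

theorem root_inj {a : Fin n → ℚ} (ha : Function.Injective a) (ha0 : ∀ i, a i ≠ 0) {t : ℚ}
    (ht0 : t ≠ 0) (hta : ∀ i, t ≠ a i) :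
    Function.Injective (root (Fin.cons t a : Fin (n + 1) → ℚ)) := by
  change Function.Injective (Fin.cons 0 (Fin.cons t a : Fin (n + 1) → ℚ) : Fin (n + 2) → ℚ)
  rw [Fin.cons_injective_iff, Fin.cons_injective_iff]
  refine ⟨?_, ?_, ha⟩
  · rintro ⟨i, hi⟩
    revert hi
    refine Fin.cases ?_ (fun i => ?_) i
    · intro hi
      exact ht0 hi
    · intro hi
      exact ha0 i hi
  · rintro ⟨i, hi⟩
    exact hta i hi.symm

/-- the bad places -/
theorem bad {a : Fin n → ℚ} (ha : Function.Injective a) (ha0 : ∀ i, a i ≠ 0) {t : ℚ}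
    (ht0 : t ≠ 0) (hta : ∀ i, t ≠ a i) (hn : n + 1 = 2 * g) (hg : 2 ≤ g) {d : ℚ} (hd : d ≠ 0)
    {p : ℕ} (hp : p.Prime) (hS : p ∉ SS a) (i : Fin (n + 2))
    (hdvd : (p : ℤ) ∣ t.num * (cus a i).2 - (t.den : ℤ) * (cus a i).1) :
    minExp g (pol d (root (Fin.cons t a : Fin (n + 1) → ℚ))) (vp p hp) ≠ 0 := by
  have hx := root_inj ha ha0 ht0 hta
  have hpz : Prime (p : ℤ) := Nat.prime_iff_prime_int.1 hp
  have h2 : (vp p hp).valuation ℚ (2 : ℚ) = 1 := by
    refine val_one two_ne_zero ?_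
    have h1 : ¬ (p : ℤ) ∣ 2 := by
      intro h
      have h3 : p ∣ 2 := by exact_mod_cast h
      exact ne_two ha ha0 hS ((Nat.prime_dvd_prime_iff_eq hp Nat.prime_two).1 h3)
    have := fv_one hp h1
    simpa using this
  obtain ⟨j0, -⟩ : ∃ j0 : Fin n, True := ⟨⟨0, by omega⟩, trivial⟩
  have hnum : ∀ i, ¬ (p : ℤ) ∣ (a i).num := by
    intro i h
    have h1 := not_dvd_res ha ha0 hp hS (i := Fin.succ 0) (j := i.succ.succ)
      (fun e => Fin.succ_ne_zero i (Fin.succ_injective _ e).symm)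
    apply h1
    change (p : ℤ) ∣ (0 : ℤ) * ((a i).den : ℤ) - (a i).num * 1
    rw [zero_mul, mul_one, zero_sub]
    exact (dvd_neg).2 h
  have hden : ∀ i, ¬ (p : ℤ) ∣ ((a i).den : ℤ) := by
    intro i h
    have h1 := not_dvd_res ha ha0 hp hS (i := 0) (j := i.succ.succ) (Fin.succ_ne_zero _).symm
    apply h1
    change (p : ℤ) ∣ (1 : ℤ) * ((a i).den : ℤ) - (a i).num * 0
    rwa [one_mul, mul_zero, sub_zero]
  have hfa : ∀ i, fv (vp p hp) (a i) = 1 := by
    intro i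
    have h1 := fv_one hp (hnum i)
    have h3 := fv_one hp (hden i)
    rw [← Rat.num_div_den (a i), map_div₀, h1]
    have e : (((a i).den : ℤ) : ℚ) = ((a i).den : ℚ) := by push_cast; rfl
    rw [e] at h3
    rw [h3, div_one]
  have hcop : IsCoprime t.num (t.den : ℤ) := by
    rw [Int.isCoprime_iff_gcd_eq_one]
    exact t.reduced
  have hnot : ¬ ((p : ℤ) ∣ t.num ∧ (p : ℤ) ∣ (t.den : ℤ)) := by
    rintro ⟨h1, h3⟩
    exact hpz.not_isUnit (hcop.isUnit_of_dvd' h1 h3)
  have hdt0 : fv (vp p hp) (t.den : ℚ) ≠ 0 :=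
    ((fv (vp p hp)).pos (by exact_mod_cast t.den_nz)).ne'
  have ht : fv (vp p hp) t = fv (vp p hp) (t.num : ℚ) / fv (vp p hp) (t.den : ℚ) := by
    conv_lhs => rw [← Rat.num_div_den t]
    rw [map_div₀]
  have key : fv (vp p hp) t ≠ 1 → minExp g (pol d (root (Fin.cons t a : Fin (n + 1) → ℚ)))
      (vp p hp) ≠ 0 := by
    intro h
    refine bad_of_ne hn hg hd hx (vp p hp) h2 (i := Fin.succ 0) (j := 0) (i' := j0.succ.succ)
      (j' := 0) (Fin.succ_ne_zero _) (Fin.succ_ne_zero _) ?_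
    rw [root1, root0, root2, sub_zero, sub_zero, hfa]
    exact h
  revert hdvd
  refine Fin.cases ?_ (fun i => ?_) i
  · intro hdvd
    change (p : ℤ) ∣ t.num * 0 - (t.den : ℤ) * 1 at hdvd
    rw [mul_zero, mul_one, zero_sub, dvd_neg] at hdvd
    apply key
    have h1 := fv_one hp (fun h => hnot ⟨h, hdvd⟩)
    have h3 := fv_lt hp hdvd
    have e : ((t.den : ℤ) : ℚ) = (t.den : ℚ) := by push_cast; rfl
    rw [e] at h3
    rw [ht, h1]
    intro h4
    rw [div_eq_one_iff_eq hdt0] at h4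
    linarith
  · refine Fin.cases ?_ (fun i => ?_) i
    · intro hdvd
      change (p : ℤ) ∣ t.num * 1 - (t.den : ℤ) * 0 at hdvd
      rw [mul_one, mul_zero, sub_zero] at hdvd
      apply key
      have h1 := fv_one hp (fun h => hnot ⟨hdvd, h⟩)
      have h3 := fv_lt hp hdvd
      have e : ((t.den : ℤ) : ℚ) = (t.den : ℚ) := by push_cast; rfl
      rw [e] at h1
      rw [ht, h1, div_one]
      exact h3.ne
    · intro hdvd
      change (p : ℤ) ∣ t.num * ((a i).den : ℤ) - (t.den : ℤ) * (a i).num at hdvd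
      have hpd : ¬ (p : ℤ) ∣ (t.den : ℤ) := by
        intro h
        have h1 : (p : ℤ) ∣ t.num * ((a i).den : ℤ) := by
          have := dvd_add hdvd (h.mul_right (a i).num)
          rwa [sub_add_cancel] at this
        rcases hpz.dvd_or_dvd h1 with h3 | h3
        · exact hnot ⟨h3, h⟩
        · exact hden i h3
      have h1 := fv_one hp hpd
      have h3 := fv_one hp (hden i)
      have h4 := fv_lt hp hdvd
      have e : ((t.den : ℤ) : ℚ) = (t.den : ℚ) := by push_cast; rfl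
      have e' : (((a i).den : ℤ) : ℚ) = ((a i).den : ℚ) := by push_cast; rfl
      rw [e] at h1
      rw [e'] at h3
      have hta' : fv (vp p hp) (t - a i) < 1 := by
        have h5 : t - a i = ((t.num * ((a i).den : ℤ) - (t.den : ℤ) * (a i).num : ℤ) : ℚ) /
            ((t.den : ℚ) * ((a i).den : ℚ)) := by
          conv_lhs => rw [← Rat.num_div_den t, ← Rat.num_div_den (a i)]
          have hd1 : (t.den : ℚ) ≠ 0 := by exact_mod_cast t.den_nz
          have hd2 : ((a i).den : ℚ) ≠ 0 := by exact_mod_cast (a i).den_nz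
          rw [div_sub_div _ _ hd1 hd2]
          push_cast
          ring
        rw [h5, map_div₀, map_mul, h1, h3, mul_one, div_one]
        exact h4
      refine bad_of_ne hn hg hd hx (vp p hp) h2 (i := Fin.succ 0) (j := i.succ.succ)
        (i' := i.succ.succ) (j' := 0)
        (fun e => Fin.succ_ne_zero i (Fin.succ_injective _ e).symm) (Fin.succ_ne_zero _) ?_
      rw [root1, root0, root2, sub_zero, hfa]
      exact hta'.ne

/-- the counting function is bounded by the bad primes -/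
theorem N1_le_bad {a : Fin n → ℚ} (ha : Function.Injective a) (ha0 : ∀ i, a i ≠ 0) {t : ℚ}
    (ht0 : t ≠ 0) (hta : ∀ i, t ≠ a i) (hn : n + 1 = 2 * g) (hg : 2 ≤ g) {d : ℚ} (hd : d ≠ 0) :
    N1 (cus a) (SS a) (t.num, (t.den : ℤ)) ≤
      Real.log (badNorm g (pol d (root (Fin.cons t a : Fin (n + 1) → ℚ)))) := by
  classical
  have hx := root_inj ha ha0 ht0 hta
  rw [log_badNorm hn hd hx]
  obtain ⟨F, hF⟩ : ∃ F, F = (finite_bad (hyp hn hd hx)).toFinset := ⟨_, rfl⟩
  rw [← hF]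
  obtain ⟨B, hB⟩ : ∃ B : Fin (n + 2) → Finset ℕ, B = fun i =>
    (t.num * (cus a i).2 - (t.den : ℤ) * (cus a i).1).natAbs.primeFactors \ SS a := ⟨_, rfl⟩
  have hBm : ∀ i, ∀ p ∈ B i, p.Prime ∧ p ∉ SS a ∧
      (p : ℤ) ∣ t.num * (cus a i).2 - (t.den : ℤ) * (cus a i).1 := by
    intro i p hp
    rw [hB] at hp
    obtain ⟨h1, h2⟩ := mem_sdiff.1 hp
    exact ⟨Nat.prime_of_mem_primeFactors h1, h2, Int.natCast_dvd.2 (Nat.dvd_of_mem_primeFactors h1)⟩
  have hcop : IsCoprime t.num (t.den : ℤ) := by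
    rw [Int.isCoprime_iff_gcd_eq_one]
    exact t.reduced
  have hdisj : ∀ i j, i ≠ j → Disjoint (B i) (B j) := by
    intro i j hij
    rw [disjoint_left]
    intro p hp1 hp2
    obtain ⟨h1, h2, h3⟩ := hBm i p hp1
    obtain ⟨-, -, h4⟩ := hBm j p hp2
    have hpz : Prime (p : ℤ) := Nat.prime_iff_prime_int.1 h1
    have hr := not_dvd_res ha ha0 h1 h2 hij
    have e1 : (p : ℤ) ∣ t.num * res a i j := by
      have h5 := dvd_sub (h4.mul_right (cus a i).1) (h3.mul_right (cus a j).1)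
      have h6 : (t.num * (cus a j).2 - (t.den : ℤ) * (cus a j).1) * (cus a i).1 -
          (t.num * (cus a i).2 - (t.den : ℤ) * (cus a i).1) * (cus a j).1 = t.num * res a i j := by
        unfold res
        ring
      rwa [h6] at h5
    have e2 : (p : ℤ) ∣ (t.den : ℤ) * res a i j := by
      have h5 := dvd_sub (h4.mul_right (cus a i).2) (h3.mul_right (cus a j).2)
      have h6 : (t.num * (cus a j).2 - (t.den : ℤ) * (cus a j).1) * (cus a i).2 -
          (t.num * (cus a i).2 - (t.den : ℤ) * (cus a i).1) * (cus a j).2 =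
          (t.den : ℤ) * res a i j := by
        unfold res
        ring
      rwa [h6] at h5
    have h7 : (p : ℤ) ∣ t.num := (hpz.dvd_or_dvd e1).resolve_right hr
    have h8 : (p : ℤ) ∣ (t.den : ℤ) := (hpz.dvd_or_dvd e2).resolve_right hr
    exact hpz.not_isUnit (hcop.isUnit_of_dvd' h7 h8)
  have hN : N1 (cus a) (SS a) (t.num, (t.den : ℤ)) = ∑ p ∈ univ.biUnion B, Real.log p := by
    rw [sum_biUnion (fun i _ j _ hij => hdisj i j hij), hB]
    rfl
  have hpr : ∀ p ∈ univ.biUnion B, p.Prime := by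
    intro p hp
    obtain ⟨i, -, hi⟩ := mem_biUnion.1 hp
    exact (hBm i p hi).1
  rw [hN, ← sum_attach]
  obtain ⟨φ, hφ⟩ : ∃ φ : {x // x ∈ univ.biUnion B} → HeightOneSpectrum (𝓞 ℚ),
    φ = fun p => vp p.1 (hpr p.1 p.2) := ⟨_, rfl⟩
  have hφi : Set.InjOn φ ((univ.biUnion B).attach : Set {x // x ∈ univ.biUnion B}) := by
    intro p _ r _ hpr'
    rw [hφ] at hpr'
    exact Subtype.ext (vp_inj _ _ hpr')
  calc ∑ p ∈ (univ.biUnion B).attach, Real.log (p.1 : ℕ)
      ≤ ∑ p ∈ (univ.biUnion B).attach, Real.log (Nv (φ p)) := by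
        apply sum_le_sum
        intro p _
        have h1 := hpr p.1 p.2
        apply Real.log_le_log (by exact_mod_cast h1.pos)
        rw [hφ]
        exact le_Nv h1
    _ = ∑ v ∈ (univ.biUnion B).attach.image φ, Real.log (Nv v) := (sum_image (f := fun v => Real.log (Nv v)) hφi).symm
    _ ≤ ∑ v ∈ F, Real.log (Nv v) := by
        apply sum_le_sum_of_subset_of_nonneg
        · intro v hv
          obtain ⟨p, -, rfl⟩ := mem_image.1 hv
          obtain ⟨i, -, hi⟩ := mem_biUnion.1 p.2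
          obtain ⟨h1, h2, h3⟩ := hBm i p.1 hi
          rw [hF, Set.Finite.mem_toFinset]
          rw [hφ]
          exact bad ha ha0 ht0 hta hn hg hd h1 h2 i h3
        · intro v _ _
          exact Real.log_nonneg (by linarith [two_le_Nv v])

/-- the height of the configuration -/
theorem ht_conf (a : Fin n → ℚ) : ∃ c : ℝ, ∀ t : ℚ,
    logHeight (Fin.cons t a : Fin (n + 1) → ℚ) ≤
      c + Real.log ((max t.num.natAbs t.den : ℕ) : ℝ) := by
  obtain ⟨A, hA⟩ : ∃ A : Fin (n + 1) × Fin 2 → ℚ, A = fun y =>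
    if y.2 = 0 then (if y.1 = 0 then 1 else 0) else (Fin.cons 0 a : Fin (n + 1) → ℚ) y.1 :=
    ⟨_, rfl⟩
  refine ⟨totalWeight ℚ * Real.log (Nat.card (Fin 2)) + logHeight A, fun t => ?_⟩
  have h1 := logHeight_linearMap_apply_le A ![t, 1]
  have h2 : (fun j => ∑ i, A (j, i) * (![t, 1] : Fin 2 → ℚ) i) =
      (Fin.cons t a : Fin (n + 1) → ℚ) := by
    funext j
    rw [Fin.sum_univ_two, hA]
    refine Fin.cases ?_ (fun j => ?_) j
    · simp
    · simp
  rw [h2, ← logHeight₁_eq_logHeight, Rat.logHeight₁_eq_log_max] at h1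
  exact h1

end Pool.Agent.Helper205_Exc
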