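import Pool.Agent.Helper205_Exc.Szp
import Pool.Agent.Y679.Kf.Top

/-!
Members and twists of members of a family of elliptic curves whose discriminant is large compared to
the conductor.
-/

set_option autoImplicit false

namespace Pool.Agent.Helper205_Exc

open Finset Polynomial
open Pool.Agent.TH867.SQ (lr lr_nonneg)
open Pool.Agent.TH867.QF (Fm ev va Rs Rs_pos Pt U U_pos ht ht_pos va_pos va_le ht_le)
open Pool.Agent.TH498.KB (Mem MinS Cond)
open Pool.Agent.Y679.Kf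

theorem sr_prod {q : ℕ} {L : Fm q} {P : ℤ × ℤ} {W : ℝ} (hW : 0 < W)
    (h : sr L P ≤ Real.log W) :
    ((∏ i, ∏ p ∈ (va L P i).primeFactors \ (∅ : Finset ℕ), p : ℕ) : ℝ) ≤ W := by
  have hpos : 0 < ∏ i, ∏ p ∈ (va L P i).primeFactors \ (∅ : Finset ℕ), p :=
    prod_pos fun i _ => prod_pos fun p hp => (Nat.prime_of_mem_primeFactors (mem_sdiff.mp hp).1).pos
  have hlog : Real.log ((∏ i, ∏ p ∈ (va L P i).primeFactors \ (∅ : Finset ℕ), p : ℕ) : ℝ) =
      sr L P := by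
    unfold sr
    rw [Nat.cast_prod, Real.log_prod]
    · refine Finset.sum_congr rfl fun i _ => ?_
      unfold lr
      rw [Nat.cast_prod, Real.log_prod, sdiff_empty]
      intro p hp
      exact_mod_cast (Nat.prime_of_mem_primeFactors (mem_sdiff.mp hp).1).ne_zero
    · intro i _
      have : 0 < ∏ p ∈ (va L P i).primeFactors \ (∅ : Finset ℕ), p :=
        prod_pos fun p hp => (Nat.prime_of_mem_primeFactors (mem_sdiff.mp hp).1).pos
      exact_mod_cast this.ne'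
  rw [← hlog] at h
  exact (Real.log_le_log_iff (by exact_mod_cast hpos) hW).mp h

/-- the number of points of large height, in logarithmic form -/
theorem line_large {q : ℕ} (hq : 3 ≤ q) (L : Fm q) (η : ℝ) (hη : 0 < η) :
    ∃ M : ℕ, ∀ A : ℕ, ∃ C : ℝ, 0 < C ∧ ∀ w : ℝ, 0 ≤ w → ∀ T : Finset (ℤ × ℤ),
    (∀ P ∈ T, Pt L P ∧ M * w ≤ Real.log (ht P) ∧ Real.log (ht P) ≤ A * w ∧ sr L P ≤ w) →
    (T.card : ℝ) ≤ C * Real.exp ((1 / (q : ℝ) + η) * w) := by
  classical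
  obtain ⟨M, hmain⟩ := forms_main hq L ∅ η hη
  refine ⟨M, ?_⟩
  intro A
  obtain ⟨C, hC, hmain⟩ := hmain A
  have hq0 : (0 : ℝ) < q := by exact_mod_cast (by omega : 0 < q)
  refine ⟨C + (fin_ht' (2 ^ A)).toFinset.card, by positivity, ?_⟩
  intro w hw T hT
  have hW1 : 1 ≤ Real.exp w := Real.one_le_exp hw
  have hV : Real.exp ((1 / (q : ℝ) + η) * w) = (Real.exp w) ^ (1 / (q : ℝ) + η) := by
    rw [← Real.exp_mul, mul_comm]
  have hV1 : 1 ≤ Real.exp ((1 / (q : ℝ) + η) * w) := Real.one_le_exp (by positivity)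
  rcases le_or_gt 2 (Real.exp w) with h2 | h2
  · have h3 := hmain (Real.exp w) h2 T (by
      intro P hP
      obtain ⟨h1, h3, h4, h5⟩ := hT P hP
      have hH : (0 : ℝ) < ht P := by exact_mod_cast ht_pos h1
      refine ⟨h1, ?_, ?_, ?_⟩
      · rw [← Real.exp_nat_mul, ← Real.le_log_iff_exp_le hH]
        exact h3
      · rw [← Real.exp_nat_mul, ← Real.log_le_iff_le_exp hH]
        exact h4
      · exact sr_prod (Real.exp_pos w) (by rw [Real.log_exp]; exact h5))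
    rw [← hV] at h3
    have h4 : (0 : ℝ) ≤ (fin_ht' (2 ^ A)).toFinset.card := Nat.cast_nonneg _
    nlinarith
  · have h3 : T ⊆ (fin_ht' (2 ^ A)).toFinset := by
      intro P hP
      rw [Set.Finite.mem_toFinset]
      obtain ⟨h1, h3, h4, h5⟩ := hT P hP
      have hH : (0 : ℝ) < ht P := by exact_mod_cast ht_pos h1
      have h6 : (ht P : ℝ) ≤ ((2 ^ A : ℕ) : ℝ) := by
        push_cast
        calc (ht P : ℝ) ≤ Real.exp (A * w) := (Real.log_le_iff_le_exp hH).mp h4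
          _ = (Real.exp w) ^ A := Real.exp_nat_mul w A
          _ ≤ 2 ^ A := pow_le_pow_left₀ (by positivity) h2.le A
      exact_mod_cast h6
    have h4 : (T.card : ℝ) ≤ (fin_ht' (2 ^ A)).toFinset.card := by exact_mod_cast card_le_card h3
    have h5 : (0 : ℝ) ≤ (fin_ht' (2 ^ A)).toFinset.card := Nat.cast_nonneg _
    nlinarith

section

variable {d : ℕ} {A B : ℤ[X]} {k : ℕ} {L : Fm (d + 3)} {e : Fin (d + 3) → ℕ} {c : ℤ}

/-- the discriminant form and the height -/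
theorem ds_le (h : RF A B k L e c) {P : ℤ × ℤ} (hP : Pt L P) :
    la (Ds L e c P) ≤ la c + 6 * k * Real.log (U L) + 6 * k * Real.log (ht P) := by
  have hsum : ∑ i, (e i : ℝ) = 6 * k := by exact_mod_cast h.hsum
  rw [la_Ds h.hc hP]
  have hU : (0 : ℝ) < U L := by exact_mod_cast U_pos L
  have hH : (0 : ℝ) < ht P := by exact_mod_cast ht_pos hP
  have h2 : ∑ i, (e i : ℝ) * Real.log (va L P i) ≤
      6 * k * (Real.log (U L) + Real.log (ht P)) := by
    rw [← hsum, Finset.sum_mul]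
    refine Finset.sum_le_sum fun i _ => mul_le_mul_of_nonneg_left ?_ (Nat.cast_nonneg _)
    have h3 : (va L P i : ℝ) ≤ U L * ht P := by exact_mod_cast va_le L P i
    have h4 : (0 : ℝ) < va L P i := by exact_mod_cast va_pos hP i
    have h5 := Real.log_le_log h4 h3
    rwa [Real.log_mul hU.ne' hH.ne'] at h5
  linarith

theorem ht_le_ds (h : RF A B k L e c) {P : ℤ × ℤ} (hP : Pt L P) :
    Real.log (ht P) ≤ Real.log (U L) + la (Ds L e c P) := by
  obtain ⟨a, ha⟩ : ∃ a : Fin (d + 3), a = ⟨0, by omega⟩ := ⟨_, rfl⟩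
  obtain ⟨b, hb⟩ : ∃ b : Fin (d + 3), b = ⟨1, by omega⟩ := ⟨_, rfl⟩
  have hab : a ≠ b := by rw [ha, hb]; simp
  rw [la_Ds h.hc hP]
  have hU : (0 : ℝ) < U L := by exact_mod_cast U_pos L
  have hH : (0 : ℝ) < ht P := by exact_mod_cast ht_pos hP
  have hle : ∀ i, Real.log (va L P i) ≤ ∑ i, (e i : ℝ) * Real.log (va L P i) := by
    intro i
    have h1 : ∀ j, 0 ≤ Real.log (va L P j) := fun j => Real.log_natCast_nonneg _
    have h2 : (1 : ℝ) ≤ e i := by exact_mod_cast h.he i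
    calc Real.log (va L P i) ≤ (e i : ℝ) * Real.log (va L P i) :=
          le_mul_of_one_le_left (h1 i) h2
      _ ≤ _ := single_le_sum (f := fun i => (e i : ℝ) * Real.log (va L P i))
          (fun j _ => mul_nonneg (Nat.cast_nonneg _) (h1 j)) (mem_univ i)
  have h3 : (ht P : ℝ) ≤ U L * ((max (va L P a) (va L P b) : ℕ) : ℝ) := by
    exact_mod_cast ht_le L P hab
  have hmax : 0 < max (va L P a) (va L P b) := lt_of_lt_of_le (va_pos hP a) (le_max_left _ _)
  have h4 := Real.log_le_log hH h3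
  rw [Real.log_mul hU.ne' (by exact_mod_cast hmax.ne')] at h4
  have h5 : Real.log ((max (va L P a) (va L P b) : ℕ) : ℝ) ≤
      ∑ i, (e i : ℝ) * Real.log (va L P i) := by
    rcases max_choice (va L P a) (va L P b) with h6 | h6 <;> rw [h6]
    · exact hle a
    · exact hle b
  have hc0 := la_nonneg c
  linarith

/-- **members with a large discriminant** -/
theorem un_large (h : RF A B k L e c) {k' : ℕ} (hk' : k = 2 * k') (η : ℝ) (hη : 0 < η) :
    ∃ κ₀ : ℝ, 0 < κ₀ ∧ ∀ D : ℝ, ∃ C : ℝ, 0 < C ∧ ∀ N : ℝ, 1 ≤ N → ∀ F : Finset (ℤ × ℤ),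
      (∀ p ∈ F, p ∈ UnAll A B N ∧ κ₀ * lc p.1 p.2 ≤ la (4 * p.1 ^ 3 - 27 * p.2 ^ 2) ∧
        la (4 * p.1 ^ 3 - 27 * p.2 ^ 2) ≤ D * Real.log N) →
      (F.card : ℝ) ≤ C * N ^ (1 / ((d : ℝ) + 3) + η) := by
  classical
  obtain ⟨M, hM1, hM⟩ := gcdM_ex h
  obtain ⟨pt, ss, hsel⟩ := sel1_ex h hk' hM
  have hk0 : (0 : ℝ) < k := by exact_mod_cast h.hk
  obtain ⟨C2, hC2, hup⟩ := un_upper h hk'
  have hcast : (((d + 3 : ℕ)) : ℝ) = (d : ℝ) + 3 := by push_cast; ring
  obtain ⟨K, hK⟩ : ∃ K : ℝ, K = 2 * Real.log (Mc M c) + ((d + 3 : ℕ) : ℝ) * Real.log (Rs L) :=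
    ⟨_, rfl⟩
  have hK0 : 0 ≤ K := by
    rw [hK]
    have := Real.log_natCast_nonneg (Mc M c)
    have := Real.log_natCast_nonneg (Rs L)
    positivity
  obtain ⟨lu, hlu⟩ : ∃ lu : ℝ, lu = Real.log (U L) := ⟨_, rfl⟩
  have hlu0 : 0 ≤ lu := by rw [hlu]; exact Real.log_natCast_nonneg _
  obtain ⟨lm, hlm⟩ : ∃ lm : ℝ, lm = Real.log M := ⟨_, rfl⟩
  have hlm0 : 0 ≤ lm := by rw [hlm]; exact Real.log_natCast_nonneg _
  have hlc0 := la_nonneg c
  obtain ⟨M', hline⟩ := line_large (q := d + 3) (by omega) L η hη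
  refine ⟨2 * (6 * k * M' + 1), by positivity, ?_⟩
  intro D
  obtain ⟨A', hA'⟩ : ∃ A' : ℕ, A' = ⌈|D| + lu + 6 * lm⌉₊ := ⟨_, rfl⟩
  have hA'le : |D| + lu + 6 * lm ≤ A' := by rw [hA']; exact Nat.le_ceil _
  obtain ⟨C1, hC1, hline⟩ := hline A'
  obtain ⟨T, hT⟩ : ∃ T : ℝ, T = 1 + (6 * k * M' * K + 6 * lm + (la c + 6 * k * lu)) := ⟨_, rfl⟩
  have hT1 : 1 ≤ T := by rw [hT]; have : 0 ≤ 6 * k * M' * K := by positivity
                         have : 0 ≤ 6 * (k : ℝ) * lu := by positivity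
                         linarith
  obtain ⟨E, hE⟩ : ∃ E : ℝ, E = Real.exp ((1 / ((d : ℝ) + 3) + η) * K) := ⟨_, rfl⟩
  have hE0 : 0 < E := by rw [hE]; exact Real.exp_pos _
  refine ⟨C2 * Real.exp T ^ (2 / ((d : ℝ) + 3)) + C2 + M * (C1 * E), by positivity,
    fun N hN F hF => ?_⟩
  have hN0 : 0 < N := by linarith
  have hlogN : 0 ≤ Real.log N := Real.log_nonneg hN
  obtain ⟨V, hV⟩ : ∃ V : ℝ, V = N ^ (1 / ((d : ℝ) + 3) + η) := ⟨_, rfl⟩
  have hV1 : 1 ≤ V := by rw [hV]; exact Real.one_le_rpow hN (by positivity)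
  have hVN : N ^ (1 / ((d : ℝ) + 3)) ≤ V := by
    rw [hV]; exact Real.rpow_le_rpow_of_exponent_le hN (by linarith)
  have p1 : 0 ≤ C2 * Real.exp T ^ (2 / ((d : ℝ) + 3)) := by positivity
  have p2 : 0 ≤ (M : ℝ) * (C1 * E) := by positivity
  rw [← hV]
  rcases lt_or_ge (Real.log N) T with hNT | hNT
  · have h1 := hup (Real.exp T) (Real.one_le_exp (by linarith)) F (fun p hp => by
      obtain ⟨⟨f1, f2, f3⟩, -⟩ := hF p hp
      exact ⟨f1, f2, f3.trans ((Real.log_le_iff_le_exp hN0).mp hNT.le)⟩)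
    nlinarith
  obtain ⟨F1, hF1⟩ : ∃ F1 : Finset (ℤ × ℤ), F1 = F.filter fun p =>
    (Cond p.1 p.2 : ℝ) ≤ N ^ (1 / 2 : ℝ) := ⟨_, rfl⟩
  obtain ⟨F2, hF2⟩ : ∃ F2 : Finset (ℤ × ℤ), F2 = F.filter fun p =>
    ¬ (Cond p.1 p.2 : ℝ) ≤ N ^ (1 / 2 : ℝ) := ⟨_, rfl⟩
  have hcard : F.card = F1.card + F2.card := by
    rw [hF1, hF2, card_filter_add_card_filter_not]
  have e1 : (F1.card : ℝ) ≤ C2 * V := by
    have h1 := hup (N ^ (1 / 2 : ℝ)) (Real.one_le_rpow hN (by norm_num)) F1 (fun p hp => by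
      rw [hF1] at hp
      obtain ⟨g1, g2⟩ := mem_filter.1 hp
      obtain ⟨⟨f1, f2, f3⟩, -⟩ := hF p g1
      exact ⟨f1, f2, g2⟩)
    refine h1.trans (mul_le_mul_of_nonneg_left ?_ hC2.le)
    refine le_trans (le_of_eq ?_) hVN
    rw [← Real.rpow_mul hN0.le]
    congr 1
    ring
  have e2 : (F2.card : ℝ) ≤ M * (C1 * E) * V := by
    have h1 := un_card hM1 hsel F2 (fun p hp => by
      rw [hF2] at hp
      obtain ⟨g1, g2⟩ := mem_filter.1 hp
      exact ⟨(hF p g1).1.1, (hF p g1).1.2.1⟩)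
    have h2 := hline (K + Real.log N) (by linarith) (F2.image pt) (by
      intro P hP
      obtain ⟨p, hp, rfl⟩ := mem_image.1 hP
      rw [hF2] at hp
      obtain ⟨g1, g2⟩ := mem_filter.1 hp
      obtain ⟨⟨f1, f2, f3⟩, f4, f5⟩ := hF p g1
      obtain ⟨k1, k2, k3, k4, k5⟩ := hsel.all p f1 f2
      obtain ⟨a1, a2⟩ := un_log h hM1 hM hsel f1 f2
      have a3 := ds_le h k2
      have a4 := ht_le_ds h k2
      rw [← hlu] at a3 a4
      rw [← hlm] at a1
      rw [← hK] at a2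
      obtain ⟨x, hx⟩ : ∃ x : ℝ, x = la (4 * p.1 ^ 3 - 27 * p.2 ^ 2) := ⟨_, rfl⟩
      obtain ⟨y, hy⟩ : ∃ y : ℝ, y = lc p.1 p.2 := ⟨_, rfl⟩
      obtain ⟨lD, hlD⟩ : ∃ lD : ℝ, lD = la (Ds L e c (pt p)) := ⟨_, rfl⟩
      obtain ⟨H, hH⟩ : ∃ H : ℝ, H = Real.log (ht (pt p)) := ⟨_, rfl⟩
      rw [← hx, ← hy] at f4
      rw [← hx] at f5 a1
      rw [← hlD] at a1 a3 a4
      rw [← hy] at a2
      rw [← hH] at a3 a4 ⊢
      rw [abs_le] at a1 a2
      have hy2 : 1 / 2 * Real.log N ≤ y := by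
        push Not at g2
        have h5 := Real.log_le_log (by positivity) g2.le
        rw [Real.log_rpow hN0] at h5
        rw [hy]
        exact h5
      have hyN : y ≤ Real.log N := by
        rw [hy]
        exact Real.log_le_log (by exact_mod_cast cond_pos _ _) f3
      have hκx : (6 * k * M' + 1) * Real.log N ≤ x := by
        have h6 : (2 * (6 * k * M' + 1)) * (1 / 2 * Real.log N) ≤ (2 * (6 * k * M' + 1)) * y :=
          mul_le_mul_of_nonneg_left hy2 (by positivity)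
        linarith
      refine ⟨k2, ?_, ?_, by linarith [a2.1, a2.2]⟩
      · -- the height is large
        have h7 : 6 * k * (M' * (K + Real.log N)) ≤ 6 * k * H := by
          rw [hT] at hNT
          nlinarith [a1.1, a1.2]
        exact le_of_mul_le_mul_left h7 (by positivity)
      · have h8 : D * Real.log N ≤ |D| * Real.log N :=
          mul_le_mul_of_nonneg_right (le_abs_self D) hlogN
        have h9 : (|D| + lu + 6 * lm) * Real.log N ≤ A' * Real.log N :=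
          mul_le_mul_of_nonneg_right hA'le hlogN
        have h10 : 1 ≤ Real.log N := hT1.trans hNT
        have h11 : lu ≤ lu * Real.log N := le_mul_of_one_le_right hlu0 h10
        have h12 : lm ≤ lm * Real.log N := le_mul_of_one_le_right hlm0 h10
        have h13 : (0 : ℝ) ≤ A' * K := by positivity
        nlinarith [a1.1, a1.2])
    have h3 : Real.exp ((1 / (((d + 3 : ℕ)) : ℝ) + η) * (K + Real.log N)) = E * V := by
      rw [hcast, mul_add, Real.exp_add, hE, hV, Real.rpow_def_of_pos hN0, mul_comm (Real.log N)]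
    rw [h3] at h2
    calc (F2.card : ℝ) ≤ M * (F2.image pt).card := h1
      _ ≤ M * (C1 * (E * V)) := mul_le_mul_of_nonneg_left h2 (by positivity)
      _ = _ := by ring
  have h3 : (F.card : ℝ) = F1.card + F2.card := by exact_mod_cast hcard
  rw [h3]
  nlinarith

end

end Pool.Agent.Helper205_Exc
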