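import Pool.Agent.Helper205_Exc.KfTop
import Pool.Agent.TH876.FH.Ana
import Pool.Agent.W505.VC.HOM

/-!
The bounds by conductor and by height for the curves whose Faltings height is large.
-/

set_option autoImplicit false

namespace Pool.Agent.Helper205_Exc

open Finset Polynomial
open Pool.Agent.TH867.QF (Fm ht ht_pos Pt U U_pos)
open Pool.Agent.TH498.KB (Mem MinS Cond)
open Pool.Agent.Y679.Kf
open Pool.Agent.TH876.FH (jInv arch ana)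

/-- `τ` is a period of `y² = x³ - a x - b` -/
def IsPer (a b : ℤ) (τ : UpperHalfPlane) : Prop :=
  jInv τ = ((6912 * (a : ℚ) ^ 3 / (4 * a ^ 3 - 27 * b ^ 2 : ℤ) : ℚ) : ℂ)

/-- the height -/
noncomputable def fhS (a b : ℤ) (τ : UpperHalfPlane) : ℝ :=
  (Real.log (|16 * (4 * a ^ 3 - 27 * b ^ 2)| : ℤ) + arch τ) / 12

/-- `N₆ ≤ N`, `κ log N₆ + c < h ≤ A (1 + log N)` -/
def LH (P : ℤ → ℤ → Prop) (κ c A N : ℝ) : Set (ℤ × ℤ) :=
  {q | MinS q.1 q.2 ∧ P q.1 q.2 ∧ (Cond q.1 q.2 : ℝ) ≤ N ∧ ∃ τ, IsPer q.1 q.2 τ ∧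
    κ * Real.log (Cond q.1 q.2) + c < fhS q.1 q.2 τ ∧ fhS q.1 q.2 τ ≤ A * (1 + Real.log N)}

/-- `κ log N₆ + c < h ≤ log B` -/
def EH (P : ℤ → ℤ → Prop) (κ c B : ℝ) : Set (ℤ × ℤ) :=
  {q | MinS q.1 q.2 ∧ P q.1 q.2 ∧ ∃ τ, IsPer q.1 q.2 τ ∧
    κ * Real.log (Cond q.1 q.2) + c < fhS q.1 q.2 τ ∧ fhS q.1 q.2 τ ≤ Real.log B}

theorem fhS_eq {a b : ℤ} (hD : 4 * a ^ 3 - 27 * b ^ 2 ≠ 0) (τ : UpperHalfPlane) :
    12 * fhS a b τ = Real.log 16 + la (4 * a ^ 3 - 27 * b ^ 2) + arch τ := by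
  have h0 : (0 : ℝ) < |((4 * a ^ 3 - 27 * b ^ 2 : ℤ) : ℝ)| := abs_pos.2 (by exact_mod_cast hD)
  unfold fhS
  rw [la_eq, abs_mul]
  have e : (((|16| * |4 * a ^ 3 - 27 * b ^ 2| : ℤ)) : ℝ) =
      16 * |((4 * a ^ 3 - 27 * b ^ 2 : ℤ) : ℝ)| := by
    have : (|16| : ℤ) = 16 := by norm_num
    rw [this]
    push_cast
    rfl
  rw [e, Real.log_mul (by norm_num) h0.ne']
  ring

theorem log_j {a b : ℤ} (hD : 4 * a ^ 3 - 27 * b ^ 2 ≠ 0) {τ : UpperHalfPlane}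
    (hτ : IsPer a b τ) : Real.log (max ‖jInv τ‖ 1) ≤
      Real.log 6912 + 3 * Real.log (max |(a : ℝ)| 1) := by
  have h1 : (1 : ℝ) ≤ |((4 * a ^ 3 - 27 * b ^ 2 : ℤ) : ℝ)| := by
    have : 1 ≤ |4 * a ^ 3 - 27 * b ^ 2| := Int.one_le_abs hD
    exact_mod_cast this
  have h2 : ‖jInv τ‖ = 6912 * |(a : ℝ)| ^ 3 / |((4 * a ^ 3 - 27 * b ^ 2 : ℤ) : ℝ)| := by
    have h3 : jInv τ = ((6912 * (a : ℚ) ^ 3 / (4 * a ^ 3 - 27 * b ^ 2 : ℤ) : ℚ) : ℂ) := hτ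
    have h4 : ((6912 * (a : ℚ) ^ 3 / (4 * a ^ 3 - 27 * b ^ 2 : ℤ) : ℚ) : ℂ) =
        ((6912 * (a : ℝ) ^ 3 / ((4 * a ^ 3 - 27 * b ^ 2 : ℤ) : ℝ) : ℝ) : ℂ) := by
      push_cast
      rfl
    rw [h3, h4, Complex.norm_real, Real.norm_eq_abs, abs_div, abs_mul, abs_pow]
    norm_num
  have hm : (1 : ℝ) ≤ max |(a : ℝ)| 1 := le_max_right _ _
  have h5 : max ‖jInv τ‖ 1 ≤ 6912 * max |(a : ℝ)| 1 ^ 3 := by
    apply max_le
    · rw [h2, div_le_iff₀ (by linarith)]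
      have h6 : |(a : ℝ)| ^ 3 ≤ max |(a : ℝ)| 1 ^ 3 :=
        pow_le_pow_left₀ (abs_nonneg _) (le_max_left _ _) 3
      have h7 : (0 : ℝ) ≤ 6912 * max |(a : ℝ)| 1 ^ 3 := by positivity
      nlinarith
    · have : (1 : ℝ) ≤ max |(a : ℝ)| 1 ^ 3 := one_le_pow₀ hm
      linarith
  have h8 := Real.log_le_log (lt_of_lt_of_le one_pos (le_max_right _ _)) h5
  rwa [Real.log_mul (by norm_num) (by positivity), Real.log_pow] at h8

/-- **the bounds for the Faltings height** from the count of the curves with a large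
discriminant -/
theorem bounds_fh {P : ℤ → ℤ → Prop} {s : ℝ} (hs : 0 < s)
    (hfin : ∀ N : ℝ, ∃ C : ℝ, 0 ≤ C ∧ ∀ F : Finset (ℤ × ℤ), (∀ p ∈ F, MinS p.1 p.2 ∧ P p.1 p.2 ∧
      (Cond p.1 p.2 : ℝ) ≤ N) → (F.card : ℝ) ≤ C)
    (hl : ∀ η : ℝ, 0 < η → ∃ κ₀ : ℝ, 0 < κ₀ ∧ ∀ D : ℝ, ∃ C : ℝ, 0 < C ∧ ∀ N : ℝ, 1 ≤ N →
      ∀ F : Finset (ℤ × ℤ), (∀ p ∈ F, (MinS p.1 p.2 ∧ P p.1 p.2 ∧ (Cond p.1 p.2 : ℝ) ≤ N) ∧
        κ₀ * lc p.1 p.2 ≤ la (4 * p.1 ^ 3 - 27 * p.2 ^ 2) ∧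
        la (4 * p.1 ^ 3 - 27 * p.2 ^ 2) ≤ D * Real.log N) →
      (F.card : ℝ) ≤ C * N ^ (s + η))
    (hpol : ∃ m C : ℝ, 0 ≤ m ∧ 0 ≤ C ∧ ∀ a b : ℤ, MinS a b → P a b →
      Real.log (max |(a : ℝ)| 1) ≤ m * la (4 * a ^ 3 - 27 * b ^ 2) + C) (η : ℝ) (hη : 0 < η) :
    ∃ κ₀ : ℝ, 0 < κ₀ ∧ ∀ κ c : ℝ, κ₀ ≤ κ →
      (∀ A : ℝ, ∃ C : ℝ, 0 < C ∧ ∀ N : ℝ, 1 ≤ N → (LH P κ c A N).Finite ∧
        ((LH P κ c A N).ncard : ℝ) ≤ C * N ^ (s + η)) ∧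
      ∃ C : ℝ, 0 < C ∧ ∀ B : ℝ, 1 ≤ B → (EH P κ c B).Finite ∧
        ((EH P κ c B).ncard : ℝ) ≤ C * B ^ ((s + η) / κ) := by
  classical
  obtain ⟨κ₁, hκ₁, h1⟩ := hl η hη
  obtain ⟨m, C5, hm, hC5, hpol⟩ := hpol
  obtain ⟨c2, hc2⟩ := ana.2
  obtain ⟨c1, hc1⟩ := ana.1 1 one_pos
  obtain ⟨n, hn⟩ : ∃ n : ℝ, n = 1 + 3 * m := ⟨_, rfl⟩
  have hn1 : 1 ≤ n := by rw [hn]; linarith
  have hn0 : 0 < n := by linarith
  refine ⟨n * κ₁ / 6, by positivity, ?_⟩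
  intro κ c hκ
  have hκ0 : 0 < κ := lt_of_lt_of_le (by positivity) hκ
  obtain ⟨C7, hC7⟩ : ∃ C7 : ℝ, C7 = Real.log 16 + Real.log 6912 + 3 * C5 + c2 := ⟨_, rfl⟩
  obtain ⟨C8, hC8⟩ : ∃ C8 : ℝ, C8 = 1 + |12 * c| + |C7| := ⟨_, rfl⟩
  have hC81 : 1 ≤ C8 := by
    rw [hC8]
    have := abs_nonneg (12 * c)
    have := abs_nonneg C7
    linarith
  have hl16 : 0 ≤ Real.log 16 := Real.log_nonneg (by norm_num)
  -- part 1
  have key : ∀ A : ℝ, ∃ C : ℝ, 0 < C ∧ ∀ N : ℝ, 1 ≤ N → (LH P κ c A N).Finite ∧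
        ((LH P κ c A N).ncard : ℝ) ≤ C * N ^ (s + η) := by
    intro A
    obtain ⟨C, hC, h1⟩ := h1 (12 * |A| * (1 + κ₁) + |c1| * κ₁)
    obtain ⟨C0, hC0, hfin⟩ := hfin (Real.exp (C8 / κ₁))
    refine ⟨C0 + C, by positivity, fun N hN => fin_card fun F hF => ?_⟩
    have hN0 : 0 < N := by linarith
    have hlogN : 0 ≤ Real.log N := Real.log_nonneg hN
    obtain ⟨F1, hF1⟩ : ∃ F1 : Finset (ℤ × ℤ), F1 = F.filter fun p =>
      (Cond p.1 p.2 : ℝ) ≤ Real.exp (C8 / κ₁) := ⟨_, rfl⟩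
    obtain ⟨F2, hF2⟩ : ∃ F2 : Finset (ℤ × ℤ), F2 = F.filter fun p =>
      ¬ (Cond p.1 p.2 : ℝ) ≤ Real.exp (C8 / κ₁) := ⟨_, rfl⟩
    have hcard : F.card = F1.card + F2.card := by
      rw [hF1, hF2, card_filter_add_card_filter_not]
    have e1 : (F1.card : ℝ) ≤ C0 := hfin F1 fun p hp => by
      rw [hF1] at hp
      obtain ⟨g1, g2⟩ := mem_filter.1 hp
      exact ⟨(hF p g1).1, (hF p g1).2.1, g2⟩
    have e2 : (F2.card : ℝ) ≤ C * N ^ (s + η) := h1 N hN F2 fun p hp => by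
      rw [hF2] at hp
      obtain ⟨g1, g2⟩ := mem_filter.1 hp
      obtain ⟨f1, f2, f3, τ, hτ, f4, f5⟩ := hF p g1
      push Not at g2
      have hCo : (0 : ℝ) < Cond p.1 p.2 := by exact_mod_cast cond_pos _ _
      have a1 := fhS_eq f1.1 τ
      have a2 := log_j f1.1 hτ
      have a3 := hpol _ _ f1 f2
      have a4 := hc2 τ
      have a5 := hc1 τ
      have a6 : 0 ≤ Real.log (max ‖jInv τ‖ 1) := Real.log_nonneg (le_max_right _ _)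
      obtain ⟨x, hx⟩ : ∃ x : ℝ, x = la (4 * p.1 ^ 3 - 27 * p.2 ^ 2) := ⟨_, rfl⟩
      obtain ⟨y, hy⟩ : ∃ y : ℝ, y = lc p.1 p.2 := ⟨_, rfl⟩
      obtain ⟨f, hf⟩ : ∃ f : ℝ, f = fhS p.1 p.2 τ := ⟨_, rfl⟩
      have hy' : Real.log (Cond p.1 p.2) = y := hy.symm
      rw [← hx] at a1 a3
      rw [← hf] at a1 f4 f5
      rw [hy'] at f4
      rw [← hx, ← hy]
      have hx0 : 0 ≤ x := by rw [hx]; exact la_nonneg _
      have g3 : C8 / κ₁ ≤ y := by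
        rw [← hy']
        exact (Real.le_log_iff_exp_le hCo).2 g2.le
      have g4 : C8 ≤ κ₁ * y := by
        rw [div_le_iff₀ hκ₁] at g3
        linarith
      have hyN : y ≤ Real.log N := by
        rw [← hy']
        exact Real.log_le_log hCo f3
      have g5 : 1 ≤ κ₁ * Real.log N := by
        have : κ₁ * y ≤ κ₁ * Real.log N := mul_le_mul_of_nonneg_left hyN hκ₁.le
        linarith
      -- the upper bound for the height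
      have b1 : 12 * f ≤ n * x + C7 := by
        rw [hn, hC7]
        linarith
      refine ⟨⟨f1, f2, f3⟩, ?_, ?_⟩
      · have b2 : 12 * (n * κ₁ / 6 * y) ≤ 12 * (κ * y) := by
          have hy0 : 0 ≤ y := by rw [hy]; exact lc_nonneg _ _
          have := mul_le_mul_of_nonneg_right hκ hy0
          linarith
        have b3 : n * (2 * (κ₁ * y)) ≤ n * x + C8 := by
          have := neg_abs_le (12 * c)
          have := le_abs_self C7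
          rw [hC8]
          linarith
        have b4 : C8 ≤ n * (κ₁ * y) := by
          have : κ₁ * y ≤ n * (κ₁ * y) := le_mul_of_one_le_left (by linarith) hn1
          linarith
        have b5 : n * (κ₁ * y) ≤ n * x := by linarith
        exact le_of_mul_le_mul_left b5 hn0
      · have b2 : x ≤ 12 * f + |c1| := by
          have := le_abs_self c1
          have := abs_nonneg c1
          norm_num at a5
          linarith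
        have b3 : A * (1 + Real.log N) ≤ |A| * ((1 + κ₁) * Real.log N) := by
          have e3 : A * (1 + Real.log N) ≤ |A| * (1 + Real.log N) :=
            mul_le_mul_of_nonneg_right (le_abs_self A) (by linarith)
          have e4 : |A| * (1 + Real.log N) ≤ |A| * ((1 + κ₁) * Real.log N) := by
            apply mul_le_mul_of_nonneg_left _ (abs_nonneg A)
            linarith
          linarith
        have b4 : |c1| ≤ |c1| * (κ₁ * Real.log N) := le_mul_of_one_le_right (abs_nonneg _) g5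
        have b5 : (12 * |A| * (1 + κ₁) + |c1| * κ₁) * Real.log N =
          12 * (|A| * ((1 + κ₁) * Real.log N)) + |c1| * (κ₁ * Real.log N) := by ring
        rw [b5]
        linarith
    have hV1 : 1 ≤ N ^ (s + η) := Real.one_le_rpow hN (by positivity)
    have h3 : (F.card : ℝ) = F1.card + F2.card := by exact_mod_cast hcard
    rw [h3]
    nlinarith
  refine ⟨key, ?_⟩
  -- part 2
  obtain ⟨C, hC, h2⟩ := key κ
  obtain ⟨D, hD⟩ : ∃ D : ℝ, D = max 1 (Real.exp (-c / κ)) := ⟨_, rfl⟩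
  have hD1 : 1 ≤ D := by rw [hD]; exact le_max_left _ _
  have hD2 : Real.exp (-c / κ) ≤ D := by rw [hD]; exact le_max_right _ _
  have hD0 : 0 < D := by linarith
  refine ⟨C * D ^ (s + η), by positivity, fun B hB => ?_⟩
  have hB0 : 0 < B := by linarith
  obtain ⟨X, hX⟩ : ∃ X : ℝ, X = D * B ^ (1 / κ) := ⟨_, rfl⟩
  have hBk : 1 ≤ B ^ (1 / κ) := Real.one_le_rpow hB (by positivity)
  have hX1 : 1 ≤ X := by
    rw [hX]
    nlinarith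
  have hlX : Real.log X = Real.log D + 1 / κ * Real.log B := by
    rw [hX, Real.log_mul hD0.ne' (by positivity), Real.log_rpow hB0]
  have hlD : -c / κ ≤ Real.log D := by
    rw [← Real.log_exp (-c / κ)]
    exact Real.log_le_log (Real.exp_pos _) hD2
  have hlD0 : 0 ≤ Real.log D := Real.log_nonneg hD1
  obtain ⟨hf, hc⟩ := h2 X hX1
  have hsub : EH P κ c B ⊆ LH P κ c κ X := by
    rintro q ⟨w1, w2, τ, w3, w4, w5⟩
    refine ⟨w1, w2, ?_, τ, w3, w4, w5.trans ?_⟩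
    · have hN : (0 : ℝ) < Cond q.1 q.2 := by exact_mod_cast cond_pos _ _
      refine (Real.log_le_log_iff hN (by linarith)).1 ?_
      have e1 : κ * Real.log (Cond q.1 q.2) ≤ Real.log B - c := by linarith
      have e2 : Real.log (Cond q.1 q.2) ≤ (Real.log B - c) / κ := by
        rw [le_div_iff₀ hκ0]
        linarith
      have e3 : (Real.log B - c) / κ = -c / κ + 1 / κ * Real.log B := by ring
      rw [hlX]
      linarith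
    · rw [hlX]
      have e1 : κ * (1 + (Real.log D + 1 / κ * Real.log B)) =
          κ * (1 + Real.log D) + Real.log B := by
        field_simp
        ring
      rw [e1]
      have : 0 ≤ κ * (1 + Real.log D) := by positivity
      linarith
  refine ⟨hf.subset hsub, ?_⟩
  have h3 : ((EH P κ c B).ncard : ℝ) ≤ (LH P κ c κ X).ncard := by
    exact_mod_cast Set.ncard_le_ncard hsub hf
  refine h3.trans (hc.trans (le_of_eq ?_))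
  rw [hX, Real.mul_rpow hD0.le (by positivity), ← Real.rpow_mul hB0.le, mul_assoc]
  congr 3
  ring

variable {d : ℕ} {A B : ℤ[X]} {k : ℕ} {L : Fm (d + 3)} {e : Fin (d + 3) → ℕ} {c : ℤ}
  {P : ℤ → ℤ → Prop}

/-- the coefficients of a twist are bounded by a power of the discriminant -/
theorem pol_tw (h : RF A B k L e c) : ∃ m C : ℝ, 0 ≤ m ∧ 0 ≤ C ∧ ∀ a b : ℤ, MinS a b →
    TwMem A B a b → Real.log (max |(a : ℝ)| 1) ≤ m * la (4 * a ^ 3 - 27 * b ^ 2) + C := by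
  obtain ⟨M, hM1, hM⟩ := gcdM_ex h
  obtain ⟨pt, qq, ss, hsel⟩ := sel_ex h hM
  obtain ⟨CA, hCA, hhom⟩ := Pool.Agent.W505.VC.hom_le A (2 * k)
  have hk1 : (1 : ℝ) ≤ k := by exact_mod_cast h.hk
  obtain ⟨lu, hlu⟩ : ∃ lu : ℝ, lu = Real.log (U L) := ⟨_, rfl⟩
  have hlu0 : 0 ≤ lu := by rw [hlu]; exact Real.log_natCast_nonneg _
  obtain ⟨lm, hlm⟩ : ∃ lm : ℝ, lm = Real.log M := ⟨_, rfl⟩
  have hlm0 : 0 ≤ lm := by rw [hlm]; exact Real.log_natCast_nonneg _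
  have hlCA : 0 ≤ Real.log CA := Real.log_nonneg hCA
  refine ⟨2 * k, Real.log CA + 2 * k * lu + 2 * k * (6 * lm), by positivity, by positivity, ?_⟩
  intro a b f1 f2
  obtain ⟨k1, k2, k3, k4, k5, k6, k7⟩ := hsel.all (a, b) f1 f2
  have a1 := la_disc h k1.ne' k2 k3.ne' k5 f1.1 k7
  have a7 := ht_le_ds h k2
  have a9 := la_nonneg (qq (a, b))
  have a11 : la (ss (a, b)) ≤ lm := by
    rw [hlm]
    unfold la
    refine Real.log_le_log (by exact_mod_cast Int.natAbs_pos.2 k3.ne') ?_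
    exact_mod_cast Nat.le_of_dvd hM1 (Int.natAbs_dvd_natAbs.2 k4)
  have hH : (1 : ℝ) ≤ ht (pt (a, b)) := by exact_mod_cast ht_pos k2
  have hq1 : (1 : ℝ) ≤ |((qq (a, b) : ℤ) : ℝ)| := by
    have : 1 ≤ |qq (a, b)| := Int.one_le_abs k5
    exact_mod_cast this
  have hs1 : (1 : ℝ) ≤ |((ss (a, b) : ℤ) : ℝ)| := by
    have : 1 ≤ |ss (a, b)| := Int.one_le_abs k3.ne'
    exact_mod_cast this
  have hmax : max |(((pt (a, b)).1 : ℤ) : ℝ)| |(((pt (a, b)).2 : ℤ) : ℝ)| =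
      (ht (pt (a, b)) : ℝ) := by
    have e1 : ∀ z : ℤ, |(z : ℝ)| = (z.natAbs : ℝ) := fun z => by
      rw [← Int.cast_abs, Int.abs_eq_natAbs]
      simp
    rw [e1, e1]
    unfold ht
    push_cast
    rfl
  have h3 : |(a : ℝ)| ≤ |((qq (a, b) : ℤ) : ℝ)| ^ 2 * (CA * (ht (pt (a, b)) : ℝ) ^ (2 * k)) := by
    have e1 : (a : ℝ) * ((ss (a, b) : ℤ) : ℝ) ^ 2 = ((qq (a, b) : ℤ) : ℝ) ^ 2 *
        ((Pool.Agent.W4.VC.hom A (2 * k) (pt (a, b)).1 (pt (a, b)).2 : ℤ) : ℝ) := by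
      exact_mod_cast k7.h1
    have e2 := hhom (pt (a, b)).1 (pt (a, b)).2
    rw [hmax] at e2
    have e3 : |(a : ℝ)| ≤ |(a : ℝ)| * |((ss (a, b) : ℤ) : ℝ)| ^ 2 :=
      le_mul_of_one_le_right (abs_nonneg _) (one_le_pow₀ hs1)
    have e4 : |(a : ℝ)| * |((ss (a, b) : ℤ) : ℝ)| ^ 2 = |((qq (a, b) : ℤ) : ℝ)| ^ 2 *
        |((Pool.Agent.W4.VC.hom A (2 * k) (pt (a, b)).1 (pt (a, b)).2 : ℤ) : ℝ)| := by
      rw [← abs_pow, ← abs_mul, e1, abs_mul, abs_pow]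
    rw [e4] at e3
    exact e3.trans (mul_le_mul_of_nonneg_left e2 (by positivity))
  have h4 : (1 : ℝ) ≤ |((qq (a, b) : ℤ) : ℝ)| ^ 2 * (CA * (ht (pt (a, b)) : ℝ) ^ (2 * k)) :=
    one_le_mul_of_one_le_of_one_le (one_le_pow₀ hq1)
      (one_le_mul_of_one_le_of_one_le hCA (one_le_pow₀ hH))
  have h5 := Real.log_le_log (lt_of_lt_of_le one_pos (le_max_right _ _)) (max_le h3 h4)
  rw [Real.log_mul (by positivity) (by positivity), Real.log_mul (by positivity) (by positivity),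
    Real.log_pow, Real.log_pow, ← la_eq] at h5
  push_cast at h5
  refine h5.trans ?_
  obtain ⟨x, hx⟩ : ∃ x : ℝ, x = la (4 * a ^ 3 - 27 * b ^ 2) := ⟨_, rfl⟩
  obtain ⟨lD, hlD⟩ : ∃ lD : ℝ, lD = la (Ds L e c (pt (a, b))) := ⟨_, rfl⟩
  obtain ⟨H, hH'⟩ : ∃ H : ℝ, H = Real.log (ht (pt (a, b))) := ⟨_, rfl⟩
  have hlD0 : 0 ≤ lD := by rw [hlD]; exact la_nonneg _
  rw [← hx, ← hlD] at a1
  rw [← hlD, ← hH', ← hlu] at a7
  rw [← hx, ← hH']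
  have b1 : 6 * la (qq (a, b)) + lD ≤ x + 6 * lm := by linarith
  have b2 : 2 * k * H ≤ 2 * k * (lu + lD) := mul_le_mul_of_nonneg_left a7 (by positivity)
  have b3 : 2 * k * (6 * la (qq (a, b)) + lD) ≤ 2 * k * (x + 6 * lm) :=
    mul_le_mul_of_nonneg_left b1 (by positivity)
  have b4 : 1 * la (qq (a, b)) ≤ k * la (qq (a, b)) := mul_le_mul_of_nonneg_right hk1 a9
  linarith

theorem tw_of_mem {a b : ℤ} (h : Mem A B a b) : TwMem A B a b := by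
  obtain ⟨t, u, hu, ha, hb⟩ := h
  refine ⟨t, u ^ 2, pow_ne_zero 2 hu, ?_, ?_⟩
  · rw [ha]; ring
  · rw [hb]; ring

theorem bounds_fh_un (h : RF A B k L e c) {k' : ℕ} (hk' : k = 2 * k')
    (hP : ∀ a b : ℤ, 4 * a ^ 3 - 27 * b ^ 2 ≠ 0 → (P a b ↔ Mem A B a b)) (η : ℝ) (hη : 0 < η) :
    ∃ κ₀ : ℝ, 0 < κ₀ ∧ ∀ κ c : ℝ, κ₀ ≤ κ →
      (∀ A : ℝ, ∃ C : ℝ, 0 < C ∧ ∀ N : ℝ, 1 ≤ N → (LH P κ c A N).Finite ∧
        ((LH P κ c A N).ncard : ℝ) ≤ C * N ^ (1 / ((d : ℝ) + 3) + η)) ∧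
      ∃ C : ℝ, 0 < C ∧ ∀ B : ℝ, 1 ≤ B → (EH P κ c B).Finite ∧
        ((EH P κ c B).ncard : ℝ) ≤ C * B ^ ((1 / ((d : ℝ) + 3) + η) / κ) := by
  refine bounds_fh (by positivity) (fun N => ?_) (fun η hη => ?_) ?_ η hη
  · obtain ⟨C, hC, h1⟩ := un_upper h hk'
    refine ⟨C * (max N 1) ^ (2 / ((d : ℝ) + 3)), by positivity, fun F hF => ?_⟩
    exact h1 (max N 1) (le_max_right _ _) F fun p hp =>
      ⟨(hF p hp).1, (hP _ _ (hF p hp).1.1).1 (hF p hp).2.1, (hF p hp).2.2.trans (le_max_left _ _)⟩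
  · obtain ⟨κ₀, hκ₀, h1⟩ := un_large h hk' η hη
    refine ⟨κ₀, hκ₀, fun D => ?_⟩
    obtain ⟨C, hC, h1⟩ := h1 D
    exact ⟨C, hC, fun N hN F hF => h1 N hN F fun p hp =>
      ⟨⟨(hF p hp).1.1, (hP _ _ (hF p hp).1.1.1).1 (hF p hp).1.2.1, (hF p hp).1.2.2⟩,
        (hF p hp).2⟩⟩
  · obtain ⟨m, C, hm, hC, h1⟩ := pol_tw h
    exact ⟨m, C, hm, hC, fun a b f1 f2 => h1 a b f1 (tw_of_mem ((hP _ _ f1.1).1 f2))⟩

theorem bounds_fh_tw (h : RF A B k L e c)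
    (hP : ∀ a b : ℤ, 4 * a ^ 3 - 27 * b ^ 2 ≠ 0 → (P a b ↔ TwMem A B a b)) (η : ℝ) (hη : 0 < η) :
    ∃ κ₀ : ℝ, 0 < κ₀ ∧ ∀ κ c : ℝ, κ₀ ≤ κ →
      (∀ A : ℝ, ∃ C : ℝ, 0 < C ∧ ∀ N : ℝ, 1 ≤ N → (LH P κ c A N).Finite ∧
        ((LH P κ c A N).ncard : ℝ) ≤ C * N ^ (1 / 2 + η)) ∧
      ∃ C : ℝ, 0 < C ∧ ∀ B : ℝ, 1 ≤ B → (EH P κ c B).Finite ∧
        ((EH P κ c B).ncard : ℝ) ≤ C * B ^ ((1 / 2 + η) / κ) := by
  refine bounds_fh (by positivity) (fun N => ?_) (fun η hη => ?_) ?_ η hη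
  · obtain ⟨C, hC, h1⟩ := tw_fin h N
    exact ⟨C, hC, fun F hF => h1 F fun p hp =>
      ⟨(hF p hp).1, (hP _ _ (hF p hp).1.1).1 (hF p hp).2.1, (hF p hp).2.2⟩⟩
  · obtain ⟨κ₀, hκ₀, h1⟩ := tw_large h η hη
    refine ⟨κ₀, hκ₀, fun D => ?_⟩
    obtain ⟨C, hC, h1⟩ := h1 D
    exact ⟨C, hC, fun N hN F hF => h1 N hN F fun p hp =>
      ⟨⟨(hF p hp).1.1, (hP _ _ (hF p hp).1.1.1).1 (hF p hp).1.2.1, (hF p hp).1.2.2⟩,
        (hF p hp).2⟩⟩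
  · obtain ⟨m, C, hm, hC, h1⟩ := pol_tw h
    exact ⟨m, C, hm, hC, fun a b f1 f2 => h1 a b f1 ((hP _ _ f1.1).1 f2)⟩

end Pool.Agent.Helper205_Exc
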