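import Pool.Agent.Helper205_Exc.KfTw

/-!
The bounds by conductor and by height for the curves with a large discriminant.
-/

set_option autoImplicit false

namespace Pool.Agent.Helper205_Exc

open Finset Polynomial
open Pool.Agent.TH867.QF (Fm)
open Pool.Agent.TH498.KB (Mem MinS Cond cert)
open Pool.Agent.Y679.Kf

/-- `N₆ ≤ N` and `N₆ ^ κ ≤ |D| ≤ N ^ A` -/
def LS (P : ℤ → ℤ → Prop) (κ A N : ℝ) : Set (ℤ × ℤ) :=
  {q | MinS q.1 q.2 ∧ P q.1 q.2 ∧ (Cond q.1 q.2 : ℝ) ≤ N ∧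
    (Cond q.1 q.2 : ℝ) ^ κ ≤ |((4 * q.1 ^ 3 - 27 * q.2 ^ 2 : ℤ) : ℝ)| ∧
    |((4 * q.1 ^ 3 - 27 * q.2 ^ 2 : ℤ) : ℝ)| ≤ N ^ A}

/-- `|a| ≤ X ^ 2`, `|b| ≤ X ^ 3` and `N₆ ^ κ < K |D|` -/
def ES (P : ℤ → ℤ → Prop) (κ K : ℝ) (X : ℕ) : Set (ℤ × ℤ) :=
  {q | MinS q.1 q.2 ∧ P q.1 q.2 ∧ |q.1| ≤ (X : ℤ) ^ 2 ∧ |q.2| ≤ (X : ℤ) ^ 3 ∧
    (Cond q.1 q.2 : ℝ) ^ κ < K * |((4 * q.1 ^ 3 - 27 * q.2 ^ 2 : ℤ) : ℝ)|}

theorem la_eq (n : ℤ) : la n = Real.log |(n : ℝ)| := by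
  unfold la
  congr 1
  rw [Nat.cast_natAbs, Int.cast_abs]

theorem disc_le_box {a b : ℤ} {X : ℕ} (ha : |a| ≤ (X : ℤ) ^ 2) (hb : |b| ≤ (X : ℤ) ^ 3) :
    |((4 * a ^ 3 - 27 * b ^ 2 : ℤ) : ℝ)| ≤ 31 * (X : ℝ) ^ 6 := by
  have h1 : |4 * a ^ 3 - 27 * b ^ 2| ≤ 31 * (X : ℤ) ^ 6 := by
    have e1 : |a| ^ 3 ≤ ((X : ℤ) ^ 2) ^ 3 := pow_le_pow_left₀ (abs_nonneg _) ha 3
    have e2 : |b| ^ 2 ≤ ((X : ℤ) ^ 3) ^ 2 := pow_le_pow_left₀ (abs_nonneg _) hb 2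
    calc |4 * a ^ 3 - 27 * b ^ 2| ≤ |4 * a ^ 3| + |27 * b ^ 2| := abs_sub _ _
      _ = 4 * |a| ^ 3 + 27 * |b| ^ 2 := by
          rw [abs_mul, abs_mul, abs_pow, abs_pow]
          norm_num
      _ ≤ 4 * ((X : ℤ) ^ 2) ^ 3 + 27 * ((X : ℤ) ^ 3) ^ 2 := by linarith
      _ = _ := by ring
  exact_mod_cast h1

/-- **the bounds** from the count of the curves with a large discriminant -/
theorem bounds {P : ℤ → ℤ → Prop} {s : ℝ} (hs : 0 < s)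
    (hfin : ∀ N : ℝ, ∃ C : ℝ, 0 ≤ C ∧ ∀ F : Finset (ℤ × ℤ), (∀ p ∈ F, MinS p.1 p.2 ∧ P p.1 p.2 ∧
      (Cond p.1 p.2 : ℝ) ≤ N) → (F.card : ℝ) ≤ C)
    (hl : ∀ η : ℝ, 0 < η → ∃ κ₀ : ℝ, 0 < κ₀ ∧ ∀ D : ℝ, ∃ C : ℝ, 0 < C ∧ ∀ N : ℝ, 1 ≤ N →
      ∀ F : Finset (ℤ × ℤ), (∀ p ∈ F, (MinS p.1 p.2 ∧ P p.1 p.2 ∧ (Cond p.1 p.2 : ℝ) ≤ N) ∧
        κ₀ * lc p.1 p.2 ≤ la (4 * p.1 ^ 3 - 27 * p.2 ^ 2) ∧
        la (4 * p.1 ^ 3 - 27 * p.2 ^ 2) ≤ D * Real.log N) →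
      (F.card : ℝ) ≤ C * N ^ (s + η)) (η : ℝ) (hη : 0 < η) :
    ∃ κ₀ : ℝ, 0 < κ₀ ∧
      (∀ A : ℝ, ∃ C : ℝ, 0 < C ∧ ∀ N : ℝ, 1 ≤ N → (LS P κ₀ A N).Finite ∧
        ((LS P κ₀ A N).ncard : ℝ) ≤ C * N ^ (s + η)) ∧
      ∀ κ K : ℝ, κ₀ ≤ κ → 0 < K → ∃ C : ℝ, 0 < C ∧ ∀ X : ℕ, 1 ≤ X → (ES P κ K X).Finite ∧
        ((ES P κ K X).ncard : ℝ) ≤ C * (X : ℝ) ^ ((6 * s + η) / κ) := by
  obtain ⟨κ₁, hκ₁, h1⟩ := hl (η / 6) (by positivity)
  refine ⟨2 * κ₁, by positivity, ?_, ?_⟩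
  · intro A
    obtain ⟨C, hC, h1⟩ := h1 A
    refine ⟨C, hC, fun N hN => fin_card fun F hF => ?_⟩
    have hN0 : 0 < N := by linarith
    refine (h1 N hN F fun p hp => ?_).trans (mul_le_mul_of_nonneg_left
      (Real.rpow_le_rpow_of_exponent_le hN (by linarith)) hC.le)
    obtain ⟨g1, g2, g3, g4, g5⟩ := hF p hp
    have hC0 : (0 : ℝ) < Cond p.1 p.2 := by exact_mod_cast cond_pos _ _
    have hD0 : 0 < |((4 * p.1 ^ 3 - 27 * p.2 ^ 2 : ℤ) : ℝ)| := abs_pos.2 (by exact_mod_cast g1.1)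
    refine ⟨⟨g1, g2, g3⟩, ?_, ?_⟩
    · have e1 := Real.log_le_log (by positivity) g4
      rw [Real.log_rpow hC0, ← la_eq] at e1
      have e2 : 0 ≤ κ₁ * lc p.1 p.2 := mul_nonneg hκ₁.le (lc_nonneg _ _)
      unfold lc at e2 ⊢
      linarith
    · have e1 := Real.log_le_log hD0 g5
      rwa [Real.log_rpow hN0, ← la_eq] at e1
  · intro κ K hκ hK
    have hκ0 : 0 < κ := by linarith
    obtain ⟨C, hC, h1⟩ := h1 (κ + 4)
    obtain ⟨C0, hC0, hfin⟩ := hfin (Real.exp (2 * |Real.log K| / κ))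
    obtain ⟨lz, hlz⟩ : ∃ lz : ℝ, lz = 1 + |Real.log (31 * K)| / κ := ⟨_, rfl⟩
    have hlz1 : 1 ≤ lz := by rw [hlz]; have : 0 ≤ |Real.log (31 * K)| / κ := by positivity
                             linarith
    refine ⟨C0 + C * Real.exp (lz * (s + η / 6)), by positivity, fun X hX => fin_card fun F hF => ?_⟩
    have hXr : (1 : ℝ) ≤ X := by exact_mod_cast hX
    have hX0 : (0 : ℝ) < X := by linarith
    have hlX : 0 ≤ Real.log X := Real.log_nonneg hXr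
    obtain ⟨N, hN⟩ : ∃ N : ℝ, N = Real.exp (lz + 6 / κ * Real.log X) := ⟨_, rfl⟩
    have hN0 : 0 < N := by rw [hN]; exact Real.exp_pos _
    have hlN : Real.log N = lz + 6 / κ * Real.log X := by rw [hN, Real.log_exp]
    have h6X : 0 ≤ 6 / κ * Real.log X := by positivity
    have hN1 : 1 ≤ N := by rw [hN]; exact Real.one_le_exp (by linarith)
    classical
    obtain ⟨F1, hF1⟩ : ∃ F1 : Finset (ℤ × ℤ), F1 = F.filter fun p =>
      (Cond p.1 p.2 : ℝ) ≤ Real.exp (2 * |Real.log K| / κ) := ⟨_, rfl⟩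
    obtain ⟨F2, hF2⟩ : ∃ F2 : Finset (ℤ × ℤ), F2 = F.filter fun p =>
      ¬ (Cond p.1 p.2 : ℝ) ≤ Real.exp (2 * |Real.log K| / κ) := ⟨_, rfl⟩
    have hcard : F.card = F1.card + F2.card := by
      rw [hF1, hF2, card_filter_add_card_filter_not]
    have e1 : (F1.card : ℝ) ≤ C0 := hfin F1 fun p hp => by
      rw [hF1] at hp
      obtain ⟨g1, g2⟩ := mem_filter.1 hp
      exact ⟨(hF p g1).1, (hF p g1).2.1, g2⟩
    have e2 : (F2.card : ℝ) ≤ C * N ^ (s + η / 6) := h1 N hN1 F2 fun p hp => by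
      rw [hF2] at hp
      obtain ⟨g1, g2⟩ := mem_filter.1 hp
      obtain ⟨f1, f2, f3, f4, f5⟩ := hF p g1
      push Not at g2
      have hC0 : (0 : ℝ) < Cond p.1 p.2 := by exact_mod_cast cond_pos _ _
      have hD0 : 0 < |((4 * p.1 ^ 3 - 27 * p.2 ^ 2 : ℤ) : ℝ)| := abs_pos.2 (by exact_mod_cast f1.1)
      have hbox := disc_le_box f3 f4
      obtain ⟨x, hx⟩ : ∃ x : ℝ, x = la (4 * p.1 ^ 3 - 27 * p.2 ^ 2) := ⟨_, rfl⟩
      obtain ⟨y, hy⟩ : ∃ y : ℝ, y = lc p.1 p.2 := ⟨_, rfl⟩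
      have g3 : 2 * |Real.log K| / κ ≤ y := by
        rw [hy]
        unfold lc
        exact (Real.le_log_iff_exp_le hC0).2 g2.le
      have g4 : κ * y ≤ Real.log K + x := by
        have e3 := Real.log_le_log (by positivity) f5.le
        rw [Real.log_rpow hC0, Real.log_mul hK.ne' hD0.ne', ← la_eq] at e3
        rw [hx, hy]
        exact e3
      have g5 : x ≤ Real.log 31 + 6 * Real.log X := by
        have e3 := Real.log_le_log hD0 hbox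
        rw [Real.log_mul (by norm_num) (by positivity), Real.log_pow, ← la_eq] at e3
        rw [hx]
        exact_mod_cast e3
      have g31 : Real.log 31 ≤ 4 := by
        rw [Real.log_le_iff_le_exp (by norm_num)]
        have : (2.7 : ℝ) ≤ Real.exp 1 := by
          have := Real.exp_one_gt_d9
          linarith
        calc (31 : ℝ) ≤ 2.7 ^ 4 := by norm_num
          _ ≤ (Real.exp 1) ^ 4 := pow_le_pow_left₀ (by norm_num) this 4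
          _ = Real.exp 4 := by rw [← Real.exp_nat_mul]; norm_num
      have g6 : 2 * |Real.log K| ≤ κ * y := by
        rw [div_le_iff₀ hκ0] at g3
        linarith
      have g7 : Real.log K ≤ |Real.log K| := le_abs_self _
      refine ⟨⟨f1, f2, ?_⟩, ?_, ?_⟩
      · rw [hN]
        apply (Real.log_le_iff_le_exp hC0).1
        change lc p.1 p.2 ≤ _
        rw [← hy]
        have g8 : κ * y ≤ |Real.log (31 * K)| + 6 * Real.log X := by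
          have : Real.log (31 * K) = Real.log 31 + Real.log K :=
            Real.log_mul (by norm_num) hK.ne'
          have := le_abs_self (Real.log (31 * K))
          linarith
        have g9 : y ≤ |Real.log (31 * K)| / κ + 6 / κ * Real.log X := by
          have : |Real.log (31 * K)| / κ + 6 / κ * Real.log X =
            (|Real.log (31 * K)| + 6 * Real.log X) / κ := by ring
          rw [this, le_div_iff₀ hκ0]
          linarith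
        rw [hlz]
        linarith
      · rw [← hx, ← hy]
        have g8 : 2 * κ₁ * y ≤ κ * y := mul_le_mul_of_nonneg_right hκ (by rw [hy]; exact lc_nonneg _ _)
        linarith
      · rw [← hx, hlN]
        have g8 : (κ + 4) * (lz + 6 / κ * Real.log X) =
          6 * Real.log X + (κ + 4) * lz + 4 * (6 / κ * Real.log X) := by field_simp; ring
        rw [g8]
        have g9 : 4 * 1 ≤ (κ + 4) * lz := mul_le_mul (by linarith) hlz1 (by norm_num) (by linarith)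
        linarith
    have hV : N ^ (s + η / 6) = Real.exp (lz * (s + η / 6)) * (X : ℝ) ^ ((6 * s + η) / κ) := by
      rw [Real.rpow_def_of_pos hN0, hlN, Real.rpow_def_of_pos hX0, ← Real.exp_add]
      congr 1
      field_simp
    rw [hV] at e2
    have hV1 : 1 ≤ (X : ℝ) ^ ((6 * s + η) / κ) := Real.one_le_rpow hXr (by positivity)
    have h3 : (F.card : ℝ) = F1.card + F2.card := by exact_mod_cast hcard
    rw [h3]
    nlinarith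

variable {d : ℕ} {A B : ℤ[X]} {k : ℕ} {L : Fm (d + 3)} {e : Fin (d + 3) → ℕ} {c : ℤ}
  {P : ℤ → ℤ → Prop}

theorem bounds_un (h : RF A B k L e c) {k' : ℕ} (hk' : k = 2 * k')
    (hP : ∀ a b : ℤ, 4 * a ^ 3 - 27 * b ^ 2 ≠ 0 → (P a b ↔ Mem A B a b)) (η : ℝ) (hη : 0 < η) :
    ∃ κ₀ : ℝ, 0 < κ₀ ∧
      (∀ A : ℝ, ∃ C : ℝ, 0 < C ∧ ∀ N : ℝ, 1 ≤ N → (LS P κ₀ A N).Finite ∧
        ((LS P κ₀ A N).ncard : ℝ) ≤ C * N ^ (1 / ((d : ℝ) + 3) + η)) ∧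
      ∀ κ K : ℝ, κ₀ ≤ κ → 0 < K → ∃ C : ℝ, 0 < C ∧ ∀ X : ℕ, 1 ≤ X → (ES P κ K X).Finite ∧
        ((ES P κ K X).ncard : ℝ) ≤ C * (X : ℝ) ^ ((6 * (1 / ((d : ℝ) + 3)) + η) / κ) := by
  refine bounds (by positivity) (fun N => ?_) (fun η hη => ?_) η hη
  · obtain ⟨C, hC, h1⟩ := un_upper h hk'
    refine ⟨C * (max N 1) ^ (2 / ((d : ℝ) + 3)), by positivity, fun F hF => ?_⟩
    exact h1 (max N 1) (le_max_right _ _) F fun p hp =>
      ⟨(hF p hp).1, (hP _ _ (hF p hp).1.1).1 (hF p hp).2.1, (hF p hp).2.2.trans (le_max_left _ _)⟩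
  · obtain ⟨κ₀, hκ₀, h1⟩ := un_large h hk' η hη
    refine ⟨κ₀, hκ₀, fun D => ?_⟩
    obtain ⟨C, hC, h1⟩ := h1 D
    exact ⟨C, hC, fun N hN F hF => h1 N hN F fun p hp =>
      ⟨⟨(hF p hp).1.1, (hP _ _ (hF p hp).1.1.1).1 (hF p hp).1.2.1, (hF p hp).1.2.2⟩,
        (hF p hp).2⟩⟩

theorem bounds_tw (h : RF A B k L e c)
    (hP : ∀ a b : ℤ, 4 * a ^ 3 - 27 * b ^ 2 ≠ 0 → (P a b ↔ TwMem A B a b)) (η : ℝ) (hη : 0 < η) :
    ∃ κ₀ : ℝ, 0 < κ₀ ∧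
      (∀ A : ℝ, ∃ C : ℝ, 0 < C ∧ ∀ N : ℝ, 1 ≤ N → (LS P κ₀ A N).Finite ∧
        ((LS P κ₀ A N).ncard : ℝ) ≤ C * N ^ (1 / 2 + η)) ∧
      ∀ κ K : ℝ, κ₀ ≤ κ → 0 < K → ∃ C : ℝ, 0 < C ∧ ∀ X : ℕ, 1 ≤ X → (ES P κ K X).Finite ∧
        ((ES P κ K X).ncard : ℝ) ≤ C * (X : ℝ) ^ ((6 * (1 / 2) + η) / κ) := by
  refine bounds (by positivity) (fun N => ?_) (fun η hη => ?_) η hη
  · obtain ⟨C, hC, h1⟩ := tw_fin h N
    exact ⟨C, hC, fun F hF => h1 F fun p hp =>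
      ⟨(hF p hp).1, (hP _ _ (hF p hp).1.1).1 (hF p hp).2.1, (hF p hp).2.2⟩⟩
  · obtain ⟨κ₀, hκ₀, h1⟩ := tw_large h η hη
    refine ⟨κ₀, hκ₀, fun D => ?_⟩
    obtain ⟨C, hC, h1⟩ := h1 D
    exact ⟨C, hC, fun N hN F hF => h1 N hN F fun p hp =>
      ⟨⟨(hF p hp).1.1, (hP _ _ (hF p hp).1.1.1).1 (hF p hp).1.2.1, (hF p hp).1.2.2⟩,
        (hF p hp).2⟩⟩

/-! ### Full 2-torsion -/

noncomputable def A2 : ℤ[X] := 3 * (X ^ 2 - X + 1)
noncomputable def B2 : ℤ[X] := 2 * X ^ 3 - 3 * X ^ 2 - 3 * X + 2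

def L2 : Fm (0 + 3) where
  u := ![1, 1, 0]
  w := ![0, -1, 1]
  res := by decide

theorem rf2 : RF A2 B2 1 L2 ![2, 2, 2] 729 where
  hk := le_rfl
  hA := by unfold A2; compute_degree
  hB := by unfold B2; compute_degree
  hlead := Or.inl (by unfold A2; compute_degree!)
  hcop := cert _ _ (12 - (2 * X - 1) ^ 2) (3 * (2 * X - 1)) 27 (by norm_num) (by
    unfold A2 B2; push_cast; ring)
  he := by decide
  hsum := by decide
  hc := by norm_num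
  disc := by
    simp only [Fin.prod_univ_succ, L2, A2, B2]
    simp
    ring

theorem evA2 (t : ℚ) : (A2.map (Int.castRingHom ℚ)).eval t = 3 * (t ^ 2 - t + 1) := by
  unfold A2; simp

theorem evB2 (t : ℚ) : (B2.map (Int.castRingHom ℚ)).eval t =
    2 * t ^ 3 - 3 * t ^ 2 - 3 * t + 2 := by
  unfold B2; simp

theorem tw2 {a b : ℤ} (hD : 4 * a ^ 3 - 27 * b ^ 2 ≠ 0) :
    TwMem A2 B2 a b ↔ ∃ r₁ r₂ r₃ : ℚ, r₁ + r₂ + r₃ = 0 ∧ (a : ℚ) = -(r₁ * r₂ + r₁ * r₃ + r₂ * r₃) ∧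
      (b : ℚ) = r₁ * r₂ * r₃ := by
  constructor
  · rintro ⟨t, δ, hδ, ha, hb⟩
    rw [evA2] at ha
    rw [evB2] at hb
    refine ⟨δ * (2 * t - 1), δ * (2 - t), -(δ * (t + 1)), by ring, ?_, ?_⟩
    · rw [ha]; ring
    · rw [hb]; ring
  · rintro ⟨r₁, r₂, r₃, h0, ha, hb⟩
    have hr : r₁ = -r₂ - r₃ := by linarith
    have hne : r₂ - r₃ ≠ 0 := by
      intro h1
      apply dq hD
      have : r₂ = r₃ := by linarith
      rw [ha, hb, hr, this]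
      ring
    refine ⟨(r₁ - r₃) / (r₂ - r₃), (r₂ - r₃) / 3, div_ne_zero hne (by norm_num), ?_, ?_⟩
    · rw [evA2, ha, hr]
      field_simp
      ring
    · rw [evB2, hb, hr]
      field_simp
      ring

end Pool.Agent.Helper205_Exc
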