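import Pool.Agent.Helper205_Exc.Kf

/-!
Twists of members of a family of elliptic curves whose discriminant is large compared to the
conductor.
-/

set_option autoImplicit false

namespace Pool.Agent.Helper205_Exc

open Finset Polynomial
open Pool.Agent.TH867.SQ (lr lr_nonneg)
open Pool.Agent.TH867.QF (Fm ev va Rs Rs_pos Pt U U_pos ht ht_pos va_pos va_le ht_le)
open Pool.Agent.TH498.KB (Mem MinS Cond)
open Pool.Agent.Y679.Kf

variable {d : ℕ} {A B : ℤ[X]} {k : ℕ} {L : Fm (d + 3)} {e : Fin (d + 3) → ℕ} {c : ℤ}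

/-- the weighted number of the points -/
theorem wsum_large {M' : ℕ} {C1 : ℝ} {A' : ℕ} (hC1 : 0 < C1)
    (hline : ∀ w : ℝ, 0 ≤ w → ∀ T : Finset (ℤ × ℤ),
      (∀ P ∈ T, Pt L P ∧ M' * w ≤ Real.log (ht P) ∧ Real.log (ht P) ≤ A' * w ∧ sr L P ≤ w) →
      (T.card : ℝ) ≤ C1 * Real.exp ((1 / (((d + 3 : ℕ)) : ℝ) + 1 / 24) * w))
    (I : Finset (ℤ × ℤ)) (Z : ℝ) (hZ : 0 ≤ Z)
    (hI : ∀ P ∈ I, Pt L P ∧ sr L P ≤ Z ∧ M' * (⌈sr L P⌉₊ : ℝ) ≤ Real.log (ht P) ∧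
      Real.log (ht P) ≤ A' * (⌈sr L P⌉₊ : ℝ)) :
    ∑ P ∈ I, rw' L P ^ (-(11 / 24) : ℝ) ≤ C1 * Real.exp 1 * (Z + 2) := by
  classical
  have hmap : ∀ P ∈ I, ⌈sr L P⌉₊ ∈ range (⌈Z⌉₊ + 1) := by
    intro P hP
    rw [mem_range]
    have := Nat.ceil_le_ceil (hI P hP).2.1
    omega
  rw [← Finset.sum_fiberwise_of_maps_to hmap]
  have hn : ∀ n ∈ range (⌈Z⌉₊ + 1),
      ∑ P ∈ I.filter (fun P => ⌈sr L P⌉₊ = n), rw' L P ^ (-(11 / 24) : ℝ) ≤ C1 * Real.exp 1 := by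
    intro n _
    obtain ⟨T, hT⟩ : ∃ T, T = I.filter (fun P => ⌈sr L P⌉₊ = n) := ⟨_, rfl⟩
    rw [← hT]
    have hTI : ∀ P ∈ T, P ∈ I ∧ ⌈sr L P⌉₊ = n := fun P hP => by
      rw [hT] at hP
      exact mem_filter.1 hP
    have h1 : (T.card : ℝ) ≤ C1 * Real.exp ((1 / (((d + 3 : ℕ)) : ℝ) + 1 / 24) * n) := by
      apply hline n (Nat.cast_nonneg _)
      intro P hP
      obtain ⟨h1, h2⟩ := hTI P hP
      obtain ⟨g1, g2, g3, g4⟩ := hI P h1
      rw [h2] at g3 g4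
      refine ⟨g1, g3, g4, ?_⟩
      rw [← h2]
      exact Nat.le_ceil _
    have h2 : ∀ P ∈ T, rw' L P ^ (-(11 / 24) : ℝ) ≤ Real.exp (-(11 / 24) * ((n : ℝ) - 1)) := by
      intro P hP
      obtain ⟨h1, h2⟩ := hTI P hP
      unfold rw'
      rw [← Real.exp_mul]
      apply Real.exp_le_exp.2
      have h3 := Nat.ceil_lt_add_one (sr_nonneg L P)
      rw [h2] at h3
      nlinarith
    have h3 : (1 : ℝ) / (((d + 3 : ℕ)) : ℝ) ≤ 1 / 3 := by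
      apply one_div_le_one_div_of_le (by norm_num)
      push_cast
      have : (0 : ℝ) ≤ d := Nat.cast_nonneg _
      linarith
    have hn0 : (0 : ℝ) ≤ n := Nat.cast_nonneg _
    calc ∑ P ∈ T, rw' L P ^ (-(11 / 24) : ℝ) ≤ ∑ _P ∈ T, Real.exp (-(11 / 24) * ((n : ℝ) - 1)) :=
          Finset.sum_le_sum h2
      _ = T.card * Real.exp (-(11 / 24) * ((n : ℝ) - 1)) := by
          rw [Finset.sum_const, nsmul_eq_mul]
      _ ≤ (C1 * Real.exp ((1 / (((d + 3 : ℕ)) : ℝ) + 1 / 24) * n)) *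
          Real.exp (-(11 / 24) * ((n : ℝ) - 1)) :=
          mul_le_mul_of_nonneg_right h1 (Real.exp_pos _).le
      _ = C1 * Real.exp ((1 / (((d + 3 : ℕ)) : ℝ) + 1 / 24) * n + -(11 / 24) * ((n : ℝ) - 1)) := by
          rw [Real.exp_add]; ring
      _ ≤ C1 * Real.exp 1 := by
          apply mul_le_mul_of_nonneg_left _ hC1.le
          apply Real.exp_le_exp.2
          nlinarith
  have hceil : (⌈Z⌉₊ : ℝ) ≤ Z + 1 := (Nat.ceil_lt_add_one hZ).le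
  calc ∑ n ∈ range (⌈Z⌉₊ + 1), ∑ P ∈ I.filter (fun P => ⌈sr L P⌉₊ = n), rw' L P ^ (-(11 / 24) : ℝ)
      ≤ ∑ _n ∈ range (⌈Z⌉₊ + 1), C1 * Real.exp 1 := Finset.sum_le_sum hn
    _ = (⌈Z⌉₊ + 1) * (C1 * Real.exp 1) := by
        rw [Finset.sum_const, card_range, nsmul_eq_mul]
        push_cast
        ring
    _ ≤ (Z + 2) * (C1 * Real.exp 1) :=
        mul_le_mul_of_nonneg_right (by linarith) (by positivity)
    _ = _ := by ring

/-- **twists of members with a large discriminant** -/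
theorem tw_large (h : RF A B k L e c) (η : ℝ) (hη : 0 < η) :
    ∃ κ₀ : ℝ, 0 < κ₀ ∧ ∀ D : ℝ, ∃ C : ℝ, 0 < C ∧ ∀ N : ℝ, 1 ≤ N → ∀ F : Finset (ℤ × ℤ),
      (∀ p ∈ F, p ∈ TwAll A B N ∧ κ₀ * lc p.1 p.2 ≤ la (4 * p.1 ^ 3 - 27 * p.2 ^ 2) ∧
        la (4 * p.1 ^ 3 - 27 * p.2 ^ 2) ≤ D * Real.log N) →
      (F.card : ℝ) ≤ C * N ^ (1 / 2 + η) := by
  classical
  obtain ⟨M, hM1, hM⟩ := gcdM_ex h
  obtain ⟨pt, qq, ss, hsel⟩ := sel_ex h hM
  have hk0 : (0 : ℝ) < k := by exact_mod_cast h.hk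
  obtain ⟨C0, hC0, htw⟩ := tw_card2 h hM1 hM hsel (ε := 1 / 24) (γ := 0) (by norm_num) (by norm_num)
  obtain ⟨C2, hC2, htot⟩ := line_tot L
  obtain ⟨K, hK⟩ : ∃ K : ℝ, K = 2 * Real.log (Mc M c) + ((d + 3 : ℕ) : ℝ) * Real.log (Rs L) :=
    ⟨_, rfl⟩
  have hMc0 := Real.log_natCast_nonneg (Mc M c)
  have hRs0 := Real.log_natCast_nonneg (Rs L)
  have hK0 : 0 ≤ K := by
    rw [hK]
    positivity
  obtain ⟨lu, hlu⟩ : ∃ lu : ℝ, lu = Real.log (U L) := ⟨_, rfl⟩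
  have hlu0 : 0 ≤ lu := by rw [hlu]; exact Real.log_natCast_nonneg _
  obtain ⟨lm, hlm⟩ : ∃ lm : ℝ, lm = Real.log M := ⟨_, rfl⟩
  have hlm0 : 0 ≤ lm := by rw [hlm]; exact Real.log_natCast_nonneg _
  have hlc0 := la_nonneg c
  obtain ⟨K1, hK1⟩ : ∃ K1 : ℝ, K1 = la c + 6 * k * lu := ⟨_, rfl⟩
  have hK10 : 0 ≤ K1 := by rw [hK1]; positivity
  obtain ⟨M', hline⟩ := line_large (q := d + 3) (by omega) L (1 / 24) (by norm_num)
  obtain ⟨κ₀, hκ₀⟩ : ∃ κ₀ : ℝ, κ₀ = 6 * k * M' + 6 + 1 := ⟨_, rfl⟩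
  have hκ6 : 6 ≤ κ₀ := by
    rw [hκ₀]
    have : (0 : ℝ) ≤ 6 * k * M' := by positivity
    linarith
  refine ⟨κ₀, by linarith, ?_⟩
  intro D
  obtain ⟨A', hA'⟩ : ∃ A' : ℕ, A' = ⌈|D| / η + lu + 6 * lm⌉₊ := ⟨_, rfl⟩
  have hA'le : |D| / η + lu + 6 * lm ≤ A' := by rw [hA']; exact Nat.le_ceil _
  obtain ⟨C1, hC1, hline⟩ := hline A'
  obtain ⟨T1, hT1⟩ : ∃ T1 : ℝ, T1 = 1 + κ₀ * (1 + K) + K1 := ⟨_, rfl⟩
  have hT11 : 1 ≤ T1 := by
    rw [hT1]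
    have : 0 ≤ κ₀ * (1 + K) := by positivity
    linarith
  obtain ⟨C3, hC3, hsmall⟩ := tw_fin h (Real.exp (T1 / η))
  refine ⟨C3 + C0 * (C2 + C1 * Real.exp 1 * (1 / η + K + 2)), by positivity, fun N hN F hF => ?_⟩
  have hN0 : 0 < N := by linarith
  have hlogN : 0 ≤ Real.log N := Real.log_nonneg hN
  have hNη : 1 ≤ N ^ η := Real.one_le_rpow hN hη.le
  have hNh : 1 ≤ N ^ (1 / 2 + η) := Real.one_le_rpow hN (by positivity)
  have p1 : 0 ≤ C0 * (C2 + C1 * Real.exp 1 * (1 / η + K + 2)) := by positivity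
  rcases lt_or_ge (η * Real.log N) T1 with hNT | hNT
  · have h1 := hsmall F (fun p hp => by
      obtain ⟨⟨f1, f2, f3⟩, -⟩ := hF p hp
      refine ⟨f1, f2, f3.trans ?_⟩
      rw [← Real.log_le_iff_le_exp hN0, le_div_iff₀ hη]
      linarith)
    nlinarith
  have h1 := htw N hN0.le F (fun p hp => by
    obtain ⟨⟨f1, f2, f3⟩, -⟩ := hF p hp
    refine ⟨f1, f2, f3, ?_⟩
    rw [Real.rpow_zero]
    exact_mod_cast gg_pos _ _)
  have hexp : -(1 / 2 - 1 / 24 + (0 : ℝ) / 2) = -(11 / 24) := by norm_num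
  rw [hexp] at h1
  -- the two parts of the sum
  obtain ⟨I, hI⟩ : ∃ I, I = F.image pt := ⟨_, rfl⟩
  rw [← hI] at h1
  have hfact : ∀ P ∈ I, Pt L P ∧ sr L P ≤ Real.log N + K ∧
      κ₀ * (sr L P - K) ≤ K1 + 6 * k * Real.log (ht P) ∧
      Real.log (ht P) ≤ lu + 6 * lm + |D| * Real.log N := by
    intro P hP
    rw [hI] at hP
    obtain ⟨p, hp, rfl⟩ := mem_image.1 hP
    obtain ⟨⟨f1, f2, f3⟩, f4, f5⟩ := hF p hp
    obtain ⟨k1, k2, k3, k4, k5, k6, k7⟩ := hsel.all p f1 f2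
    have a1 := la_disc h k1.ne' k2 k3.ne' k5 f1.1 k7
    have a2 := lc_abs h hM1 hM k1.ne' k2 k4 k5 k6 f1.1 k7
    have a5 := sr_le k2
    have a6 := ds_le h k2
    have a7 := ht_le_ds h k2
    have a8 : Real.log (gg (Vp L (pt p)) (qq p).natAbs) ≤ la (qq p) := by
      unfold la
      refine Real.log_le_log (by exact_mod_cast gg_pos _ _) ?_
      exact_mod_cast Nat.le_of_dvd (Int.natAbs_pos.2 k5) (gg_dvd _ _)
    have a9 := la_nonneg (qq p)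
    have a10 := la_nonneg (ss p)
    have a11 : la (ss p) ≤ lm := by
      rw [hlm]
      unfold la
      refine Real.log_le_log (by exact_mod_cast Int.natAbs_pos.2 k3.ne') ?_
      exact_mod_cast Nat.le_of_dvd hM1 (Int.natAbs_dvd_natAbs.2 k4)
    have a12 : lc p.1 p.2 ≤ Real.log N := Real.log_le_log (by exact_mod_cast cond_pos _ _) f3
    rw [← hlu] at a6 a7
    obtain ⟨x, hx⟩ : ∃ x : ℝ, x = la (4 * p.1 ^ 3 - 27 * p.2 ^ 2) := ⟨_, rfl⟩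
    obtain ⟨y, hy⟩ : ∃ y : ℝ, y = lc p.1 p.2 := ⟨_, rfl⟩
    obtain ⟨lD, hlD⟩ : ∃ lD : ℝ, lD = la (Ds L e c (pt p)) := ⟨_, rfl⟩
    obtain ⟨H, hH⟩ : ∃ H : ℝ, H = Real.log (ht (pt p)) := ⟨_, rfl⟩
    rw [← hx, ← hy] at f4
    rw [← hx] at f5
    rw [← hx, ← hlD] at a1
    rw [← hlD] at a6 a7
    rw [← hy] at a2 a12
    rw [← hH] at a6 a7 ⊢
    rw [abs_le] at a2
    have hyK : la (qq p) + sr L (pt p) - K ≤ y := by
      rw [hK]
      linarith [a2.1]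
    refine ⟨k2, by linarith, ?_, ?_⟩
    · have b1 : κ₀ * (la (qq p) + sr L (pt p) - K) ≤ κ₀ * y :=
        mul_le_mul_of_nonneg_left hyK (by linarith)
      have b2 : 6 * la (qq p) ≤ κ₀ * la (qq p) := mul_le_mul_of_nonneg_right hκ6 a9
      rw [hK1]
      nlinarith
    · have b1 : D * Real.log N ≤ |D| * Real.log N :=
        mul_le_mul_of_nonneg_right (le_abs_self D) hlogN
      linarith
  obtain ⟨I1, hI1⟩ : ∃ I1, I1 = I.filter fun P => sr L P ≤ η * Real.log N := ⟨_, rfl⟩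
  obtain ⟨I2, hI2⟩ : ∃ I2, I2 = I.filter fun P => ¬ sr L P ≤ η * Real.log N := ⟨_, rfl⟩
  have hsplit : ∑ P ∈ I, rw' L P ^ (-(11 / 24) : ℝ) =
      ∑ P ∈ I1, rw' L P ^ (-(11 / 24) : ℝ) + ∑ P ∈ I2, rw' L P ^ (-(11 / 24) : ℝ) := by
    rw [hI1, hI2]
    exact (Finset.sum_filter_add_sum_filter_not I _ _).symm
  have e1 : ∑ P ∈ I1, rw' L P ^ (-(11 / 24) : ℝ) ≤ C2 * N ^ η := by
    have g1 : ∀ P ∈ I1, rw' L P ^ (-(11 / 24) : ℝ) ≤ 1 := fun P _ =>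
      Real.rpow_le_one_of_one_le_of_nonpos (rw'_ge L P) (by norm_num)
    have g2 := htot (N ^ η) hNη I1 (fun P hP => by
      rw [hI1] at hP
      obtain ⟨j1, j2⟩ := mem_filter.1 hP
      refine ⟨(hfact P j1).1, ?_⟩
      rw [Real.log_rpow hN0]
      exact j2)
    have g3 : (N ^ η) ^ (2 / ((d : ℝ) + 3)) ≤ N ^ η := by
      calc (N ^ η) ^ (2 / ((d : ℝ) + 3)) ≤ (N ^ η) ^ (1 : ℝ) := by
            apply Real.rpow_le_rpow_of_exponent_le hNη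
            rw [div_le_one (by positivity)]
            have : (0 : ℝ) ≤ d := Nat.cast_nonneg _
            linarith
        _ = N ^ η := Real.rpow_one _
    calc ∑ P ∈ I1, rw' L P ^ (-(11 / 24) : ℝ) ≤ ∑ _P ∈ I1, (1 : ℝ) := Finset.sum_le_sum g1
      _ = I1.card := by rw [Finset.sum_const, nsmul_eq_mul, mul_one]
      _ ≤ C2 * (N ^ η) ^ (2 / ((d : ℝ) + 3)) := g2
      _ ≤ C2 * N ^ η := mul_le_mul_of_nonneg_left g3 hC2.le
  have e2 : ∑ P ∈ I2, rw' L P ^ (-(11 / 24) : ℝ) ≤ C1 * Real.exp 1 * (Real.log N + K + 2) := by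
    apply wsum_large hC1 hline I2 (Real.log N + K) (by positivity)
    intro P hP
    rw [hI2] at hP
    obtain ⟨j1, j2⟩ := mem_filter.1 hP
    push Not at j2
    obtain ⟨g1, g2, g3, g4⟩ := hfact P j1
    obtain ⟨n, hn⟩ : ∃ n : ℝ, n = (⌈sr L P⌉₊ : ℝ) := ⟨_, rfl⟩
    have n1 : sr L P ≤ n := by rw [hn]; exact Nat.le_ceil _
    have n2 : n < sr L P + 1 := by rw [hn]; exact Nat.ceil_lt_add_one (sr_nonneg L P)
    have n3 : T1 ≤ n := by linarith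
    have n4 : η * Real.log N ≤ n := by linarith
    have n5 : 1 ≤ n := hT11.trans n3
    rw [← hn]
    refine ⟨g1, g2, ?_, ?_⟩
    · have b1 : κ₀ * (n - 1 - K) ≤ κ₀ * (sr L P - K) :=
        mul_le_mul_of_nonneg_left (by linarith) (by linarith)
      have b2 : 6 * k * (M' * n) ≤ 6 * k * Real.log (ht P) := by
        have b3 : κ₀ * n = 6 * k * M' * n + 7 * n := by rw [hκ₀]; ring
        rw [hT1] at n3
        nlinarith
      exact le_of_mul_le_mul_left b2 (by positivity)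
    · have b1 : Real.log N ≤ n / η := by rw [le_div_iff₀ hη]; linarith
      have b2 : |D| * Real.log N ≤ |D| / η * n := by
        calc |D| * Real.log N ≤ |D| * (n / η) := mul_le_mul_of_nonneg_left b1 (abs_nonneg D)
          _ = |D| / η * n := by ring
      have b3 : (|D| / η + lu + 6 * lm) * n ≤ A' * n :=
        mul_le_mul_of_nonneg_right hA'le (by linarith)
      have b4 : lu ≤ lu * n := le_mul_of_one_le_right hlu0 n5
      have b5 : lm ≤ lm * n := le_mul_of_one_le_right hlm0 n5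
      nlinarith
  have hlogη : Real.log N ≤ 1 / η * N ^ η := by
    have := Real.log_le_rpow_div hN0.le hη
    calc Real.log N ≤ N ^ η / η := this
      _ = 1 / η * N ^ η := by ring
  have e3 : ∑ P ∈ I, rw' L P ^ (-(11 / 24) : ℝ) ≤
      (C2 + C1 * Real.exp 1 * (1 / η + K + 2)) * N ^ η := by
    rw [hsplit]
    have b1 : Real.log N + K + 2 ≤ (1 / η + K + 2) * N ^ η := by nlinarith
    have b2 : C1 * Real.exp 1 * (Real.log N + K + 2) ≤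
        C1 * Real.exp 1 * ((1 / η + K + 2) * N ^ η) := mul_le_mul_of_nonneg_left b1 (by positivity)
    linarith
  have e4 : Real.sqrt N * N ^ η = N ^ (1 / 2 + η) := by
    rw [Real.sqrt_eq_rpow, ← Real.rpow_add hN0]
  calc (F.card : ℝ) ≤ C0 * Real.sqrt N * ∑ P ∈ I, rw' L P ^ (-(11 / 24) : ℝ) := h1
    _ ≤ C0 * Real.sqrt N * ((C2 + C1 * Real.exp 1 * (1 / η + K + 2)) * N ^ η) :=
        mul_le_mul_of_nonneg_left e3 (by positivity)
    _ = C0 * (C2 + C1 * Real.exp 1 * (1 / η + K + 2)) * (Real.sqrt N * N ^ η) := by ring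
    _ = C0 * (C2 + C1 * Real.exp 1 * (1 / η + K + 2)) * N ^ (1 / 2 + η) := by rw [e4]
    _ ≤ (C3 + C0 * (C2 + C1 * Real.exp 1 * (1 / η + K + 2))) * N ^ (1 / 2 + η) := by
        apply mul_le_mul_of_nonneg_right _ (by positivity)
        linarith

end Pool.Agent.Helper205_Exc
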