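import Pool.Agent.Helper205_Exc.Det
import Pool.Agent.Helper205_Exc.Flex
import Pool.Agent.Y913.Zm.Fn

/-!
Levels of flexibility and the members of an abc triple.
-/

set_option autoImplicit false

namespace Pool.Agent.Helper205_Exc

open Finset Pool.Agent.H785R2.ABC Pool.Agent.Y913.Nb

/-- the members `a`, `b`, `a + b` of the pair `(a, b)` -/
def mem (t : ℕ × ℕ) (i : Fin 3) : ℕ := ![t.1, t.2, t.1 + t.2] i

/-- the pairs considered -/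
def Ok (t : ℕ × ℕ) : Prop := 0 < t.1 ∧ 0 < t.2 ∧ Nat.Coprime t.1 t.2

theorem mem_pos {t : ℕ × ℕ} (ht : Ok t) (i : Fin 3) : 1 ≤ mem t i := by
  obtain ⟨h1, h2, -⟩ := ht
  fin_cases i
  · exact h1
  · exact h2
  · show 1 ≤ t.1 + t.2
    omega

theorem mem_coprime {t : ℕ × ℕ} (ht : Ok t) {i j : Fin 3} (hij : i ≠ j) :
    Nat.Coprime (mem t i) (mem t j) := by
  obtain ⟨h1, h2, h3⟩ := ht
  have e1 : Nat.Coprime t.1 (t.1 + t.2) := by simpa using h3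
  have e2 : Nat.Coprime t.2 (t.1 + t.2) := by simpa using h3.symm
  have e3 := h3.symm
  have e4 := e1.symm
  have e5 := e2.symm
  fin_cases i <;> fin_cases j <;>
    first | exact absurd rfl hij | exact h3 | exact e1 | exact e2 | exact e3 | exact e4 | exact e5

theorem mem_inj {t t' : ℕ × ℕ} {i j : Fin 3} (hij : i ≠ j) (h1 : mem t i = mem t' i)
    (h2 : mem t j = mem t' j) : t = t' := by
  apply Prod.ext
  · fin_cases i <;> fin_cases j <;> simp_all [mem]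
  · fin_cases i <;> fin_cases j <;> simp_all [mem]

theorem mem_cong {t : ℕ × ℕ} {f : ℕ} {i j k : Fin 3} (hij : i ≠ j) (hjk : j ≠ k) (hik : i ≠ k)
    (h : f ∣ mem t i) :
    (mem t j : ZMod f) = (if i = 2 then (-1 : ZMod f) else 1) * (mem t k : ZMod f) := by
  have h0 : (mem t i : ZMod f) = 0 := (ZMod.natCast_eq_zero_iff _ _).mpr h
  fin_cases i <;> fin_cases j <;> fin_cases k <;> simp_all [mem]
  · exact eq_neg_of_add_eq_zero_left h0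
  · exact eq_neg_of_add_eq_zero_right h0

theorem sg_unit {f : ℕ} (i : Fin 3) : IsUnit (if i = 2 then (-1 : ZMod f) else 1) := by
  split_ifs
  · exact isUnit_one.neg
  · exact isUnit_one

/-- a level of flexibility -/
structure Lev where
  B : ℝ
  E : ℕ
  δ : ℝ

/-- admissible levels -/
def Lev.Adm (l : Lev) : Prop := 0 < l.B ∧ 1 ≤ l.E ∧ 0 < l.δ

/-- flexibility -/
def Lev.Flex (l : Lev) (X n : ℕ) : Prop := (X : ℝ) ^ l.B ≤ (hi ((X : ℝ) ^ l.δ) l.E n : ℝ)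

/-- number of factors of the other integers -/
noncomputable def Lev.n (l : Lev) : ℕ := 2 + ⌊1 / l.δ⌋₊

/-- size of the factors of the other integers -/
noncomputable def Lev.z (l : Lev) : ℝ := max (l.E : ℝ) l.B

/-- the conclusion of the counting theorem -/
def DetOk (n : ℕ) (z ε B η : ℝ) : Prop :=
    ∀ A : ℕ, ∃ C : ℝ, 0 < C ∧ ∀ X : ℕ, 1 ≤ X → ∀ r k : ℕ, 2 ≤ r → (r : ℝ) ≤ (X : ℝ) ^ η →
    (X : ℝ) ^ B ≤ (r : ℝ) ^ k → ∀ (κ : ZMod (r ^ k)) (S : Finset (ℕ × ℕ)), IsUnit κ →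
    (∀ t ∈ S, 1 ≤ t.1 ∧ t.1 ≤ X ^ A ∧ 1 ≤ t.2 ∧ t.2 ≤ X ^ A ∧ Nat.Coprime t.1 t.2 ∧
      Nat.Coprime t.1 r ∧ Nat.Coprime t.2 r ∧ NB n ((X : ℝ) ^ z) t.1 ∧ NB n ((X : ℝ) ^ z) t.2 ∧
      (t.1 : ZMod (r ^ k)) = κ * t.2) → (S.card : ℝ) ≤ C * (X : ℝ) ^ ε

/-- `l'` is much higher than `l` -/
def Step (ε : ℝ) (l l' : Lev) : Prop :=
  l'.Adm ∧ l.B ≤ l'.B ∧ l.E ≤ l'.E ∧ l'.δ ≤ l.δ ∧ ∃ Bd η : ℝ, 0 < Bd ∧ 0 < η ∧
    DetOk l.n l.z ε Bd η ∧ 2 * Bd ≤ l'.B ∧ 3 ≤ l'.B ∧ l'.B / (2 * l'.E) + l'.δ ≤ min η ε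

theorem step_exists (ε : ℝ) (hε : 0 < ε) (l : Lev) (hl : l.Adm) : ∃ l' : Lev, Step ε l l' := by
  obtain ⟨h1, h2, h3⟩ := hl
  have hz : 0 ≤ l.z := h1.le.trans (le_max_right _ _)
  obtain ⟨Bd, η, hBd, hη, hdet⟩ := det_count l.n l.z ε hz hε
  obtain ⟨B', hB'⟩ : ∃ B' : ℝ, B' = max l.B (max (2 * Bd) 3) := ⟨_, rfl⟩
  have hB'0 : 0 < B' := by rw [hB']; exact lt_of_lt_of_le h1 (le_max_left _ _)
  obtain ⟨m, hm⟩ : ∃ m : ℝ, m = min η ε := ⟨_, rfl⟩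
  have hm0 : 0 < m := by rw [hm]; exact lt_min hη hε
  obtain ⟨E', hE'⟩ : ∃ E' : ℕ, E' = max l.E ⌈B' / m⌉₊ := ⟨_, rfl⟩
  have hE'0 : 1 ≤ E' := by rw [hE']; exact h2.trans (le_max_left _ _)
  have hE'r : (0 : ℝ) < E' := by exact_mod_cast hE'0
  have hBE : B' / m ≤ E' := by
    calc B' / m ≤ (⌈B' / m⌉₊ : ℝ) := Nat.le_ceil _
      _ ≤ E' := by
          rw [hE']
          exact_mod_cast le_max_right _ _
  refine ⟨⟨B', E', min l.δ (m / 2)⟩, ⟨hB'0, hE'0, lt_min h3 (by positivity)⟩, ?_, ?_, ?_,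
    Bd, η, hBd, hη, hdet, ?_, ?_, ?_⟩
  · show l.B ≤ B'
    rw [hB']
    exact le_max_left _ _
  · show l.E ≤ E'
    rw [hE']
    exact le_max_left _ _
  · exact min_le_left _ _
  · show 2 * Bd ≤ B'
    rw [hB']
    exact (le_max_left _ _).trans (le_max_right _ _)
  · show 3 ≤ B'
    rw [hB']
    exact (le_max_right _ _).trans (le_max_right _ _)
  · show B' / (2 * E') + min l.δ (m / 2) ≤ min η ε
    rw [← hm]
    have e1 : B' / (2 * E') ≤ m / 2 := by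
      rw [div_le_div_iff₀ (by positivity) (by norm_num)]
      rw [div_le_iff₀ hm0] at hBE
      nlinarith
    have e2 := min_le_right l.δ (m / 2)
    linarith

/-- extraction of a power at a level -/
theorem Step.extract {ε : ℝ} {l l' : Lev} (h : Step ε l l') {X n : ℕ} (hX : 2 ≤ X) (hn : 1 ≤ n)
    (hf : l'.Flex X n) : ∃ r : ℕ, r ^ l'.E ∣ n ∧ 2 ≤ r ∧ (X : ℝ) ^ (l'.B / 2) ≤ (r : ℝ) ^ l'.E ∧
      (r : ℝ) ≤ (X : ℝ) ^ (l'.B / (2 * l'.E) + l'.δ) := by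
  obtain ⟨⟨a1, a2, a3⟩, -, -, -, Bd, η, b1, b2, b3, b4, b5, b6⟩ := h
  have hX0 : (0 : ℝ) < X := by exact_mod_cast (by omega : 0 < X)
  have hX1 : (1 : ℝ) < X := by exact_mod_cast (by omega : 1 < X)
  have hE0 : (0 : ℝ) < l'.E := by exact_mod_cast a2
  obtain ⟨W, hW⟩ : ∃ W : ℝ, W = (X : ℝ) ^ (l'.B / (2 * l'.E)) := ⟨_, rfl⟩
  have hW1 : 1 < W := by
    rw [hW]
    exact Real.one_lt_rpow hX1 (by positivity)
  have hWE : W ^ (2 * l'.E) = (X : ℝ) ^ l'.B := by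
    rw [hW, ← Real.rpow_natCast, ← Real.rpow_mul hX0.le]
    congr 1
    push_cast
    field_simp
  have hWE2 : W ^ l'.E = (X : ℝ) ^ (l'.B / 2) := by
    rw [hW, ← Real.rpow_natCast, ← Real.rpow_mul hX0.le]
    congr 1
    field_simp
  obtain ⟨r, hr1, hr2, hr3⟩ := Pool.Agent.Helper205_Exc.extract (y := (X : ℝ) ^ l'.δ) (W := W) (E := l'.E) hn a2
    (Real.one_le_rpow hX1.le a3.le) hW1.le (by rw [hWE]; exact hf)
  refine ⟨r, hr1, ?_, ?_, ?_⟩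
  · have : (1 : ℝ) < r := lt_of_lt_of_le hW1 hr2
    exact_mod_cast this
  · rw [← hWE2]
    exact pow_le_pow_left₀ (by linarith) hr2 _
  · refine hr3.trans (le_of_eq ?_)
    rw [hW, ← Real.rpow_add hX0]

/-- monotonicity -/
theorem Step.mono {ε : ℝ} {l l' : Lev} (h : Step ε l l') {X n : ℕ} (hX : 1 ≤ X)
    (hf : l'.Flex X n) : l.Flex X n := by
  obtain ⟨⟨a1, a2, a3⟩, c1, c2, c3, -⟩ := h
  have hX1 : (1 : ℝ) ≤ X := by exact_mod_cast hX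
  unfold Lev.Flex at hf ⊢
  calc (X : ℝ) ^ l.B ≤ (X : ℝ) ^ l'.B := Real.rpow_le_rpow_of_exponent_le hX1 c1
    _ ≤ _ := hf
    _ ≤ _ := by
        exact_mod_cast hi_mono (Real.rpow_le_rpow_of_exponent_le hX1 c3) c2

theorem Lev.nb {l : Lev} (hl : l.Adm) {X n : ℕ} (hX : 2 ≤ X) (hn : 1 ≤ n) (hr : rad n ≤ X)
    (h : ¬ l.Flex X n) : NB l.n ((X : ℝ) ^ l.z) n :=
  nb_of_not hX hl.2.2 hl.2.1 hn hr (not_le.mp h)

/-- counting by fibres -/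
theorem card_le_real {α β : Type} [DecidableEq β] (T : Finset α) (f : α → β) (S : Finset β)
    (b : ℝ) (hf : ∀ t ∈ T, f t ∈ S) (h : ∀ s ∈ S, ((T.filter fun t => f t = s).card : ℝ) ≤ b) :
    (T.card : ℝ) ≤ S.card * b := by
  rw [card_eq_sum_card_fiberwise (f := f) (t := S) (fun t ht => hf t ht)]
  push_cast
  calc ∑ s ∈ S, ((T.filter fun t => f t = s).card : ℝ) ≤ ∑ _s ∈ S, b := sum_le_sum h
    _ = S.card * b := by rw [sum_const, nsmul_eq_mul]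

end Pool.Agent.Helper205_Exc
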