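import Pool.Agent.Helper205_Exc.Coeff

/-!
Triples with few small primes of large exponent.
-/

set_option autoImplicit false

namespace Pool.Agent.Helper205_Exc

open Finset Pool.Agent.H785R2.ABC Pool.Agent.H705R2.ABC Pool.Agent.Y913.Nb

/-- the product of the primes `p ≤ y` with exponent at least `E` in `n` -/
noncomputable def fl (y : ℝ) (E n : ℕ) : ℕ :=
  ∏ p ∈ n.primeFactors.filter (fun p : ℕ => (p : ℝ) ≤ y ∧ E ≤ n.factorization p), p

theorem fl_pos (y : ℝ) (E n : ℕ) : 1 ≤ fl y E n := by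
  unfold fl
  exact Finset.prod_pos fun p hp => (Nat.prime_of_mem_primeFactors (mem_filter.mp hp).1).pos

theorem rad_hi (y : ℝ) (E n : ℕ) : rad (hi y E n) ≤ fl y E n := by
  apply Nat.le_of_dvd (fl_pos y E n)
  unfold rad
  apply Finset.prod_primes_dvd
  · intro p hp
    exact (Nat.prime_of_mem_primeFactors hp).prime
  · intro p hp
    have hpp := Nat.prime_of_mem_primeFactors hp
    have hd := Nat.dvd_of_mem_primeFactors hp
    unfold hi at hd
    obtain ⟨q, hq, hqd⟩ := (hpp.prime.dvd_finsetProd_iff _).mp hd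
    have h1 := hpp.dvd_of_dvd_pow hqd
    have h2 := (Nat.prime_dvd_prime_iff_eq hpp
      (Nat.prime_of_mem_primeFactors (mem_filter.mp hq).1)).mp h1
    rw [h2]
    unfold fl
    exact Finset.dvd_prod_of_mem (fun p : ℕ => p) hq

/-- every integer is its flexible part times a product of powers of few integers -/
theorem hi_split {X : ℕ} (hX : 2 ≤ X) {δ : ℝ} (hδ : 0 < δ) {E : ℕ} (hE : 1 ≤ E) {n : ℕ}
    (hn : 1 ≤ n) (hr : rad n ≤ X) :
    ∃ u, n = hi ((X : ℝ) ^ δ) E n * u ∧ NB (1 + ⌊1 / δ⌋₊) ((X ^ E : ℕ) : ℝ) u := by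
  classical
  have hX0 : (0 : ℝ) < X := by exact_mod_cast (by omega : 0 < X)
  have hX1 : (1 : ℝ) < X := by exact_mod_cast (by omega : 1 < X)
  obtain ⟨Y, hY⟩ : ∃ Y : ℝ, Y = ((X ^ E : ℕ) : ℝ) := ⟨_, rfl⟩
  obtain ⟨y, hy⟩ : ∃ y : ℝ, y = (X : ℝ) ^ δ := ⟨_, rfl⟩
  have hy0 : 0 < y := by rw [hy]; positivity
  have hYX : (X : ℝ) ≤ Y := by
    rw [hY]
    exact_mod_cast Nat.le_self_pow (by omega : E ≠ 0) X
  rw [← hY, ← hy]
  obtain ⟨S1, hS1⟩ : ∃ S, S = n.primeFactors.filter (fun p => n.factorization p < E) := ⟨_, rfl⟩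
  obtain ⟨S2, hS2⟩ : ∃ S, S = n.primeFactors.filter
    (fun p : ℕ => (p : ℝ) ≤ y ∧ E ≤ n.factorization p) := ⟨_, rfl⟩
  obtain ⟨S3, hS3⟩ : ∃ S, S = n.primeFactors.filter
    (fun p : ℕ => y < (p : ℝ) ∧ E ≤ n.factorization p) := ⟨_, rfl⟩
  have hp1 : ∀ p ∈ n.primeFactors, 1 ≤ p := fun p hp => (Nat.prime_of_mem_primeFactors hp).pos
  have hfac : n = (∏ p ∈ S1, p ^ n.factorization p) *
      (hi y E n * ∏ p ∈ S3, p ^ n.factorization p) := by
    have e1 : n = ∏ p ∈ n.primeFactors, p ^ n.factorization p := by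
      conv_lhs => rw [← Nat.prod_factorization_pow_eq_self (show n ≠ 0 by omega)]
      rw [Finsupp.prod, Nat.support_factorization]
    conv_lhs => rw [e1]
    rw [← Finset.prod_filter_mul_prod_filter_not n.primeFactors (fun p => n.factorization p < E),
      ← hS1]
    congr 1
    rw [← Finset.prod_filter_mul_prod_filter_not
      (n.primeFactors.filter (fun p => ¬ n.factorization p < E)) (fun p : ℕ => (p : ℝ) ≤ y)]
    unfold hi
    rw [← hS2]
    congr 1
    · rw [hS2, filter_filter]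
      apply prod_congr _ fun _ _ => rfl
      ext p
      simp only [mem_filter, not_lt]
      tauto
    · rw [hS3, filter_filter]
      apply prod_congr _ fun _ _ => rfl
      ext p
      simp only [mem_filter, not_lt, not_le]
      tauto
  have hlow : ∏ p ∈ S1, p ^ n.factorization p ≤ X ^ E := by
    calc ∏ p ∈ S1, p ^ n.factorization p ≤ ∏ p ∈ S1, p ^ E := by
          apply prod_le_prod' 
          intro p hp
          rw [hS1, mem_filter] at hp
          exact Nat.pow_le_pow_right (hp1 p hp.1) hp.2.le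
      _ = (∏ p ∈ S1, p) ^ E := prod_pow _ _ _
      _ ≤ (rad n) ^ E := by
          apply Nat.pow_le_pow_left
          unfold rad
          apply Finset.prod_le_prod_of_subset_of_one_le'
          · rw [hS1]
            exact filter_subset _ _
          · intro p hp _
            exact hp1 p hp
      _ ≤ X ^ E := Nat.pow_le_pow_left hr E
  have hlow1 : 0 < ∏ p ∈ S1, p ^ n.factorization p := by
    apply prod_pos
    intro p hp
    rw [hS1, mem_filter] at hp
    exact pow_pos (hp1 p hp.1) _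
  have hle : ∀ p ∈ n.primeFactors, (p : ℝ) ≤ X := by
    intro p hp
    have e1 : p ∣ rad n := dvd_prod_of_mem (fun p => p) hp
    have e2 : 0 < rad n := prod_pos fun p hp => hp1 p hp
    exact_mod_cast (Nat.le_of_dvd e2 e1).trans hr
  have hbig : NB S3.card Y (∏ p ∈ S3, p ^ n.factorization p) := by
    apply NB.of_type (ι := S3) (by rw [Fintype.card_coe]) (fun p => p.1)
      (fun p => n.factorization p.1)
    · intro p
      have hp : p.1 ∈ n.primeFactors := by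
        have h5 : ∀ q ∈ S3, q ∈ n.primeFactors := by
          intro q hq
          rw [hS3] at hq
          exact (mem_filter.mp hq).1
        exact h5 _ p.2
      exact ⟨hp1 _ hp, (hle _ hp).trans hYX⟩
    · exact (Finset.prod_coe_sort S3 (fun p => p ^ n.factorization p)).symm
  have hcard : S3.card ≤ ⌊1 / δ⌋₊ := by
    apply Nat.le_floor
    rw [le_div_iff₀ hδ]
    have e1 : y ^ S3.card ≤ X := by
      calc y ^ S3.card = ∏ _p ∈ S3, y := by rw [prod_const]
        _ ≤ ∏ p ∈ S3, (p : ℝ) := by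
            apply prod_le_prod
            · intro p _
              exact hy0.le
            · intro p hp
              rw [hS3, mem_filter] at hp
              exact hp.2.1.le
        _ = ((∏ p ∈ S3, p : ℕ) : ℝ) := by push_cast; rfl
        _ ≤ ((rad n : ℕ) : ℝ) := by
            apply Nat.cast_le.mpr
            unfold rad
            apply Finset.prod_le_prod_of_subset_of_one_le'
            · rw [hS3]
              exact filter_subset _ _
            · intro p hp _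
              exact hp1 p hp
        _ ≤ X := by exact_mod_cast hr
    rw [hy, ← Real.rpow_natCast, ← Real.rpow_mul hX0.le] at e1
    have e2 : (X : ℝ) ^ (δ * (S3.card : ℝ)) ≤ (X : ℝ) ^ (1 : ℝ) := by rwa [Real.rpow_one]
    have e3 := (Real.rpow_le_rpow_left_iff hX1).mp e2
    linarith
  have h3 := hbig.mul_base hlow1 (by rw [hY]; exact_mod_cast hlow)
  refine ⟨(∏ p ∈ S1, p ^ n.factorization p) * ∏ p ∈ S3, p ^ n.factorization p, ?_,
    h3.mono_n (hX1.le.trans hYX) (by omega)⟩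
  conv_lhs => rw [hfac]
  ring

/-- pairs of integers with a bounded product of radicals -/
theorem pairs_count (A : ℕ) (ε : ℝ) (hε : 0 < ε) : ∃ D : ℝ, 0 < D ∧ ∀ X : ℕ, 1 ≤ X → ∀ W : ℝ, 1 ≤ W →
    ((((Icc 1 (X ^ A)) ×ˢ (Icc 1 (X ^ A))).filter
      fun q : ℕ × ℕ => (rad q.1 : ℝ) * rad q.2 ≤ W).card : ℝ) ≤ D * (X : ℝ) ^ ε * W := by
  classical
  obtain ⟨e, he⟩ : ∃ e : ℝ, e = ε / (3 * (A + 1)) := ⟨_, rfl⟩
  have he0 : 0 < e := by rw [he]; positivity
  obtain ⟨D1, hD1, hA4⟩ := stmtA4' e he0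
  obtain ⟨D2, hD2, hlog⟩ := log_pow_le 1 e he0
  refine ⟨D2 * (2 * D1 ^ 2), by positivity, ?_⟩
  intro X hX W hW
  have hX0 : (0 : ℝ) < X := by exact_mod_cast hX
  have hX1 : (1 : ℝ) ≤ X := by exact_mod_cast hX
  have hXA : 1 ≤ X ^ A := Nat.one_le_pow _ _ hX
  obtain ⟨V, hV⟩ : ∃ V : ℝ, V = ((X ^ A : ℕ) : ℝ) ^ e := ⟨_, rfl⟩
  have hV0 : 0 < V := by
    rw [hV]
    have : (0 : ℝ) < ((X ^ A : ℕ) : ℝ) := by exact_mod_cast hXA
    positivity
  have hVX : V ≤ (X : ℝ) ^ (ε / 3) := by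
    rw [hV]
    push_cast
    rw [← Real.rpow_natCast, ← Real.rpow_mul hX0.le]
    apply Real.rpow_le_rpow_of_exponent_le hX1
    rw [he, mul_div_assoc', div_le_div_iff₀ (by positivity) (by norm_num)]
    nlinarith
  obtain ⟨P, hP⟩ : ∃ P, P = ((Icc 1 (X ^ A)) ×ˢ (Icc 1 (X ^ A))).filter
    fun q : ℕ × ℕ => (rad q.1 : ℝ) * rad q.2 ≤ W := ⟨_, rfl⟩
  rw [← hP]
  have h1 := card_le_real P (fun q => Nat.log 2 (rad q.1)) (range (Nat.log 2 (X ^ A) + 1))
    (2 * D1 ^ 2 * V ^ 2 * W) (fun q hq => by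
      rw [hP, mem_filter, mem_product, mem_Icc, mem_Icc] at hq
      have e1 : rad q.1 ≤ X ^ A := (rad_le_self hq.1.1.1).trans hq.1.1.2
      have e2 : Nat.log 2 (rad q.1) ≤ Nat.log 2 (X ^ A) := Nat.log_mono_right e1
      rw [mem_range]
      omega) (by
      intro k _
      have hsub : (P.filter fun q => Nat.log 2 (rad q.1) = k) ⊆
          ((Icc 1 (X ^ A)).filter fun d => (rad d : ℝ) ≤ (2 : ℝ) ^ (k + 1)) ×ˢ
          ((Icc 1 (X ^ A)).filter fun d => (rad d : ℝ) ≤ W / (2 : ℝ) ^ k) := by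
        intro q hq
        rw [mem_filter, hP, mem_filter, mem_product] at hq
        obtain ⟨⟨⟨g1, g2⟩, g3⟩, g4⟩ := hq
        have hr1 : rad q.1 ≠ 0 := by
          have := Pool.Agent.H785R2.ABC.rad_pos' q.1
          omega
        have e1 : 2 ^ k ≤ rad q.1 := by
          rw [← g4]
          exact Nat.pow_log_le_self 2 hr1
        have e2 : rad q.1 < 2 ^ (k + 1) := by
          rw [← g4]
          exact Nat.lt_pow_succ_log_self (by norm_num) _
        rw [mem_product, mem_filter, mem_filter]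
        refine ⟨⟨g1, by exact_mod_cast e2.le⟩, g2, ?_⟩
        rw [le_div_iff₀ (by positivity)]
        have e3 : (2 : ℝ) ^ k ≤ rad q.1 := by exact_mod_cast e1
        calc (rad q.2 : ℝ) * 2 ^ k ≤ (rad q.2 : ℝ) * rad q.1 :=
              mul_le_mul_of_nonneg_left e3 (Nat.cast_nonneg _)
          _ = (rad q.1 : ℝ) * rad q.2 := mul_comm _ _
          _ ≤ W := g3
      have e1 := card_le_card hsub
      rw [card_product] at e1
      have e2 := hA4 (X ^ A) hXA ((2 : ℝ) ^ (k + 1)) (by positivity)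
      have e3 := hA4 (X ^ A) hXA (W / (2 : ℝ) ^ k) (by positivity)
      rw [← hV] at e2 e3
      calc ((P.filter fun q => Nat.log 2 (rad q.1) = k).card : ℝ)
          ≤ ((((Icc 1 (X ^ A)).filter fun d => (rad d : ℝ) ≤ (2 : ℝ) ^ (k + 1)).card *
            ((Icc 1 (X ^ A)).filter fun d => (rad d : ℝ) ≤ W / (2 : ℝ) ^ k).card : ℕ) : ℝ) := by
            exact_mod_cast e1
        _ ≤ (D1 * V * (2 : ℝ) ^ (k + 1)) * (D1 * V * (W / (2 : ℝ) ^ k)) := by
            push_cast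
            exact mul_le_mul e2 e3 (Nat.cast_nonneg _) (by positivity)
        _ = 2 * D1 ^ 2 * V ^ 2 * W := by
            rw [pow_succ]
            field_simp)
  rw [card_range] at h1
  have h2 := hlog (X ^ A) hXA
  rw [pow_one, ← hV] at h2
  calc (P.card : ℝ) ≤ _ := h1
    _ ≤ (D2 * (X : ℝ) ^ (ε / 3)) * (2 * D1 ^ 2 * ((X : ℝ) ^ (ε / 3)) ^ 2 * W) := by
        apply mul_le_mul
        · exact h2.trans (mul_le_mul_of_nonneg_left hVX hD2.le)
        · apply mul_le_mul_of_nonneg_right _ (by linarith)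
          apply mul_le_mul_of_nonneg_left _ (by positivity)
          exact pow_le_pow_left₀ hV0.le hVX 2
        · positivity
        · positivity
    _ = D2 * (2 * D1 ^ 2) * ((X : ℝ) ^ (ε / 3)) ^ 3 * W := by ring
    _ = _ := by
        rw [← Real.rpow_natCast ((X : ℝ) ^ (ε / 3)), ← Real.rpow_mul hX0.le]
        congr 3
        push_cast
        ring

theorem height_ok (A : ℕ) (η : ℝ) (hη : 0 < η) : ∃ X0 : ℕ, ∀ X : ℕ, X0 ≤ X →
    (X : ℝ) ^ A ≤ Real.exp ((X : ℝ) ^ η) := by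
  obtain ⟨W, hW⟩ : ∃ W : ℝ, W = 2 * A / η := ⟨_, rfl⟩
  have hW0 : 0 ≤ W := by rw [hW]; positivity
  refine ⟨max 1 ⌈W ^ (2 / η)⌉₊, ?_⟩
  intro X hX
  have hX1 : 1 ≤ X := (le_max_left _ _).trans hX
  have hX0 : (0 : ℝ) < X := by exact_mod_cast hX1
  have hXW : W ^ (2 / η) ≤ X := by
    calc W ^ (2 / η) ≤ (⌈W ^ (2 / η)⌉₊ : ℝ) := Nat.le_ceil _
      _ ≤ X := by exact_mod_cast (le_max_right _ _).trans hX
  have h1 : W ≤ (X : ℝ) ^ (η / 2) := by
    calc W = (W ^ (2 / η)) ^ (η / 2) := by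
          rw [← Real.rpow_mul hW0]
          have : 2 / η * (η / 2) = 1 := by field_simp
          rw [this, Real.rpow_one]
      _ ≤ _ := Real.rpow_le_rpow (by positivity) hXW (by positivity)
  have h2 : Real.log X ≤ (X : ℝ) ^ (η / 2) / (η / 2) := Real.log_le_rpow_div hX0.le (by positivity)
  have h3 : A * Real.log X ≤ (X : ℝ) ^ η := by
    calc A * Real.log X ≤ A * ((X : ℝ) ^ (η / 2) / (η / 2)) :=
          mul_le_mul_of_nonneg_left h2 (Nat.cast_nonneg _)
      _ = W * (X : ℝ) ^ (η / 2) := by rw [hW]; field_simp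
      _ ≤ (X : ℝ) ^ (η / 2) * (X : ℝ) ^ (η / 2) := mul_le_mul_of_nonneg_right h1 (by positivity)
      _ = (X : ℝ) ^ η := by
          rw [← Real.rpow_add hX0]
          congr 1
          ring
  calc (X : ℝ) ^ A = Real.exp (A * Real.log X) := by
        rw [mul_comm, Real.exp_mul, Real.exp_log hX0, Real.rpow_natCast]
    _ ≤ _ := Real.exp_le_exp.mpr h3

/-- **triples with few small primes of exponent `≥ E`** -/
theorem smooth_main (δ ε : ℝ) (hδ : 0 < δ) (hε : 0 < ε) (E : ℕ) (hE : 1 ≤ E) : ∃ M : ℕ, ∀ A : ℕ,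
    ∃ C : ℝ, 0 < C ∧ ∀ X Y : ℕ, 2 ≤ X → 1 ≤ Y → ∀ T : Finset (ℕ × ℕ),
    (∀ t ∈ T, Ok t ∧ (∀ m, rad (mem t m) ≤ X) ∧ X ^ M ≤ t.1 + t.2 ∧ t.1 + t.2 ≤ X ^ A ∧
      fl ((X : ℝ) ^ δ) E (mem t 0) * fl ((X : ℝ) ^ δ) E (mem t 1) * fl ((X : ℝ) ^ δ) E (mem t 2) ≤ Y) →
    (T.card : ℝ) ≤ C * (X : ℝ) ^ ε * (Y : ℝ) ^ ((2 : ℝ) / 3) := by
  classical
  have hE0 : (0 : ℝ) < E := by exact_mod_cast hE
  obtain ⟨M0, η, C0, hη, hC0, hmain⟩ := coeff_main (1 + ⌊1 / δ⌋₊) (ε / (2 * E)) (by positivity)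
  refine ⟨E * M0, ?_⟩
  intro A
  obtain ⟨D, hD, hpairs⟩ := pairs_count A (ε / 2) (by positivity)
  obtain ⟨X0, hX0⟩ := height_ok A η hη
  refine ⟨3 * (C0 * D) + ((X0 ^ A + 1 : ℕ) : ℝ) ^ 2, by positivity, ?_⟩
  intro X Y hX hY T hT
  have hXp : (0 : ℝ) < X := by exact_mod_cast (by omega : 0 < X)
  have hX1 : (1 : ℝ) ≤ X := by exact_mod_cast (by omega : 1 ≤ X)
  have hY1 : (1 : ℝ) ≤ Y := by exact_mod_cast hY
  obtain ⟨W, hW⟩ : ∃ W : ℝ, W = (Y : ℝ) ^ ((2 : ℝ) / 3) := ⟨_, rfl⟩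
  have hW1 : 1 ≤ W := by rw [hW]; exact Real.one_le_rpow hY1 (by norm_num)
  rw [← hW]
  have hXε1 : (1 : ℝ) ≤ (X : ℝ) ^ ε := Real.one_le_rpow hX1 hε.le
  -- small X
  rcases Nat.lt_or_ge X X0 with hlt | hge
  · have h1 : T ⊆ (range (X0 ^ A + 1)) ×ˢ (range (X0 ^ A + 1)) := by
      intro t ht
      obtain ⟨-, -, -, h4, -⟩ := hT t ht
      have h5 : X ^ A ≤ X0 ^ A := Nat.pow_le_pow_left hlt.le A
      rw [mem_product, mem_range, mem_range]
      omega
    have h2 := card_le_card h1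
    rw [card_product, card_range] at h2
    calc (T.card : ℝ) ≤ (((X0 ^ A + 1) * (X0 ^ A + 1) : ℕ) : ℝ) := by exact_mod_cast h2
      _ = ((X0 ^ A + 1 : ℕ) : ℝ) ^ 2 := by push_cast; ring
      _ ≤ 3 * (C0 * D) + ((X0 ^ A + 1 : ℕ) : ℝ) ^ 2 := by
          have : 0 < C0 * D := by positivity
          linarith
      _ ≤ (3 * (C0 * D) + ((X0 ^ A + 1 : ℕ) : ℝ) ^ 2) * (X : ℝ) ^ ε :=
          le_mul_of_one_le_right (by positivity) hXε1
      _ ≤ _ := le_mul_of_one_le_right (by positivity) hW1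
  -- large X
  obtain ⟨Z, hZ⟩ : ∃ Z : ℕ, Z = X ^ E := ⟨_, rfl⟩
  have hXZ : X ≤ Z := by rw [hZ]; exact Nat.le_self_pow (by omega) X
  have hZ2 : 2 ≤ Z := hX.trans hXZ
  have hXZr : (X : ℝ) ≤ Z := by exact_mod_cast hXZ
  have hZr : (Z : ℝ) ^ (ε / (2 * E)) = (X : ℝ) ^ (ε / 2) := by
    rw [hZ]
    push_cast
    rw [← Real.rpow_natCast, ← Real.rpow_mul hXp.le]
    congr 1
    field_simp
  obtain ⟨f, hf⟩ : ∃ f : ℕ × ℕ → Fin 3 → ℕ, f = fun t i => fl ((X : ℝ) ^ δ) E (mem t i) := ⟨_, rfl⟩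
  have hmax : ∀ t : ℕ × ℕ, ∃ m : Fin 3, ∀ i, f t i ≤ f t m := by
    intro t
    obtain ⟨m, -, hm⟩ := exists_max_image (univ : Finset (Fin 3)) (f t) ⟨0, mem_univ _⟩
    exact ⟨m, fun i => hm i (mem_univ _)⟩
  choose g hg using hmax
  have h1 := card_le_real T g Finset.univ (C0 * D * ((X : ℝ) ^ ε * W)) (fun t _ => mem_univ _) (by
    intro m _
    obtain ⟨p, q, hmp, hpq, hmq, hprod⟩ := others m
    obtain ⟨T1, hT1⟩ : ∃ T1, T1 = T.filter fun t => g t = m := ⟨_, rfl⟩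
    rw [← hT1]
    have hsub1 : T1 ⊆ T := by rw [hT1]; exact filter_subset _ _
    have h2 := card_le_real T1 (fun t => (hi ((X : ℝ) ^ δ) E (mem t q), hi ((X : ℝ) ^ δ) E (mem t p)))
      (((Icc 1 (X ^ A)) ×ˢ (Icc 1 (X ^ A))).filter fun q : ℕ × ℕ => (rad q.1 : ℝ) * rad q.2 ≤ W)
      (C0 * (X : ℝ) ^ (ε / 2)) (fun t ht => by
        obtain ⟨hok, hrad, hM, hA, hfY⟩ := hT t (hsub1 ht)
        have hle : ∀ i, hi ((X : ℝ) ^ δ) E (mem t i) ∈ Icc 1 (X ^ A) := by
          intro i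
          have e1 := hi_dvd ((X : ℝ) ^ δ) E (mem t i) (mem_pos hok i)
          rw [mem_Icc]
          exact ⟨Nat.pos_of_dvd_of_pos e1 (mem_pos hok i),
            (Nat.le_of_dvd (mem_pos hok i) e1).trans ((mem_le t i).trans hA)⟩
        rw [mem_filter, mem_product]
        refine ⟨⟨hle q, hle p⟩, ?_⟩
        have e1 : f t 0 * f t 1 * f t 2 ≤ Y := by
          rw [hf]
          exact hfY
        have hgm : g t = m := by
          rw [hT1] at ht
          exact (mem_filter.mp ht).2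
        have e2 : ∀ i, f t i ≤ f t m := by
          rw [← hgm]
          exact hg t
        have e3 : f t m * (f t p * f t q) ≤ Y := by
          have e4 := hprod (f t)
          have e5 : 0 < f t m := by rw [hf]; exact fl_pos _ _ _
          have e6 : f t m * (f t 0 * f t 1 * f t 2) = f t m * (f t m * (f t p * f t q)) := by
            rw [e4]
            ring
          rw [← Nat.eq_of_mul_eq_mul_left e5 e6]
          exact e1
        have e4 : (f t p * f t q) ^ 3 ≤ Y ^ 2 := by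
          calc (f t p * f t q) ^ 3 = (f t p * f t q) * (f t p * f t q) ^ 2 := by ring
            _ ≤ (f t m * f t m) * (f t p * f t q) ^ 2 :=
                Nat.mul_le_mul_right _ (Nat.mul_le_mul (e2 p) (e2 q))
            _ = (f t m * (f t p * f t q)) ^ 2 := by ring
            _ ≤ Y ^ 2 := Nat.pow_le_pow_left e3 2
        have e5 : ((f t p * f t q : ℕ) : ℝ) ≤ W := by
          have e6 : ((f t p * f t q : ℕ) : ℝ) ^ 3 ≤ W ^ 3 := by
            calc ((f t p * f t q : ℕ) : ℝ) ^ 3 ≤ (Y : ℝ) ^ 2 := by exact_mod_cast e4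
              _ = W ^ 3 := by
                  rw [hW, ← Real.rpow_natCast ((Y : ℝ) ^ ((2 : ℝ) / 3)),
                    ← Real.rpow_mul (by linarith), ← Real.rpow_natCast]
                  norm_num
          exact (pow_le_pow_iff_left₀ (Nat.cast_nonneg _) (by linarith) (by norm_num)).mp e6
        refine le_trans ?_ e5
        have e6 : rad (hi ((X : ℝ) ^ δ) E (mem t q)) * rad (hi ((X : ℝ) ^ δ) E (mem t p)) ≤
            f t p * f t q := by
          rw [hf, mul_comm (fl _ _ (mem t p))]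
          exact Nat.mul_le_mul (rad_hi _ _ _) (rad_hi _ _ _)
        exact_mod_cast e6) (by
        rintro ⟨a, b⟩ _
        obtain ⟨T2, hT2⟩ : ∃ T2, T2 = T1.filter fun t =>
          (hi ((X : ℝ) ^ δ) E (mem t q), hi ((X : ℝ) ^ δ) E (mem t p)) = (a, b) := ⟨_, rfl⟩
        rw [← hT2, ← hZr]
        apply hmain Z hZ2 T2 m p q a b hmp hpq hmq
        intro t ht
        rw [hT2, mem_filter] at ht
        obtain ⟨ht1, ht2⟩ := ht
        have ha : hi ((X : ℝ) ^ δ) E (mem t q) = a := congrArg Prod.fst ht2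
        have hb : hi ((X : ℝ) ^ δ) E (mem t p) = b := congrArg Prod.snd ht2
        obtain ⟨hok, hrad, hM, hA, hfY⟩ := hT t (hsub1 ht1)
        obtain ⟨u, hu1, hu2⟩ := hi_split hX hδ hE (mem_pos hok q) (hrad q)
        obtain ⟨v, hv1, hv2⟩ := hi_split hX hδ hE (mem_pos hok p) (hrad p)
        rw [ha] at hu1
        rw [hb] at hv1
        rw [← hZ] at hu2 hv2
        refine ⟨hok, fun i => (hrad i).trans hXZ, ⟨u, hu1, hu2⟩, ⟨v, hv1, hv2⟩, ?_, ?_⟩
        · calc ((t.1 + t.2 : ℕ) : ℝ) ≤ ((X ^ A : ℕ) : ℝ) := by exact_mod_cast hA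
            _ = (X : ℝ) ^ A := by push_cast; rfl
            _ ≤ Real.exp ((X : ℝ) ^ η) := hX0 X hge
            _ ≤ Real.exp ((Z : ℝ) ^ η) :=
                Real.exp_le_exp.mpr (Real.rpow_le_rpow hXp.le hXZr hη.le)
        · rw [hZ, ← pow_mul]
          exact hM)
    have h3 := hpairs X (by omega) W hW1
    calc (T1.card : ℝ) ≤ _ := h2
      _ ≤ (D * (X : ℝ) ^ (ε / 2) * W) * (C0 * (X : ℝ) ^ (ε / 2)) :=
          mul_le_mul_of_nonneg_right h3 (by positivity)
      _ = C0 * D * (((X : ℝ) ^ (ε / 2) * (X : ℝ) ^ (ε / 2)) * W) := by ring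
      _ = _ := by
          rw [← Real.rpow_add hXp]
          congr 4
          ring)
  rw [card_univ, Fintype.card_fin] at h1
  calc (T.card : ℝ) ≤ _ := h1
    _ = 3 * (C0 * D) * ((X : ℝ) ^ ε * W) := by push_cast; ring
    _ ≤ (3 * (C0 * D) + ((X0 ^ A + 1 : ℕ) : ℝ) ^ 2) * ((X : ℝ) ^ ε * W) := by
        apply mul_le_mul_of_nonneg_right _ (by positivity)
        have : 0 ≤ ((X0 ^ A + 1 : ℕ) : ℝ) ^ 2 := by positivity
        linarith
    _ = _ := by ring

end Pool.Agent.Helper205_Exc
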