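import Pool.Agent.Helper205_Exc.Smooth

/-!
Triples with few small primes of large exponent: all radicals.
-/

set_option autoImplicit false

namespace Pool.Agent.Helper205_Exc

open Finset Pool.Agent.H785R2.ABC Pool.Agent.H705R2.ABC Pool.Agent.Y913.Nb

theorem fl_mono {y y' : ℝ} (hy : y' ≤ y) (E n : ℕ) : fl y' E n ≤ fl y E n := by
  unfold fl
  apply Finset.prod_le_prod_of_subset_of_one_le'
  · intro p hp
    rw [mem_filter] at hp ⊢
    exact ⟨hp.1, hp.2.1.trans hy, hp.2.2⟩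
  · intro p hp _
    exact (Nat.prime_of_mem_primeFactors (mem_filter.mp hp).1).pos

theorem rad_mem_le {t : ℕ × ℕ} (ht : Ok t) (i : Fin 3) :
    rad (mem t i) ≤ rad (t.1 * t.2 * (t.1 + t.2)) := by
  rw [rad_mul3 ht]
  have p0 := Pool.Agent.H785R2.ABC.rad_pos' (mem t 0)
  have p1 := Pool.Agent.H785R2.ABC.rad_pos' (mem t 1)
  have p2 := Pool.Agent.H785R2.ABC.rad_pos' (mem t 2)
  have : i = 0 ∨ i = 1 ∨ i = 2 := by omega
  rcases this with rfl | rfl | rfl
  · rw [mul_assoc]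
    exact Nat.le_mul_of_pos_right _ (Nat.mul_pos p1 p2)
  · rw [mul_comm (rad (mem t 0)), mul_assoc]
    exact Nat.le_mul_of_pos_right _ (Nat.mul_pos p0 p2)
  · exact Nat.le_mul_of_pos_left _ (Nat.mul_pos p0 p1)

/-- **exceptions with few small primes of exponent `≥ E`** -/
theorem smooth_final (δ ε : ℝ) (hδ : 0 < δ) (hε : 0 < ε) (E : ℕ) (hE : 1 ≤ E) : ∃ M : ℕ, ∀ A : ℕ,
    ∃ C : ℝ, 0 < C ∧ ∀ X Y : ℕ, 1 ≤ X → 1 ≤ Y → ∀ T : Finset (ℕ × ℕ),
    (∀ t ∈ T, Ok t ∧ rad (t.1 * t.2 * (t.1 + t.2)) ≤ X ∧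
      rad (t.1 * t.2 * (t.1 + t.2)) ^ M ≤ t.1 + t.2 ∧ t.1 + t.2 ≤ X ^ A ∧
      fl ((X : ℝ) ^ δ) E (mem t 0) * fl ((X : ℝ) ^ δ) E (mem t 1) * fl ((X : ℝ) ^ δ) E (mem t 2) ≤ Y) →
    (T.card : ℝ) ≤ C * (X : ℝ) ^ ε * (Y : ℝ) ^ ((2 : ℝ) / 3) := by
  classical
  obtain ⟨M0, hM0⟩ := smooth_main (δ / 2) (ε / 4) (by positivity) (by positivity) E hE
  refine ⟨2 * M0, ?_⟩
  intro A
  obtain ⟨Q, hQ⟩ : ∃ Q : ℕ, Q = ⌈2 / ε⌉₊ + 1 := ⟨_, rfl⟩
  have hQ0 : (0 : ℝ) < Q := by
    rw [hQ]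
    positivity
  have hQε : 1 / (Q : ℝ) ≤ ε / 2 := by
    have h1 : 2 / ε ≤ Q := by
      rw [hQ]
      push_cast
      have := Nat.le_ceil (2 / ε)
      linarith
    rw [div_le_div_iff₀ hQ0 (by norm_num)]
    rw [div_le_iff₀ hε] at h1
    linarith
  obtain ⟨C1, hC1, hcell⟩ := hM0 (Q * A)
  obtain ⟨D, hD, hpairs⟩ := pairs_count A (ε / 2) (by positivity)
  obtain ⟨D2, hD2, hlog⟩ := log_pow_le 1 (ε / 2) (by positivity)
  refine ⟨D + D2 * C1, by positivity, ?_⟩
  intro X Y hX hY T hT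
  have hX0 : (0 : ℝ) < X := by exact_mod_cast hX
  have hX1 : (1 : ℝ) ≤ X := by exact_mod_cast hX
  have hY1 : (1 : ℝ) ≤ Y := by exact_mod_cast hY
  obtain ⟨W, hW⟩ : ∃ W : ℝ, W = (Y : ℝ) ^ ((2 : ℝ) / 3) := ⟨_, rfl⟩
  have hW1 : 1 ≤ W := by rw [hW]; exact Real.one_le_rpow hY1 (by norm_num)
  rw [← hW]
  obtain ⟨s, hs⟩ : ∃ s : ℕ × ℕ → ℕ, s = fun t => rad (t.1 * t.2 * (t.1 + t.2)) := ⟨_, rfl⟩
  have hs2 : ∀ t ∈ T, 2 ≤ s t := by
    intro t ht
    obtain ⟨hok, -, -, -, -⟩ := hT t ht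
    have h1 := rad_mem_le hok 2
    have h2 : 2 ≤ mem t 2 := by
      show 2 ≤ t.1 + t.2
      have := hok.1
      have := hok.2.1
      omega
    have h3 : 2 ≤ rad (mem t 2) := by
      obtain ⟨p, hp, hpd⟩ := Nat.exists_prime_and_dvd (by omega : mem t 2 ≠ 1)
      have h4 : p ∣ rad (mem t 2) := by
        unfold rad
        apply Finset.dvd_prod_of_mem (fun q : ℕ => q)
        rw [Nat.mem_primeFactors]
        exact ⟨hp, hpd, by omega⟩
      exact hp.two_le.trans (Nat.le_of_dvd (Pool.Agent.H785R2.ABC.rad_pos' _) h4)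
    rw [hs]
    exact h3.trans h1
  obtain ⟨T1, hT1⟩ : ∃ T1, T1 = T.filter fun t => s t ^ Q < X := ⟨_, rfl⟩
  obtain ⟨T2, hT2⟩ : ∃ T2, T2 = T.filter fun t => ¬ s t ^ Q < X := ⟨_, rfl⟩
  have hsub1 : T1 ⊆ T := by rw [hT1]; exact filter_subset _ _
  have hsub2 : T2 ⊆ T := by rw [hT2]; exact filter_subset _ _
  have hcard : T.card = T1.card + T2.card := by
    rw [hT1, hT2, card_filter_add_card_filter_not]
  -- small radicals
  have h1 : (T1.card : ℝ) ≤ D * ((X : ℝ) ^ ε * W) := by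
    have hXQ : (1 : ℝ) ≤ (X : ℝ) ^ (1 / (Q : ℝ)) := Real.one_le_rpow hX1 (by positivity)
    have h2 : T1 ⊆ ((Icc 1 (X ^ A)) ×ˢ (Icc 1 (X ^ A))).filter
        fun q : ℕ × ℕ => (rad q.1 : ℝ) * rad q.2 ≤ (X : ℝ) ^ (1 / (Q : ℝ)) := by
      intro t ht
      obtain ⟨hok, h3, h4, h5, h6⟩ := hT t (hsub1 ht)
      rw [hT1, mem_filter] at ht
      rw [mem_filter, mem_product, mem_Icc, mem_Icc]
      refine ⟨⟨⟨hok.1, by omega⟩, ⟨hok.2.1, by omega⟩⟩, ?_⟩
      have h7 : rad t.1 * rad t.2 ≤ s t := by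
        rw [hs]
        show rad t.1 * rad t.2 ≤ rad (t.1 * t.2 * (t.1 + t.2))
        rw [rad_mul3 hok]
        exact Nat.le_mul_of_pos_right _ (Pool.Agent.H785R2.ABC.rad_pos' _)
      have h8 : ((s t : ℕ) : ℝ) ≤ (X : ℝ) ^ (1 / (Q : ℝ)) := by
        have h9 : ((s t : ℕ) : ℝ) ^ Q ≤ X := by exact_mod_cast ht.2.le
        calc ((s t : ℕ) : ℝ) = (((s t : ℕ) : ℝ) ^ Q) ^ (1 / (Q : ℝ)) := by
              rw [← Real.rpow_natCast, ← Real.rpow_mul (Nat.cast_nonneg _)]
              have : (Q : ℝ) * (1 / Q) = 1 := by field_simp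
              rw [this, Real.rpow_one]
          _ ≤ _ := Real.rpow_le_rpow (by positivity) h9 (by positivity)
      calc (rad t.1 : ℝ) * rad t.2 = ((rad t.1 * rad t.2 : ℕ) : ℝ) := by push_cast; rfl
        _ ≤ ((s t : ℕ) : ℝ) := by exact_mod_cast h7
        _ ≤ _ := h8
    have h3 := hpairs X hX _ hXQ
    calc (T1.card : ℝ) ≤ _ := by exact_mod_cast card_le_card h2
      _ ≤ _ := h3
      _ = D * ((X : ℝ) ^ (ε / 2) * (X : ℝ) ^ (1 / (Q : ℝ))) := by ring
      _ ≤ D * ((X : ℝ) ^ (ε / 2) * (X : ℝ) ^ (ε / 2)) := by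
          apply mul_le_mul_of_nonneg_left _ hD.le
          apply mul_le_mul_of_nonneg_left _ (by positivity)
          exact Real.rpow_le_rpow_of_exponent_le hX1 hQε
      _ = D * ((X : ℝ) ^ ε * 1) := by
          rw [← Real.rpow_add hX0, mul_one]
          congr 2
          ring
      _ ≤ D * ((X : ℝ) ^ ε * W) := by gcongr
  -- large radicals
  have h2 : (T2.card : ℝ) ≤ D2 * C1 * ((X : ℝ) ^ ε * W) := by
    have h3 := card_le_real T2 (fun t => Nat.log 2 (s t)) (range (Nat.log 2 X + 1))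
      (C1 * ((X : ℝ) ^ (ε / 2) * W)) (fun t ht => by
        have h4 : s t ≤ X := by
          rw [hs]
          exact (hT t (hsub2 ht)).2.1
        have h5 : Nat.log 2 (s t) ≤ Nat.log 2 X := Nat.log_mono_right h4
        rw [mem_range]
        omega) (by
        intro k _
        obtain ⟨T', hT'⟩ : ∃ T', T' = T2.filter fun t => Nat.log 2 (s t) = k := ⟨_, rfl⟩
        rw [← hT']
        rcases T'.eq_empty_or_nonempty with h0 | ⟨t0, ht0⟩
        · rw [h0, card_empty, Nat.cast_zero]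
          positivity
        have hmem' : ∀ t ∈ T', t ∈ T ∧ X ≤ s t ^ Q ∧ 2 ^ k ≤ s t ∧ s t < 2 ^ (k + 1) := by
          intro t ht
          rw [hT', mem_filter, hT2, mem_filter] at ht
          obtain ⟨⟨g1, g2⟩, g3⟩ := ht
          have g4 := hs2 t g1
          refine ⟨g1, not_lt.mp g2, ?_, ?_⟩
          · rw [← g3]
            exact Nat.pow_log_le_self 2 (by omega)
          · rw [← g3]
            exact Nat.lt_pow_succ_log_self (by norm_num) _
        have hk : 1 ≤ k := by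
          obtain ⟨g1, g2, g3, g4⟩ := hmem' t0 ht0
          have g5 := hs2 t0 g1
          rcases Nat.eq_zero_or_pos k with h | h
          · rw [h] at g4
            norm_num at g4
            omega
          · exact h
        obtain ⟨X', hX'⟩ : ∃ X' : ℕ, X' = (2 ^ k) ^ 2 := ⟨_, rfl⟩
        have h2k : 2 ≤ 2 ^ k := Nat.le_self_pow (by omega) 2
        have hX'2 : 2 ≤ X' := by
          rw [hX']
          exact h2k.trans (Nat.le_self_pow (by norm_num) _)
        have hlt : 2 ^ (k + 1) ≤ X' := by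
          rw [hX', sq, pow_succ]
          exact Nat.mul_le_mul_left _ h2k
        have hkX : 2 ^ k ≤ X := by
          obtain ⟨g1, g2, g3, g4⟩ := hmem' t0 ht0
          refine g3.trans ?_
          rw [hs]
          exact (hT t0 g1).2.1
        have h4 := hcell X' Y hX'2 hY T' (by
          intro t ht
          obtain ⟨g1, g2, g3, g4⟩ := hmem' t ht
          obtain ⟨hok, e1, e2, e3, e4⟩ := hT t g1
          refine ⟨hok, ?_, ?_, ?_, ?_⟩
          · intro m
            refine (rad_mem_le hok m).trans ?_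
            have : s t ≤ X' := g4.le.trans hlt
            rw [hs] at this
            exact this
          · calc X' ^ M0 = (2 ^ k) ^ (2 * M0) := by rw [hX', ← pow_mul]
              _ ≤ s t ^ (2 * M0) := Nat.pow_le_pow_left g3 _
              _ ≤ _ := by
                  rw [hs]
                  exact e2
          · calc t.1 + t.2 ≤ X ^ A := e3
              _ ≤ (s t ^ Q) ^ A := Nat.pow_le_pow_left g2 A
              _ = s t ^ (Q * A) := by rw [← pow_mul]
              _ ≤ X' ^ (Q * A) := Nat.pow_le_pow_left (g4.le.trans hlt) _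
          · refine le_trans ?_ e4
            have hy : ((X' : ℕ) : ℝ) ^ (δ / 2) ≤ (X : ℝ) ^ δ := by
              have e5 : ((X' : ℕ) : ℝ) = ((2 ^ k : ℕ) : ℝ) ^ (2 : ℝ) := by
                rw [hX']
                push_cast
                norm_num
              rw [e5, ← Real.rpow_mul (Nat.cast_nonneg _)]
              have e6 : (2 : ℝ) * (δ / 2) = δ := by ring
              rw [e6]
              exact Real.rpow_le_rpow (Nat.cast_nonneg _) (by exact_mod_cast hkX) hδ.le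
            exact Nat.mul_le_mul (Nat.mul_le_mul (fl_mono hy _ _) (fl_mono hy _ _)) (fl_mono hy _ _))
        rw [← hW] at h4
        refine h4.trans ?_
        rw [mul_assoc]
        apply mul_le_mul_of_nonneg_left _ hC1.le
        apply mul_le_mul_of_nonneg_right _ (by linarith)
        have e5 : ((X' : ℕ) : ℝ) = ((2 ^ k : ℕ) : ℝ) ^ (2 : ℝ) := by
          rw [hX']
          push_cast
          norm_num
        rw [e5, ← Real.rpow_mul (Nat.cast_nonneg _)]
        have e6 : (2 : ℝ) * (ε / 4) = ε / 2 := by ring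
        rw [e6]
        exact Real.rpow_le_rpow (Nat.cast_nonneg _) (by exact_mod_cast hkX) (by positivity))
    rw [card_range] at h3
    have h4 := hlog X hX
    rw [pow_one] at h4
    calc (T2.card : ℝ) ≤ _ := h3
      _ ≤ (D2 * (X : ℝ) ^ (ε / 2)) * (C1 * ((X : ℝ) ^ (ε / 2) * W)) :=
          mul_le_mul_of_nonneg_right h4 (by positivity)
      _ = D2 * C1 * (((X : ℝ) ^ (ε / 2) * (X : ℝ) ^ (ε / 2)) * W) := by ring
      _ = _ := by
          rw [← Real.rpow_add hX0]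
          congr 3
          ring
  rw [hcard]
  push_cast
  linarith

end Pool.Agent.Helper205_Exc
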