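import Pool.Agent.Helper205_Exc.Sys
import Pool.Agent.Helper205_Exc.Cell

/-!
The bound `(∏ R i) ^ (1 / q)` for the families of `q` members.
-/

set_option autoImplicit false

namespace Pool.Agent.Helper205_Exc

open Finset Pool.Agent.H785R2.ABC Pool.Agent.Y913.Nb

variable {α : Type} {q : ℕ}

theorem exists_third (hq : 3 ≤ q) (j k : Fin q) : ∃ i : Fin q, i ≠ j ∧ i ≠ k := by
  classical
  have h1 : ({j, k} : Finset (Fin q)).card < (univ : Finset (Fin q)).card := by
    rw [card_univ, Fintype.card_fin]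
    exact lt_of_le_of_lt (card_le_two) (by omega)
  obtain ⟨i, -, hi⟩ := exists_mem_notMem_of_card_lt_card h1
  rw [mem_insert, mem_singleton, not_or] at hi
  exact ⟨i, hi.1, hi.2⟩

theorem prod_ge {R : Fin q → ℕ} (a b : Fin q) (hab : a ≠ b) (h : ∀ i, i ≠ a → R b ≤ R i) :
    R a * R b ^ (q - 1) ≤ ∏ i, R i := by
  classical
  rw [← mul_prod_erase univ R (mem_univ a)]
  apply Nat.mul_le_mul_left
  have h1 : (univ.erase a : Finset (Fin q)).card = q - 1 := by
    rw [card_erase_of_mem (mem_univ a), card_univ, Fintype.card_fin]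
  calc R b ^ (q - 1) = ∏ _i ∈ univ.erase a, R b := by rw [prod_const, h1]
    _ ≤ ∏ i ∈ univ.erase a, R i := by
        apply prod_le_prod' 
        intro i hi
        exact h i (ne_of_mem_erase hi)

theorem rpow_le_root {x y : ℝ} (hq : 1 ≤ q) (hx : 0 ≤ x) (h : x ^ q ≤ y) :
    x ≤ y ^ ((1 : ℝ) / q) := by
  have hq0 : (0 : ℝ) < q := by exact_mod_cast hq
  calc x = (x ^ q) ^ ((1 : ℝ) / q) := by
        rw [← Real.rpow_natCast, ← Real.rpow_mul hx, mul_one_div_cancel hq0.ne', Real.rpow_one]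
    _ ≤ y ^ ((1 : ℝ) / q) := Real.rpow_le_rpow (by positivity) h (by positivity)

theorem root_min {R : Fin q → ℕ} (hq : 1 ≤ q) (b : Fin q) (h : ∀ i, R b ≤ R i) :
    (R b : ℝ) ≤ ((∏ i, R i : ℕ) : ℝ) ^ ((1 : ℝ) / q) := by
  apply rpow_le_root hq (Nat.cast_nonneg _)
  have h1 : R b ^ q ≤ ∏ i, R i := by
    calc R b ^ q = ∏ _i : Fin q, R b := by rw [prod_const, card_univ, Fintype.card_fin]
      _ ≤ ∏ i, R i := prod_le_prod' fun i _ => h i
  exact_mod_cast h1

theorem root_two {R : Fin q → ℕ} (hq : 2 ≤ q) (a b : Fin q) (hab : a ≠ b)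
    (h1 : R a ≤ R b) (h : ∀ i, i ≠ a → R b ≤ R i) :
    ((R a : ℝ) * R b) ^ ((1 : ℝ) / 2) ≤ ((∏ i, R i : ℕ) : ℝ) ^ ((1 : ℝ) / q) := by
  obtain ⟨x, hx⟩ : ∃ x : ℝ, x = R a := ⟨_, rfl⟩
  obtain ⟨y, hy⟩ : ∃ y : ℝ, y = R b := ⟨_, rfl⟩
  rw [← hx, ← hy]
  have hx0 : 0 ≤ x := by rw [hx]; positivity
  have hy0 : 0 ≤ y := by rw [hy]; positivity
  have hxy : x ≤ y := by rw [hx, hy]; exact_mod_cast h1
  have hP : x * y ^ (q - 1) ≤ ((∏ i, R i : ℕ) : ℝ) := by
    rw [hx, hy]
    exact_mod_cast prod_ge a b hab h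
  have hP0 : (0 : ℝ) ≤ ((∏ i, R i : ℕ) : ℝ) := Nat.cast_nonneg _
  rw [← Real.sqrt_eq_rpow]
  apply rpow_le_root (by omega) (Real.sqrt_nonneg _)
  have e1 : (Real.sqrt (x * y) ^ q) ^ 2 ≤ (x * y ^ (q - 1)) ^ 2 := by
    rw [← pow_mul, mul_comm q 2, pow_mul, Real.sq_sqrt (by positivity), mul_pow, mul_pow,
      ← pow_mul]
    obtain ⟨p, rfl⟩ : ∃ p, q = p + 2 := ⟨q - 2, by omega⟩
    have e2 : x ^ p ≤ y ^ p := pow_le_pow_left₀ hx0 hxy p
    calc x ^ (p + 2) * y ^ (p + 2) = x ^ 2 * (x ^ p * y ^ (p + 2)) := by ring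
      _ ≤ x ^ 2 * (y ^ p * y ^ (p + 2)) := by
          apply mul_le_mul_of_nonneg_left _ (by positivity)
          exact mul_le_mul_of_nonneg_right e2 (by positivity)
      _ = x ^ 2 * y ^ ((p + 2 - 1) * 2) := by
          rw [← pow_add]
          congr 2
          omega
  exact (le_of_sq_le_sq e1 (by positivity)).trans hP

/-- the bound for two consecutive levels -/
theorem sys_class (hq : 3 ≤ q) (ε : ℝ) (hε : 0 < ε) (l l' : Lev) (hl : l.Adm) (h : Step ε l l')
    (A : ℕ) : ∃ C : ℝ, 0 < C ∧ ∀ X : ℕ, 2 ≤ X → ∀ (R : Fin q → ℕ) (m : α → Fin q → ℕ)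
    (T : Finset α), Sys A X R m T → (∀ i, 1 ≤ R i) →
    (∀ t ∈ T, ∀ i, ¬ l.Flex X (m t i) ∨ l'.Flex X (m t i)) → ∀ CD : ℝ, 0 ≤ CD →
    (∀ T' ⊆ T, (∀ t ∈ T', ∀ i, ¬ l.Flex X (m t i)) → (T'.card : ℝ) ≤ CD * (X : ℝ) ^ ε) →
    (T.card : ℝ) ≤ C * (1 + CD) * (X : ℝ) ^ (3 * ε) * ((∏ i, R i : ℕ) : ℝ) ^ ((1 : ℝ) / q) := by
  classical
  obtain ⟨CA, hCA, hA⟩ := sysA (α := α) (q := q) ε hε l l' h A
  obtain ⟨CB, hCB, hB⟩ := sysB (α := α) (q := q) ε hε l l' hl h A
  obtain ⟨CC, hCC, hC⟩ := sysC (α := α) (q := q) ε l l' hl h A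
  obtain ⟨C, hCdef⟩ : ∃ C : ℝ, C = CA + CB + CC + 1 := ⟨_, rfl⟩
  have hC0 : 0 < C := by rw [hCdef]; positivity
  refine ⟨(Fintype.card (Fin q → Bool) : ℝ) * C, by
    have : 0 < Fintype.card (Fin q → Bool) := Fintype.card_pos
    positivity, ?_⟩
  intro X hX R m T hT hR1 hcl CD hCD hD
  have hX0 : (0 : ℝ) < X := by exact_mod_cast (by omega : 0 < X)
  have hX1 : (1 : ℝ) < X := by exact_mod_cast (by omega : 1 < X)
  obtain ⟨W, hW⟩ : ∃ W : ℝ, W = ((∏ i, R i : ℕ) : ℝ) ^ ((1 : ℝ) / q) := ⟨_, rfl⟩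
  have hprod1 : 1 ≤ ∏ i, R i := Finset.one_le_prod' fun i _ => hR1 i
  have hW1 : 1 ≤ W := by
    rw [hW]
    exact Real.one_le_rpow (by exact_mod_cast hprod1) (by positivity)
  rw [← hW]
  obtain ⟨b, hb⟩ : ∃ b : ℝ, b = (X : ℝ) ^ (3 * ε) * W := ⟨_, rfl⟩
  have hX2 : (X : ℝ) ^ (2 * ε) ≤ (X : ℝ) ^ (3 * ε) :=
    Real.rpow_le_rpow_of_exponent_le hX1.le (by linarith)
  have hXe : (X : ℝ) ^ ε ≤ (X : ℝ) ^ (3 * ε) :=
    Real.rpow_le_rpow_of_exponent_le hX1.le (by linarith)
  have hX3 : 0 < (X : ℝ) ^ (3 * ε) := by positivity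
  have hb2 : (X : ℝ) ^ (2 * ε) ≤ b := by
    rw [hb]
    exact hX2.trans (le_mul_of_one_le_right hX3.le hW1)
  have hb1 : (X : ℝ) ^ ε ≤ b := by
    rw [hb]
    exact hXe.trans (le_mul_of_one_le_right hX3.le hW1)
  have hb0 : 0 ≤ b := by rw [hb]; positivity
  have hC1 : ∀ c : ℝ, 0 ≤ c → c ≤ C → c * b ≤ C * (1 + CD) * b := by
    intro c hc hcC
    apply mul_le_mul_of_nonneg_right _ hb0
    nlinarith
  have h1 := card_le_real T (fun t => (fun i => decide (l'.Flex X (m t i)) : Fin q → Bool))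
    Finset.univ (C * (1 + CD) * b) (fun t _ => mem_univ _) (by
      intro s _
      obtain ⟨T', hT'⟩ : ∃ T', T' = T.filter fun t =>
        (fun i => decide (l'.Flex X (m t i)) : Fin q → Bool) = s := ⟨_, rfl⟩
      rw [← hT']
      have hsub : T' ⊆ T := by rw [hT']; exact filter_subset _ _
      have hTT := hT.mono hsub
      have hpat : ∀ t ∈ T', ∀ i, decide (l'.Flex X (m t i)) = s i := by
        intro t ht i
        rw [hT'] at ht
        exact congrFun (mem_filter.mp ht).2 i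
      have htrue : ∀ i, s i = true → ∀ t ∈ T', l'.Flex X (m t i) := by
        intro i hi t ht
        have := hpat t ht i
        rw [hi] at this
        exact of_decide_eq_true this
      have hfalse : ∀ i, s i = false → ∀ t ∈ T', ¬ l.Flex X (m t i) := by
        intro i hi t ht
        have := hpat t ht i
        rw [hi] at this
        have h2 := of_decide_eq_false this
        rcases hcl t (hsub ht) i with h3 | h3
        · exact h3
        · exact absurd h3 h2
      have useA : ∀ i a b' : Fin q, i ≠ a → a ≠ b' → i ≠ b' → s i = true → R a ≤ R b' →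
          (∀ i, i ≠ a → R b' ≤ R i) → (T'.card : ℝ) ≤ C * (1 + CD) * b := by
        intro i a b' hia hab hib hi hRab hRb
        have e1 := hA X hX R m T' hTT i a b' hia hab hib (htrue i hi)
        have e2 := root_two (by omega) a b' hab hRab hRb
        rw [← hW] at e2
        calc (T'.card : ℝ) ≤ CA * (X : ℝ) ^ (2 * ε) * ((R a : ℝ) * R b') ^ ((1 : ℝ) / 2) := e1
          _ ≤ CA * (X : ℝ) ^ (3 * ε) * W := by gcongr
          _ = CA * b := by rw [hb]; ring
          _ ≤ _ := hC1 CA hCA.le (by rw [hCdef]; linarith)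
      by_cases h2 : ∃ j k, j ≠ k ∧ s j = false ∧ s k = false
      · obtain ⟨j, k, hjk, hj, hk⟩ := h2
        by_cases h3 : ∃ i, s i = true
        · obtain ⟨i, hi⟩ := h3
          have hij : i ≠ j := by rintro rfl; rw [hi] at hj; exact absurd hj (by decide)
          have hik : i ≠ k := by rintro rfl; rw [hi] at hk; exact absurd hk (by decide)
          have e1 := hC X hX R m T' hTT i j k hij hjk hik (htrue i hi) (hfalse j hj) (hfalse k hk)
          calc (T'.card : ℝ) ≤ CC * (X : ℝ) ^ (2 * ε) := e1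
            _ ≤ CC * b := mul_le_mul_of_nonneg_left hb2 hCC.le
            _ ≤ _ := hC1 CC hCC.le (by rw [hCdef]; linarith)
        · push Not at h3
          have hall : ∀ i, s i = false := fun i => by
            have := h3 i
            simpa using this
          have e1 := hD T' hsub (fun t ht i => hfalse i (hall i) t ht)
          calc (T'.card : ℝ) ≤ CD * (X : ℝ) ^ ε := e1
            _ ≤ CD * b := mul_le_mul_of_nonneg_left hb1 hCD
            _ ≤ C * (1 + CD) * b := by
                apply mul_le_mul_of_nonneg_right _ hb0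
                have : 1 ≤ C := by rw [hCdef]; linarith
                nlinarith
      · push Not at h2
        by_cases h4 : ∃ k, s k = false
        · obtain ⟨k, hk⟩ := h4
          have hne : (univ.erase k : Finset (Fin q)).Nonempty := by
            obtain ⟨i, hi, -⟩ := exists_third hq k k
            exact ⟨i, mem_erase.mpr ⟨hi, mem_univ _⟩⟩
          obtain ⟨j, hj, hmin⟩ := exists_min_image (univ.erase k) R hne
          have hjk : j ≠ k := ne_of_mem_erase hj
          obtain ⟨i, hij, hik⟩ := exists_third hq j k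
          have htr : ∀ i, i ≠ k → s i = true := by
            intro i hi
            have := h2 i k hi
            cases hsi : s i with
            | true => rfl
            | false => exact absurd hk (this hsi)
          rcases le_or_gt (R j) (R k) with hle | hlt
          · have e1 := hB X hX R m T' hTT i j k hij hjk hik (htrue i (htr i hik)) (hfalse k hk)
            have e2 := root_min (by omega) j (fun i => by
              by_cases hi : i = k
              · rw [hi]; exact hle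
              · exact hmin i (mem_erase.mpr ⟨hi, mem_univ _⟩))
            rw [← hW] at e2
            calc (T'.card : ℝ) ≤ CB * (X : ℝ) ^ (3 * ε) * (R j : ℝ) := e1
              _ ≤ CB * (X : ℝ) ^ (3 * ε) * W := mul_le_mul_of_nonneg_left e2 (by positivity)
              _ = CB * b := by rw [hb]; ring
              _ ≤ _ := hC1 CB hCB.le (by rw [hCdef]; linarith)
          · exact useA i k j hik hjk.symm hij (htr i hik) hlt.le (fun i' hi' =>
              hmin i' (mem_erase.mpr ⟨hi', mem_univ _⟩))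
        · push Not at h4
          have htr : ∀ i, s i = true := fun i => by
            have := h4 i
            simpa using this
          obtain ⟨a, -, hmina⟩ := exists_min_image (univ : Finset (Fin q)) R ⟨⟨0, by omega⟩, mem_univ _⟩
          have hne : (univ.erase a : Finset (Fin q)).Nonempty := by
            obtain ⟨i, hi, -⟩ := exists_third hq a a
            exact ⟨i, mem_erase.mpr ⟨hi, mem_univ _⟩⟩
          obtain ⟨b', hb', hminb⟩ := exists_min_image (univ.erase a) R hne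
          have hba : b' ≠ a := ne_of_mem_erase hb'
          obtain ⟨i, hia, hib⟩ := exists_third hq a b'
          exact useA i a b' hia hba.symm hib (htr i) (hmina b' (mem_univ _)) (fun i' hi' =>
            hminb i' (mem_erase.mpr ⟨hi', mem_univ _⟩)))
  rw [card_univ] at h1
  calc (T.card : ℝ) ≤ _ := h1
    _ = _ := by rw [hb]; ring

/-- one of `q + 1` levels is good for all `q` members -/
theorem good_level' {ε : ℝ} {lev : ℕ → Lev} (h : ∀ i, (lev i).Adm ∧ Step ε (lev i) (lev (i + 1)))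
    {X : ℕ} (hX : 1 ≤ X) (n : Fin q → ℕ) :
    ∃ j : Fin (q + 1), ∀ i, ¬ (lev j).Flex X (n i) ∨ (lev (j + 1)).Flex X (n i) := by
  classical
  by_contra hcon
  push Not at hcon
  choose i hi using hcon
  have hanti : ∀ k, Antitone fun j : ℕ => (lev j).Flex X (n k) := by
    intro k
    apply antitone_nat_of_succ_le
    intro j hj
    exact (h j).2.mono hX hj
  obtain ⟨j, j', hne, heq⟩ := Fintype.exists_ne_map_eq_of_card_lt i (by simp)
  have key : ∀ j j' : Fin (q + 1), i j = i j' → j < j' → False := by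
    intro j j' heq hlt
    have h1 := (hi j').1
    rw [← heq] at h1
    have h2 : (j : ℕ) + 1 ≤ (j' : ℕ) := hlt
    exact (hi j).2 (hanti (i j) h2 h1)
  rcases lt_or_gt_of_ne hne with h1 | h1
  · exact key j j' heq h1
  · exact key j' j heq.symm h1

/-- **bound for a cell** -/
theorem sys_cell (hq : 3 ≤ q) (ε : ℝ) (hε : 0 < ε) : ∃ lev : Fin (q + 1) → Lev,
    (∀ j, (lev j).Adm) ∧ ∀ A : ℕ, ∃ C : ℝ, 0 < C ∧ ∀ X : ℕ, 2 ≤ X → ∀ (R : Fin q → ℕ)
    (m : α → Fin q → ℕ) (T : Finset α), Sys A X R m T → (∀ i, 1 ≤ R i) → ∀ CD : ℝ, 0 ≤ CD →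
    (∀ j, ∀ T' ⊆ T, (∀ t ∈ T', ∀ i, ¬ (lev j).Flex X (m t i)) →
      (T'.card : ℝ) ≤ CD * (X : ℝ) ^ (ε / 3)) →
    (T.card : ℝ) ≤ C * (1 + CD) * (X : ℝ) ^ ε * ((∏ i, R i : ℕ) : ℝ) ^ ((1 : ℝ) / q) := by
  classical
  obtain ⟨lev, hlev⟩ := exists_levels (ε / 3) (by positivity)
  refine ⟨fun j => lev j, fun j => (hlev j).1, ?_⟩
  intro A
  have hcb := fun j : Fin (q + 1) => sys_class (α := α) hq (ε / 3) (by positivity) (lev j)
    (lev (j + 1)) (hlev j).1 (hlev j).2 A
  choose C hC hbd using hcb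
  have hC4 : 0 < ∑ j, C j := by
    apply Finset.sum_pos (fun j _ => hC j)
    exact ⟨0, mem_univ _⟩
  refine ⟨(q + 1) * ∑ j, C j, by positivity, ?_⟩
  intro X hX R m T hT hR1 CD hCD hD
  have hX1 : 1 ≤ X := by omega
  choose g hg using fun t : α => good_level' hlev hX1 (m t)
  obtain ⟨b, hb⟩ : ∃ b : ℝ, b = (1 + CD) * (X : ℝ) ^ ε *
    ((∏ i, R i : ℕ) : ℝ) ^ ((1 : ℝ) / q) := ⟨_, rfl⟩
  have hb0 : 0 ≤ b := by rw [hb]; positivity
  have h1 := card_le_real T g Finset.univ ((∑ j, C j) * b) (fun t _ => mem_univ _) (by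
    intro j _
    obtain ⟨T', hT'⟩ : ∃ T', T' = T.filter fun t => g t = j := ⟨_, rfl⟩
    rw [← hT']
    have hsub : T' ⊆ T := by rw [hT']; exact filter_subset _ _
    have e1 := hbd j X hX R m T' (hT.mono hsub) hR1 
      (fun t ht i => by
        have e2 : g t = j := by
          rw [hT'] at ht
          exact (mem_filter.mp ht).2
        have e3 := hg t i
        rw [e2] at e3
        exact e3) CD hCD (fun T'' hT'' => hD j T'' (hT''.trans hsub))
    calc (T'.card : ℝ) ≤ _ := e1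
      _ = C j * b := by rw [hb, show 3 * (ε / 3) = ε by ring]; ring
      _ ≤ (∑ j, C j) * b := by
          apply mul_le_mul_of_nonneg_right _ hb0
          exact Finset.single_le_sum (f := C) (fun i _ => (hC i).le) (mem_univ j))
  rw [card_univ, Fintype.card_fin] at h1
  calc (T.card : ℝ) ≤ _ := h1
    _ = _ := by rw [hb]; push_cast; ring

end Pool.Agent.Helper205_Exc
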