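import Pool.Agent.Helper205_Exc.FormsFin
import Pool.Agent.Y680.T.Exc

/-!
Elliptic curves in a family with rational bad fibres whose discriminant is large compared to the
conductor.
-/

set_option autoImplicit false

namespace Pool.Agent.Helper205_Exc

open Finset Pool.Agent.Results.MP_4d5ce1_nt.AllHeightsSharp Pool.Agent.Y680.T Pool.Agent.TH867.QF

variable {q : ℕ} {P : WeierstrassCurve ℤ → Prop}

/-- `N ≤ X`, `N ^ κ ≤ |Δ| ≤ X ^ A` -/
def Lge (P : WeierstrassCurve ℤ → Prop) (κ A X : ℝ) : Set (ℤ × ℤ) :=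
  {g | ∃ W, P W ∧ (rd W : ℝ) ≤ X ∧ (rd W : ℝ) ^ κ ≤ |(W.Δ : ℝ)| ∧ |(W.Δ : ℝ)| ≤ X ^ A ∧ inv W = g}

theorem fin_ht' (N : ℕ) : {x : ℤ × ℤ | ht x ≤ N}.Finite := by
  apply Set.Finite.subset (Finset.finite_toSet (Finset.Icc (-(N : ℤ)) N ×ˢ Finset.Icc (-(N : ℤ)) N))
  intro x hx
  have hx' : ht x ≤ N := hx
  have h1 : x.1.natAbs ≤ N := (le_max_left _ _).trans hx'
  have h2 : x.2.natAbs ≤ N := (le_max_right _ _).trans hx'
  rw [Finset.mem_coe, Finset.mem_product, Finset.mem_Icc, Finset.mem_Icc]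
  omega

theorem prod_le_N1 {α : Fin q → ℤ × ℤ}
    {hα : ∀ i j, i ≠ j → (α i).1 * (α j).2 ≠ (α j).1 * (α i).2} {S : Finset ℕ} {x : ℤ × ℤ} {X : ℝ}
    (hX : 0 < X) (h : N1 α S x ≤ Real.log X) :
    ((∏ i, ∏ p ∈ (va (FL α hα) x i).primeFactors \ S, p : ℕ) : ℝ) ≤ X := by
  have hva : ∀ i, va (FL α hα) x i = (x.1 * (α i).2 - x.2 * (α i).1).natAbs := by
    intro i
    unfold va
    congr 1
    unfold ev FL
    ring
  have hpos : 0 < ∏ i, ∏ p ∈ (va (FL α hα) x i).primeFactors \ S, p :=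
    prod_pos fun i _ => prod_pos fun p hp => (Nat.prime_of_mem_primeFactors (mem_sdiff.mp hp).1).pos
  have hlog : Real.log ((∏ i, ∏ p ∈ (va (FL α hα) x i).primeFactors \ S, p : ℕ) : ℝ) =
      N1 α S x := by
    unfold N1
    rw [Nat.cast_prod, Real.log_prod]
    · refine Finset.sum_congr rfl fun i _ => ?_
      rw [Nat.cast_prod, Real.log_prod, hva]
      intro p hp
      exact_mod_cast (Nat.prime_of_mem_primeFactors (mem_sdiff.mp hp).1).ne_zero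
    · intro i _
      have : 0 < ∏ p ∈ (va (FL α hα) x i).primeFactors \ S, p :=
        prod_pos fun p hp => (Nat.prime_of_mem_primeFactors (mem_sdiff.mp hp).1).pos
      exact_mod_cast this.ne'
  rw [← hlog] at h
  exact (Real.log_le_log_iff (by exact_mod_cast hpos) hX).mp h

/-- the discriminant and the height -/
theorem disc_le (F : Fam q P) {W : WeierstrassCurve ℤ} {x : ℤ × ℤ} {k : ℕ} (hk0 : 0 < k)
    (h : k * W.Δ.natAbs = ∏ i, (Lf (F.α i) x).natAbs ^ F.e i) :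
    W.Δ.natAbs ≤ (F.U * ht x) ^ (∑ i, F.e i) := by
  calc W.Δ.natAbs ≤ k * W.Δ.natAbs := Nat.le_mul_of_pos_left _ hk0
    _ = ∏ i, (Lf (F.α i) x).natAbs ^ F.e i := h
    _ ≤ ∏ i, (F.U * ht x) ^ F.e i :=
        prod_le_prod' fun i _ => Nat.pow_le_pow_left (F.Lf_le x i) _
    _ = (F.U * ht x) ^ (∑ i, F.e i) := prod_pow_eq_pow_sum _ _ _

theorem ht_le_disc (F : Fam q P) (hq : 3 ≤ q) {W : WeierstrassCurve ℤ} {x : ℤ × ℤ} {k : ℕ}
    (hkA : k ≤ F.A) (hl : ∀ i, Lf (F.α i) x ≠ 0)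
    (h : k * W.Δ.natAbs = ∏ i, (Lf (F.α i) x).natAbs ^ F.e i) :
    ht x ≤ U (FL F.α F.hα) * (F.A * W.Δ.natAbs) := by
  obtain ⟨a, ha⟩ : ∃ a : Fin q, a = ⟨0, by omega⟩ := ⟨_, rfl⟩
  obtain ⟨b, hb⟩ : ∃ b : Fin q, b = ⟨1, by omega⟩ := ⟨_, rfl⟩
  have hab : a ≠ b := by rw [ha, hb]; simp
  have hva : ∀ i, va (FL F.α F.hα) x i = (Lf (F.α i) x).natAbs := by
    intro i
    unfold va
    congr 1
    unfold ev FL Lf
    ring
  have hle : ∀ i, va (FL F.α F.hα) x i ≤ F.A * W.Δ.natAbs := by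
    intro i
    have h1 : ∀ j, 1 ≤ (Lf (F.α j) x).natAbs ^ F.e j := fun j =>
      Nat.one_le_pow _ _ (Int.natAbs_pos.2 (hl j))
    calc va (FL F.α F.hα) x i = (Lf (F.α i) x).natAbs := hva i
      _ ≤ (Lf (F.α i) x).natAbs ^ F.e i := Nat.le_self_pow (by have := F.he i; omega) _
      _ ≤ ∏ i, (Lf (F.α i) x).natAbs ^ F.e i :=
          single_le_prod' (f := fun i => (Lf (F.α i) x).natAbs ^ F.e i) (fun j _ => h1 j)
            (mem_univ i)
      _ = k * W.Δ.natAbs := h.symm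
      _ ≤ F.A * W.Δ.natAbs := Nat.mul_le_mul_right _ hkA
  exact (ht_le _ x hab).trans (Nat.mul_le_mul_left _ (max_le (hle a) (hle b)))

theorem fam_large (F : Fam q P) (hq : 3 ≤ q) {η : ℝ} (hη : 0 < η) : ∃ κ₀ : ℝ, 0 < κ₀ ∧
    ∀ A : ℝ, ∃ C : ℝ, 0 < C ∧ ∀ X : ℝ, 1 ≤ X → (Lge P κ₀ A X).Finite ∧
      ((Lge P κ₀ A X).ncard : ℝ) ≤ C * X ^ (1 / (q : ℝ) + η) := by
  classical
  obtain ⟨M, hmain⟩ := forms_main hq (FL F.α F.hα) F.S η hη
  obtain ⟨C2, hC2, hup⟩ := F.upper hq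
  have hq0 : (0 : ℝ) < q := by exact_mod_cast (by omega : 0 < q)
  obtain ⟨E, hE⟩ : ∃ E : ℕ, E = ∑ i, F.e i := ⟨_, rfl⟩
  have hE1 : 1 ≤ E := by
    rw [hE]
    calc 1 ≤ F.e ⟨0, by omega⟩ := F.he _
      _ ≤ _ := single_le_sum (f := F.e) (fun _ _ => Nat.zero_le _) (mem_univ _)
  have hE0 : (0 : ℝ) < E := by exact_mod_cast hE1
  refine ⟨2 * (E * (M + 1 : ℕ)), by positivity, ?_⟩
  intro A
  obtain ⟨G, hG⟩ : ∃ G : ℕ, G = U (FL F.α F.hα) * F.A := ⟨_, rfl⟩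
  obtain ⟨A', hA'⟩ : ∃ A' : ℕ, A' = ⌈A⌉₊ + G := ⟨_, rfl⟩
  obtain ⟨C1, hC1, hmain⟩ := hmain A'
  obtain ⟨B, hB⟩ : ∃ B : ℝ, B = 2 + F.U := ⟨_, rfl⟩
  have hU0 : (0 : ℝ) ≤ F.U := Nat.cast_nonneg _
  have hB2 : 2 ≤ B := by rw [hB]; linarith
  have hBU : (F.U : ℝ) ≤ B := by rw [hB]; linarith
  obtain ⟨hfinB, hcB⟩ := hup B (by linarith)
  refine ⟨C2 * B ^ (2 / (q : ℝ)) + C2 + F.K * C1, by positivity, ?_⟩
  intro X hX
  have hX0 : 0 < X := by linarith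
  have hVX : X ^ (1 / (q : ℝ)) ≤ X ^ (1 / (q : ℝ) + η) :=
    Real.rpow_le_rpow_of_exponent_le hX (by linarith)
  have hV1 : 1 ≤ X ^ (1 / (q : ℝ) + η) := Real.one_le_rpow hX (by positivity)
  obtain ⟨V, hV⟩ : ∃ V : ℝ, V = X ^ (1 / (q : ℝ) + η) := ⟨_, rfl⟩
  rw [← hV] at hVX hV1 ⊢
  have hK0 : (0 : ℝ) ≤ F.K := Nat.cast_nonneg _
  have hBp : (0 : ℝ) ≤ C2 * B ^ (2 / (q : ℝ)) := by positivity
  have hKC : (0 : ℝ) ≤ F.K * C1 := by positivity
  rcases lt_or_ge X B with hXB | hXB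
  · have hsub : Lge P (2 * (E * (M + 1 : ℕ))) A X ⊆ Cv P B := by
      rintro g ⟨W, hW, h1, -, -, h2⟩
      exact ⟨W, hW, h1.trans hXB.le, h2⟩
    refine ⟨hfinB.subset hsub, ?_⟩
    have h1 : ((Lge P (2 * (E * (M + 1 : ℕ))) A X).ncard : ℝ) ≤ (Cv P B).ncard := by
      exact_mod_cast Set.ncard_le_ncard hsub hfinB
    nlinarith
  have hX2 : 2 ≤ X := hB2.trans hXB
  obtain ⟨T, hT⟩ : ∃ T : Set (ℤ × ℤ), T = {x | Pt (FL F.α F.hα) x ∧ X ^ M ≤ (ht x : ℝ) ∧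
      (ht x : ℝ) ≤ X ^ A' ∧
      ((∏ i, ∏ p ∈ (va (FL F.α F.hα) x i).primeFactors \ F.S, p : ℕ) : ℝ) ≤ X} := ⟨_, rfl⟩
  have hTfin : T.Finite := by
    apply (fin_ht' ⌊X ^ A'⌋₊).subset
    intro x hx
    rw [hT] at hx
    exact Nat.le_floor hx.2.2.1
  have hTc : (T.ncard : ℝ) ≤ C1 * V := by
    rw [Set.ncard_eq_toFinset_card _ hTfin, hV]
    apply hmain X hX2
    intro x hx
    rw [Set.Finite.mem_toFinset, hT] at hx
    exact hx
  obtain ⟨hfin1, hc1⟩ := hup (X ^ (1 / 2 : ℝ)) (Real.one_le_rpow hX (by norm_num))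
  have hc1' : ((Cv P (X ^ (1 / 2 : ℝ))).ncard : ℝ) ≤ C2 * V := by
    refine hc1.trans (mul_le_mul_of_nonneg_left ?_ hC2.le)
    refine le_trans (le_of_eq ?_) hVX
    rw [← Real.rpow_mul hX0.le]
    congr 1
    ring
  obtain ⟨hf3, hc3⟩ := ncard_biUnion_le hTfin F.R F.K F.hK
    (Y := {g | ∃ x ∈ T, g ∈ F.R x}) (fun g hg => hg)
  have hcov : Lge P (2 * (E * (M + 1 : ℕ))) A X ⊆
      Cv P (X ^ (1 / 2 : ℝ)) ∪ {g | ∃ x ∈ T, g ∈ F.R x} := by
    rintro g ⟨W, hW, hWX, hbig, hsm, rfl⟩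
    by_cases hs : (rd W : ℝ) ≤ X ^ (1 / 2 : ℝ)
    · exact Or.inl ⟨W, hW, hs, rfl⟩
    · right
      push Not at hs
      obtain ⟨x, hn, hl, k, hk0, hkA, hk, hprod, hR⟩ := F.hx W hW
      have hN1 := F.N1_le hn hk (F.hP W hW) hprod
      have hrd : (0 : ℝ) < rd W := by exact_mod_cast rd_pos W
      have hlogX : Real.log (rd W) ≤ Real.log X := Real.log_le_log hrd hWX
      have hDn : |(W.Δ : ℝ)| = (W.Δ.natAbs : ℝ) := by
        rw [← Int.cast_abs, Int.abs_eq_natAbs]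
        simp
      refine ⟨x, ?_, hR⟩
      rw [hT]
      refine ⟨⟨hn.1, ?_⟩, ?_, ?_, prod_le_N1 hX0 (hN1.trans hlogX)⟩
      · intro i
        have : ev (FL F.α F.hα) x i = Lf (F.α i) x := by
          unfold ev FL Lf
          ring
        rw [this]
        exact hl i
      · -- the height is large
        have h1 : (W.Δ.natAbs : ℝ) ≤ ((F.U : ℝ) * ht x) ^ E := by
          rw [hE]
          exact_mod_cast disc_le F hk0 hprod
        have h2 : (X ^ (M + 1)) ^ E ≤ ((F.U : ℝ) * ht x) ^ E := by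
          refine le_trans ?_ h1
          rw [← hDn]
          refine le_trans ?_ hbig
          calc (X ^ (M + 1)) ^ E = (X ^ (1 / 2 : ℝ)) ^ ((2 : ℝ) * (E * (M + 1 : ℕ))) := by
                rw [← Real.rpow_mul hX0.le, ← pow_mul, ← Real.rpow_natCast]
                congr 1
                push_cast
                ring
            _ ≤ _ := Real.rpow_le_rpow (by positivity) hs.le (by positivity)
        have h3 : X ^ (M + 1) ≤ (F.U : ℝ) * ht x :=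
          le_of_pow_le_pow_left₀ (by omega) (by positivity) h2
        rw [pow_succ] at h3
        have h4 : X ^ M * X ≤ ht x * X := by
          refine h3.trans ?_
          rw [mul_comm]
          exact mul_le_mul_of_nonneg_left (hBU.trans hXB) (Nat.cast_nonneg _)
        exact le_of_mul_le_mul_right h4 hX0
      · have h1 : (ht x : ℝ) ≤ G * W.Δ.natAbs := by
          rw [hG]
          have := ht_le_disc F hq hkA hl hprod
          rw [← mul_assoc] at this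
          exact_mod_cast this
        have h2 : (G : ℝ) ≤ X ^ G := by
          calc (G : ℝ) ≤ 2 ^ G := by exact_mod_cast (Nat.lt_two_pow_self).le
            _ ≤ X ^ G := pow_le_pow_left₀ (by norm_num) hX2 G
        have h3 : (W.Δ.natAbs : ℝ) ≤ X ^ ⌈A⌉₊ := by
          rw [← hDn]
          refine hsm.trans ?_
          rw [← Real.rpow_natCast]
          exact Real.rpow_le_rpow_of_exponent_le hX (Nat.le_ceil A)
        calc (ht x : ℝ) ≤ G * W.Δ.natAbs := h1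
          _ ≤ X ^ G * X ^ ⌈A⌉₊ := mul_le_mul h2 h3 (Nat.cast_nonneg _) (by positivity)
          _ = X ^ A' := by rw [hA', ← pow_add, add_comm]
  refine ⟨(hfin1.union hf3).subset hcov, ?_⟩
  have h20 : (Lge P (2 * (E * (M + 1 : ℕ))) A X).ncard ≤ (Cv P (X ^ (1 / 2 : ℝ))).ncard +
      ({g | ∃ x ∈ T, g ∈ F.R x} : Set (ℤ × ℤ)).ncard :=
    (Set.ncard_le_ncard hcov (hfin1.union hf3)).trans (Set.ncard_union_le _ _)
  have h20' : ((Lge P (2 * (E * (M + 1 : ℕ))) A X).ncard : ℝ) ≤ (Cv P (X ^ (1 / 2 : ℝ))).ncard +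
      ({g | ∃ x ∈ T, g ∈ F.R x} : Set (ℤ × ℤ)).ncard := by exact_mod_cast h20
  have h21 : (F.K : ℝ) * T.ncard ≤ F.K * (C1 * V) := mul_le_mul_of_nonneg_left hTc hK0
  nlinarith

/-- naive height `≤ X ^ 6` and `c₀ N ^ κ < |Δ|` -/
def Exh (P : WeierstrassCurve ℤ → Prop) (κ c₀ : ℝ) (X : ℕ) : Set (ℤ × ℤ) :=
  {g | ∃ W, P W ∧ |W.c₄| ^ 3 ≤ (X : ℤ) ^ 6 ∧ W.c₆ ^ 2 ≤ (X : ℤ) ^ 6 ∧
    c₀ * (rd W : ℝ) ^ κ < |(W.Δ : ℝ)| ∧ inv W = g}

theorem disc_le_height {W : WeierstrassCurve ℤ} {X : ℕ} (h4 : |W.c₄| ^ 3 ≤ (X : ℤ) ^ 6)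
    (h6 : W.c₆ ^ 2 ≤ (X : ℤ) ^ 6) : |(W.Δ : ℝ)| ≤ (X : ℝ) ^ 6 := by
  have hrel := W.c_relation
  have h1 : |1728 * W.Δ| ≤ 2 * (X : ℤ) ^ 6 := by
    rw [hrel]
    calc |W.c₄ ^ 3 - W.c₆ ^ 2| ≤ |W.c₄ ^ 3| + |W.c₆ ^ 2| := abs_sub _ _
      _ = |W.c₄| ^ 3 + W.c₆ ^ 2 := by rw [abs_pow, abs_of_nonneg (sq_nonneg W.c₆)]
      _ ≤ _ := by linarith
  rw [abs_mul] at h1
  have h2 : (0 : ℤ) ≤ (X : ℤ) ^ 6 := by positivity
  have h3 : |W.Δ| ≤ (X : ℤ) ^ 6 := by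
    have : |(1728 : ℤ)| = 1728 := by norm_num
    rw [this] at h1
    have h5 : (0 : ℤ) ≤ |W.Δ| := abs_nonneg _
    linarith
  exact_mod_cast h3

theorem fam_both (F : Fam q P) (hq : 3 ≤ q) {η : ℝ} (hη : 0 < η) : ∃ κ₀ : ℝ, 0 < κ₀ ∧
    (∀ A : ℝ, ∃ C : ℝ, 0 < C ∧ ∀ X : ℝ, 1 ≤ X → (Lge P κ₀ A X).Finite ∧
      ((Lge P κ₀ A X).ncard : ℝ) ≤ C * X ^ (1 / (q : ℝ) + η)) ∧
    ∀ κ c₀ : ℝ, κ₀ ≤ κ → 0 < c₀ → ∃ C : ℝ, 0 < C ∧ ∀ X : ℕ, 1 ≤ X → (Exh P κ c₀ X).Finite ∧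
      ((Exh P κ c₀ X).ncard : ℝ) ≤ C * (X : ℝ) ^ ((6 / (q : ℝ) + η) / κ) := by
  classical
  have hq0 : (0 : ℝ) < q := by exact_mod_cast (by omega : 0 < q)
  obtain ⟨κ₁, hκ₁, h1⟩ := fam_large F hq (η := η / 6) (by positivity)
  obtain ⟨C2, hC2, hup⟩ := F.upper hq
  refine ⟨2 * κ₁, by positivity, ?_, ?_⟩
  · intro A
    obtain ⟨C, hC, h⟩ := h1 A
    refine ⟨C, hC, fun X hX => ?_⟩
    obtain ⟨hf, hc⟩ := h X hX
    have hsub : Lge P (2 * κ₁) A X ⊆ Lge P κ₁ A X := by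
      rintro g ⟨W, hW, hWX, hbig, hsm, hg⟩
      refine ⟨W, hW, hWX, le_trans ?_ hbig, hsm, hg⟩
      apply Real.rpow_le_rpow_of_exponent_le
      · exact_mod_cast rd_pos W
      · linarith
    refine ⟨hf.subset hsub, ?_⟩
    have h2 : ((Lge P (2 * κ₁) A X).ncard : ℝ) ≤ (Lge P κ₁ A X).ncard := by
      exact_mod_cast Set.ncard_le_ncard hsub hf
    refine h2.trans (hc.trans (mul_le_mul_of_nonneg_left ?_ hC.le))
    exact Real.rpow_le_rpow_of_exponent_le hX (by linarith)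
  · intro κ c₀ hκ hc₀
    have hκ0 : 0 < κ := by linarith
    obtain ⟨C, hC, h⟩ := h1 κ
    obtain ⟨N0, hN0⟩ : ∃ N0 : ℝ, N0 = max 1 ((1 / c₀) ^ (2 / κ)) := ⟨_, rfl⟩
    have hN01 : 1 ≤ N0 := by rw [hN0]; exact le_max_left _ _
    obtain ⟨C', hC'⟩ : ∃ C' : ℝ, C' = max 1 ((1 / c₀) ^ (1 / κ)) := ⟨_, rfl⟩
    have hC'1 : 1 ≤ C' := by rw [hC']; exact le_max_left _ _
    have hC'2 : (1 / c₀) ^ (1 / κ) ≤ C' := by rw [hC']; exact le_max_right _ _
    obtain ⟨hfin0, hc0⟩ := hup N0 hN01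
    refine ⟨C2 * N0 ^ (2 / (q : ℝ)) + C * C' ^ (1 / (q : ℝ) + η / 6), by positivity, ?_⟩
    intro X hX
    have hXr : (1 : ℝ) ≤ X := by exact_mod_cast hX
    have hX0 : (0 : ℝ) < X := by linarith
    obtain ⟨Y, hY⟩ : ∃ Y : ℝ, Y = C' * (X : ℝ) ^ (6 / κ) := ⟨_, rfl⟩
    have hXk : 1 ≤ (X : ℝ) ^ (6 / κ) := Real.one_le_rpow hXr (by positivity)
    have hYX : (X : ℝ) ^ (6 / κ) ≤ Y := by
      rw [hY]
      exact le_mul_of_one_le_left (by positivity) hC'1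
    have hY1 : 1 ≤ Y := hXk.trans hYX
    obtain ⟨hf, hc⟩ := h Y hY1
    have hcov : Exh P κ c₀ X ⊆ Cv P N0 ∪ Lge P κ₁ κ Y := by
      rintro g ⟨W, hW, h4, h6, hbig, hg⟩
      by_cases hs : (rd W : ℝ) ≤ N0
      · exact Or.inl ⟨W, hW, hs, hg⟩
      · right
        push Not at hs
        have hrd1 : (1 : ℝ) ≤ rd W := by exact_mod_cast rd_pos W
        have hrd : (0 : ℝ) < rd W := by linarith
        have hD := disc_le_height h4 h6
        refine ⟨W, hW, ?_, ?_, ?_, hg⟩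
        · -- the conductor
          have e1 : (rd W : ℝ) ^ κ ≤ 1 / c₀ * (X : ℝ) ^ 6 := by
            rw [one_div, ← div_eq_inv_mul, le_div_iff₀ hc₀]
            linarith
          calc (rd W : ℝ) = ((rd W : ℝ) ^ κ) ^ (1 / κ) := by
                rw [← Real.rpow_mul hrd.le, mul_one_div_cancel hκ0.ne', Real.rpow_one]
            _ ≤ (1 / c₀ * (X : ℝ) ^ 6) ^ (1 / κ) :=
                Real.rpow_le_rpow (by positivity) e1 (by positivity)
            _ = (1 / c₀) ^ (1 / κ) * (X : ℝ) ^ (6 / κ) := by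
                rw [Real.mul_rpow (by positivity) (by positivity), ← Real.rpow_natCast,
                  ← Real.rpow_mul hX0.le]
                congr 2
                push_cast
                ring
            _ ≤ Y := by
                rw [hY]
                exact mul_le_mul_of_nonneg_right hC'2 (by positivity)
        · -- the ratio
          have e1 : 1 ≤ c₀ * (rd W : ℝ) ^ (κ / 2) := by
            have e2 : (1 / c₀) ^ (2 / κ) ≤ rd W := by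
              refine le_trans ?_ hs.le
              rw [hN0]
              exact le_max_right _ _
            have e3 : 1 / c₀ ≤ (rd W : ℝ) ^ (κ / 2) := by
              calc 1 / c₀ = ((1 / c₀) ^ (2 / κ)) ^ (κ / 2) := by
                    rw [← Real.rpow_mul (by positivity)]
                    have : 2 / κ * (κ / 2) = 1 := by field_simp
                    rw [this, Real.rpow_one]
                _ ≤ _ := Real.rpow_le_rpow (by positivity) e2 (by positivity)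
            rw [div_le_iff₀ hc₀] at e3
            linarith
          have e4 : (rd W : ℝ) ^ κ = (rd W : ℝ) ^ (κ / 2) * (rd W : ℝ) ^ (κ / 2) := by
            rw [← Real.rpow_add hrd]
            congr 1
            ring
          have e5 : (rd W : ℝ) ^ κ₁ ≤ (rd W : ℝ) ^ (κ / 2) :=
            Real.rpow_le_rpow_of_exponent_le hrd1 (by linarith)
          have e6 : (0 : ℝ) ≤ (rd W : ℝ) ^ (κ / 2) := by positivity
          rw [e4] at hbig
          nlinarith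
        · refine hD.trans ?_
          calc (X : ℝ) ^ 6 = ((X : ℝ) ^ (6 / κ)) ^ κ := by
                rw [← Real.rpow_mul hX0.le, div_mul_cancel₀ _ hκ0.ne']
                norm_cast
            _ ≤ Y ^ κ := Real.rpow_le_rpow (by positivity) hYX hκ0.le
    refine ⟨(hfin0.union hf).subset hcov, ?_⟩
    have h20 : (Exh P κ c₀ X).ncard ≤ (Cv P N0).ncard + (Lge P κ₁ κ Y).ncard :=
      (Set.ncard_le_ncard hcov (hfin0.union hf)).trans (Set.ncard_union_le _ _)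
    have h20' : ((Exh P κ c₀ X).ncard : ℝ) ≤ (Cv P N0).ncard + (Lge P κ₁ κ Y).ncard := by
      exact_mod_cast h20
    have hV : Y ^ (1 / (q : ℝ) + η / 6) =
        C' ^ (1 / (q : ℝ) + η / 6) * (X : ℝ) ^ ((6 / (q : ℝ) + η) / κ) := by
      rw [hY, Real.mul_rpow (by linarith) (by positivity), ← Real.rpow_mul hX0.le]
      congr 2
      field_simp
    rw [hV] at hc
    have hV1 : 1 ≤ (X : ℝ) ^ ((6 / (q : ℝ) + η) / κ) := Real.one_le_rpow hXr (by positivity)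
    have hN0p : (0 : ℝ) ≤ C2 * N0 ^ (2 / (q : ℝ)) := by positivity
    nlinarith

end Pool.Agent.Helper205_Exc
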