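import Pool.Agent.Helper205_Exc.DetTall
import Pool.Agent.Helper205_Exc.Cases

/-!
Two members which are products of powers of few integers, and a third member of small radical.
-/

set_option autoImplicit false

namespace Pool.Agent.Helper205_Exc

open Finset Pool.Agent.H785R2.ABC Pool.Agent.H705R2.ABC Pool.Agent.Y913.Nb

theorem exists_level (Bd m : ℝ) (hBd : 0 < Bd) (hm : 0 < m) : ∃ l : Lev, l.Adm ∧ 2 * Bd ≤ l.B ∧
    l.B / (2 * l.E) + l.δ ≤ m := by
  obtain ⟨E, hE⟩ : ∃ E : ℕ, E = max 1 ⌈2 * Bd / m⌉₊ := ⟨_, rfl⟩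
  have hE1 : 1 ≤ E := by rw [hE]; exact le_max_left _ _
  have hEr : (0 : ℝ) < E := by exact_mod_cast hE1
  have hBE : 2 * Bd / m ≤ E := by
    calc 2 * Bd / m ≤ (⌈2 * Bd / m⌉₊ : ℝ) := Nat.le_ceil _
      _ ≤ E := by
          rw [hE]
          exact_mod_cast le_max_right _ _
  refine ⟨⟨2 * Bd, E, m / 2⟩, ⟨by positivity, hE1, by positivity⟩, le_refl _, ?_⟩
  show 2 * Bd / (2 * E) + m / 2 ≤ m
  have e1 : 2 * Bd / (2 * E) ≤ m / 2 := by
    rw [div_le_div_iff₀ (by positivity) (by norm_num)]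
    rw [div_le_iff₀ hm] at hBE
    nlinarith
  linarith

/-- extraction of a power at a level -/
theorem Lev.extract {l : Lev} (hl : l.Adm) {X n : ℕ} (hX : 2 ≤ X) (hn : 1 ≤ n)
    (hf : l.Flex X n) : ∃ r : ℕ, r ^ l.E ∣ n ∧ 2 ≤ r ∧ (X : ℝ) ^ (l.B / 2) ≤ (r : ℝ) ^ l.E ∧
      (r : ℝ) ≤ (X : ℝ) ^ (l.B / (2 * l.E) + l.δ) := by
  obtain ⟨a1, a2, a3⟩ := hl
  have hX0 : (0 : ℝ) < X := by exact_mod_cast (by omega : 0 < X)
  have hX1 : (1 : ℝ) < X := by exact_mod_cast (by omega : 1 < X)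
  have hE0 : (0 : ℝ) < l.E := by exact_mod_cast a2
  obtain ⟨W, hW⟩ : ∃ W : ℝ, W = (X : ℝ) ^ (l.B / (2 * l.E)) := ⟨_, rfl⟩
  have hW1 : 1 < W := by
    rw [hW]
    exact Real.one_lt_rpow hX1 (by positivity)
  have hWE : W ^ (2 * l.E) = (X : ℝ) ^ l.B := by
    rw [hW, ← Real.rpow_natCast, ← Real.rpow_mul hX0.le]
    congr 1
    push_cast
    field_simp
  have hWE2 : W ^ l.E = (X : ℝ) ^ (l.B / 2) := by
    rw [hW, ← Real.rpow_natCast, ← Real.rpow_mul hX0.le]
    congr 1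
    field_simp
  obtain ⟨r, hr1, hr2, hr3⟩ := Pool.Agent.Helper205_Exc.extract (y := (X : ℝ) ^ l.δ) (W := W)
    (E := l.E) hn a2 (Real.one_le_rpow hX1.le a3.le) hW1.le (by rw [hWE]; exact hf)
  refine ⟨r, hr1, ?_, ?_, ?_⟩
  · have : (1 : ℝ) < r := lt_of_lt_of_le hW1 hr2
    exact_mod_cast this
  · rw [← hWE2]
    exact pow_le_pow_left₀ (by linarith) hr2 _
  · refine hr3.trans (le_of_eq ?_)
    rw [hW, ← Real.rpow_add hX0]

theorem mem_le (t : ℕ × ℕ) (i : Fin 3) : mem t i ≤ t.1 + t.2 := by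
  unfold mem
  fin_cases i <;> simp

/-- **two members which are products of powers of `n` integers `≤ X`, third member of radical `≤ X`** -/
theorem two_main (n : ℕ) (ε : ℝ) (hε : 0 < ε) : ∃ (M : ℕ) (η C : ℝ), 0 < η ∧ 0 < C ∧
    ∀ X : ℕ, 2 ≤ X → ∀ (T : Finset (ℕ × ℕ)) (i j k : Fin 3), i ≠ j → j ≠ k → i ≠ k →
    (∀ t ∈ T, Ok t ∧ rad (mem t i) ≤ X ∧ NB n (X : ℝ) (mem t j) ∧ NB n (X : ℝ) (mem t k) ∧
      ((t.1 + t.2 : ℕ) : ℝ) ≤ Real.exp ((X : ℝ) ^ η) ∧ X ^ M ≤ t.1 + t.2) →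
    (T.card : ℝ) ≤ C * (X : ℝ) ^ ε := by
  classical
  obtain ⟨Bd, η, C0, hBd, hη, hC0, hdet⟩ := det_tall n 1 (ε / 2) (by norm_num) (by positivity)
  obtain ⟨l, hl, hlB, hlm⟩ := exists_level Bd (min η (ε / 2)) hBd (lt_min hη (by positivity))
  obtain ⟨zz, hzz⟩ : ∃ zz : ℝ, zz = max 1 l.z := ⟨_, rfl⟩
  have hz1 : 1 ≤ zz := by rw [hzz]; exact le_max_left _ _
  have hz2 : l.z ≤ zz := by rw [hzz]; exact le_max_right _ _
  have hz0 : 0 < zz := by linarith
  obtain ⟨K, C2, hK, hC2, hcount⟩ := Pool.Agent.Y913.Zm.nt_count (max n l.n) (ε / zz)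
    (by positivity)
  refine ⟨⌈zz * K⌉₊, η, C0 + C2, hη, by positivity, ?_⟩
  intro X hX T i j k hij hjk hik hT
  have hX0 : (0 : ℝ) < X := by exact_mod_cast (by omega : 0 < X)
  have hX1 : (1 : ℝ) < X := by exact_mod_cast (by omega : 1 < X)
  obtain ⟨T1, hT1⟩ : ∃ T1, T1 = T.filter fun t => l.Flex X (mem t i) := ⟨_, rfl⟩
  obtain ⟨T2, hT2⟩ : ∃ T2, T2 = T.filter fun t => ¬ l.Flex X (mem t i) := ⟨_, rfl⟩
  have hcard : T.card = T1.card + T2.card := by
    rw [hT1, hT2, card_filter_add_card_filter_not]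
  -- the flexible part
  have h1 : (T1.card : ℝ) ≤ C0 * (X : ℝ) ^ ε := by
    have hsub : T1 ⊆ T := by rw [hT1]; exact filter_subset _ _
    have hex : ∀ t : ℕ × ℕ, ∃ r : ℕ, t ∈ T1 → r ^ l.E ∣ mem t i ∧ 2 ≤ r ∧
        (X : ℝ) ^ (l.B / 2) ≤ (r : ℝ) ^ l.E ∧ (r : ℝ) ≤ (X : ℝ) ^ (l.B / (2 * l.E) + l.δ) := by
      intro t
      by_cases ht : t ∈ T1
      · have ht' := ht
        rw [hT1, mem_filter] at ht'
        obtain ⟨r, hr⟩ := Lev.extract hl hX (mem_pos (hT t ht'.1).1 i) ht'.2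
        exact ⟨r, fun _ => hr⟩
      · exact ⟨0, fun h => absurd h ht⟩
    choose r hr using hex
    have hrε : ∀ t ∈ T1, (r t : ℝ) ≤ (X : ℝ) ^ (ε / 2) := fun t ht => (hr t ht).2.2.2.trans
      (Real.rpow_le_rpow_of_exponent_le hX1.le (hlm.trans (min_le_right _ _)))
    have h1 := card_le_real T1 r (Icc 1 ⌊(X : ℝ) ^ (ε / 2)⌋₊)
      (C0 * (X : ℝ) ^ (ε / 2)) (fun t ht => by
        rw [mem_Icc]
        exact ⟨by have := (hr t ht).2.1; omega, Nat.le_floor (hrε t ht)⟩) (by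
        intro s _
        obtain ⟨T', hT'⟩ : ∃ T', T' = T1.filter fun t => r t = s := ⟨_, rfl⟩
        rw [← hT']
        have hsub' : T' ⊆ T1 := by rw [hT']; exact filter_subset _ _
        rcases T'.eq_empty_or_nonempty with h0 | ⟨t0, ht0⟩
        · rw [h0, card_empty, Nat.cast_zero]
          positivity
        have hrs : ∀ t ∈ T', r t = s := fun t ht => by
          rw [hT'] at ht
          exact (mem_filter.mp ht).2
        have hr0 := hr t0 (hsub' ht0)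
        rw [hrs t0 ht0] at hr0
        obtain ⟨c1, c2, c3, c4⟩ := hr0
        have hEpos : l.E ≠ 0 := by
          have := hl.2.1
          omega
        rw [← image_card (T := T') hjk]
        apply hdet X (by omega) s l.E c2 (c4.trans (Real.rpow_le_rpow_of_exponent_le hX1.le
          (hlm.trans (min_le_left _ _)))) ((Real.rpow_le_rpow_of_exponent_le hX1.le
          (by linarith)).trans c3) (if i = 2 then (-1 : ZMod (s ^ l.E)) else 1) _ (sg_unit i)
        intro x hx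
        obtain ⟨t, ht, rfl⟩ := mem_image.mp hx
        obtain ⟨hok, hrad, hnj, hnk, hexp, hM⟩ := hT t (hsub (hsub' ht))
        have hd := (hr t (hsub' ht)).1
        rw [hrs t ht] at hd
        have hle : ∀ m : Fin 3, (mem t m : ℝ) ≤ Real.exp ((X : ℝ) ^ η) := fun m =>
          le_trans (by exact_mod_cast mem_le t m) hexp
        have hX1' : ((X : ℝ)) ^ (1 : ℝ) = X := Real.rpow_one _
        refine ⟨mem_pos hok j, hle j, mem_pos hok k, hle k, mem_coprime hok hjk,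
          ?_, ?_, ?_, ?_, mem_cong hij hjk hik hd⟩
        · exact Nat.Coprime.coprime_dvd_right ((dvd_pow_self s hEpos).trans hd)
            (mem_coprime hok hij.symm)
        · exact Nat.Coprime.coprime_dvd_right ((dvd_pow_self s hEpos).trans hd)
            (mem_coprime hok hik.symm)
        · rw [hX1']
          exact hnj
        · rw [hX1']
          exact hnk)
    calc (T1.card : ℝ) ≤ _ := h1
      _ ≤ (X : ℝ) ^ (ε / 2) * (C0 * (X : ℝ) ^ (ε / 2)) :=
          mul_le_mul_of_nonneg_right small_card (by positivity)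
      _ = _ := by
          rw [show (X : ℝ) ^ ε = (X : ℝ) ^ (ε / 2) * (X : ℝ) ^ (ε / 2) by
            rw [← Real.rpow_add hX0]
            congr 1
            ring]
          ring
  -- the other part
  have h2 : (T2.card : ℝ) ≤ C2 * (X : ℝ) ^ ε := by
    have hY1 : (1 : ℝ) ≤ (X : ℝ) ^ zz := Real.one_le_rpow hX1.le hz0.le
    have hXY : (X : ℝ) ≤ (X : ℝ) ^ zz := by
      calc (X : ℝ) = (X : ℝ) ^ (1 : ℝ) := (Real.rpow_one _).symm
        _ ≤ _ := Real.rpow_le_rpow_of_exponent_le hX1.le hz1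
    have h3 := hcount ((X : ℝ) ^ zz) hY1 T2 (by
      intro t ht
      rw [hT2, mem_filter] at ht
      obtain ⟨hok, hrad, hnj, hnk, hexp, hM⟩ := hT t ht.1
      have hni : NB (max n l.n) ((X : ℝ) ^ zz) (mem t i) :=
        ((Lev.nb hl hX (mem_pos hok i) hrad ht.2).mono_Y
          (Real.rpow_le_rpow_of_exponent_le hX1.le hz2)).mono_n hY1 (le_max_right _ _)
      have hnj' : NB (max n l.n) ((X : ℝ) ^ zz) (mem t j) :=
        (hnj.mono_Y hXY).mono_n hY1 (le_max_left _ _)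
      have hnk' : NB (max n l.n) ((X : ℝ) ^ zz) (mem t k) :=
        (hnk.mono_Y hXY).mono_n hY1 (le_max_left _ _)
      have hall : ∀ m : Fin 3, NB (max n l.n) ((X : ℝ) ^ zz) (mem t m) := by
        intro m
        have : m = i ∨ m = j ∨ m = k := by
          revert hij hjk hik
          fin_cases i <;> fin_cases j <;> fin_cases k <;> fin_cases m <;> simp
        rcases this with rfl | rfl | rfl
        · exact hni
        · exact hnj'
        · exact hnk'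
      obtain ⟨g1, g2, g3⟩ := hok
      refine ⟨g1, g2, g3, hall 0, hall 1, hall 2, ?_⟩
      calc ((X : ℝ) ^ zz) ^ K = (X : ℝ) ^ (zz * K) := by rw [Real.rpow_mul hX0.le]
        _ ≤ (X : ℝ) ^ ((⌈zz * K⌉₊ : ℕ) : ℝ) :=
            Real.rpow_le_rpow_of_exponent_le hX1.le (Nat.le_ceil _)
        _ = ((X ^ ⌈zz * K⌉₊ : ℕ) : ℝ) := by rw [Real.rpow_natCast]; push_cast; rfl
        _ ≤ ((t.1 + t.2 : ℕ) : ℝ) := by exact_mod_cast hM)
    refine h3.trans (le_of_eq ?_)
    rw [← Real.rpow_mul hX0.le]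
    congr 2
    field_simp
  rw [hcard]
  push_cast
  linarith

end Pool.Agent.Helper205_Exc
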